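import Pool.Agent.Lib.MP_4ddb19_al.Defs

/-!
# Wide subgroups: basic lemmas
-/

namespace Pool.Agent.MP_4ddb19_al

open Subgroup MulAction

section general

variable {X : Type*} [Group X] {Y : Type*} [Group Y]

lemma minIndex_le (Z : Subgroup X) (hZ : Z ≠ ⊤) : minIndex X ≤ Z.index :=
  Nat.sInf_le ⟨Z, hZ, rfl⟩

lemma exists_minIndex [Nontrivial X] : ∃ Z : Subgroup X, Z ≠ ⊤ ∧ Z.index = minIndex X := by
  have : {k : ℕ | ∃ Y : Subgroup X, Y ≠ ⊤ ∧ Y.index = k}.Nonempty := ⟨_, ⊥, bot_ne_top, rfl⟩
  exact Nat.sInf_mem this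

/-- A group has a minimal index at most that of each of its nontrivial quotients. -/
lemma minIndex_le_of_surjective [Nontrivial Y] (f : X →* Y) (hf : Function.Surjective f) :
    minIndex X ≤ minIndex Y := by
  obtain ⟨Z, hZ, hZi⟩ := exists_minIndex (X := Y)
  have h1 : Z.comap f ≠ ⊤ := by
    intro h
    apply hZ
    rw [eq_top_iff]
    intro y _
    obtain ⟨x, rfl⟩ := hf y
    have : x ∈ Z.comap f := by rw [h]; trivial
    exact this
  have h2 := minIndex_le _ h1
  rwa [Subgroup.index_comap_of_surjective Z hf, hZi] at h2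

/-- A subgroup fixing a point of a faithful set `Ω` has only nontrivial quotients `Q` with
`n(Q) < |Ω|`. -/
lemma key {Ω : Type*} [Finite X] [MulAction X Ω] [Finite Ω] [FaithfulSMul X Ω] (w : Ω)
    {Q : Type*} [Group Q] [Nontrivial Q] (m : ℕ) :
    ∀ K : Subgroup X, Nat.card K ≤ m → (∀ k ∈ K, k • w = w) → ∀ φ : K →* Q,
      Function.Surjective φ → minIndex Q + 1 ≤ Nat.card Ω := by
  induction m with
  | zero =>
    intro K hK
    have : 0 < Nat.card K := Nat.card_pos
    omega
  | succ m ih =>
    intro K hK hfix φ hφ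
    -- a point moved by `K`
    obtain ⟨k, hkK, v, hv⟩ : ∃ k ∈ K, ∃ v : Ω, k • v ≠ v := by
      by_contra hcon
      push Not at hcon
      have hK1 : ∀ k : K, k = 1 := by
        intro k
        apply Subtype.ext
        apply FaithfulSMul.eq_of_smul_eq_smul (α := Ω)
        intro v
        rw [hcon k k.2 v]
        simp
      obtain ⟨q, hq⟩ := exists_ne (1 : Q)
      obtain ⟨k, rfl⟩ := hφ q
      rw [hK1 k, map_one] at hq
      exact hq rfl
    set S : Subgroup K := stabilizer K v with hS
    have hSt : S ≠ ⊤ := by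
      intro h
      have : (⟨k, hkK⟩ : K) ∈ S := by rw [h]; trivial
      exact hv this
    by_cases hr : S.map φ = ⊤
    · -- replace `K` by the stabiliser
      have hcard : Nat.card (S.map K.subtype) < Nat.card K := by
        rw [Nat.card_congr (S.equivMapOfInjective K.subtype K.subtype_injective).toEquiv.symm]
        have h1 := S.card_mul_index
        have h2 : S.index ≠ 1 := by rwa [Ne, Subgroup.index_eq_one]
        have h3 : S.index ≠ 0 := Subgroup.index_ne_zero_of_finite
        have h4 : 0 < Nat.card S := Nat.card_pos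
        have h5 : 2 ≤ S.index := by omega
        nlinarith
      refine ih (S.map K.subtype) (by omega) ?_
        ((φ.comp S.subtype).comp (S.equivMapOfInjective K.subtype K.subtype_injective).symm.toMonoidHom) ?_
      · rintro x ⟨y, _, rfl⟩
        exact hfix _ y.2
      · intro q
        have : q ∈ S.map φ := by rw [hr]; trivial
        obtain ⟨y, hy, rfl⟩ := this
        refine ⟨S.equivMapOfInjective K.subtype K.subtype_injective ⟨y, hy⟩, ?_⟩
        simp
    · have h1 := minIndex_le _ hr
      have h2 : (S.map φ).index ∣ S.index := Subgroup.index_map_dvd S hφ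
      have h3 : S.index ≠ 0 := Subgroup.index_ne_zero_of_finite
      have h4 := Nat.le_of_dvd (Nat.pos_of_ne_zero h3) h2
      have h5 : S.index = (orbit K v).ncard := MulAction.index_stabilizer K v
      have h6 : orbit K v ⊆ {w}ᶜ := by
        rintro _ ⟨g, rfl⟩ hg
        have hg' : (g : X) • v = w := hg
        have : v = w := by
          have := hfix _ (K.inv_mem g.2)
          rw [← this, ← hg', inv_smul_smul]
        rw [this] at hv
        exact hv (hfix k hkK)
      have h7 : (orbit K v).ncard ≤ ({w}ᶜ : Set Ω).ncard := Set.ncard_le_ncard h6 (Set.toFinite _)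
      have h8 : ({w} : Set Ω).ncard + ({w}ᶜ : Set Ω).ncard = Nat.card Ω :=
        Set.ncard_add_ncard_compl _
      rw [Set.ncard_singleton] at h8
      omega

end general

end Pool.Agent.MP_4ddb19_al
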