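import Mathlib

/-!
# Wide subgroups: definitions

`minIndex X` is the smallest index of a proper subgroup of `X`, `InS X` says that `X` belongs to
the set S(G) of the problem (a proper nontrivial subgroup with `n(X) = n(G)`), and `IsWide A` says
that `A` is a maximal element of S(G).
-/

namespace Pool.Agent.MP_4ddb19_al

/-- `n(X)`: the smallest index of a proper subgroup of `X` (for a finite group with more than one
element). -/
noncomputable def minIndex (X : Type*) [Group X] : ℕ :=
  sInf {k : ℕ | ∃ Y : Subgroup X, Y ≠ ⊤ ∧ Y.index = k}

/-- The set S(G): proper subgroups `X` with `1 < |X|` and `n(X) = n(G)`. -/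
def InS {G : Type*} [Group G] (X : Subgroup G) : Prop :=
  X ≠ ⊥ ∧ X ≠ ⊤ ∧ minIndex X = minIndex G

/-- Wide subgroups: the maximal elements of S(G). -/
def IsWide {G : Type*} [Group G] (A : Subgroup G) : Prop :=
  Maximal InS A

end Pool.Agent.MP_4ddb19_al
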