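import Pool.Agent.Lib.MP_4ddb19_al.Main

/-!
# MP_4ddb19_al: the wide subgroups of `PSL_2(q)`, `q` even

`minIndex X` is `n(X)`, `InS A` says that `A` belongs to the set S(G) of the problem, and
`IsWide A` says that `A` is wide in `G` (file `Lib/MP_4ddb19_al/Defs.lean`).

The first part has two general facts for finite simple groups: two different wide subgroups
generate `G`, and the members of S(G) when `n(G)` is prime. The second part determines S(G) and
the wide subgroups of `G = PSL_2(q)` for every even `q ≥ 4`. The proof is elementary: `Bend`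
lists the properties of the action of `G` on the projective line which are used.
-/

namespace Pool.Agent.MP_4ddb19_al.Even

open Subgroup MulAction Pool.Agent.MP_4ddb19_al
open scoped MatrixGroups LinearAlgebra.Projectivization Pointwise

set_option linter.unusedSectionVars false

section general

variable {G : Type*} [Group G] [Finite G] [IsSimpleGroup G]

lemma exists_H : ∃ H : Subgroup G, H.index = minIndex G := by
  obtain ⟨Y, _, h⟩ := exists_minIndex (X := G)
  exact ⟨Y, h⟩

/-- Two different wide subgroups generate `G`. -/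
theorem sup_eq_top {A B : Subgroup G} (hA : IsWide A) (hB : IsWide B) (h : A ≠ B) :
    A ⊔ B = ⊤ := by
  obtain ⟨H, hH⟩ := exists_H (G := G)
  by_contra hne
  obtain ⟨M, hAM, hMB, hMn, _, hMi⟩ := exists_socle hA.1 H hH (A ⊔ B) le_sup_left
  have hM1 : M ≠ ⊥ := fun h => hA.1.1 (le_bot_iff.mp (h ▸ hAM))
  have hM2 : M ≠ ⊤ := fun h => hne (top_le_iff.mp (h ▸ hMB))
  have h1 : M ≤ A := hA.2 ⟨hM1, hM2, hMi⟩ hAM
  have h2 : M = A := le_antisymm h1 hAM
  have h3 : B ≤ M := le_of_normal hB.1 H hH (A ⊔ B) M le_sup_right hMB hMn hM1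
  rw [h2] at h3
  have h4 : A ≤ B := hB.2 hA.1 h3
  exact h (le_antisymm h4 h3)

lemma card_dvd_factorial (H : Subgroup G) (hH : H ≠ ⊤) : Nat.card G ∣ (H.index).factorial := by
  have := faithful_of_ne_top H hH
  have h1 : Nat.card G ∣ Nat.card (Equiv.Perm (G ⧸ H)) :=
    Subgroup.card_dvd_of_injective (MulAction.toPermHom G (G ⧸ H)) MulAction.toPerm_injective
  rwa [Nat.card_perm] at h1

/-- A subgroup of prime index is one of the smallest index. -/
lemma minIndex_eq (H : Subgroup G) (hp : H.index.Prime) : minIndex G = H.index := by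
  apply le_antisymm
  · refine Nat.sInf_le ⟨H, ?_, rfl⟩
    rintro rfl
    rw [Subgroup.index_top] at hp
    exact Nat.not_prime_one hp
  · obtain ⟨Y, hY, hYi⟩ := exists_minIndex (X := G)
    rw [← hYi]
    exact (hp.dvd_factorial).1 ((H.index_dvd_card).trans (card_dvd_factorial Y hY))

lemma fact_one (hp : (minIndex G).Prime) : (Nat.card G).factorization (minIndex G) = 1 := by
  obtain ⟨H, hH⟩ := exists_H (G := G)
  have h1 : minIndex G ∣ Nat.card G := hH ▸ H.index_dvd_card
  have h2 : ¬ (minIndex G) ^ 2 ∣ Nat.card G := by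
    intro h
    have h3 := h.trans (card_dvd_factorial H (ne_top_of_index H hH))
    rw [hH] at h3
    obtain ⟨m, hm⟩ : ∃ m, minIndex G = m + 1 := ⟨minIndex G - 1, by have := hp.pos; omega⟩
    rw [hm] at h3 hp
    rw [Nat.factorial_succ, pow_two] at h3
    have h4 := Nat.dvd_of_mul_dvd_mul_left (Nat.succ_pos m) h3
    have h5 := (hp.dvd_factorial).1 h4
    omega
  have h0 : Nat.card G ≠ 0 := Nat.card_pos.ne'
  have h3 : 1 ≤ (Nat.card G).factorization (minIndex G) :=
    (hp.pow_dvd_iff_le_factorization h0).1 (by simpa using h1)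
  have h4 : ¬ 2 ≤ (Nat.card G).factorization (minIndex G) := fun h =>
    h2 ((hp.pow_dvd_iff_le_factorization h0).2 h)
  omega

/-- Subgroups of prime order `n(G)` belong to S(G). -/
lemma inS_of_card (hp : (minIndex G).Prime) (hG : Nat.card G ≠ minIndex G) {A : Subgroup G}
    (hA : Nat.card A = minIndex G) : InS A := by
  have hA1 : A ≠ ⊥ := by
    rintro rfl
    rw [Subgroup.card_bot] at hA
    exact Nat.not_prime_one (hA ▸ hp)
  refine ⟨hA1, ?_, ?_⟩
  · rintro rfl
    exact hG (by rw [← hA, Subgroup.card_top])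
  · have : Nontrivial A := (Subgroup.nontrivial_iff_ne_bot A).mpr hA1
    obtain ⟨Y, hY, hYi⟩ := exists_minIndex (X := A)
    have hpA : Fact (Nat.card A).Prime := ⟨hA ▸ hp⟩
    rcases Y.eq_bot_or_eq_top_of_prime_card with h | h
    · rw [← hYi, h, Subgroup.index_bot, hA]
    · exact absurd h hY

lemma dvd_card {A : Subgroup G} (hA : InS A) : minIndex G ∣ Nat.card A := by
  obtain ⟨H, hH⟩ := exists_H (G := G)
  rw [← index_subgroupOf hA H hH A le_rfl]
  exact Subgroup.index_dvd_card _

/-- The other members of S(G) contain more than one and not all subgroups of order `n(G)`. -/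
theorem sylow_count (hp : (minIndex G).Prime) {A : Subgroup G} (hA : InS A)
    (hAp : Nat.card A ≠ minIndex G) :
    1 < Nat.card (Sylow (minIndex G) A) ∧
      Nat.card (Sylow (minIndex G) A) ≡ 1 [MOD minIndex G] ∧
      Nat.card (Sylow (minIndex G) A) < Nat.card (Sylow (minIndex G) G) ∧
      Nat.card (Sylow (minIndex G) A) ∣ Nat.card A := by
  obtain ⟨H, hH⟩ := exists_H (G := G)
  have hfp : Fact (minIndex G).Prime := ⟨hp⟩
  have hfG := fact_one hp
  have hcA : Nat.card A ∣ Nat.card G := Subgroup.card_subgroup_dvd_card A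
  have hfA : (Nat.card A).factorization (minIndex G) = 1 := by
    have h1 : 1 ≤ (Nat.card A).factorization (minIndex G) :=
      (hp.pow_dvd_iff_le_factorization Nat.card_pos.ne').1 (by simpa using dvd_card hA)
    have h2 := (Nat.factorization_le_iff_dvd Nat.card_pos.ne' Nat.card_pos.ne').2 hcA
      (minIndex G)
    omega
  have hcS : ∀ P : Sylow (minIndex G) A, Nat.card P = minIndex G := by
    intro P
    rw [P.card_eq_multiplicity, hfA, pow_one]
  have hsimp : IsSimpleGroup A := isSimple hA H hH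
  have P : Sylow (minIndex G) A := default
  have hdvd : Nat.card (Sylow (minIndex G) A) ∣ Nat.card A :=
    P.card_dvd_index.trans (Subgroup.index_dvd_card _)
  refine ⟨?_, card_sylow_modEq_one _ _, ?_, hdvd⟩
  · have hpos : 0 < Nat.card (Sylow (minIndex G) A) := Nat.card_pos
    by_contra hcon
    have h1 : Nat.card (Sylow (minIndex G) A) = 1 := by omega
    have hsub : Subsingleton (Sylow (minIndex G) A) :=
      (Nat.card_eq_one_iff_unique.1 h1).1
    have hn : (P : Subgroup A).Normal := P.normal_of_subsingleton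
    rcases hn.eq_bot_or_eq_top with h | h
    · have h2 := hcS P
      have h3 : Nat.card (P : Subgroup A) = minIndex G := h2
      rw [h, Subgroup.card_bot] at h3
      exact Nat.not_prime_one (h3 ▸ hp)
    · have h3 : Nat.card (P : Subgroup A) = minIndex G := hcS P
      rw [h, Subgroup.card_top] at h3
      exact hAp h3
  · by_contra hcon
    push Not at hcon
    have hcard : ∀ Q : Sylow (minIndex G) A,
        Nat.card ((Q : Subgroup A).map A.subtype) =
          (minIndex G) ^ (Nat.card G).factorization (minIndex G) := by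
      intro Q
      rw [Subgroup.card_subtype, hfG, pow_one]
      exact hcS Q
    let f : Sylow (minIndex G) A → Sylow (minIndex G) G := fun Q =>
      Sylow.ofCard ((Q : Subgroup A).map A.subtype) (hcard Q)
    have hf : Function.Injective f := by
      intro Q Q' h
      have h1 : (Q : Subgroup A).map A.subtype = (Q' : Subgroup A).map A.subtype :=
        congrArg (fun S : Sylow (minIndex G) G => (S : Subgroup G)) h
      exact Sylow.ext (Subgroup.map_injective A.subtype_injective h1)
    have hbij := hf.bijective_of_nat_card_le hcon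
    have hle : ∀ S : Sylow (minIndex G) G, (S : Subgroup G) ≤ A := by
      intro S
      obtain ⟨Q, rfl⟩ := hbij.2 S
      exact Subgroup.map_subtype_le (Q : Subgroup A)
    have S : Sylow (minIndex G) G := default
    have hS1 : (S : Subgroup G) ≠ ⊥ := by
      intro h
      have h3 : Nat.card (S : Subgroup G) = minIndex G := by
        have := S.card_eq_multiplicity
        rwa [hfG, pow_one] at this
      rw [h, Subgroup.card_bot] at h3
      exact Nat.not_prime_one (h3 ▸ hp)
    have hN : Subgroup.normalClosure ((S : Subgroup G) : Set G) ≤ A := by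
      rw [Subgroup.normalClosure, Subgroup.closure_le]
      intro x hx
      rw [Group.mem_conjugatesOfSet_iff] at hx
      obtain ⟨a, ha, hax⟩ := hx
      obtain ⟨c, rfl⟩ := isConj_iff.1 hax
      have h1 : MulAut.conj c • a ∈ MulAut.conj c • (S : Subgroup G) :=
        Subgroup.smul_mem_pointwise_smul a (MulAut.conj c) (S : Subgroup G) ha
      have h2 : ((c • S : Sylow (minIndex G) G) : Subgroup G) = MulAut.conj c • (S : Subgroup G) :=
        Sylow.coe_subgroup_smul
      rw [← h2] at h1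
      exact hle (c • S) h1
    have hNn : (Subgroup.normalClosure ((S : Subgroup G) : Set G)).Normal :=
      Subgroup.normalClosure_normal
    rcases hNn.eq_bot_or_eq_top with h | h
    · apply hS1
      rw [eq_bot_iff, ← h]
      exact Subgroup.le_normalClosure
    · exact hA.2.1 (top_le_iff.1 (h ▸ hN))

/-- The criterion. -/
theorem criterion (hp : (minIndex G).Prime) (hG : Nat.card G ≠ minIndex G)
    (hc : ∀ d : ℕ, d ∣ Nat.card G → d ≡ 1 [MOD minIndex G] → 1 < d →
      ¬ d < Nat.card (Sylow (minIndex G) G)) (A : Subgroup G) :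
    (InS A ↔ Nat.card A = minIndex G) ∧ (IsWide A ↔ Nat.card A = minIndex G) := by
  have h1 : ∀ A : Subgroup G, InS A ↔ Nat.card A = minIndex G := by
    intro A
    refine ⟨fun hA => ?_, inS_of_card hp hG⟩
    by_contra hne
    obtain ⟨h2, h3, h4, h5⟩ := sylow_count hp hA hne
    exact hc _ (h5.trans (Subgroup.card_subgroup_dvd_card A)) h3 h2 h4
  refine ⟨h1 A, fun hA => (h1 A).1 hA.1, fun hA => ⟨(h1 A).2 hA, fun B hB hAB => ?_⟩⟩
  have h2 : Nat.card B = Nat.card A := by rw [(h1 B).1 hB, hA]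
  exact (Subgroup.eq_of_le_of_card_ge hAB h2.le).ge

end general

/-! ## The groups `PSL_2(q)` with `q + 1` prime -/

section psl

variable {F : Type*} [Field F] [Finite F]

/-- `|PSL_2(q)|` divides `(q + 1) q (q - 1)`. -/
lemma card_psl_dvd : Nat.card PSL(2, F) ∣ (Nat.card F + 1) * Nat.card F * (Nat.card F - 1) := by
  have : Fintype F := Fintype.ofFinite F
  have hq2 : 2 ≤ Nat.card F := Finite.one_lt_card
  have h1 : Nat.card PSL(2, F) ∣ Nat.card SL(2, F) :=
    Subgroup.card_quotient_dvd_card (Subgroup.center SL(2, F))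
  set K : Subgroup (GL (Fin 2) F) := (Matrix.GeneralLinearGroup.det (n := Fin 2) (R := F)).ker
    with hK
  have h2 : Nat.card SL(2, F) ∣ Nat.card K := by
    have hm : ∀ x : SL(2, F), Matrix.SpecialLinearGroup.toGL x ∈ K := by
      intro x
      rw [hK, MonoidHom.mem_ker]
      ext
      simp
    refine Subgroup.card_dvd_of_injective
      ((Matrix.SpecialLinearGroup.toGL (n := Fin 2) (R := F)).codRestrict K hm) ?_
    intro x y h
    exact Matrix.SpecialLinearGroup.toGL_injective (congrArg Subtype.val h)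
  have h3 : Nat.card K * K.index = Nat.card (GL (Fin 2) F) := Subgroup.card_mul_index K
  have h4 : K.index = Nat.card F - 1 := by
    rw [hK, Subgroup.index_ker, MonoidHom.range_eq_top.2 Matrix.GeneralLinearGroup.det_surjective,
      Subgroup.card_top, Nat.card_units]
  rw [h4, Matrix.card_GL_field, Fin.prod_univ_two] at h3
  have h5 : Nat.card K = (Nat.card F + 1) * Nat.card F * (Nat.card F - 1) := by
    have hpos : 0 < Nat.card F - 1 := by omega
    apply Nat.eq_of_mul_eq_mul_right hpos
    rw [h3]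
    simp only [Fintype.card_eq_nat_card, Fin.val_zero, Fin.val_one, pow_zero, pow_one]
    obtain ⟨m, hm⟩ : ∃ m, Nat.card F = m + 1 := ⟨Nat.card F - 1, by omega⟩
    rw [hm]
    have e1 : (m + 1) ^ 2 - 1 = m * (m + 2) := by
      rw [show (m + 1) ^ 2 = m * (m + 2) + 1 by ring]
      simp
    have e2 : (m + 1) ^ 2 - (m + 1) = m * (m + 1) := by
      rw [show (m + 1) ^ 2 = m * (m + 1) + (m + 1) by ring]
      simp
    rw [e1, e2]
    simp only [Nat.add_sub_cancel]
    ring
  rw [← h5]
  exact h1.trans h2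

lemma finite_psl : Finite PSL(2, F) := by
  unfold Matrix.ProjectiveSpecialLinearGroup
  infer_instance

/-- The divisors of `(q + 1) q (q - 1)` which are `1` modulo the prime `q + 1`. -/
lemma arith {q d : ℕ} (hq : 4 ≤ q) (hd : d ∣ (q + 1) * q * (q - 1))
    (h1 : d ≡ 1 [MOD q + 1]) (hd1 : 1 < d) : 2 * d = q * (q - 1) := by
  have hc : Nat.Coprime d (q + 1) := by
    have := h1.gcd_eq
    rw [Nat.gcd_one_left] at this
    exact this
  have h2 : d ∣ q * (q - 1) := by
    rw [mul_assoc] at hd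
    exact hc.dvd_of_dvd_mul_left hd
  obtain ⟨e, he⟩ := h2
  obtain ⟨m, rfl⟩ : ∃ m, q = m + 4 := ⟨q - 4, by omega⟩
  have e0 : m + 4 - 1 = m + 3 := rfl
  rw [e0] at he ⊢
  have h3 : (m + 4) * (m + 3) = (m + 4 + 1) * (m + 2) + 2 := by ring
  have h4 : e ≡ 2 [MOD m + 4 + 1] := by
    have h5 : d * e ≡ 1 * e [MOD m + 4 + 1] := h1.mul_right e
    rw [← he, h3, one_mul] at h5
    refine h5.symm.trans ?_
    exact (Nat.ModEq.refl _).trans (by
      have : (m + 4 + 1) * (m + 2) + 2 ≡ 0 + 2 [MOD m + 4 + 1] :=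
        Nat.ModEq.add_right 2 (Nat.modEq_zero_iff_dvd.2 (Dvd.intro _ rfl))
      simpa only [zero_add] using this)
  have h6 : m + 4 + 2 ≤ d := by
    have h7 : (m + 4 + 1) ∣ d - 1 := (Nat.modEq_iff_dvd' hd1.le).1 h1.symm
    have h8 := Nat.le_of_dvd (by omega) h7
    omega
  have h9 : e < m + 4 + 1 := by
    by_contra hcon
    push Not at hcon
    have h10 : (m + 4 + 2) * (m + 4 + 1) ≤ d * e := Nat.mul_le_mul h6 hcon
    rw [← he] at h10
    nlinarith
  have h11 : e = 2 := Nat.ModEq.eq_of_lt_of_lt h4 h9 (by omega)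
  rw [he, h11]
  ring

lemma field_cond (hF : 4 ≤ Nat.card F) : ∃ a : F, a ≠ 0 ∧ a ^ 2 ≠ 1 := by
  obtain ⟨x, hx⟩ : IsCyclic Fˣ := by infer_instance
  refine ⟨x, Units.ne_zero x, fun h => ?_⟩
  have h1 : Nat.card F = Nat.card Fˣ + 1 := Nat.card_eq_card_units_add_one F
  have h2 : orderOf x = Nat.card Fˣ := orderOf_eq_card_of_forall_mem_zpowers hx
  have h3 : orderOf x ≤ 2 := orderOf_le_of_pow_eq_one zero_lt_two (Units.ext (by simpa using h))
  omega

/-- `PSL_2(q)` is not commutative. -/
lemma not_comm (hF : 4 ≤ Nat.card F) : ¬ ∀ a b : PSL(2, F), a * b = b * a := by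
  intro h
  have h1 := SL2Simple.PSL_commutator_eq_top (field_cond hF)
  have h2 : commutator PSL(2, F) = ⊥ := by
    rw [eq_bot_iff, commutator_def, Subgroup.commutator_le]
    intro a _ b _
    rw [Subgroup.mem_bot, commutatorElement_eq_one_iff_mul_comm]
    exact h a b
  rw [h2] at h1
  have h3 : Nontrivial PSL(2, F) :=
    (Matrix.ProjectiveSpecialLinearGroup.rank_two_simple hF).toNontrivial
  exact bot_ne_top h1

/-- `PSL_2(q)` has a subgroup of index `q + 1`. -/
lemma exists_index : ∃ H : Subgroup PSL(2, F), H.index = Nat.card F + 1 := by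
  obtain ⟨x⟩ : Nonempty (ℙ F (Fin 2 → F)) := inferInstance
  refine ⟨stabilizer PSL(2, F) x, ?_⟩
  rw [MulAction.index_stabilizer_of_transitive,
    Projectivization.card_of_finrank_two F (Fin 2 → F) (by simp)]

theorem psl (hF : 4 ≤ Nat.card F) (hp : (Nat.card F + 1).Prime) :
    minIndex PSL(2, F) = Nat.card F + 1 ∧
      (∃ A : Subgroup PSL(2, F), Nat.card A = Nat.card F + 1) ∧
      (∀ A B : Subgroup PSL(2, F), Nat.card A = Nat.card F + 1 → Nat.card B = Nat.card F + 1 →
        ∃ g : PSL(2, F), B = MulAut.conj g • A) ∧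
      ∀ A : Subgroup PSL(2, F), (InS A ↔ Nat.card A = Nat.card F + 1) ∧
        (IsWide A ↔ Nat.card A = Nat.card F + 1) := by
  have hfin : Finite PSL(2, F) := finite_psl
  have hs : IsSimpleGroup PSL(2, F) := Matrix.ProjectiveSpecialLinearGroup.rank_two_simple hF
  obtain ⟨H, hH⟩ := exists_index (F := F)
  have hm : minIndex PSL(2, F) = Nat.card F + 1 := by
    rw [minIndex_eq H (hH ▸ hp), hH]
  have hp' : (minIndex PSL(2, F)).Prime := hm ▸ hp
  have hfp : Fact (Nat.card F + 1).Prime := ⟨hp⟩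
  have hG : Nat.card PSL(2, F) ≠ minIndex PSL(2, F) := by
    intro h
    have hfp2 : Fact (minIndex PSL(2, F)).Prime := ⟨hp'⟩
    have hc : IsCyclic PSL(2, F) := isCyclic_of_prime_card h
    exact not_comm hF fun a b => hc.isMulCommutative.is_comm.comm a b
  have hf1 := fact_one hp'
  rw [hm] at hf1
  refine ⟨hm, ?_, ?_, ?_⟩
  · have S : Sylow (Nat.card F + 1) PSL(2, F) := default
    refine ⟨S, ?_⟩
    have := S.card_eq_multiplicity
    rwa [hf1, pow_one] at this
  · intro A B hA hB
    let SA : Sylow (Nat.card F + 1) PSL(2, F) := Sylow.ofCard A (by rw [hf1, pow_one, hA])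
    let SB : Sylow (Nat.card F + 1) PSL(2, F) := Sylow.ofCard B (by rw [hf1, pow_one, hB])
    obtain ⟨g, hg⟩ := MulAction.exists_smul_eq PSL(2, F) SA SB
    refine ⟨g, ?_⟩
    have h1 : ((g • SA : Sylow (Nat.card F + 1) PSL(2, F)) : Subgroup PSL(2, F)) =
        MulAut.conj g • (SA : Subgroup PSL(2, F)) := Sylow.coe_subgroup_smul
    rw [hg] at h1
    exact h1
  · intro A
    rw [← hm]
    refine criterion hp' hG ?_ A
    rw [hm]
    intro d hd hd1 hd2 hd3
    have h1 := arith hF (hd.trans card_psl_dvd) hd1 hd2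
    have S : Sylow (Nat.card F + 1) PSL(2, F) := default
    have h2 := arith hF ((S.card_dvd_index.trans (Subgroup.index_dvd_card _)).trans card_psl_dvd)
      (card_sylow_modEq_one _ _) (hd2.trans hd3)
    omega

end psl

/-- The properties of the action of `G = PSL_2(q)` on the projective line `X`, `q` even, which are
used below. -/
structure Bend (G X : Type*) [Group G] [MulAction G X] (q : ℕ) : Prop where
  three : ∀ (g : G) (x y z : X), g • x = x → g • y = y → g • z = z → x ≠ y → x ≠ z → y ≠ z →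
    g = 1
  inv_fix : ∀ g : G, g * g = 1 → ∃ x : X, g • x = x
  inv_two : ∀ (g : G) (x y : X), g * g = 1 → g • x = x → g • y = y → x ≠ y → g = 1
  one_fix : ∀ (g : G) (x : X), g • x = x → (∀ y : X, g • y = y → y = x) → g * g = 1
  comm : ∀ (g h : G) (x : X), g • x = x → h • x = x →
    (g * h * g⁻¹ * h⁻¹) * (g * h * g⁻¹ * h⁻¹) = 1
  cent : ∀ (g t : G) (x : X), g • x = x → t • x = x → t * t = 1 → t ≠ 1 → g * t = t * g →
    g * g = 1
  mul : ∀ (g h : G) (x : X), g • x = x → h • x = x → g * g = 1 → h * h = 1 →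
    (g * h) * (g * h) = 1
  conj : ∀ s t : G, s * s = 1 → t * t = 1 → s ≠ 1 → t ≠ 1 → ∃ g : G, g * s * g⁻¹ = t
  cardU : ∀ x : X, Nat.card {g : G // g • x = x ∧ g * g = 1} = q
  cardH : ∀ x : X, Nat.card (stabilizer G x) ≤ q * (q - 1)
  cardH' : ∀ x : X, q < Nat.card (stabilizer G x)
  cardX : Nat.card X = q + 1
  pre : ∀ x y : X, ∃ g : G, g • x = y

section abstr

variable {G X : Type*} [Group G] [Finite G] [MulAction G X] [Finite X] {q : ℕ}

lemma odd_order {A : Subgroup G} (hodd : ∀ a ∈ A, a * a = 1 → a = 1) {a : G} (ha : a ∈ A) :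
    Odd (orderOf a) := by
  by_contra h
  obtain ⟨k, hk⟩ := Nat.not_odd_iff_even.1 h
  have h1 : a ^ k = 1 := by
    apply hodd _ (A.pow_mem ha k)
    rw [← pow_add, ← hk, pow_orderOf_eq_one]
  have h2 := orderOf_dvd_of_pow_eq_one h1
  have h3 := orderOf_pos a
  have h4 := Nat.le_of_dvd (by omega) h2
  omega

omit [Finite G] [Finite X] in
lemma fix_of_sq {a : G} (ha : Odd (orderOf a)) {x : X} (h : (a * a) • x = x) : a • x = x := by
  obtain ⟨k, hk⟩ := ha
  have h1 : (a * a) ^ (k + 1) = a := by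
    rw [← pow_two, ← pow_mul, show 2 * (k + 1) = (2 * k + 1) + 1 by ring, ← hk, pow_succ,
      pow_orderOf_eq_one, one_mul]
  have h2 : (a * a) ^ (k + 1) ∈ stabilizer G x := pow_mem (mem_stabilizer_iff.2 h) _
  rw [h1] at h2
  exact h2

variable (B : Bend G X q)
include B

omit [Finite X] in
lemma no_inv (A : Subgroup G) (hA : ∀ x y : X, ∃ a ∈ A, a • x = y)
    (hodd : ∀ a ∈ A, a * a = 1 → a = 1) (g : G) (hg : g ∈ A) (x : X) (hgx : g • x = x) :
    g = 1 := by
  by_contra hg1
  obtain ⟨y, hgy, hyx⟩ : ∃ y : X, g • y = y ∧ y ≠ x := by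
    by_contra hcon
    push Not at hcon
    exact hg1 (hodd g hg (B.one_fix g x hgx hcon))
  have key : ∀ h ∈ A, h • x = x → h • y = y := by
    intro h hh hhx
    have h1 : g * h * g⁻¹ * h⁻¹ = 1 := by
      apply hodd _ _ (B.comm g h x hgx hhx)
      exact A.mul_mem (A.mul_mem (A.mul_mem hg hh) (A.inv_mem hg)) (A.inv_mem hh)
    rw [mul_inv_eq_one, mul_inv_eq_iff_eq_mul] at h1
    have h2 : g • (h • y) = h • y := by rw [← mul_smul, h1, mul_smul, hgy]
    by_contra hne
    refine hg1 (B.three g x y (h • y) hgx hgy h2 (Ne.symm hyx) ?_ (Ne.symm hne))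
    intro h3
    rw [← hhx] at h3
    have h4 := smul_left_cancel h h3
    exact hyx (by rw [← h4])
  obtain ⟨a, ha, hax⟩ := hA x y
  have h1 : (a⁻¹ * g * a) • y = y := by
    apply key _ (A.mul_mem (A.mul_mem (A.inv_mem ha) hg) ha)
    rw [mul_smul, mul_smul, hax, hgy, ← hax, inv_smul_smul]
  have h2 : g • (a • y) = a • y := by
    have := congrArg (fun z => a • z) h1
    simp only [mul_smul, smul_inv_smul] at this
    exact this
  have h3 : a • y ≠ y := by
    intro h
    rw [← hax] at h
    have h4 := smul_left_cancel a h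
    exact hyx (by rw [← hax]; exact h4)
  have h4 : a • y = x := by
    by_contra hne
    exact hg1 (B.three g x y (a • y) hgx hgy h2 (Ne.symm hyx) (Ne.symm hne) (Ne.symm h3))
  have h5 : (a * a) • x = x := by rw [mul_smul, hax, h4]
  have h6 := fix_of_sq (odd_order hodd ha) h5
  rw [hax] at h6
  exact hyx h6

/-- The involutions fixing `x`, and `1`. -/
def U (x : X) : Subgroup G where
  carrier := {g | g • x = x ∧ g * g = 1}
  mul_mem' := by
    rintro g h ⟨h1, h2⟩ ⟨h3, h4⟩
    exact ⟨by rw [mul_smul, h3, h1], B.mul g h x h1 h3 h2 h4⟩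
  one_mem' := ⟨one_smul _ _, one_mul _⟩
  inv_mem' := by
    rintro g ⟨h1, h2⟩
    have h3 : g⁻¹ = g := inv_eq_of_mul_eq_one_left h2
    rw [h3]
    exact ⟨h1, h2⟩

omit [Finite G] [Finite X] in
lemma mem_U {x : X} {g : G} : g ∈ U B x ↔ g • x = x ∧ g * g = 1 := Iff.rfl

omit [Finite G] [Finite X] in
lemma card_U (x : X) : Nat.card (U B x) = q := B.cardU x

lemma index_ge [IsSimpleGroup G] (hq : 2 ≤ q) (x : X) (Y : Subgroup G) (hY : Y ≠ ⊤) :
    q + 1 ≤ Y.index := by
  classical
  by_contra hcon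
  push Not at hcon
  have hfaith := faithful_of_ne_top Y hY
  have : Fintype G := Fintype.ofFinite G
  have : Fintype (G ⧸ Y) := Fintype.ofFinite _
  obtain ⟨u0, hu0, hu01⟩ : ∃ u ∈ U B x, u ≠ 1 := by
    by_contra h
    push Not at h
    have h1 : U B x = ⊥ := by
      rw [eq_bot_iff]
      intro u hu
      exact h u hu
    have h2 := card_U B x
    rw [h1, Subgroup.card_bot] at h2
    omega
  have hconst : ∀ u : U B x, u ≠ 1 →
      Nat.card (fixedBy (G ⧸ Y) u) = Nat.card (fixedBy (G ⧸ Y) u0) := by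
    intro u hu
    obtain ⟨g, hg⟩ := B.conj u0 u hu0.2 u.2.2 hu01 (fun h => hu (Subtype.ext h))
    have e : ∀ w : G ⧸ Y, (w ∈ fixedBy (G ⧸ Y) u0) ↔ (g • w ∈ fixedBy (G ⧸ Y) u) := by
      intro w
      rw [mem_fixedBy, mem_fixedBy]
      change u0 • w = w ↔ (u : G) • g • w = g • w
      rw [← hg, mul_smul, mul_smul, inv_smul_smul]
      exact ⟨fun h => by rw [h], fun h => smul_left_cancel g h⟩
    exact (Nat.card_congr ((MulAction.toPerm g).subtypeEquiv e)).symm
  set m := Nat.card (G ⧸ Y) with hm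
  have hmY : Y.index = m := rfl
  set φ := Nat.card (fixedBy (G ⧸ Y) u0) with hφ
  have hφm : φ < m := by
    apply Nat.lt_of_le_of_ne (Nat.card_le_card_of_injective _ Subtype.val_injective)
    intro h
    apply hu01
    apply hfaith.eq_of_smul_eq_smul
    intro w
    have hb := (Subtype.val_injective
      (p := fun w => w ∈ fixedBy (G ⧸ Y) u0)).bijective_of_nat_card_le (le_of_eq h.symm)
    obtain ⟨w', rfl⟩ := hb.2 w
    rw [one_smul]
    exact w'.2
  have hB := MulAction.sum_card_fixedBy_eq_card_orbits_mul_card_group (U B x) (G ⧸ Y)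
  have hs : ∑ u : U B x, Fintype.card (fixedBy (G ⧸ Y) u) = m + (q - 1) * φ := by
    rw [← Finset.add_sum_erase _ _ (Finset.mem_univ (1 : U B x))]
    congr 1
    · rw [← Nat.card_eq_fintype_card, hm]
      have : fixedBy (G ⧸ Y) (1 : U B x) = Set.univ := by
        ext w
        simp
      rw [this]
      exact Nat.card_congr (Equiv.Set.univ _)
    · rw [Finset.sum_congr rfl (fun u hu => by
        rw [← Nat.card_eq_fintype_card, hconst u (Finset.ne_of_mem_erase hu)])]
      rw [Finset.sum_const, Finset.card_erase_of_mem (Finset.mem_univ _), Finset.card_univ,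
        ← Nat.card_eq_fintype_card, card_U, smul_eq_mul]
  rw [hs, ← Nat.card_eq_fintype_card (α := U B x), card_U] at hB
  set k := Fintype.card (Quotient (orbitRel (U B x) (G ⧸ Y))) with hk
  have hmφ : m = q ∧ φ = 0 := by
    obtain ⟨q', rfl⟩ : ∃ q', q = q' + 1 := ⟨q - 1, by omega⟩
    simp only [Nat.add_sub_cancel] at hB
    have h1 : (q' + 1) ∣ m - φ := by
      have h2 : m - φ + (q' + 1) * φ = k * (q' + 1) := by
        rw [← hB]
        have : (q' + 1) * φ = q' * φ + φ := by ring
        omega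
      rw [← Nat.dvd_add_left (Dvd.intro _ rfl : (q' + 1) ∣ (q' + 1) * φ), h2]
      exact Dvd.intro_left _ rfl
    have h2 := Nat.le_of_dvd (by omega) h1
    omega
  obtain ⟨hmq, hφ0⟩ := hmφ
  have hfree : ∀ g : G, g * g = 1 → g ≠ 1 → ∀ w : G ⧸ Y, g • w ≠ w := by
    intro g hg hg1 w hw
    obtain ⟨c, hc⟩ := B.conj g u0 hg hu0.2 hg1 hu01
    have h1 : Nonempty (fixedBy (G ⧸ Y) u0) := ⟨⟨c • w, by
      rw [mem_fixedBy, ← hc, mul_smul, mul_smul, inv_smul_smul, hw]⟩⟩
    have h2 : 0 < φ := Nat.card_pos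
    omega
  let w0 : G ⧸ Y := ((1 : G) : G ⧸ Y)
  have hinj : Function.Injective (fun u : U B x => (u : G) • w0) := by
    intro u v huv
    by_contra hne
    have h1 : ((u : G)⁻¹ * v) ∈ U B x := (U B x).mul_mem ((U B x).inv_mem u.2) v.2
    refine hfree _ h1.2 ?_ w0 ?_
    · intro h
      rw [inv_mul_eq_one] at h
      exact hne (Subtype.ext h)
    · rw [mul_smul, inv_smul_eq_iff]
      exact huv.symm
  have hbij := hinj.bijective_of_nat_card_le (by rw [card_U]; exact le_of_eq hmq)
  have htr : ∀ z : X, ∃ y ∈ Y, y • x = z := by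
    intro z
    obtain ⟨c, hc⟩ := B.pre x z
    obtain ⟨u, hu⟩ := hbij.2 (c⁻¹ • w0)
    have h1 : (u : G)⁻¹ * c⁻¹ ∈ Y := by
      rw [← QuotientGroup.eq]
      simpa [w0] using hu
    refine ⟨((u : G)⁻¹ * c⁻¹)⁻¹, Y.inv_mem h1, ?_⟩
    rw [mul_inv_rev, inv_inv, inv_inv, mul_smul, u.2.1, hc]
  have htr2 : ∀ z w : X, ∃ y ∈ Y, y • z = w := by
    intro z w
    obtain ⟨y1, h1, e1⟩ := htr z
    obtain ⟨y2, h2, e2⟩ := htr w
    exact ⟨y2 * y1⁻¹, Y.mul_mem h2 (Y.inv_mem h1), by rw [mul_smul, ← e1, inv_smul_smul, e2]⟩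
  have hodd : ∀ a ∈ Y, a * a = 1 → a = 1 := by
    intro a ha haa
    by_contra h1
    refine hfree a haa h1 w0 ?_
    change ((a * 1 : G) : G ⧸ Y) = ((1 : G) : G ⧸ Y)
    rw [mul_one, QuotientGroup.eq, mul_one]
    exact Y.inv_mem ha
  have hcY : Nat.card Y ≤ q + 1 := by
    rw [← B.cardX]
    apply Nat.card_le_card_of_injective (fun y : Y => (y : G) • x)
    intro y z hyz
    have h1 := no_inv B Y htr2 hodd ((y : G)⁻¹ * z) (Y.mul_mem (Y.inv_mem y.2) z.2) x (by
      rw [mul_smul, inv_smul_eq_iff]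
      exact hyz.symm)
    rw [inv_mul_eq_one] at h1
    exact Subtype.ext h1
  have h1 : Nat.card Y * m = Nat.card G := Y.card_mul_index
  have : IsPretransitive G X := ⟨B.pre⟩
  have h2 : Nat.card (stabilizer G x) * (q + 1) = Nat.card G := by
    rw [← B.cardX, ← MulAction.index_stabilizer_of_transitive G x]
    exact Subgroup.card_mul_index _
  have h3 := B.cardH' x
  rw [hmq] at h1
  nlinarith

omit [Finite G] [Finite X] in
lemma inv_ne {x y : X} {s : G} (hs : s * s = 1) (hs1 : s ≠ 1) (hx : s • x = x) (hy : s • y = y) :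
    y = x := by
  by_contra h
  exact hs1 (B.inv_two s x y hs hx hy (Ne.symm h))

lemma count {A : Subgroup G} (hA : ∀ x y : X, ∃ a ∈ A, a • x = y) (x : X) (hq : 4 ≤ q) (t : G)
    (htA : t ∈ A) (ht : t * t = 1) (ht1 : t ≠ 1) :
    A = ⊤ ∨ Nat.card A = 2 * (q + 1) := by
  classical
  have : Fintype G := Fintype.ofFinite G
  have : Fintype X := Fintype.ofFinite X
  let I : Finset G := Finset.univ.filter fun g => g ∈ A ∧ g * g = 1 ∧ g ≠ 1
  let M : Finset G := Finset.univ.filter fun g => g ∈ A ∧ g • x = x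
  let T : Finset G := Finset.univ.filter fun g => g ∈ A ∧ g • x = x ∧ g * g = 1 ∧ g ≠ 1
  let D : X → Finset G := fun y => Finset.univ.filter fun g => g ∈ A ∧ g • x = x ∧ g • y = y
  let i := T.card
  have hX : Fintype.card X = q + 1 := by rw [← Nat.card_eq_fintype_card, B.cardX]
  -- the number of involutions
  have hI1 : ∀ y : X, (I.filter fun g => g • y = y).card = i := by
    intro y
    obtain ⟨a, ha, hay⟩ := hA x y
    symm
    apply Finset.card_bij (fun g _ => a * g * a⁻¹)
    · intro g hg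
      simp only [T, I, Finset.mem_filter, Finset.mem_univ, true_and] at hg ⊢
      obtain ⟨h1, h2, h3, h4⟩ := hg
      refine ⟨⟨A.mul_mem (A.mul_mem ha h1) (A.inv_mem ha), ?_, ?_⟩, ?_⟩
      · rw [show a * g * a⁻¹ * (a * g * a⁻¹) = a * (g * g) * a⁻¹ by group, h3]
        group
      · intro h
        rw [mul_inv_eq_one] at h
        exact h4 (mul_left_cancel (h.trans (mul_one a).symm))
      · rw [← hay, mul_smul, mul_smul, inv_smul_smul, h2]
    · intro g _ h _ hgh
      exact mul_left_cancel (mul_right_cancel hgh)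
    · intro g hg
      simp only [I, Finset.mem_filter, Finset.mem_univ, true_and] at hg
      obtain ⟨⟨h1, h2, h3⟩, h4⟩ := hg
      refine ⟨a⁻¹ * g * a, ?_, by group⟩
      simp only [T, Finset.mem_filter, Finset.mem_univ, true_and]
      refine ⟨A.mul_mem (A.mul_mem (A.inv_mem ha) h1) ha, ?_, ?_, ?_⟩
      · rw [mul_smul, mul_smul, hay, h4, ← hay, inv_smul_smul]
      · rw [show a⁻¹ * g * a * (a⁻¹ * g * a) = a⁻¹ * (g * g) * a by group, h2]
        group
      · intro h
        apply h3
        have : g = a * (a⁻¹ * g * a) * a⁻¹ := by group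
        rw [this, h]
        group
  have hI2 : ∀ g ∈ I, (Finset.univ.filter fun y : X => g • y = y).card = 1 := by
    intro g hg
    simp only [I, Finset.mem_filter, Finset.mem_univ, true_and] at hg
    obtain ⟨h1, h2, h3⟩ := hg
    obtain ⟨z, hz⟩ := B.inv_fix g h2
    rw [Finset.card_eq_one]
    refine ⟨z, ?_⟩
    ext y
    simp only [Finset.mem_filter, Finset.mem_univ, true_and, Finset.mem_singleton]
    exact ⟨fun h => inv_ne B h2 h3 hz h, fun h => h ▸ hz⟩
  have hI : I.card = (q + 1) * i := by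
    have h := Finset.sum_card_bipartiteAbove_eq_sum_card_bipartiteBelow
      (s := I) (t := (Finset.univ : Finset X)) (fun (g : G) (y : X) => g • y = y)
    simp only [Finset.bipartiteAbove, Finset.bipartiteBelow] at h
    rw [Finset.sum_congr rfl hI2, Finset.sum_congr rfl (fun y _ => hI1 y)] at h
    simpa [hX] using h
  let J : Finset G := I.filter fun g => g • x ≠ x
  have hJ : J.card + i = (q + 1) * i := by
    rw [← hI, ← hI1 x, add_comm]
    exact Finset.card_filter_add_card_filter_not _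
  -- the fibres of `s ↦ s • x`
  have hJD : ∀ y : X, (J.filter fun g => g • x = y).card ≤ (D y).card := by
    intro y
    rcases (J.filter fun g => g • x = y).eq_empty_or_nonempty with h | ⟨s0, hs0⟩
    · rw [h, Finset.card_empty]
      exact Nat.zero_le _
    · simp only [J, I, Finset.mem_filter, Finset.mem_univ, true_and] at hs0
      obtain ⟨⟨⟨h1, h2, h3⟩, h4⟩, h5⟩ := hs0
      apply Finset.card_le_card_of_injOn (fun g => s0 * g)
      · intro g hg
        simp only [J, I, Finset.coe_filter, Finset.mem_filter, Finset.mem_univ, true_and,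
          Set.mem_ofPred_eq] at hg
        obtain ⟨⟨⟨g1, g2, g3⟩, g4⟩, g5⟩ := hg
        simp only [D, Finset.coe_filter, Finset.mem_univ, true_and, Set.mem_ofPred_eq]
        have e1 : s0 • y = x := by rw [← h5, ← mul_smul, h2, one_smul]
        have e2 : g • y = x := by rw [← g5, ← mul_smul, g2, one_smul]
        exact ⟨A.mul_mem h1 g1, by rw [mul_smul, g5, e1], by rw [mul_smul, e2, h5]⟩
      · intro g _ h _ hgh
        exact mul_left_cancel hgh
  have hJ2 : J.card ≤ ∑ y ∈ (Finset.univ : Finset X).erase x, (D y).card := by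
    rw [Finset.card_eq_sum_card_fiberwise (f := fun g : G => g • x)
      (t := (Finset.univ : Finset X).erase x)]
    · exact Finset.sum_le_sum fun y _ => hJD y
    · intro g hg
      simp only [J, Finset.coe_filter, Set.mem_ofPred_eq] at hg
      simpa using hg.2
  have hD : ∑ y ∈ (Finset.univ : Finset X).erase x, (D y).card + i + 1 ≤ q + M.card := by
    have h := Finset.sum_card_bipartiteAbove_eq_sum_card_bipartiteBelow
      (s := M) (t := (Finset.univ : Finset X).erase x) (fun (g : G) (y : X) => g • y = y)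
    simp only [Finset.bipartiteAbove, Finset.bipartiteBelow] at h
    have h1 : ∀ y : X, M.filter (fun g => g • y = y) = D y := by
      intro y
      ext g
      simp only [M, D, Finset.mem_filter, Finset.mem_univ, true_and, and_assoc]
    simp only [h1] at h
    rw [← h]
    have h1M : (1 : G) ∈ M := by
      simp only [M, Finset.mem_filter, Finset.mem_univ, true_and]
      exact ⟨A.one_mem, one_smul _ _⟩
    have hTM : T ⊆ M.erase 1 := by
      intro g hg
      simp only [T, M, Finset.mem_filter, Finset.mem_univ, true_and, Finset.mem_erase] at hg ⊢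
      exact ⟨hg.2.2.2, hg.1, hg.2.1⟩
    rw [← Finset.add_sum_erase M _ h1M]
    have h2 : (((Finset.univ : Finset X).erase x).filter fun y => (1 : G) • y = y).card = q := by
      simp [hX]
    rw [h2, ← Finset.sum_sdiff hTM]
    have h3 : ∑ g ∈ T, (((Finset.univ : Finset X).erase x).filter fun y => g • y = y).card = 0 := by
      apply Finset.sum_eq_zero
      intro g hg
      simp only [T, Finset.mem_filter, Finset.mem_univ, true_and] at hg
      rw [Finset.card_eq_zero, Finset.filter_eq_empty_iff]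
      intro y hy hgy
      exact Finset.ne_of_mem_erase hy (inv_ne B hg.2.2.1 hg.2.2.2 hg.2.1 hgy)
    have h4 : ∑ g ∈ (M.erase 1) \ T,
        (((Finset.univ : Finset X).erase x).filter fun y => g • y = y).card ≤
        ((M.erase 1) \ T).card := by
      rw [Finset.card_eq_sum_ones]
      apply Finset.sum_le_sum
      intro g hg
      simp only [T, M, Finset.mem_sdiff, Finset.mem_filter, Finset.mem_univ, true_and,
        Finset.mem_erase] at hg
      rw [Finset.card_le_one]
      intro y hy z hz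
      simp only [Finset.mem_filter, Finset.mem_erase, Finset.mem_univ, and_true] at hy hz
      by_contra hyz
      exact hg.1.1 (B.three g x y z hg.1.2.2 hy.2 hz.2 (Ne.symm hy.1) (Ne.symm hz.1) hyz)
    have h5 : ((M.erase 1) \ T).card + i = (M.erase 1).card := by
      rw [Finset.card_sdiff_of_subset hTM]
      exact Nat.sub_add_cancel (Finset.card_le_card hTM)
    have h6 : (M.erase 1).card + 1 = M.card := Finset.card_erase_add_one h1M
    omega
  -- an involution of `A` fixing `x`
  obtain ⟨z, hz⟩ := B.inv_fix t ht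
  obtain ⟨c, hc, hcz⟩ := hA z x
  have hT0 : c * t * c⁻¹ ∈ T := by
    simp only [T, Finset.mem_filter, Finset.mem_univ, true_and]
    refine ⟨A.mul_mem (A.mul_mem hc htA) (A.inv_mem hc), ?_, ?_, ?_⟩
    · rw [← hcz, mul_smul, mul_smul, inv_smul_smul, hz]
    · rw [show c * t * c⁻¹ * (c * t * c⁻¹) = c * (t * t) * c⁻¹ by group, ht]
      group
    · intro h
      rw [mul_inv_eq_one] at h
      exact ht1 (mul_left_cancel (h.trans (mul_one c).symm))
  set s := c * t * c⁻¹ with hs
  have hi1 : 1 ≤ i := Finset.card_pos.2 ⟨s, hT0⟩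
  have hsT := hT0
  simp only [T, Finset.mem_filter, Finset.mem_univ, true_and] at hsT
  obtain ⟨hs1, hs2, hs3, hs4⟩ := hsT
  have hTU : i + 1 ≤ q := by
    have h1 : (insert (1 : G) T).card = i + 1 := by
      apply Finset.card_insert_of_notMem
      simp [T]
    rw [← h1, ← card_U B x, Nat.card_eq_fintype_card, Fintype.card_subtype]
    apply Finset.card_le_card
    intro g hg
    rw [Finset.mem_insert] at hg
    simp only [Finset.mem_filter, Finset.mem_univ, true_and]
    rcases hg with rfl | hg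
    · exact (U B x).one_mem
    · simp only [T, Finset.mem_filter, Finset.mem_univ, true_and] at hg
      exact ⟨hg.2.1, hg.2.2.1⟩
  have hM : M.card ≤ (i + 1) * i := by
    apply Finset.card_le_mul_card_image_of_maps_to (f := fun g : G => g * s * g⁻¹) (t := T)
    · intro g hg
      simp only [M, T, Finset.mem_filter, Finset.mem_univ, true_and] at hg ⊢
      refine ⟨A.mul_mem (A.mul_mem hg.1 hs1) (A.inv_mem hg.1), ?_, ?_, ?_⟩
      · rw [mul_smul, mul_smul, inv_smul_eq_iff.2 hg.2.symm, hs2, hg.2]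
      · rw [show g * s * g⁻¹ * (g * s * g⁻¹) = g * (s * s) * g⁻¹ by group, hs3]
        group
      · intro h
        rw [mul_inv_eq_one] at h
        exact hs4 (mul_left_cancel (h.trans (mul_one g).symm))
    · intro b _
      have h1 : (insert (1 : G) T).card ≤ i + 1 := Finset.card_insert_le _ _
      refine le_trans ?_ h1
      rcases (M.filter fun g => g * s * g⁻¹ = b).eq_empty_or_nonempty with h | ⟨g0, hg0⟩
      · rw [h, Finset.card_empty]
        exact Nat.zero_le _
      · simp only [M, Finset.mem_filter, Finset.mem_univ, true_and] at hg0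
        obtain ⟨⟨k1, k2⟩, k3⟩ := hg0
        apply Finset.card_le_card_of_injOn (fun g => g0⁻¹ * g)
        · intro g hg
          simp only [M, Finset.coe_filter, Finset.mem_filter, Finset.mem_univ, true_and,
            Set.mem_ofPred_eq] at hg
          obtain ⟨⟨g1, g2⟩, g3⟩ := hg
          have e1 : (g0⁻¹ * g) • x = x := by
            rw [mul_smul, g2, inv_smul_eq_iff]
            exact k2.symm
          have e2 : (g0⁻¹ * g) * s = s * (g0⁻¹ * g) := by
            have : g * s = g0 * s * g0⁻¹ * g := by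
              rw [k3, ← g3]
              group
            rw [mul_assoc, this]
            group
          have e3 := B.cent (g0⁻¹ * g) s x e1 hs2 hs3 hs4 e2
          rw [Finset.coe_insert, Set.mem_insert_iff]
          by_cases e4 : g0⁻¹ * g = 1
          · exact Or.inl e4
          · right
            simp only [T, Finset.coe_filter, Finset.mem_univ, true_and, Set.mem_ofPred_eq]
            exact ⟨A.mul_mem (A.inv_mem k1) g1, e1, e3, e4⟩
        · intro g _ h _ hgh
          exact mul_left_cancel hgh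
  have hMle : M.card ≤ q * (q - 1) := by
    refine le_trans ?_ (B.cardH x)
    rw [Nat.card_eq_fintype_card, Fintype.card_subtype]
    apply Finset.card_le_card
    intro g hg
    simp only [M, Finset.mem_filter, Finset.mem_univ, true_and] at hg ⊢
    exact hg.2
  -- `|A| = (q + 1) |M|`
  have hAt : IsPretransitive A X := ⟨fun y z => by
    obtain ⟨a, ha, h⟩ := hA y z
    exact ⟨⟨a, ha⟩, h⟩⟩
  have hcA : Nat.card A = M.card * (q + 1) := by
    have h1 : Nat.card (stabilizer A x) * (stabilizer A x).index = Nat.card A :=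
      Subgroup.card_mul_index _
    rw [MulAction.index_stabilizer_of_transitive A x, B.cardX] at h1
    rw [← h1]
    congr 1
    rw [← Fintype.card_coe M, ← Nat.card_eq_fintype_card]
    apply Nat.card_congr
    refine ⟨fun a => ⟨(a : A), ?_⟩, fun g => ⟨⟨g, ?_⟩, ?_⟩, fun a => rfl, fun g => rfl⟩
    · simp only [M, Finset.mem_filter, Finset.mem_univ, true_and]
      exact ⟨a.1.2, a.2⟩
    · have := g.2
      simp only [M, Finset.mem_filter, Finset.mem_univ, true_and] at this
      exact this.1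
    · have := g.2
      simp only [M, Finset.mem_filter, Finset.mem_univ, true_and] at this
      exact this.2
  have hcG : Nat.card G ≤ (q * (q - 1)) * (q + 1) := by
    have : IsPretransitive G X := ⟨B.pre⟩
    have h2 : Nat.card (stabilizer G x) * (q + 1) = Nat.card G := by
      rw [← B.cardX, ← MulAction.index_stabilizer_of_transitive G x]
      exact Subgroup.card_mul_index _
    rw [← h2]
    exact Nat.mul_le_mul_right _ (B.cardH x)
  have hE1 : q * i + i + 1 ≤ q + M.card := by
    have : (q + 1) * i = q * i + i := by ring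
    omega
  rcases Nat.eq_or_lt_of_le hi1 with hi | hi
  · right
    rw [← hi] at hE1 hM
    have h2 : 2 ≤ M.card := by
      have h3 : ({1, s} : Finset G) ⊆ M := by
        intro g hg
        simp only [Finset.mem_insert, Finset.mem_singleton] at hg
        simp only [M, Finset.mem_filter, Finset.mem_univ, true_and]
        rcases hg with rfl | rfl
        · exact ⟨A.one_mem, one_smul _ _⟩
        · exact ⟨hs1, hs2⟩
      have h4 := Finset.card_le_card h3
      rwa [Finset.card_pair (Ne.symm hs4)] at h4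
    have h3 : M.card = 2 := by omega
    rw [hcA, h3]
  · left
    have h1 : q ≤ i + 1 := by
      by_contra hcon
      push Not at hcon
      have h2 : q * i + i + 1 ≤ q + (i + 1) * i := le_trans hE1 (by omega)
      obtain ⟨j, hj⟩ : ∃ j, i = j + 2 := ⟨i - 2, by omega⟩
      obtain ⟨r, hr⟩ : ∃ r, q = i + 1 + (r + 1) := ⟨q - (i + 1) - 1, by omega⟩
      rw [hr, hj] at h2
      nlinarith
    have h2 : i + 1 = q := le_antisymm hTU h1
    have h3 : M.card = q * (q - 1) := by
      apply le_antisymm hMle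
      have : q - 1 = i := by omega
      rw [this]
      omega
    rw [h3] at hcA
    apply Subgroup.eq_top_of_card_eq
    apply le_antisymm (Subgroup.card_le_card_group A)
    rw [hcA]
    exact hcG

omit B [Finite X] [MulAction G X] in
lemma not_two_odd {n : ℕ} (hn : Odd n) (hn3 : 3 ≤ n) [IsSimpleGroup G] :
    Nat.card G ≠ 2 * n := by
  intro h
  have hmin : (Nat.card G).minFac = 2 := by
    rw [h]
    exact (Nat.minFac_eq_two_iff _).2 (Dvd.intro _ rfl)
  have hf2 : Fact (Nat.Prime 2) := ⟨Nat.prime_two⟩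
  have P : Sylow 2 G := default
  have hP : Nat.card P = 2 := by
    have h1 := P.card_eq_multiplicity
    have h2 : (Nat.card G).factorization 2 = 1 := by
      rw [h, Nat.factorization_mul (by norm_num) (by omega)]
      have h3 : n.factorization 2 = 0 :=
        Nat.factorization_eq_zero_of_not_dvd (fun h => by
          rw [← even_iff_two_dvd, ← Nat.not_odd_iff_even] at h
          exact h hn)
      simp [h3, Nat.Prime.factorization Nat.prime_two]
    rw [h2, pow_one] at h1
    exact h1
  have hcyc : IsCyclic P := isCyclic_of_prime_card hP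
  have hc := IsCyclic.isComplement' hmin hcyc
  have h4 := hc.card_mul_card
  have hPc : Nat.card (P : Subgroup G) = 2 := hP
  rcases (MonoidHom.normal_ker (MonoidHom.transferSylow P
    (hcyc.normalizer_le_centralizer hmin))).eq_bot_or_eq_top with h5 | h5
  · rw [h5, Subgroup.card_bot, hPc, h] at h4
    omega
  · rw [h5, Subgroup.card_top, hPc, h] at h4
    omega

theorem member [IsSimpleGroup G] (hq : 4 ≤ q) (hodd : Odd (q + 1)) (x : X)
    (hmin : minIndex G = q + 1) {A : Subgroup G} (hA : InS A) :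
    Nat.card A = q + 1 ∧ (q + 1).Prime := by
  have : IsPretransitive G X := ⟨B.pre⟩
  have hH : (stabilizer G x).index = minIndex G := by
    rw [MulAction.index_stabilizer_of_transitive G x, B.cardX, hmin]
  have htr : ∀ z : X, ∃ a ∈ A, a • x = z := by
    intro z
    obtain ⟨g, hg⟩ := B.pre x z
    obtain ⟨a, ha, h, hh, e⟩ := exists_mul hA _ hH g
    refine ⟨a, ha, ?_⟩
    rw [← hg, ← e, mul_smul, mem_stabilizer_iff.1 hh]
  have htr2 : ∀ z w : X, ∃ y ∈ A, y • z = w := by
    intro z w
    obtain ⟨y1, h1, e1⟩ := htr z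
    obtain ⟨y2, h2, e2⟩ := htr w
    exact ⟨y2 * y1⁻¹, A.mul_mem h2 (A.inv_mem h1), by rw [mul_smul, ← e1, inv_smul_smul, e2]⟩
  have hsA : IsSimpleGroup A := isSimple hA _ hH
  by_cases hinv : ∀ a ∈ A, a * a = 1 → a = 1
  · have hbot : A ⊓ stabilizer G x = ⊥ := by
      rw [eq_bot_iff]
      rintro g ⟨h1, h2⟩
      exact no_inv B A htr2 hinv g h1 x h2
    have hcard : Nat.card A = q + 1 := by
      rw [← B.cardX]
      apply Nat.card_congr
      refine Equiv.ofBijective (fun y : A => (y : G) • x) ⟨?_, fun z => ?_⟩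
      · intro y z hyz
        have h1 := no_inv B A htr2 hinv ((y : G)⁻¹ * z) (A.mul_mem (A.inv_mem y.2) z.2) x (by
          rw [mul_smul, inv_smul_eq_iff]
          exact hyz.symm)
        rw [inv_mul_eq_one] at h1
        exact Subtype.ext h1
      · obtain ⟨a, ha, h⟩ := htr z
        exact ⟨⟨a, ha⟩, h⟩
    refine ⟨hcard, ?_⟩
    obtain ⟨p, hp, hpd⟩ := Nat.exists_prime_and_dvd (n := Nat.card A) (by omega)
    have hfp : Fact p.Prime := ⟨hp⟩
    obtain ⟨a, ha⟩ := exists_prime_orderOf_dvd_card' (G := A) p hpd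
    have h1 : Nat.card (Subgroup.zpowers (a : G)) = p := by
      rw [Nat.card_zpowers, Subgroup.orderOf_coe, ha]
    rcases primitive hA _ hH (Subgroup.zpowers (a : G)) (hbot ▸ bot_le)
      ((Subgroup.zpowers_le).2 a.2) with h | h
    · rw [h, hbot, Subgroup.card_bot] at h1
      exact absurd (h1 ▸ hp) Nat.not_prime_one
    · rw [h, hcard] at h1
      rw [h1]
      exact hp
  · exfalso
    push Not at hinv
    obtain ⟨t, htA, ht, ht1⟩ := hinv
    rcases count B htr2 x hq t htA ht ht1 with h | h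
    · exact hA.2.1 h
    · exact not_two_odd (G := A) hodd (by omega) h

end abstr

section mat

variable {F : Type*} [Field F]

def inf (F : Type*) [Field F] : ℙ F (Fin 2 → F) :=
  Projectivization.mk F ![1, 0] (fun h => by simpa using congrFun h 0)

def tri (a b : F) (ha : a ≠ 0) : SL(2, F) :=
  ⟨!![a, b; 0, a⁻¹], by simp [Matrix.det_fin_two, ha]⟩

lemma fix_iff (M : SL(2, F)) (v : Fin 2 → F) (hv : v ≠ 0) :
    ((M : PSL(2, F)) • Projectivization.mk F v hv = Projectivization.mk F v hv) ↔
      ∃ c : F, c * v 0 = M 0 0 * v 0 + M 0 1 * v 1 ∧ c * v 1 = M 1 0 * v 0 + M 1 1 * v 1 := by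
  rw [Matrix.ProjectiveSpecialLinearGroup.smul_proj_mk, Projectivization.smul_mk,
    Projectivization.mk_eq_mk_iff']
  have hs : ∀ i, (M • v) i = M i 0 * v 0 + M i 1 * v 1 := by
    intro i
    change (Matrix.mulVec (M : Matrix (Fin 2) (Fin 2) F) v) i = _
    simp [Matrix.mulVec, dotProduct, Fin.sum_univ_two]
  constructor
  · rintro ⟨c, hc⟩
    by_cases hc0 : c = 0
    · exfalso
      rw [hc0, zero_smul] at hc
      apply hv
      have := congrArg (fun w => M⁻¹ • w) hc
      simpa using this.symm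
    · refine ⟨c, ?_, ?_⟩
      · rw [← hs, ← hc]
        rfl
      · rw [← hs, ← hc]
        rfl
  · rintro ⟨c, h0, h1⟩
    refine ⟨c, ?_⟩
    funext i
    fin_cases i
    · exact h0.trans (hs 0).symm
    · exact h1.trans (hs 1).symm

lemma fix_inf (M : SL(2, F)) : ((M : PSL(2, F)) • inf F = inf F) ↔ M 1 0 = 0 := by
  rw [inf, fix_iff]
  simp only [Matrix.cons_val_zero, Matrix.cons_val_one, mul_one, mul_zero, add_zero]
  constructor
  · rintro ⟨c, -, h⟩
    exact h.symm
  · intro h
    exact ⟨M 0 0, rfl, h.symm⟩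

lemma tri_fix (a b : F) (ha : a ≠ 0) : (tri a b ha : PSL(2, F)) • inf F = inf F := by
  rw [fix_inf]
  rfl

lemma exists_tri (g : PSL(2, F)) (h : g • inf F = inf F) :
    ∃ (a b : F) (ha : a ≠ 0), g = (tri a b ha : PSL(2, F)) := by
  obtain ⟨M, rfl⟩ := QuotientGroup.mk_surjective g
  have h1 : M 1 0 = 0 := (fix_inf M).1 h
  have h2 : M 0 0 * M 1 1 = 1 := by
    have := M.det_coe
    rw [Matrix.det_fin_two, h1, mul_zero, sub_zero] at this
    exact this
  have h3 : M 0 0 ≠ 0 := left_ne_zero_of_mul_eq_one h2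
  refine ⟨M 0 0, M 0 1, h3, ?_⟩
  have h4 : M = tri (M 0 0) (M 0 1) h3 := by
    ext i j
    fin_cases i <;> fin_cases j
    · rfl
    · rfl
    · exact h1
    · exact (eq_inv_of_mul_eq_one_right h2)
  exact congrArg _ h4

lemma ne_inf {v : Fin 2 → F} {hv : v ≠ 0} (h : Projectivization.mk F v hv ≠ inf F) :
    v 1 ≠ 0 := by
  intro h1
  apply h
  rw [inf, Projectivization.mk_eq_mk_iff']
  refine ⟨v 0, ?_⟩
  funext i
  fin_cases i
  · simp
  · simp [h1]

lemma fix_tri (a b : F) (ha : a ≠ 0) (v : Fin 2 → F) (hv : v ≠ 0) (h1 : v 1 ≠ 0) :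
    ((tri a b ha : PSL(2, F)) • Projectivization.mk F v hv = Projectivization.mk F v hv) ↔
      a * v 0 + b * v 1 = a⁻¹ * v 0 := by
  rw [fix_iff]
  have e00 : (tri a b ha) 0 0 = a := rfl
  have e01 : (tri a b ha) 0 1 = b := rfl
  have e10 : (tri a b ha) 1 0 = 0 := rfl
  have e11 : (tri a b ha) 1 1 = a⁻¹ := rfl
  rw [e00, e01, e10, e11]
  constructor
  · rintro ⟨c, h2, h3⟩
    rw [zero_mul, zero_add] at h3
    have h4 : c = a⁻¹ := mul_right_cancel₀ h1 h3
    rw [← h2, h4]
  · intro h
    exact ⟨a⁻¹, h.symm, by rw [zero_mul, zero_add]⟩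

lemma tri_mul (a b c d : F) (ha : a ≠ 0) (hc : c ≠ 0) :
    (tri a b ha : PSL(2, F)) * (tri c d hc : PSL(2, F)) =
      (tri (a * c) (a * d + b * c⁻¹) (mul_ne_zero ha hc) : PSL(2, F)) := by
  have : tri a b ha * tri c d hc = tri (a * c) (a * d + b * c⁻¹) (mul_ne_zero ha hc) := by
    apply Subtype.ext
    change !![a, b; 0, a⁻¹] * !![c, d; 0, c⁻¹] = !![a * c, a * d + b * c⁻¹; 0, (a * c)⁻¹]
    rw [Matrix.mul_fin_two, mul_inv]
    simp
  rw [← this]
  rfl

lemma tri_one : (tri (1 : F) 0 one_ne_zero : PSL(2, F)) = 1 := by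
  have : tri (1 : F) 0 one_ne_zero = 1 := by
    ext i j
    fin_cases i <;> fin_cases j <;> simp [tri]
  rw [this]
  rfl

lemma tri_inv (a b : F) (ha : a ≠ 0) :
    (tri a b ha : PSL(2, F))⁻¹ = (tri a⁻¹ (-b) (inv_ne_zero ha) : PSL(2, F)) := by
  rw [inv_eq_iff_mul_eq_one, tri_mul, ← tri_one]
  congr 1
  ext i j
  fin_cases i <;> fin_cases j <;> simp [tri, ha, mul_comm]

variable [CharP F 2]

lemma sq_one {r : F} (h : r * r = 1) : r = 1 := by
  rcases mul_self_eq_one_iff.1 h with h | h
  · exact h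
  · rw [h, CharTwo.neg_eq]

lemma coe_inj {M N : SL(2, F)} (h : (M : PSL(2, F)) = (N : PSL(2, F))) : M = N := by
  have h1 : M⁻¹ * N ∈ Subgroup.center SL(2, F) := QuotientGroup.eq.1 h
  rw [Matrix.SpecialLinearGroup.mem_center_iff] at h1
  obtain ⟨r, hr, h2⟩ := h1
  rw [Fintype.card_fin, pow_two] at hr
  rw [sq_one hr, map_one] at h2
  have h3 : M⁻¹ * N = 1 := by
    apply Subtype.ext
    exact h2.symm
  exact (inv_mul_eq_one.1 h3)

lemma tri_inj {a b c d : F} {ha : a ≠ 0} {hc : c ≠ 0}
    (h : (tri a b ha : PSL(2, F)) = (tri c d hc : PSL(2, F))) : a = c ∧ b = d := by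
  have h1 := coe_inj h
  constructor
  · have := congrArg (fun M : SL(2, F) => M 0 0) h1
    exact this
  · have := congrArg (fun M : SL(2, F) => M 0 1) h1
    exact this

lemma tri_sq (a b : F) (ha : a ≠ 0) :
    ((tri a b ha : PSL(2, F)) * (tri a b ha : PSL(2, F)) = 1) ↔ a = 1 := by
  rw [tri_mul, ← tri_one]
  constructor
  · intro h
    exact sq_one (tri_inj h).1
  · rintro rfl
    congr 2
    · simp
    · simp [CharTwo.add_self_eq_zero]

lemma three_inf (g : PSL(2, F)) (y z : ℙ F (Fin 2 → F)) (hg : g • inf F = inf F)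
    (hy : g • y = y) (hz : g • z = z) (hyi : y ≠ inf F) (hzi : z ≠ inf F) (hyz : y ≠ z) :
    g = 1 := by
  obtain ⟨a, b, ha, rfl⟩ := exists_tri g hg
  induction y using Projectivization.ind with | h v hv =>
  induction z using Projectivization.ind with | h w hw =>
  have hv1 := ne_inf hyi
  have hw1 := ne_inf hzi
  rw [fix_tri a b ha v hv hv1] at hy
  rw [fix_tri a b ha w hw hw1] at hz
  have h1 : v 0 * w 1 - w 0 * v 1 ≠ 0 := by
    intro h
    apply hyz
    rw [Projectivization.mk_eq_mk_iff']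
    refine ⟨v 1 / w 1, ?_⟩
    funext i
    fin_cases i
    · simp only [Fin.zero_eta, Pi.smul_apply, smul_eq_mul]
      field_simp
      linear_combination -h
    · simp only [Fin.mk_one, Pi.smul_apply, smul_eq_mul]
      field_simp
  have h2 : (a - a⁻¹) * (v 0 * w 1 - w 0 * v 1) = 0 := by
    linear_combination w 1 * hy - v 1 * hz
  have h3 : a - a⁻¹ = 0 := (mul_eq_zero.1 h2).resolve_right h1
  have h4 : a = 1 := by
    apply sq_one
    have h5 : a = a⁻¹ := sub_eq_zero.1 h3
    nth_rw 2 [h5]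
    exact mul_inv_cancel₀ ha
  subst h4
  have h5 : b = 0 := by
    have : b * v 1 = 0 := by
      rw [inv_one] at hy
      linear_combination hy
    exact (mul_eq_zero.1 this).resolve_right hv1
  subst h5
  exact tri_one

lemma inv_two_inf (g : PSL(2, F)) (y : ℙ F (Fin 2 → F)) (hgg : g * g = 1)
    (hg : g • inf F = inf F) (hy : g • y = y) (hyi : y ≠ inf F) : g = 1 := by
  obtain ⟨a, b, ha, rfl⟩ := exists_tri g hg
  induction y using Projectivization.ind with | h v hv =>
  have hv1 := ne_inf hyi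
  rw [fix_tri a b ha v hv hv1] at hy
  have h4 := (tri_sq a b ha).1 hgg
  subst h4
  have h5 : b = 0 := by
    have : b * v 1 = 0 := by
      rw [inv_one] at hy
      linear_combination hy
    exact (mul_eq_zero.1 this).resolve_right hv1
  subst h5
  exact tri_one

lemma one_fix_inf (g : PSL(2, F)) (hg : g • inf F = inf F)
    (h : ∀ y : ℙ F (Fin 2 → F), g • y = y → y = inf F) : g * g = 1 := by
  obtain ⟨a, b, ha, rfl⟩ := exists_tri g hg
  rw [tri_sq]
  by_contra ha1
  have h1 : a⁻¹ - a ≠ 0 := by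
    intro h2
    apply ha1
    apply sq_one
    have h5 : a⁻¹ = a := sub_eq_zero.1 h2
    nth_rw 1 [← h5]
    exact inv_mul_cancel₀ ha
  have hv : (![b, a⁻¹ - a] : Fin 2 → F) ≠ 0 := fun h2 => h1 (by simpa using congrFun h2 1)
  have h2 := h (Projectivization.mk F ![b, a⁻¹ - a] hv) (by
    rw [fix_tri a b ha _ hv (by simpa using h1)]
    simp only [Matrix.cons_val_zero, Matrix.cons_val_one]
    ring)
  rw [inf, Projectivization.mk_eq_mk_iff'] at h2
  obtain ⟨c, hc⟩ := h2
  have := congrFun hc 1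
  simp at this
  exact h1 this.symm

lemma comm_inf (g h : PSL(2, F)) (hg : g • inf F = inf F) (hh : h • inf F = inf F) :
    (g * h * g⁻¹ * h⁻¹) * (g * h * g⁻¹ * h⁻¹) = 1 := by
  obtain ⟨a, b, ha, rfl⟩ := exists_tri g hg
  obtain ⟨c, d, hc, rfl⟩ := exists_tri h hh
  rw [tri_inv, tri_inv, tri_mul, tri_mul, tri_mul, tri_sq]
  field_simp

lemma cent_inf (g t : PSL(2, F)) (hg : g • inf F = inf F) (ht : t • inf F = inf F)
    (htt : t * t = 1) (ht1 : t ≠ 1) (h : g * t = t * g) : g * g = 1 := by
  obtain ⟨a, b, ha, rfl⟩ := exists_tri g hg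
  obtain ⟨c, d, hc, rfl⟩ := exists_tri t ht
  have h1 := (tri_sq c d hc).1 htt
  subst h1
  have hd : d ≠ 0 := by
    rintro rfl
    exact ht1 tri_one
  rw [tri_mul, tri_mul] at h
  have h2 := (tri_inj h).2
  rw [tri_sq]
  apply sq_one
  have h3 : (a - a⁻¹) * d = 0 := by
    rw [inv_one] at h2
    linear_combination h2
  have h5 : a = a⁻¹ := sub_eq_zero.1 ((mul_eq_zero.1 h3).resolve_right hd)
  nth_rw 2 [h5]
  exact mul_inv_cancel₀ ha

lemma mul_inf (g h : PSL(2, F)) (hg : g • inf F = inf F) (hh : h • inf F = inf F)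
    (hgg : g * g = 1) (hhh : h * h = 1) : (g * h) * (g * h) = 1 := by
  obtain ⟨a, b, ha, rfl⟩ := exists_tri g hg
  obtain ⟨c, d, hc, rfl⟩ := exists_tri h hh
  have h1 := (tri_sq c d hc).1 hhh
  subst h1
  have h2 := (tri_sq a b ha).1 hgg
  subst h2
  rw [tri_mul, tri_sq, one_mul]

lemma inv_fix (g : PSL(2, F)) (hgg : g * g = 1) : ∃ x : ℙ F (Fin 2 → F), g • x = x := by
  obtain ⟨M, rfl⟩ := QuotientGroup.mk_surjective g
  have h1 : M * M = 1 := coe_inj hgg
  have h2 : !![M 0 0, M 0 1; M 1 0, M 1 1] * !![M 0 0, M 0 1; M 1 0, M 1 1] =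
      (1 : Matrix (Fin 2) (Fin 2) F) := by
    have h3 := congrArg (fun N : SL(2, F) => (N : Matrix (Fin 2) (Fin 2) F)) h1
    simp only [Matrix.SpecialLinearGroup.coe_mul, Matrix.SpecialLinearGroup.coe_one] at h3
    rw [← h3, ← Matrix.eta_fin_two]
  rw [Matrix.mul_fin_two, Matrix.one_fin_two] at h2
  have e00 : M 0 0 * M 0 0 + M 0 1 * M 1 0 = 1 := by simpa using congrFun (congrFun h2 0) 0
  have e11 : M 1 0 * M 0 1 + M 1 1 * M 1 1 = 1 := by simpa using congrFun (congrFun h2 1) 1
  have hd : M 0 0 * M 1 1 - M 0 1 * M 1 0 = 1 := by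
    have := M.det_coe
    rwa [Matrix.det_fin_two] at this
  have h2F : (2 : F) = 0 := CharTwo.two_eq_zero
  have h4 : (M 0 0 + M 1 1) * (M 0 0 + M 1 1) = 0 := by
    linear_combination e00 + e11 + (M 0 0 * M 1 1 - M 0 1 * M 1 0 + 1) * h2F
  have h5 : M 0 0 + M 1 1 = 0 := mul_self_eq_zero.1 h4
  obtain ⟨v, hv, hMv⟩ : ∃ v : Fin 2 → F, v ≠ 0 ∧
      (!![M 0 0 + 1, M 0 1; M 1 0, M 1 1 + 1] : Matrix (Fin 2) (Fin 2) F).mulVec v = 0 := by
    rw [Matrix.exists_mulVec_eq_zero_iff, Matrix.det_fin_two_of]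
    linear_combination hd + h5 + h2F
  refine ⟨Projectivization.mk F v hv, (fix_iff M v hv).2 ⟨1, ?_, ?_⟩⟩
  · have h6 := congrFun hMv 0
    simp [Matrix.mulVec, dotProduct, Fin.sum_univ_two] at h6
    linear_combination -h6 + v 0 * h2F
  · have h6 := congrFun hMv 1
    simp [Matrix.mulVec, dotProduct, Fin.sum_univ_two] at h6
    linear_combination -h6 + v 1 * h2F

lemma pre (x y : ℙ F (Fin 2 → F)) : ∃ g : PSL(2, F), g • x = y :=
  MulAction.exists_smul_eq PSL(2, F) x y

/-- Reduction to the point `inf`. -/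
lemma to_inf (x : ℙ F (Fin 2 → F)) : ∃ c : PSL(2, F), c • x = inf F ∧
    ∀ (g : PSL(2, F)) (y : ℙ F (Fin 2 → F)), g • y = y ↔ (c * g * c⁻¹) • (c • y) = c • y := by
  obtain ⟨c, hc⟩ := pre x (inf F)
  refine ⟨c, hc, fun g y => ?_⟩
  rw [mul_smul, mul_smul, inv_smul_smul]
  exact ⟨fun h => by rw [h], fun h => smul_left_cancel c h⟩

omit [CharP F 2] in
lemma cj (c g h : PSL(2, F)) : (c * g * c⁻¹) * (c * h * c⁻¹) = c * (g * h) * c⁻¹ := by group

omit [CharP F 2] in
lemma cj1 (c g : PSL(2, F)) : c * g * c⁻¹ = 1 ↔ g = 1 := by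
  rw [mul_inv_eq_one]
  exact ⟨fun h => mul_left_cancel (h.trans (mul_one c).symm), fun h => by rw [h, mul_one]⟩

variable [Finite F]

lemma conj_one (s : PSL(2, F)) (hs : s * s = 1) (hs1 : s ≠ 1) :
    ∃ g : PSL(2, F), g * s * g⁻¹ = (tri (1 : F) 1 one_ne_zero : PSL(2, F)) := by
  obtain ⟨x, hx⟩ := inv_fix s hs
  obtain ⟨c, hc, hcg⟩ := to_inf x
  have h1 : (c * s * c⁻¹) • inf F = inf F := by
    rw [← hc]
    exact (hcg s x).1 hx
  obtain ⟨a, b, ha, h2⟩ := exists_tri _ h1
  have h3 : a = 1 := by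
    rw [← tri_sq a b ha, ← h2, cj, hs]
    group
  subst h3
  have hb : b ≠ 0 := by
    rintro rfl
    rw [tri_one, cj1] at h2
    exact hs1 h2
  obtain ⟨r, hr⟩ := FiniteField.isSquare_of_char_two (ringChar.eq F 2) b⁻¹
  have hr0 : r ≠ 0 := by
    rintro rfl
    rw [mul_zero] at hr
    exact inv_ne_zero hb hr
  refine ⟨(tri r 0 hr0 : PSL(2, F)) * c, ?_⟩
  rw [show (tri r 0 hr0 : PSL(2, F)) * c * s * ((tri r 0 hr0 : PSL(2, F)) * c)⁻¹ =
    (tri r 0 hr0 : PSL(2, F)) * (c * s * c⁻¹) * (tri r 0 hr0 : PSL(2, F))⁻¹ by group, h2,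
    tri_inv, tri_mul, tri_mul]
  have e1 : r * 1 * r⁻¹ = 1 := by field_simp
  have e2 : r * 1 * -0 + (r * b + 0 * 1⁻¹) * r⁻¹⁻¹ = 1 := by
    rw [inv_inv]
    have : b * (r * r) = 1 := by rw [← hr, mul_inv_cancel₀ hb]
    linear_combination this
  congr 2

theorem bend (hF : 4 ≤ Nat.card F) : Bend PSL(2, F) (ℙ F (Fin 2 → F)) (Nat.card F) where
  three := by
    intro g x y z hx hy hz hxy hxz hyz
    obtain ⟨c, hc, h⟩ := to_inf x
    rw [h] at hx hy hz
    rw [← cj1 c]
    rw [hc] at hx
    refine three_inf _ (c • y) (c • z) hx hy hz ?_ ?_ ?_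
    · rw [← hc]
      exact fun h => hxy (smul_left_cancel c h).symm
    · rw [← hc]
      exact fun h => hxz (smul_left_cancel c h).symm
    · exact fun h => hyz (smul_left_cancel c h)
  inv_fix := inv_fix
  inv_two := by
    intro g x y hgg hx hy hxy
    obtain ⟨c, hc, h⟩ := to_inf x
    rw [h] at hx hy
    rw [hc] at hx
    rw [← cj1 c]
    refine inv_two_inf _ (c • y) ?_ hx hy ?_
    · rw [cj, cj1, hgg]
    · rw [← hc]
      exact fun h => hxy (smul_left_cancel c h).symm
  one_fix := by
    intro g x hx hy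
    obtain ⟨c, hc, h⟩ := to_inf x
    rw [h, hc] at hx
    have h1 := one_fix_inf _ hx (fun y hy' => by
      have h2 := (h g (c⁻¹ • y)).2 (by rw [smul_inv_smul]; exact hy')
      rw [← hc, ← hy _ h2, smul_inv_smul])
    rwa [cj, cj1] at h1
  comm := by
    intro g k x hg hk
    obtain ⟨c, hc, h⟩ := to_inf x
    rw [h, hc] at hg hk
    have h1 := comm_inf _ _ hg hk
    rw [← cj1 c]
    rw [← h1]
    group
  cent := by
    intro g t x hg ht htt ht1 hgt
    obtain ⟨c, hc, h⟩ := to_inf x
    rw [h, hc] at hg ht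
    have h1 := cent_inf _ _ hg ht (by rw [cj, cj1, htt]) (by rw [Ne, cj1]; exact ht1)
      (by rw [cj, cj, hgt])
    rwa [cj, cj1] at h1
  mul := by
    intro g k x hg hk hgg hkk
    obtain ⟨c, hc, h⟩ := to_inf x
    rw [h, hc] at hg hk
    have h1 := mul_inf _ _ hg hk (by rw [cj, cj1, hgg]) (by rw [cj, cj1, hkk])
    rwa [cj, cj, cj1] at h1
  conj := by
    intro s t hs ht hs1 ht1
    obtain ⟨g, hg⟩ := conj_one s hs hs1
    obtain ⟨k, hk⟩ := conj_one t ht ht1
    refine ⟨k⁻¹ * g, ?_⟩
    rw [show k⁻¹ * g * s * (k⁻¹ * g)⁻¹ = k⁻¹ * (g * s * g⁻¹) * k by group, hg, ← hk]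
    group
  cardU := by
    intro x
    obtain ⟨c, hc, h⟩ := to_inf x
    apply Nat.card_congr
    symm
    refine Equiv.ofBijective (fun b : F => ⟨c⁻¹ * (tri 1 b one_ne_zero : PSL(2, F)) * c, ?_, ?_⟩)
      ⟨?_, ?_⟩
    · rw [mul_smul, mul_smul, hc, tri_fix, ← hc, inv_smul_smul]
    · rw [show c⁻¹ * (tri 1 b one_ne_zero : PSL(2, F)) * c *
        (c⁻¹ * (tri 1 b one_ne_zero : PSL(2, F)) * c) = c⁻¹ *
        ((tri 1 b one_ne_zero : PSL(2, F)) * (tri 1 b one_ne_zero : PSL(2, F))) * c by group,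
        (tri_sq 1 b one_ne_zero).2 rfl]
      group
    · intro a b hab
      have h1 := congrArg Subtype.val hab
      exact (tri_inj (mul_left_cancel (mul_right_cancel h1))).2
    · rintro ⟨g, hg1, hg2⟩
      have hg3 := (h g x).1 hg1
      rw [hc] at hg3
      obtain ⟨a, b, ha, h2⟩ := exists_tri _ hg3
      have h3 : a = 1 := by
        rw [← tri_sq a b ha, ← h2, cj, hg2]
        group
      subst h3
      refine ⟨b, Subtype.ext ?_⟩
      change c⁻¹ * (tri 1 b one_ne_zero : PSL(2, F)) * c = g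
      rw [← h2]
      group
  cardH := by
    intro x
    obtain ⟨c, hc, h⟩ := to_inf x
    rw [mul_comm, ← Nat.card_units, ← Nat.card_prod]
    let f : Fˣ × F → stabilizer PSL(2, F) x := fun p =>
      ⟨c⁻¹ * (tri (p.1 : F) p.2 p.1.ne_zero : PSL(2, F)) * c, by
        rw [mem_stabilizer_iff, mul_smul, mul_smul, hc, tri_fix, ← hc, inv_smul_smul]⟩
    apply Nat.card_le_card_of_surjective f
    rintro ⟨g, hg1⟩
    have hg3 := (h g x).1 hg1
    rw [hc] at hg3
    obtain ⟨a, b, ha, h2⟩ := exists_tri _ hg3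
    refine ⟨(Units.mk0 a ha, b), Subtype.ext ?_⟩
    change c⁻¹ * (tri a b ha : PSL(2, F)) * c = g
    rw [← h2]
    group
  cardH' := by
    intro x
    have hfin : Finite PSL(2, F) := finite_psl
    obtain ⟨c, hc, h⟩ := to_inf x
    obtain ⟨a, ha, ha2⟩ := field_cond hF
    let f : Option F → stabilizer PSL(2, F) x := fun p => match p with
      | none => ⟨c⁻¹ * (tri a 0 ha : PSL(2, F)) * c, by
        rw [mem_stabilizer_iff, mul_smul, mul_smul, hc, tri_fix, ← hc, inv_smul_smul]⟩
      | some b => ⟨c⁻¹ * (tri 1 b one_ne_zero : PSL(2, F)) * c, by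
        rw [mem_stabilizer_iff, mul_smul, mul_smul, hc, tri_fix, ← hc, inv_smul_smul]⟩
    have hf : Function.Injective f := by
      intro p p' hpp
      have h1 := congrArg Subtype.val hpp
      rcases p with _ | p <;> rcases p' with _ | p'
      · rfl
      · exfalso
        have h2 := (tri_inj (mul_left_cancel (mul_right_cancel h1))).1
        exact ha2 (by rw [h2, one_pow])
      · exfalso
        have h2 := (tri_inj (mul_left_cancel (mul_right_cancel h1))).1
        exact ha2 (by rw [← h2, one_pow])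
      · exact congrArg some (tri_inj (mul_left_cancel (mul_right_cancel h1))).2
    have h2 := Nat.card_le_card_of_injective f hf
    rw [Finite.card_option] at h2
    exact h2
  cardX := Projectivization.card_of_finrank_two F (Fin 2 → F) (by simp)
  pre := pre

theorem even_min (hF : 4 ≤ Nat.card F) : minIndex PSL(2, F) = Nat.card F + 1 := by
  have hfin : Finite PSL(2, F) := finite_psl
  have hs : IsSimpleGroup PSL(2, F) := Matrix.ProjectiveSpecialLinearGroup.rank_two_simple hF
  obtain ⟨H, hH⟩ := exists_index (F := F)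
  apply le_antisymm
  · refine Nat.sInf_le ⟨H, ?_, hH⟩
    rintro rfl
    rw [Subgroup.index_top] at hH
    omega
  · obtain ⟨Y, hY, hYi⟩ := exists_minIndex (X := PSL(2, F))
    rw [← hYi]
    exact index_ge (bend hF) (by omega) (inf F) Y hY

theorem even_member (hF : 4 ≤ Nat.card F) {A : Subgroup PSL(2, F)} (hA : InS A) :
    Nat.card A = Nat.card F + 1 ∧ (Nat.card F + 1).Prime := by
  have hfin : Finite PSL(2, F) := finite_psl
  have hs : IsSimpleGroup PSL(2, F) := Matrix.ProjectiveSpecialLinearGroup.rank_two_simple hF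
  have hodd : Odd (Nat.card F + 1) := by
    have : Fintype F := Fintype.ofFinite F
    have h1 := FiniteField.even_card_of_char_two (ringChar.eq F 2)
    rw [← Nat.card_eq_fintype_card] at h1
    exact (Nat.even_iff.2 h1).add_one
  exact member (bend hF) hF hodd (inf F) (even_min hF) hA

end mat

end Pool.Agent.MP_4ddb19_al.Even
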