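import Pool.Agent.Lib.MP_4ddb19_al.Basic

/-!
# Wide subgroups of finite simple groups: structure
-/

namespace Pool.Agent.MP_4ddb19_al

open Subgroup MulAction

set_option linter.unusedSectionVars false

variable {G : Type*} [Group G] [Finite G] [IsSimpleGroup G]

lemma faithful_of_ne_top (H : Subgroup G) (hH : H ≠ ⊤) : FaithfulSMul G (G ⧸ H) := by
  have hc : H.normalCore = ⊥ := by
    rcases (inferInstance : H.normalCore.Normal).eq_bot_or_eq_top with h | h
    · exact h
    · exact absurd (top_le_iff.mp (h ▸ H.normalCore_le)) hH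
  constructor
  intro g g' h
  have : g'⁻¹ * g ∈ H.normalCore := by
    rw [Subgroup.normalCore_eq_ker, MonoidHom.mem_ker]
    ext x
    change (g'⁻¹ * g) • x = x
    rw [mul_smul, h x, inv_smul_smul]
  rw [hc, Subgroup.mem_bot, inv_mul_eq_one] at this
  exact this.symm

lemma ne_top_of_index (H : Subgroup G) (hH : H.index = minIndex G) : H ≠ ⊤ := by
  obtain ⟨Y, hY, hYi⟩ := exists_minIndex (X := G)
  rintro rfl
  rw [Subgroup.index_top] at hH
  rw [← hYi] at hH
  exact hY (Subgroup.index_eq_one.mp hH.symm)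

variable {A : Subgroup G} (hA : InS A) (H : Subgroup G) (hH : H.index = minIndex G)

include hA hH

/-- `A` is transitive on the cosets of `H`. -/
lemma trans (v w : G ⧸ H) : ∃ a ∈ A, a • v = w := by
  have := faithful_of_ne_top H (ne_top_of_index H hH)
  obtain ⟨a, haA, ha⟩ : ∃ a ∈ A, a ≠ 1 := by
    by_contra hcon
    push Not at hcon
    exact hA.1 ((Subgroup.eq_bot_iff_forall A).mpr hcon)
  obtain ⟨u, hu⟩ : ∃ u : G ⧸ H, a • u ≠ u := by
    by_contra hcon
    push Not at hcon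
    apply ha
    apply FaithfulSMul.eq_of_smul_eq_smul (α := G ⧸ H)
    intro u
    rw [hcon u, one_smul]
  have h1 : stabilizer A u ≠ ⊤ := by
    intro h
    have : (⟨a, haA⟩ : A) ∈ stabilizer A u := by rw [h]; trivial
    exact hu this
  have h2 := minIndex_le _ h1
  rw [MulAction.index_stabilizer, hA.2.2, ← hH] at h2
  have h3 : orbit A u = Set.univ :=
    Set.eq_of_subset_of_ncard_le (Set.subset_univ _) (by rw [Set.ncard_univ]; exact h2)
      (Set.toFinite _)
  obtain ⟨b, hb⟩ : v ∈ orbit A u := by rw [h3]; trivial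
  obtain ⟨c, hc⟩ : w ∈ orbit A u := by rw [h3]; trivial
  have hb' : (b : G) • u = v := hb
  have hc' : (c : G) • u = w := hc
  refine ⟨(c : G) * (b : G)⁻¹, A.mul_mem c.2 (A.inv_mem b.2), ?_⟩
  rw [← hb', mul_smul, inv_smul_smul (b : G) u, hc']

lemma exists_mul (g : G) : ∃ a ∈ A, ∃ h ∈ H, a * h = g := by
  obtain ⟨a, ha, h⟩ := trans hA H hH ((1 : G) : G ⧸ H) (g : G ⧸ H)
  refine ⟨a, ha, a⁻¹ * g, ?_, by group⟩
  rw [← QuotientGroup.eq, ← h]
  change (a : G ⧸ H) = ((a * 1 : G) : G ⧸ H)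
  rw [mul_one]

lemma exists_mul' (g : G) : ∃ a ∈ A, ∃ h ∈ H, h * a = g := by
  obtain ⟨a, ha, h, hh, e⟩ := exists_mul hA H hH g⁻¹
  refine ⟨a⁻¹, A.inv_mem ha, h⁻¹, H.inv_mem hh, ?_⟩
  rw [← mul_inv_rev, e, inv_inv]

lemma index_subgroupOf (B : Subgroup G) (hAB : A ≤ B) :
    (H.subgroupOf B).index = minIndex G := by
  have h1 : H.subgroupOf B = stabilizer B ((1 : G) : G ⧸ H) := by
    ext x
    rw [Subgroup.mem_subgroupOf, MulAction.mem_stabilizer_iff]
    change (x : G) ∈ H ↔ (((x : G) * 1 : G) : G ⧸ H) = ((1 : G) : G ⧸ H)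
    rw [mul_one, eq_comm, QuotientGroup.eq, inv_one, one_mul]
  rw [h1, MulAction.index_stabilizer, ← hH]
  have h2 : orbit B ((1 : G) : G ⧸ H) = Set.univ := by
    rw [Set.eq_univ_iff_forall]
    intro v
    obtain ⟨a, ha, e⟩ := trans hA H hH ((1 : G) : G ⧸ H) v
    exact ⟨⟨a, hAB ha⟩, e⟩
  rw [h2, Set.ncard_univ]
  rfl

/-- `A ⊓ H` is maximal in `A`. -/
lemma primitive (K : Subgroup G) (h1 : A ⊓ H ≤ K) (h2 : K ≤ A) : K = A ⊓ H ∨ K = A := by
  by_cases hK : K = A
  · exact Or.inr hK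
  left
  have h3 : K.subgroupOf A ≠ ⊤ := by
    intro h
    apply hK
    exact le_antisymm h2 (Subgroup.subgroupOf_eq_top.mp h)
  have h4 := minIndex_le _ h3
  rw [hA.2.2] at h4
  have h5 : (A ⊓ H).relIndex K * K.relIndex A = (A ⊓ H).relIndex A :=
    Subgroup.relIndex_mul_relIndex _ _ _ h1 h2
  have h6 : (A ⊓ H).relIndex A = minIndex G := by
    rw [Subgroup.inf_relIndex_left]
    exact index_subgroupOf hA H hH A le_rfl
  have h7 : K.relIndex A = (K.subgroupOf A).index := rfl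
  have h8 : (K.subgroupOf A).index ≠ 0 := Subgroup.index_ne_zero_of_finite
  have h9 : (A ⊓ H).relIndex K ≠ 0 := by
    have : (A ⊓ H).relIndex K = ((A ⊓ H).subgroupOf K).index := rfl
    rw [this]
    exact Subgroup.index_ne_zero_of_finite
  rw [h6, h7] at h5
  have h10 : (A ⊓ H).relIndex K = 1 := by
    by_contra h
    have : 2 ≤ (A ⊓ H).relIndex K := by omega
    nlinarith [Nat.pos_of_ne_zero h8]
  exact le_antisymm (Subgroup.relIndex_eq_one.mp h10) h1

lemma not_le : ¬ A ≤ H := by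
  intro h
  apply ne_top_of_index H hH
  rw [eq_top_iff]
  intro g _
  obtain ⟨a, ha, x, hx, rfl⟩ := exists_mul hA H hH g
  exact H.mul_mem (h ha) hx

/-- A subgroup normalised by `A` and contained in `H` is trivial. -/
lemma eq_bot_of_le (N : Subgroup G) (hN : ∀ b ∈ A, ∀ x ∈ N, b * x * b⁻¹ ∈ N) (hNH : N ≤ H) :
    N = ⊥ := by
  have hc : H.normalCore = ⊥ := by
    rcases (inferInstance : H.normalCore.Normal).eq_bot_or_eq_top with h | h
    · exact h
    · exact absurd (top_le_iff.mp (h ▸ H.normalCore_le)) (ne_top_of_index H hH)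
  rw [eq_bot_iff, ← hc]
  intro x hx
  change ∀ g : G, g * x * g⁻¹ ∈ H
  intro g
  obtain ⟨a, ha, h, hh, rfl⟩ := exists_mul' hA H hH g
  have : h * a * x * (h * a)⁻¹ = h * (a * x * a⁻¹) * h⁻¹ := by group
  rw [this]
  exact H.mul_mem (H.mul_mem hh (hNH (hN a ha x hx))) (H.inv_mem hh)

/-- A nontrivial subgroup normalised by `A` generates, with the point stabiliser, every group
between. -/
lemma exists_mul_of_normal (B N : Subgroup G) (hAB : A ≤ B) (hNB : N ≤ B)
    (hN : ∀ b ∈ B, ∀ x ∈ N, b * x * b⁻¹ ∈ N) (hN1 : N ≠ ⊥) (b : G) (hb : b ∈ B) :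
    ∃ x ∈ N, ∃ s ∈ B ⊓ H, x * s = b := by
  have hNH : ¬ N ≤ H := by
    intro h
    exact hN1 (eq_bot_of_le hA H hH N (fun a ha x hx => hN a (hAB ha) x hx) h)
  obtain ⟨y, hyN, hyH⟩ := SetLike.not_le_iff_exists.mp hNH
  -- the product set `N (B ⊓ H)` is a subgroup
  let K : Subgroup G :=
    { carrier := {g | ∃ x ∈ N, ∃ s ∈ B ⊓ H, x * s = g}
      one_mem' := ⟨1, N.one_mem, 1, Subgroup.one_mem _, by simp⟩
      mul_mem' := by
        rintro _ _ ⟨x, hx, s, hs, rfl⟩ ⟨x', hx', s', hs', rfl⟩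
        refine ⟨x * (s * x' * s⁻¹), N.mul_mem hx (hN s hs.1 x' hx'), s * s',
          Subgroup.mul_mem _ hs hs', by group⟩
      inv_mem' := by
        rintro _ ⟨x, hx, s, hs, rfl⟩
        refine ⟨s⁻¹ * x⁻¹ * s, ?_, s⁻¹, Subgroup.inv_mem _ hs, by group⟩
        have := hN s⁻¹ (B.inv_mem hs.1) x⁻¹ (N.inv_mem hx)
        rwa [inv_inv] at this }
  have hKm : ∀ g, g ∈ K ↔ ∃ x ∈ N, ∃ s ∈ B ⊓ H, x * s = g := fun g => Iff.rfl
  have hsK : B ⊓ H ≤ K := fun s hs => (hKm s).mpr ⟨1, N.one_mem, s, hs, by simp⟩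
  have hNK : N ≤ K := fun x hx => (hKm x).mpr ⟨x, hx, 1, Subgroup.one_mem _, by simp⟩
  rcases primitive hA H hH (K ⊓ A) (le_inf ((inf_le_inf_right H hAB).trans hsK) inf_le_left)
    inf_le_right with h | h
  · exfalso
    obtain ⟨a, ha, h0, hh, e⟩ := exists_mul hA H hH y
    have h1 : h0 ∈ B ⊓ H := by
      refine ⟨?_, hh⟩
      have : h0 = a⁻¹ * y := by rw [← e]; group
      rw [this]
      exact B.mul_mem (B.inv_mem (hAB ha)) (hNB hyN)
    have h2 : a ∈ K := by
      have : a = y * h0⁻¹ := by rw [← e]; group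
      rw [this]
      exact K.mul_mem (hNK hyN) (K.inv_mem (hsK h1))
    have h3 : a ∈ A ⊓ H := by rw [← h]; exact ⟨h2, ha⟩
    apply hyH
    rw [← e]
    exact H.mul_mem h3.2 hh
  · have hAK : A ≤ K := by rw [← h]; exact inf_le_left
    obtain ⟨a, ha, h0, hh, e⟩ := exists_mul hA H hH b
    have h1 : h0 ∈ B ⊓ H := by
      refine ⟨?_, hh⟩
      have : h0 = a⁻¹ * b := by rw [← e]; group
      rw [this]
      exact B.mul_mem (B.inv_mem (hAB ha)) hb
    rw [← hKm, ← e]
    exact K.mul_mem (hAK ha) (hsK h1)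

/-- **Main lemma.** If `A ≤ B`, every nontrivial normal subgroup of `B` contains `A`. -/
theorem le_of_normal (B N : Subgroup G) (hAB : A ≤ B) (hNB : N ≤ B)
    (hN : ∀ b ∈ B, ∀ x ∈ N, b * x * b⁻¹ ∈ N) (hN1 : N ≠ ⊥) : A ≤ N := by
  by_contra hAN
  have := faithful_of_ne_top H (ne_top_of_index H hH)
  have hfaith : FaithfulSMul B (G ⧸ H) := by
    constructor
    intro x y h
    apply Subtype.ext
    exact FaithfulSMul.eq_of_smul_eq_smul (α := G ⧸ H) h
  set N' : Subgroup B := N.subgroupOf B with hN'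
  have hnorm : N'.Normal := by
    constructor
    intro x hx b
    rw [hN', Subgroup.mem_subgroupOf] at hx ⊢
    exact hN b b.2 x hx
  set p : B →* B ⧸ N' := QuotientGroup.mk' N' with hp
  set Q : Subgroup (B ⧸ N') := (A.subgroupOf B).map p with hQ
  have hQnt : Nontrivial Q := by
    rw [Subgroup.nontrivial_iff_ne_bot]
    intro h
    apply hAN
    intro a ha
    have h1 : p ⟨a, hAB ha⟩ ∈ Q := ⟨⟨a, hAB ha⟩, ha, rfl⟩
    rw [h, Subgroup.mem_bot, hp, QuotientGroup.mk'_apply, QuotientGroup.eq_one_iff, hN',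
      Subgroup.mem_subgroupOf] at h1
    exact h1
  -- the subgroup of `B ⊓ H` mapping onto `Q`
  set K : Subgroup B := H.subgroupOf B ⊓ Q.comap p with hK
  let φ : K →* Q := (p.comp K.subtype).codRestrict Q (fun k => (k.2.2 : (k : B) ∈ Q.comap p))
  have hφ : Function.Surjective φ := by
    rintro ⟨_, a, ha, rfl⟩
    obtain ⟨x, hx, s, hs, e⟩ := exists_mul_of_normal hA H hH B N hAB hNB hN hN1 a a.2
    have hps : p ⟨s, hs.1⟩ = p a := by
      rw [hp, QuotientGroup.mk'_apply, QuotientGroup.mk'_apply, QuotientGroup.eq, hN',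
        Subgroup.mem_subgroupOf]
      change s⁻¹ * (a : G) ∈ N
      rw [← e]
      have := hN s⁻¹ (B.inv_mem hs.1) x hx
      rwa [inv_inv, mul_assoc] at this
    refine ⟨⟨⟨s, hs.1⟩, ?_⟩, ?_⟩
    · refine ⟨hs.2, ?_⟩
      change p ⟨s, hs.1⟩ ∈ Q
      rw [hps]
      exact ⟨a, ha, rfl⟩
    · apply Subtype.ext
      exact hps
  have h1 := key (X := B) (Ω := G ⧸ H) ((1 : G) : G ⧸ H) (Nat.card K) K le_rfl ?_ φ hφ
  · -- `n(A) ≤ n(Q)`
    let ψ : A →* Q :=
      { toFun := fun a => ⟨p ⟨a, hAB a.2⟩, ⟨⟨a, hAB a.2⟩, a.2, rfl⟩⟩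
        map_one' := by
          apply Subtype.ext
          exact map_one p
        map_mul' := by
          intro a b
          apply Subtype.ext
          exact map_mul p ⟨a, hAB a.2⟩ ⟨b, hAB b.2⟩ }
    have hψ : Function.Surjective ψ := by
      rintro ⟨_, a, ha, rfl⟩
      exact ⟨⟨a, ha⟩, rfl⟩
    have h2 := minIndex_le_of_surjective ψ hψ
    have h3 : Nat.card (G ⧸ H) = H.index := rfl
    rw [hA.2.2] at h2
    omega
  · intro k hk
    have : (k : G) ∈ H := hk.1
    change (((k : G) * 1 : G) : G ⧸ H) = ((1 : G) : G ⧸ H)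
    rw [mul_one, eq_comm, QuotientGroup.eq, inv_one, one_mul]
    exact this

/-- `A` is simple. -/
theorem isSimple : IsSimpleGroup A := by
  have : Nontrivial A := (Subgroup.nontrivial_iff_ne_bot A).mpr hA.1
  constructor
  intro M hM
  by_cases h : M = ⊥
  · exact Or.inl h
  right
  have h1 : A ≤ M.map A.subtype := by
    refine le_of_normal hA H hH A (M.map A.subtype) le_rfl ?_ ?_ ?_
    · rintro _ ⟨x, _, rfl⟩
      exact x.2
    · rintro b hb _ ⟨x, hx, rfl⟩
      exact ⟨⟨b, hb⟩ * x * ⟨b, hb⟩⁻¹, hM.conj_mem x hx ⟨b, hb⟩, rfl⟩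
    · rw [Ne, Subgroup.map_eq_bot_iff_of_injective _ A.subtype_injective]
      exact h
  rw [eq_top_iff]
  intro a _
  obtain ⟨x, hx, e⟩ := h1 a.2
  have : x = a := Subtype.ext e
  rwa [← this]

omit [Finite G] [IsSimpleGroup G] hA hH in
/-- conjugate of a subgroup -/
lemma mem_conj (N : Subgroup G) (b x : G) :
    x ∈ N.map (MulAut.conj b).toMonoidHom ↔ b⁻¹ * x * b ∈ N := by
  constructor
  · rintro ⟨y, hy, rfl⟩
    have : b⁻¹ * ((MulAut.conj b).toMonoidHom y) * b = y := by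
      change b⁻¹ * (b * y * b⁻¹) * b = y
      group
    rwa [this]
  · intro h
    refine ⟨b⁻¹ * x * b, h, ?_⟩
    change b * (b⁻¹ * x * b) * b⁻¹ = x
    group

/-- The smallest nontrivial normal subgroup of a subgroup `B` containing `A`: it contains `A`, is
normal in `B`, is contained in each nontrivial normal subgroup of `B`, is simple and has
`n(M) = n(G)`. -/
theorem exists_socle (B : Subgroup G) (hAB : A ≤ B) :
    ∃ M : Subgroup G, A ≤ M ∧ M ≤ B ∧ (∀ b ∈ B, ∀ x ∈ M, b * x * b⁻¹ ∈ M) ∧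
      (∀ N : Subgroup G, N ≤ B → (∀ b ∈ B, ∀ x ∈ N, b * x * b⁻¹ ∈ N) → N ≠ ⊥ → M ≤ N) ∧
      minIndex M = minIndex G := by
  set 𝒩 : Set (Subgroup G) := {N | N ≤ B ∧ (∀ b ∈ B, ∀ x ∈ N, b * x * b⁻¹ ∈ N) ∧ N ≠ ⊥}
    with h𝒩
  have hB1 : B ≠ ⊥ := fun h => hA.1 (le_bot_iff.mp (h ▸ hAB))
  have hB𝒩 : B ∈ 𝒩 := ⟨le_rfl, fun b hb x hx => B.mul_mem (B.mul_mem hb hx) (B.inv_mem hb), hB1⟩
  set M : Subgroup G := sInf 𝒩 with hM
  have hAM : A ≤ M := le_sInf fun N hN => le_of_normal hA H hH B N hAB hN.1 hN.2.1 hN.2.2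
  have hMB : M ≤ B := sInf_le hB𝒩
  have hMn : ∀ b ∈ B, ∀ x ∈ M, b * x * b⁻¹ ∈ M := by
    intro b hb x hx
    rw [hM, Subgroup.mem_sInf] at hx ⊢
    intro N hN
    exact hN.2.1 b hb x (hx N hN)
  have hMmin : ∀ N : Subgroup G, N ≤ B → (∀ b ∈ B, ∀ x ∈ N, b * x * b⁻¹ ∈ N) → N ≠ ⊥ → M ≤ N :=
    fun N h1 h2 h3 => sInf_le ⟨h1, h2, h3⟩
  -- every nontrivial normal subgroup of `M` is `M`
  have hsimple : ∀ N : Subgroup G, N ≤ M → (∀ b ∈ M, ∀ x ∈ N, b * x * b⁻¹ ∈ N) → N ≠ ⊥ →
      M ≤ N := by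
    intro N hNM hN hN1
    let N' : Subgroup G :=
      { carrier := {x | ∀ b ∈ B, b * x * b⁻¹ ∈ N}
        one_mem' := by
          intro b _
          simp
        mul_mem' := by
          intro x y hx hy b hb
          have : b * (x * y) * b⁻¹ = (b * x * b⁻¹) * (b * y * b⁻¹) := by group
          rw [this]
          exact N.mul_mem (hx b hb) (hy b hb)
        inv_mem' := by
          intro x hx b hb
          have : b * x⁻¹ * b⁻¹ = (b * x * b⁻¹)⁻¹ := by group
          rw [this]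
          exact N.inv_mem (hx b hb) }
    have hN'm : ∀ x, x ∈ N' ↔ ∀ b ∈ B, b * x * b⁻¹ ∈ N := fun x => Iff.rfl
    have hN'N : N' ≤ N := by
      intro x hx
      have := (hN'm x).mp hx 1 B.one_mem
      simpa using this
    have hN'n : ∀ b ∈ B, ∀ x ∈ N', b * x * b⁻¹ ∈ N' := by
      intro b hb x hx
      rw [hN'm] at hx ⊢
      intro c hc
      have : c * (b * x * b⁻¹) * c⁻¹ = (c * b) * x * (c * b)⁻¹ := by group
      rw [this]
      exact hx _ (B.mul_mem hc hb)
    have hAN' : A ≤ N' := by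
      intro a ha
      rw [hN'm]
      intro b hb
      have h1 : A ≤ N.map (MulAut.conj b⁻¹).toMonoidHom := by
        refine le_of_normal hA H hH M _ hAM ?_ ?_ ?_
        · intro x hx
          rw [mem_conj, inv_inv] at hx
          have := hMn b⁻¹ (B.inv_mem hb) _ (hNM hx)
          have e : b⁻¹ * (b * x * b⁻¹) * b⁻¹⁻¹ = x := by group
          rwa [e] at this
        · intro c hc x hx
          rw [mem_conj, inv_inv] at hx ⊢
          have e : b * (c * x * c⁻¹) * b⁻¹ = (b * c * b⁻¹) * (b * x * b⁻¹) * (b * c * b⁻¹)⁻¹ := by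
            group
          rw [e]
          exact hN _ (hMn b hb c hc) _ hx
        · rw [Ne, Subgroup.map_eq_bot_iff_of_injective _ (MulAut.conj b⁻¹).injective]
          exact hN1
      have := h1 ha
      rwa [mem_conj, inv_inv] at this
    have hN'1 : N' ≠ ⊥ := fun h => hA.1 (le_bot_iff.mp (h ▸ hAN'))
    exact (hMmin N' (hN'N.trans (hNM.trans hMB)) hN'n hN'1).trans hN'N
  refine ⟨M, hAM, hMB, hMn, hMmin, ?_⟩
  have hM1 : M ≠ ⊥ := fun h => hA.1 (le_bot_iff.mp (h ▸ hAM))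
  have : Nontrivial M := (Subgroup.nontrivial_iff_ne_bot M).mpr hM1
  apply le_antisymm
  · have h1 : H.subgroupOf M ≠ ⊤ := by
      intro h
      exact not_le hA H hH (hAM.trans (Subgroup.subgroupOf_eq_top.mp h))
    have h2 := minIndex_le _ h1
    rwa [index_subgroupOf hA H hH M hAM] at h2
  · obtain ⟨Y, hY, hYi⟩ := exists_minIndex (X := M)
    by_contra hlt
    push Not at hlt
    apply hY
    -- `A` is contained in the normal core of `Y`
    have hcore : A.subgroupOf M ≤ Y.normalCore := by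
      intro a ha
      change ∀ m : M, m * a * m⁻¹ ∈ Y
      intro m
      have h1 : A.subgroupOf M ≤ Y.map (MulAut.conj m⁻¹).toMonoidHom := by
        set Z : Subgroup M := Y.map (MulAut.conj m⁻¹).toMonoidHom with hZ
        have hZi : Z.index = Y.index := by
          rw [hZ]
          exact Subgroup.index_map_equiv Y (MulAut.conj m⁻¹)
        rw [← Subgroup.subgroupOf_eq_top]
        by_contra hne
        have h2 := minIndex_le _ hne
        have h3 : minIndex (A.subgroupOf M) = minIndex G := by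
          rw [← hA.2.2]
          have : Nontrivial A := (Subgroup.nontrivial_iff_ne_bot A).mpr hA.1
          have e := Subgroup.subgroupOfEquivOfLe hAM
          have : Nontrivial (A.subgroupOf M) := e.toEquiv.nontrivial
          exact le_antisymm (minIndex_le_of_surjective e.toMonoidHom e.surjective)
            (minIndex_le_of_surjective e.symm.toMonoidHom e.symm.surjective)
        have h4 : (Z.subgroupOf (A.subgroupOf M)).index ≤ Z.index := by
          have h5 : Z.relIndex (A.subgroupOf M) ≤ Z.relIndex ⊤ := by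
            apply Subgroup.relIndex_le_of_le_right le_top
            rw [Subgroup.relIndex_top_right]
            exact Subgroup.index_ne_zero_of_finite
          rwa [Subgroup.relIndex_top_right] at h5
        omega
      have := h1 ha
      rw [mem_conj, inv_inv] at this
      exact this
    have h2 : M ≤ Y.normalCore.map M.subtype := by
      apply hsimple
      · rintro _ ⟨x, _, rfl⟩
        exact x.2
      · rintro b hb _ ⟨x, hx, rfl⟩
        exact ⟨⟨b, hb⟩ * x * ⟨b, hb⟩⁻¹,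
          (Subgroup.normalCore_normal Y).conj_mem x hx ⟨b, hb⟩, rfl⟩
      · intro h
        apply hA.1
        rw [eq_bot_iff, ← h]
        intro a ha
        exact ⟨⟨a, hAM ha⟩, hcore ha, rfl⟩
    rw [eq_top_iff]
    intro y _
    obtain ⟨x, hx, e⟩ := h2 y.2
    have : x = y := Subtype.ext e
    rw [← this]
    exact Y.normalCore_le hx

end Pool.Agent.MP_4ddb19_al
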