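import Pool.Agent.Lib.MP_4ddb19_al.Main

/-!
# MP_4ddb19_al: `PSL_2(q)` has no wide subgroups for odd `q >= 13`

`minIndex X` is `n(X)`, `InS A` says that `A` belongs to the set S(G) of the problem, and
`IsWide A` says that `A` is wide in `G` (file `Lib/MP_4ddb19_al/Defs.lean`).

`OBend` and `TBend` list the properties of the action of `G = PSL_2(q)` on the projective line
which are used, for `q = 1` and `q = 3` modulo `4`. In the first case a count of involutions
(Bender) is used, in the second the nonsplit tori `{g : Tor s g}`, one for each involution `s`.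
-/

namespace Pool.Agent.MP_4ddb19_al.Odd

open Subgroup MulAction Pool.Agent.MP_4ddb19_al
open scoped MatrixGroups LinearAlgebra.Projectivization Pointwise

set_option linter.unusedSectionVars false

/-- `g` is `1` or fixes only the point `x`. -/
def Uni {G X : Type*} [Group G] [MulAction G X] (x : X) (g : G) : Prop :=
  g • x = x ∧ (g ≠ 1 → ∀ y : X, g • y = y → y = x)

/-- `g` is in the nonsplit torus of the involution `s`. -/
def Tor {G : Type*} [Group G] (s g : G) : Prop :=
  g * s = s * g ∧ (g * g = 1 → g = 1 ∨ g = s)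

/-- The properties of the action of `G = PSL_2(q)` on the projective line `X`, `q = 1` modulo `4`,
which are used below. -/
structure OBend (G X : Type*) [Group G] [MulAction G X] (q : ℕ) : Prop where
  three : ∀ (g : G) (x y z : X), g • x = x → g • y = y → g • z = z → x ≠ y → x ≠ z → y ≠ z →
    g = 1
  inv_fix : ∀ g : G, g * g = 1 → ∃ x : X, g • x = x
  inv_two : ∀ (g : G) (x : X), g * g = 1 → g ≠ 1 → g • x = x → ∃ y : X, g • y = y ∧ y ≠ x
  swap : ∀ (g : G) (x y : X), g • x = y → g • y = x → x ≠ y → g * g = 1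
  comm : ∀ (g h : G) (x : X), g • x = x → h • x = x → Uni x (g * h * g⁻¹ * h⁻¹)
  mul : ∀ (g h : G) (x : X), Uni x g → Uni x h → Uni x (g * h)
  cent : ∀ (g u : G) (x : X), g • x = x → Uni x u → u ≠ 1 → g * u = u * g → Uni x g
  inv_mul : ∀ (g h : G) (x : X), g • x = x → h • x = x → g * g = 1 → h * h = 1 → g ≠ 1 → h ≠ 1 →
    Uni x (g * h)
  inv_uni : ∀ (g u : G) (x : X), g • x = x → g * g = 1 → g ≠ 1 → Uni x u →
    (g * u) * (g * u) = 1
  cardU : ∀ x : X, Nat.card {g : G // Uni x g} = q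
  cardH : ∀ x : X, 2 * Nat.card (stabilizer G x) = q * (q - 1)
  cardX : Nat.card X = q + 1
  pre : ∀ x y : X, ∃ g : G, g • x = y

/-- The properties of the action of `G = PSL_2(q)` on the projective line `X`, `q = 3` modulo `4`,
which are used below. -/
structure TBend (G X : Type*) [Group G] [MulAction G X] (q : ℕ) : Prop where
  three : ∀ (g : G) (x y z : X), g • x = x → g • y = y → g • z = z → x ≠ y → x ≠ z → y ≠ z →
    g = 1
  swap : ∀ (g : G) (x y : X), g • x = y → g • y = x → x ≠ y → g * g = 1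
  comm : ∀ (g h : G) (x : X), g • x = x → h • x = x → Uni x (g * h * g⁻¹ * h⁻¹)
  mul : ∀ (g h : G) (x : X), Uni x g → Uni x h → Uni x (g * h)
  cent : ∀ (g u : G) (x : X), g • x = x → Uni x u → u ≠ 1 → g * u = u * g → Uni x g
  cardU : ∀ x : X, Nat.card {g : G // Uni x g} = q
  cardH : ∀ x : X, 2 * Nat.card (stabilizer G x) = q * (q - 1)
  cardX : Nat.card X = q + 1
  pre : ∀ x y : X, ∃ g : G, g • x = y
  inv_free : ∀ (g : G) (x : X), g * g = 1 → g • x = x → g = 1
  ex_tor : ∀ g : G, (∀ x : X, g • x ≠ x) → ∃ s : G, s * s = 1 ∧ s ≠ 1 ∧ Tor s g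
  tor_uniq : ∀ g s s' : G, g ≠ 1 → s * s = 1 → s ≠ 1 → s' * s' = 1 → s' ≠ 1 → Tor s g →
    Tor s' g → s = s'
  tor_free : ∀ (g s : G) (x : X), s * s = 1 → s ≠ 1 → Tor s g → g • x = x → g = 1
  tor_mul : ∀ g h s : G, s * s = 1 → s ≠ 1 → Tor s g → Tor s h → Tor s (g * h)
  tor_mul' : ∀ g h s : G, s * s = 1 → s ≠ 1 → g * s = s * g → h * s = s * h → ¬ Tor s g →
    ¬ Tor s h → Tor s (g * h)

section mat

variable {F : Type*} [Field F]

def inf (F : Type*) [Field F] : ℙ F (Fin 2 → F) :=
  Projectivization.mk F ![1, 0] (fun h => by simpa using congrFun h 0)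

def tri (a b : F) (ha : a ≠ 0) : SL(2, F) :=
  ⟨!![a, b; 0, a⁻¹], by simp [Matrix.det_fin_two, ha]⟩

lemma fix_iff (M : SL(2, F)) (v : Fin 2 → F) (hv : v ≠ 0) :
    ((M : PSL(2, F)) • Projectivization.mk F v hv = Projectivization.mk F v hv) ↔
      ∃ c : F, c * v 0 = M 0 0 * v 0 + M 0 1 * v 1 ∧ c * v 1 = M 1 0 * v 0 + M 1 1 * v 1 := by
  rw [Matrix.ProjectiveSpecialLinearGroup.smul_proj_mk, Projectivization.smul_mk,
    Projectivization.mk_eq_mk_iff']
  have hs : ∀ i, (M • v) i = M i 0 * v 0 + M i 1 * v 1 := by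
    intro i
    change (Matrix.mulVec (M : Matrix (Fin 2) (Fin 2) F) v) i = _
    simp [Matrix.mulVec, dotProduct, Fin.sum_univ_two]
  constructor
  · rintro ⟨c, hc⟩
    by_cases hc0 : c = 0
    · exfalso
      rw [hc0, zero_smul] at hc
      apply hv
      have := congrArg (fun w => M⁻¹ • w) hc
      simpa using this.symm
    · refine ⟨c, ?_, ?_⟩
      · rw [← hs, ← hc]
        rfl
      · rw [← hs, ← hc]
        rfl
  · rintro ⟨c, h0, h1⟩
    refine ⟨c, ?_⟩
    funext i
    fin_cases i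
    · exact h0.trans (hs 0).symm
    · exact h1.trans (hs 1).symm

lemma fix_inf (M : SL(2, F)) : ((M : PSL(2, F)) • inf F = inf F) ↔ M 1 0 = 0 := by
  rw [inf, fix_iff]
  simp only [Matrix.cons_val_zero, Matrix.cons_val_one, mul_one, mul_zero, add_zero]
  constructor
  · rintro ⟨c, -, h⟩
    exact h.symm
  · intro h
    exact ⟨M 0 0, rfl, h.symm⟩

lemma tri_fix (a b : F) (ha : a ≠ 0) : (tri a b ha : PSL(2, F)) • inf F = inf F := by
  rw [fix_inf]
  rfl

lemma exists_tri (g : PSL(2, F)) (h : g • inf F = inf F) :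
    ∃ (a b : F) (ha : a ≠ 0), g = (tri a b ha : PSL(2, F)) := by
  obtain ⟨M, rfl⟩ := QuotientGroup.mk_surjective g
  have h1 : M 1 0 = 0 := (fix_inf M).1 h
  have h2 : M 0 0 * M 1 1 = 1 := by
    have := M.det_coe
    rw [Matrix.det_fin_two, h1, mul_zero, sub_zero] at this
    exact this
  have h3 : M 0 0 ≠ 0 := left_ne_zero_of_mul_eq_one h2
  refine ⟨M 0 0, M 0 1, h3, ?_⟩
  have h4 : M = tri (M 0 0) (M 0 1) h3 := by
    ext i j
    fin_cases i <;> fin_cases j
    · rfl
    · rfl
    · exact h1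
    · exact (eq_inv_of_mul_eq_one_right h2)
  exact congrArg _ h4

lemma ne_inf {v : Fin 2 → F} {hv : v ≠ 0} (h : Projectivization.mk F v hv ≠ inf F) :
    v 1 ≠ 0 := by
  intro h1
  apply h
  rw [inf, Projectivization.mk_eq_mk_iff']
  refine ⟨v 0, ?_⟩
  funext i
  fin_cases i
  · simp
  · simp [h1]

lemma fix_tri (a b : F) (ha : a ≠ 0) (v : Fin 2 → F) (hv : v ≠ 0) (h1 : v 1 ≠ 0) :
    ((tri a b ha : PSL(2, F)) • Projectivization.mk F v hv = Projectivization.mk F v hv) ↔
      a * v 0 + b * v 1 = a⁻¹ * v 0 := by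
  rw [fix_iff]
  have e00 : (tri a b ha) 0 0 = a := rfl
  have e01 : (tri a b ha) 0 1 = b := rfl
  have e10 : (tri a b ha) 1 0 = 0 := rfl
  have e11 : (tri a b ha) 1 1 = a⁻¹ := rfl
  rw [e00, e01, e10, e11]
  constructor
  · rintro ⟨c, h2, h3⟩
    rw [zero_mul, zero_add] at h3
    have h4 : c = a⁻¹ := mul_right_cancel₀ h1 h3
    rw [← h2, h4]
  · intro h
    exact ⟨a⁻¹, h.symm, by rw [zero_mul, zero_add]⟩

lemma tri_mul (a b c d : F) (ha : a ≠ 0) (hc : c ≠ 0) :
    (tri a b ha : PSL(2, F)) * (tri c d hc : PSL(2, F)) =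
      (tri (a * c) (a * d + b * c⁻¹) (mul_ne_zero ha hc) : PSL(2, F)) := by
  have : tri a b ha * tri c d hc = tri (a * c) (a * d + b * c⁻¹) (mul_ne_zero ha hc) := by
    apply Subtype.ext
    change !![a, b; 0, a⁻¹] * !![c, d; 0, c⁻¹] = !![a * c, a * d + b * c⁻¹; 0, (a * c)⁻¹]
    rw [Matrix.mul_fin_two, mul_inv]
    simp
  rw [← this]
  rfl

lemma tri_one : (tri (1 : F) 0 one_ne_zero : PSL(2, F)) = 1 := by
  have : tri (1 : F) 0 one_ne_zero = 1 := by
    ext i j
    fin_cases i <;> fin_cases j <;> simp [tri]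
  rw [this]
  rfl

lemma tri_inv (a b : F) (ha : a ≠ 0) :
    (tri a b ha : PSL(2, F))⁻¹ = (tri a⁻¹ (-b) (inv_ne_zero ha) : PSL(2, F)) := by
  rw [inv_eq_iff_mul_eq_one, tri_mul, ← tri_one]
  congr 1
  ext i j
  fin_cases i <;> fin_cases j <;> simp [tri, ha, mul_comm]

lemma pre (x y : ℙ F (Fin 2 → F)) [Finite F] : ∃ g : PSL(2, F), g • x = y :=
  MulAction.exists_smul_eq PSL(2, F) x y

/-- Reduction to the point `inf`. -/
lemma to_inf [Finite F] (x : ℙ F (Fin 2 → F)) : ∃ c : PSL(2, F), c • x = inf F ∧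
    ∀ (g : PSL(2, F)) (y : ℙ F (Fin 2 → F)), g • y = y ↔ (c * g * c⁻¹) • (c • y) = c • y := by
  obtain ⟨c, hc⟩ := pre x (inf F)
  refine ⟨c, hc, fun g y => ?_⟩
  rw [mul_smul, mul_smul, inv_smul_smul]
  exact ⟨fun h => by rw [h], fun h => smul_left_cancel c h⟩

lemma cj (c g h : PSL(2, F)) : (c * g * c⁻¹) * (c * h * c⁻¹) = c * (g * h) * c⁻¹ := by group

lemma cj1 (c g : PSL(2, F)) : c * g * c⁻¹ = 1 ↔ g = 1 := by
  rw [mul_inv_eq_one]
  exact ⟨fun h => mul_left_cancel (h.trans (mul_one c).symm), fun h => by rw [h, mul_one]⟩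

/-- `tri (-a) (-b)` and `tri a b` agree in `PSL_2(F)`. -/
lemma pc_neg (a b : F) (ha : a ≠ 0) :
    (tri (-a) (-b) (neg_ne_zero.2 ha) : PSL(2, F)) = (tri a b ha : PSL(2, F)) := by
  apply QuotientGroup.eq.2
  rw [Matrix.SpecialLinearGroup.mem_center_iff]
  refine ⟨-1, by simp, ?_⟩
  have h1 : (tri (-a) (-b) (neg_ne_zero.2 ha))⁻¹ * tri a b ha =
      ⟨!![-1, 0; 0, -1], by simp [Matrix.det_fin_two]⟩ := by
    refine inv_mul_eq_iff_eq_mul.2 ?_
    apply Subtype.ext
    change !![a, b; 0, a⁻¹] = !![-a, -b; 0, (-a)⁻¹] * !![-1, 0; 0, -1]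
    rw [Matrix.mul_fin_two, inv_neg]
    simp
  rw [h1]
  ext i j
  fin_cases i <;> fin_cases j <;> simp [Matrix.scalar_apply]

/-- The powers of `tri 1 b`. -/
lemma pc_pow (b : F) (k : ℕ) : (tri 1 b one_ne_zero : PSL(2, F)) ^ k =
    (tri 1 (k * b) one_ne_zero : PSL(2, F)) := by
  induction k with
  | zero =>
    rw [pow_zero, ← tri_one]
    congr 1
    ext i j
    fin_cases i <;> fin_cases j <;> simp [tri]
  | succ k ih =>
    rw [pow_succ, ih, tri_mul]
    congr 1
    ext i j
    fin_cases i <;> fin_cases j <;> simp [tri]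
    ring

/-- Conjugation of `tri 1 b` by `tri a 0`. -/
lemma pc_conj (a b : F) (ha : a ≠ 0) :
    (tri a 0 ha : PSL(2, F)) * (tri 1 b one_ne_zero : PSL(2, F)) * (tri a 0 ha : PSL(2, F))⁻¹ =
      (tri 1 (a * a * b) one_ne_zero : PSL(2, F)) := by
  rw [mul_inv_eq_iff_eq_mul, tri_mul, tri_mul]
  congr 1
  ext i j
  fin_cases i <;> fin_cases j <;> simp [tri]
  field_simp

/-- A nontrivial element which fixes only `inf` is some `tri 1 b` with `b ≠ 0`. -/
lemma pc_uni (g : PSL(2, F)) (hg : Uni (inf F) g) (hg1 : g ≠ 1) :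
    ∃ b : F, b ≠ 0 ∧ g = (tri 1 b one_ne_zero : PSL(2, F)) := by
  obtain ⟨a, b, ha, rfl⟩ := exists_tri g hg.1
  have haa : a * a = 1 := by
    by_contra hne
    have h1 : a⁻¹ - a ≠ 0 := by
      intro h
      apply hne
      have h0 : a⁻¹ = a := sub_eq_zero.1 h
      calc a * a = a * a⁻¹ := by rw [h0]
        _ = 1 := mul_inv_cancel₀ ha
    have hv : (![b / (a⁻¹ - a), 1] : Fin 2 → F) ≠ 0 := fun h => by simpa using congrFun h 1
    have ht : (a⁻¹ - a) * (b / (a⁻¹ - a)) = b := mul_div_cancel₀ b h1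
    have h2 := (fix_tri a b ha ![b / (a⁻¹ - a), 1] hv (by simp)).2 (by
      simp only [Matrix.cons_val_zero, Matrix.cons_val_one, mul_one]
      linear_combination (-1 : F) * ht)
    have h3 := hg.2 hg1 _ h2
    rw [inf, Projectivization.mk_eq_mk_iff'] at h3
    obtain ⟨c, hc⟩ := h3
    have := congrFun hc 1
    simp at this
  rcases mul_self_eq_one_iff.1 haa with rfl | rfl
  · refine ⟨b, ?_, rfl⟩
    rintro rfl
    exact hg1 tri_one
  · have h1 : (tri (-1) b ha : PSL(2, F)) = (tri 1 (-b) one_ne_zero : PSL(2, F)) := by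
      have := pc_neg (1 : F) (-b) one_ne_zero
      rw [← this]
      congr 1
      ext i j
      fin_cases i <;> fin_cases j <;> simp [tri]
    refine ⟨-b, ?_, h1⟩
    intro h
    apply hg1
    rw [h1, ← tri_one]
    congr 1
    ext i j
    fin_cases i <;> fin_cases j <;> simp [tri, h]

/-- In a finite field: `b / c` or `b / (n c)` is a square, if `n` is not a square. -/
lemma pc_square [Finite F] {n : F} (hn : ¬ IsSquare n) {b : F} (hb : b ≠ 0) :
    IsSquare b ∨ IsSquare (b * n) := by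
  classical
  have : Fintype F := Fintype.ofFinite F
  by_contra h
  push Not at h
  have hn0 : n ≠ 0 := by
    rintro rfl
    exact hn (IsSquare.zero)
  have h1 := (quadraticChar_neg_one_iff_not_isSquare (a := n)).2 hn
  have h2 := (quadraticChar_neg_one_iff_not_isSquare (a := b)).2 h.1
  have h3 : quadraticChar F (b * n) = 1 := by
    rw [map_mul, h1, h2]
    norm_num
  exact h.2 ((quadraticChar_one_iff_isSquare (mul_ne_zero hb hn0)).1 h3)

lemma pc_main [Finite F] (hn : ∃ n : ℕ, ¬ IsSquare (n : F)) (u v : PSL(2, F))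
    (hu : Uni (inf F) u) (hv : Uni (inf F) v) (hu1 : u ≠ 1) (hv1 : v ≠ 1) :
    ∃ (c : PSL(2, F)) (k l : ℕ), c * u ^ k * c⁻¹ = v ∧ (u ^ k) ^ l = u := by
  obtain ⟨b, hb, rfl⟩ := pc_uni u hu hu1
  obtain ⟨b', hb', rfl⟩ := pc_uni v hv hv1
  obtain ⟨n, hn⟩ := hn
  have hn0 : (n : F) ≠ 0 := by
    intro h
    rw [h] at hn
    exact hn (IsSquare.zero)
  have : Fintype F := Fintype.ofFinite F
  rcases pc_square hn (div_ne_zero hb' hb) with ⟨a, ha⟩ | ⟨a, ha⟩
  · have ha0 : a ≠ 0 := by
      rintro rfl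
      rw [mul_zero] at ha
      exact (div_ne_zero hb' hb) ha
    refine ⟨(tri a 0 ha0 : PSL(2, F)), 1, 1, ?_, by rw [pow_one, pow_one]⟩
    rw [pow_one, pc_conj, ← ha, div_mul_cancel₀ b' hb]
  · have ha0 : a ≠ 0 := by
      rintro rfl
      rw [mul_zero] at ha
      exact (mul_ne_zero (div_ne_zero hb' hb) hn0) ha
    have han : a / n ≠ 0 := div_ne_zero ha0 hn0
    refine ⟨(tri (a / n) 0 han : PSL(2, F)), n, n ^ (Fintype.card F - 2), ?_, ?_⟩
    · rw [pc_pow, pc_conj]
      have h1 : a / n * (a / n) * (n * b) = b' := by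
        have h2 : a / n * (a / n) * (n * b) = (a * a) / n * b := by
          field_simp
        rw [h2, ← ha, mul_div_assoc, div_self hn0, mul_one, div_mul_cancel₀ b' hb]
      rw [h1]
    · rw [pc_pow, pc_pow]
      have h1 : ((n ^ (Fintype.card F - 2) : ℕ) : F) * ((n : F) * b) = b := by
        have hc : 2 ≤ Fintype.card F := Fintype.one_lt_card
        push_cast
        rw [← mul_assoc, ← pow_succ, show Fintype.card F - 2 + 1 = Fintype.card F - 1 by omega,
          FiniteField.pow_card_sub_one_eq_one _ hn0, one_mul]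
      rw [h1]

lemma pc_uni_conj [Finite F] {x : ℙ F (Fin 2 → F)} {c : PSL(2, F)} (hc : c • x = inf F)
    (hh : ∀ (g : PSL(2, F)) (y : ℙ F (Fin 2 → F)), g • y = y ↔ (c * g * c⁻¹) • (c • y) = c • y)
    {g : PSL(2, F)} (hg : Uni x g) : Uni (inf F) (c * g * c⁻¹) := by
  refine ⟨?_, ?_⟩
  · rw [← hc]
    exact (hh g x).1 hg.1
  · intro h1 y hy
    have h2 : g ≠ 1 := fun h => h1 ((cj1 c g).2 h)
    have h3 : y = c • (c⁻¹ • y) := (smul_inv_smul c y).symm
    rw [h3] at hy
    have h4 := hg.2 h2 (c⁻¹ • y) ((hh g _).2 hy)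
    rw [h3, h4, hc]


variable [Finite F] (h2 : (2 : F) ≠ 0)
include h2


omit [Finite F] h2 in
lemma coe_eq (M N : SL(2, F)) : ((M : PSL(2, F)) = (N : PSL(2, F))) ↔
    ((∀ i j, N i j = M i j) ∨ (∀ i j, N i j = -M i j)) := by
  rw [QuotientGroup.eq, Matrix.SpecialLinearGroup.mem_center_iff]
  constructor
  · rintro ⟨r, hr, h⟩
    have h3 : (N : Matrix (Fin 2) (Fin 2) F) =
        (M : Matrix (Fin 2) (Fin 2) F) * Matrix.scalar (Fin 2) r := by
      rw [h, ← Matrix.SpecialLinearGroup.coe_mul, mul_inv_cancel_left]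
    have h4 : ∀ i j, N i j = M i j * r := by
      intro i j
      have h5 := congrFun (congrFun h3 i) j
      rw [Matrix.scalar_apply, Matrix.mul_diagonal] at h5
      exact h5
    have hr2 : r * r = 1 := by
      have : r ^ 2 = 1 := by simpa using hr
      rw [← this]; ring
    rcases mul_self_eq_one_iff.1 hr2 with h5 | h5
    · left
      intro i j
      rw [h4, h5, mul_one]
    · right
      intro i j
      rw [h4, h5, mul_neg, mul_one]
  · rintro (h | h)
    · refine ⟨1, by simp, ?_⟩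
      have h3 : N = M := by
        apply Subtype.ext
        apply Matrix.ext
        intro i j
        exact h i j
      rw [h3, inv_mul_cancel]
      ext i j
      simp [Matrix.scalar_apply, Matrix.diagonal_apply, Matrix.one_apply, apply_ite]
    · refine ⟨-1, by simp, ?_⟩
      have h3 : N = -M := by
        apply Subtype.ext
        apply Matrix.ext
        intro i j
        exact h i j
      rw [h3, mul_neg, inv_mul_cancel]
      ext i j
      simp [Matrix.scalar_apply, Matrix.diagonal_apply, Matrix.one_apply, apply_ite]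

/-- `tri a b` and `tri c d` agree in `PSL_2(F)` iff `(c, d) = ± (a, b)`. -/
lemma tri_eq {a b c d : F} {ha : a ≠ 0} {hc : c ≠ 0} :
    (tri a b ha : PSL(2, F)) = (tri c d hc : PSL(2, F)) ↔ (c = a ∧ d = b) ∨ (c = -a ∧ d = -b) := by
  rw [coe_eq]
  have e00 : (tri a b ha) 0 0 = a := rfl
  have e01 : (tri a b ha) 0 1 = b := rfl
  have e10 : (tri a b ha) 1 0 = 0 := rfl
  have e11 : (tri a b ha) 1 1 = a⁻¹ := rfl
  have f00 : (tri c d hc) 0 0 = c := rfl
  have f01 : (tri c d hc) 0 1 = d := rfl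
  have f10 : (tri c d hc) 1 0 = 0 := rfl
  have f11 : (tri c d hc) 1 1 = c⁻¹ := rfl
  constructor
  · rintro (h | h)
    · left
      exact ⟨by rw [← f00, h, e00], by rw [← f01, h, e01]⟩
    · right
      exact ⟨by rw [← f00, h, e00], by rw [← f01, h, e01]⟩
  · rintro (⟨h, h'⟩ | ⟨h, h'⟩)
    · left
      subst h h'
      exact fun i j => rfl
    · right
      subst h h'
      intro i j
      fin_cases i <;> fin_cases j
      · rfl
      · rfl
      · exact neg_zero.symm
      · exact inv_neg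


omit [Finite F] h2 in
lemma uni_cj [Finite F] (c g : PSL(2, F)) (x : ℙ F (Fin 2 → F)) :
    Uni x g ↔ Uni (c • x) (c * g * c⁻¹) := by
  have h : ∀ y : ℙ F (Fin 2 → F), g • y = y ↔ (c * g * c⁻¹) • (c • y) = c • y := by
    intro y
    rw [mul_smul, mul_smul, inv_smul_smul]
    exact ⟨fun h => by rw [h], fun h => smul_left_cancel c h⟩
  unfold Uni
  rw [← h x]
  have hn : c * g * c⁻¹ ≠ 1 ↔ g ≠ 1 := not_congr (cj1 c g)
  rw [hn]
  constructor
  · rintro ⟨h1, h3⟩
    refine ⟨h1, fun hg y hy => ?_⟩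
    have h4 := (h (c⁻¹ • y)).2 (by rw [smul_inv_smul]; exact hy)
    rw [← h3 hg _ h4, smul_inv_smul]
  · rintro ⟨h1, h3⟩
    refine ⟨h1, fun hg y hy => ?_⟩
    exact smul_left_cancel c (h3 hg (c • y) ((h y).1 hy))

lemma two_mul_ne {a : F} (ha : a ≠ 0) : -a ≠ a := by
  intro h
  apply mul_ne_zero h2 ha
  linear_combination -h

lemma tri_eq_one {a b : F} {ha : a ≠ 0} :
    (tri a b ha : PSL(2, F)) = 1 ↔ a * a = 1 ∧ b = 0 := by
  rw [← tri_one, eq_comm, tri_eq h2, mul_self_eq_one_iff]
  constructor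
  · rintro (⟨h, h'⟩ | ⟨h, h'⟩)
    · exact ⟨Or.inl h, h'⟩
    · exact ⟨Or.inr h, by rw [h', neg_zero]⟩
  · rintro ⟨h | h, h'⟩
    · exact Or.inl ⟨h, h'⟩
    · exact Or.inr ⟨h, by rw [h', neg_zero]⟩

lemma fix_of_ne (a b : F) (ha : a ≠ 0) (haa : a * a ≠ 1) :
    ∃ y : ℙ F (Fin 2 → F), (tri a b ha : PSL(2, F)) • y = y ∧ y ≠ inf F := by
  have h1 : a⁻¹ - a ≠ 0 := by
    intro h3
    apply haa
    have h5 : a⁻¹ = a := sub_eq_zero.1 h3
    nth_rw 1 [← h5]
    exact inv_mul_cancel₀ ha
  have hv : (![b, a⁻¹ - a] : Fin 2 → F) ≠ 0 := fun h2 => h1 (by simpa using congrFun h2 1)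
  refine ⟨Projectivization.mk F ![b, a⁻¹ - a] hv, ?_, ?_⟩
  · rw [fix_tri a b ha _ hv (by simpa using h1)]
    simp only [Matrix.cons_val_zero, Matrix.cons_val_one]
    ring
  · intro h3
    rw [inf, Projectivization.mk_eq_mk_iff'] at h3
    obtain ⟨c, hc⟩ := h3
    have := congrFun hc 1
    simp at this
    exact h1 this.symm

lemma inv_eq_self {a : F} (haa : a * a = 1) : a⁻¹ = a := inv_eq_of_mul_eq_one_right haa

lemma uni_inf {a b : F} {ha : a ≠ 0} :
    Uni (inf F) (tri a b ha : PSL(2, F)) ↔ a * a = 1 := by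
  constructor
  · rintro ⟨_, h⟩
    by_contra haa
    obtain ⟨y, hy, hyi⟩ := fix_of_ne h2 a b ha haa
    exact hyi (h (fun h1 => haa ((tri_eq_one h2).1 h1).1) y hy)
  · intro haa
    refine ⟨tri_fix a b ha, fun hg y hy => ?_⟩
    by_contra hyi
    induction y using Projectivization.ind with | h v hv =>
    have hv1 := ne_inf hyi
    rw [fix_tri a b ha v hv hv1, inv_eq_self h2 haa] at hy
    apply hg
    rw [tri_eq_one h2]
    refine ⟨haa, ?_⟩
    have : b * v 1 = 0 := by linear_combination hy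
    exact (mul_eq_zero.1 this).resolve_right hv1

lemma uni_inf' {g : PSL(2, F)} (hg : Uni (inf F) g) :
    ∃ b : F, g = (tri 1 b one_ne_zero : PSL(2, F)) := by
  obtain ⟨a, b, ha, rfl⟩ := exists_tri g hg.1
  have haa := (uni_inf h2).1 hg
  rcases mul_self_eq_one_iff.1 haa with h | h
  · subst h
    exact ⟨b, rfl⟩
  · subst h
    refine ⟨-b, ?_⟩
    rw [tri_eq h2]
    right
    exact ⟨by rw [neg_neg], rfl⟩

lemma tri_inv_iff {a b : F} {ha : a ≠ 0} (h1 : (tri a b ha : PSL(2, F)) ≠ 1) :
    ((tri a b ha : PSL(2, F)) * (tri a b ha : PSL(2, F)) = 1) ↔ a * a = -1 := by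
  rw [tri_mul, tri_eq_one h2]
  constructor
  · rintro ⟨h3, h4⟩
    rcases mul_self_eq_one_iff.1 h3 with h5 | h5
    · exfalso
      apply h1
      rw [tri_eq_one h2]
      refine ⟨h5, ?_⟩
      rw [inv_eq_self h2 h5] at h4
      have h6 : (2 * a) * b = 0 := by linear_combination h4
      exact (mul_eq_zero.1 h6).resolve_left (mul_ne_zero h2 ha)
    · exact h5
  · intro h3
    refine ⟨by rw [h3]; ring, ?_⟩
    have h4 : a⁻¹ = -a := inv_eq_of_mul_eq_one_right (by linear_combination -h3)
    rw [h4]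
    ring

/-- Reduction to the point `inf`. -/
lemma to_inf' (x : ℙ F (Fin 2 → F)) : ∃ c : PSL(2, F), c • x = inf F ∧
    ∀ g : PSL(2, F), (g • x = x ↔ (c * g * c⁻¹) • inf F = inf F) ∧
      (Uni x g ↔ Uni (inf F) (c * g * c⁻¹)) := by
  obtain ⟨c, hc, h⟩ := to_inf x
  refine ⟨c, hc, fun g => ⟨?_, ?_⟩⟩
  · rw [h g x, hc]
  · rw [uni_cj c g x, hc]

lemma three_inf (g : PSL(2, F)) (y z : ℙ F (Fin 2 → F)) (hg : g • inf F = inf F)
    (hy : g • y = y) (hz : g • z = z) (hyi : y ≠ inf F) (hzi : z ≠ inf F) (hyz : y ≠ z) :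
    g = 1 := by
  obtain ⟨a, b, ha, rfl⟩ := exists_tri g hg
  induction y using Projectivization.ind with | h v hv =>
  induction z using Projectivization.ind with | h w hw =>
  have hv1 := ne_inf hyi
  have hw1 := ne_inf hzi
  rw [fix_tri a b ha v hv hv1] at hy
  rw [fix_tri a b ha w hw hw1] at hz
  have h1 : v 0 * w 1 - w 0 * v 1 ≠ 0 := by
    intro h
    apply hyz
    rw [Projectivization.mk_eq_mk_iff']
    refine ⟨v 1 / w 1, ?_⟩
    funext i
    fin_cases i
    · simp only [Fin.zero_eta, Pi.smul_apply, smul_eq_mul]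
      field_simp
      linear_combination -h
    · simp only [Fin.mk_one, Pi.smul_apply, smul_eq_mul]
      field_simp
  have h2' : (a - a⁻¹) * (v 0 * w 1 - w 0 * v 1) = 0 := by
    linear_combination w 1 * hy - v 1 * hz
  have h3 : a - a⁻¹ = 0 := (mul_eq_zero.1 h2').resolve_right h1
  have h4 : a * a = 1 := by
    have h5 : a = a⁻¹ := sub_eq_zero.1 h3
    nth_rw 2 [h5]
    exact mul_inv_cancel₀ ha
  rw [tri_eq_one h2]
  refine ⟨h4, ?_⟩
  have : b * v 1 = 0 := by
    rw [inv_eq_self h2 h4] at hy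
    linear_combination hy
  exact (mul_eq_zero.1 this).resolve_right hv1

lemma trace_zero (M : SL(2, F)) (ht : M 0 0 + M 1 1 = 0) :
    (M : PSL(2, F)) * (M : PSL(2, F)) = 1 := by
  have h : ((M * M : SL(2, F)) : PSL(2, F)) = ((1 : SL(2, F)) : PSL(2, F)) := by
    rw [coe_eq]
    right
    have hd : M 0 0 * M 1 1 - M 0 1 * M 1 0 = 1 := by
      have := M.det_coe
      rwa [Matrix.det_fin_two] at this
    have hm : ∀ i j, (M * M) i j = M i 0 * M 0 j + M i 1 * M 1 j := by
      intro i j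
      change ((M : Matrix (Fin 2) (Fin 2) F) * (M : Matrix (Fin 2) (Fin 2) F)) i j = _
      rw [Matrix.mul_apply, Fin.sum_univ_two]
    have h1 : ∀ i j, (1 : SL(2, F)) i j = (1 : Matrix (Fin 2) (Fin 2) F) i j := fun i j => rfl
    intro i j
    rw [hm, h1]
    fin_cases i <;> fin_cases j
    · simp only [Fin.zero_eta, Fin.isValue, Matrix.one_apply_eq]
      linear_combination -hd + M 0 0 * ht
    · simp only [Fin.zero_eta, Fin.isValue, Fin.mk_one]
      rw [Matrix.one_apply_ne (by decide)]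
      linear_combination M 0 1 * ht
    · simp only [Fin.zero_eta, Fin.isValue, Fin.mk_one]
      rw [Matrix.one_apply_ne (by decide)]
      linear_combination M 1 0 * ht
    · simp only [Fin.mk_one, Fin.isValue, Matrix.one_apply_eq]
      linear_combination -hd + M 1 1 * ht
  exact h

lemma inv_fix (hi : IsSquare (-1 : F)) (g : PSL(2, F)) (hgg : g * g = 1) :
    ∃ x : ℙ F (Fin 2 → F), g • x = x := by
  obtain ⟨M, rfl⟩ := QuotientGroup.mk_surjective g
  have hgg' : ((M * M : SL(2, F)) : PSL(2, F)) = ((1 : SL(2, F)) : PSL(2, F)) := hgg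
  rw [coe_eq] at hgg'
  have hd : M 0 0 * M 1 1 - M 0 1 * M 1 0 = 1 := by
    have := M.det_coe
    rwa [Matrix.det_fin_two] at this
  have hm : ∀ i j, (M * M) i j = M i 0 * M 0 j + M i 1 * M 1 j := by
    intro i j
    change ((M : Matrix (Fin 2) (Fin 2) F) * (M : Matrix (Fin 2) (Fin 2) F)) i j = _
    rw [Matrix.mul_apply, Fin.sum_univ_two]
  have h1 : ∀ i j, (1 : SL(2, F)) i j = (1 : Matrix (Fin 2) (Fin 2) F) i j := fun i j => rfl
  have h100 : (1 : SL(2, F)) 0 0 = 1 := by rw [h1]; rfl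
  have h110 : (1 : SL(2, F)) 1 0 = 0 := by rw [h1]; rfl
  have h101 : (1 : SL(2, F)) 0 1 = 0 := by rw [h1]; rfl
  have h111 : (1 : SL(2, F)) 1 1 = 1 := by rw [h1]; rfl
  by_cases ht : M 0 0 + M 1 1 = 0
  · obtain ⟨r, hr⟩ := hi
    obtain ⟨v, hv, hMv⟩ : ∃ v : Fin 2 → F, v ≠ 0 ∧
        (!![M 0 0 - r, M 0 1; M 1 0, M 1 1 - r] : Matrix (Fin 2) (Fin 2) F).mulVec v = 0 := by
      rw [Matrix.exists_mulVec_eq_zero_iff, Matrix.det_fin_two_of]
      linear_combination hd - r * ht - hr
    refine ⟨Projectivization.mk F v hv, (fix_iff M v hv).2 ⟨r, ?_, ?_⟩⟩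
    · have h6 := congrFun hMv 0
      simp [Matrix.mulVec, dotProduct, Fin.sum_univ_two] at h6
      linear_combination -h6
    · have h6 := congrFun hMv 1
      simp [Matrix.mulVec, dotProduct, Fin.sum_univ_two] at h6
      linear_combination -h6
  · refine ⟨inf F, (fix_inf M).2 ?_⟩
    have h3 : M 1 0 * (M 0 0 + M 1 1) = 0 := by
      rcases hgg' with h | h
      · have := h 1 0
        rw [hm, h110] at this
        linear_combination -this
      · have := h 1 0
        rw [hm, h110] at this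
        linear_combination this
    exact (mul_eq_zero.1 h3).resolve_right ht

lemma swap' (g : PSL(2, F)) (hg : g • inf F ≠ inf F) (hgg : (g * g) • inf F = inf F) :
    g * g = 1 := by
  obtain ⟨M, rfl⟩ := QuotientGroup.mk_surjective g
  have h1 : M 1 0 ≠ 0 := fun h => hg ((fix_inf M).2 h)
  have h3 : (M * M : SL(2, F)) 1 0 = 0 := (fix_inf (M * M)).1 hgg
  have hm : ∀ i j, (M * M) i j = M i 0 * M 0 j + M i 1 * M 1 j := by
    intro i j
    change ((M : Matrix (Fin 2) (Fin 2) F) * (M : Matrix (Fin 2) (Fin 2) F)) i j = _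
    rw [Matrix.mul_apply, Fin.sum_univ_two]
  rw [hm] at h3
  apply trace_zero h2
  have h4 : M 1 0 * (M 0 0 + M 1 1) = 0 := by linear_combination h3
  exact (mul_eq_zero.1 h4).resolve_left h1

theorem obend (hi : IsSquare (-1 : F)) (_hF : 5 ≤ Nat.card F) :
    OBend PSL(2, F) (ℙ F (Fin 2 → F)) (Nat.card F) where
  three := by
    intro g x y z hx hy hz hxy hxz hyz
    obtain ⟨c, hc, h⟩ := to_inf x
    rw [h] at hx hy hz
    rw [← cj1 c]
    rw [hc] at hx
    refine three_inf h2 _ (c • y) (c • z) hx hy hz ?_ ?_ ?_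
    · rw [← hc]
      exact fun h => hxy (smul_left_cancel c h).symm
    · rw [← hc]
      exact fun h => hxz (smul_left_cancel c h).symm
    · exact fun h => hyz (smul_left_cancel c h)
  inv_fix := inv_fix h2 hi
  inv_two := by
    intro g x hgg hg1 hx
    obtain ⟨c, hc, h⟩ := to_inf x
    have hx' := hx
    rw [h, hc] at hx
    obtain ⟨a, b, ha, hab⟩ := exists_tri _ hx
    have hab1 : (tri a b ha : PSL(2, F)) ≠ 1 := by
      rw [← hab, Ne, cj1]
      exact hg1
    have haa : a * a = -1 := by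
      rw [← tri_inv_iff h2 hab1, ← hab, cj, hgg]
      group
    have haa1 : a * a ≠ 1 := by
      rw [haa]
      exact two_mul_ne h2 one_ne_zero
    obtain ⟨y, hy, hyi⟩ := fix_of_ne h2 a b ha haa1
    refine ⟨c⁻¹ • y, ?_, ?_⟩
    · rw [h, smul_inv_smul, hab]
      exact hy
    · intro h3
      apply hyi
      rw [← hc, ← h3, smul_inv_smul]
  swap := by
    intro g x y hxy hyx hne
    obtain ⟨c, hc, h⟩ := to_inf x
    rw [← cj1 c, ← cj]
    apply swap' h2
    · rw [← hc, mul_smul, mul_smul, inv_smul_smul, hxy]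
      exact fun h3 => hne (smul_left_cancel c h3).symm
    · rw [cj, ← hc, mul_smul, mul_smul, inv_smul_smul, mul_smul, hxy, hyx]
  comm := by
    intro g k x hg hk
    obtain ⟨c, hc, h⟩ := to_inf' h2 x
    rw [(h g).1] at hg
    rw [(h k).1] at hk
    rw [(h _).2]
    have e : c * (g * k * g⁻¹ * k⁻¹) * c⁻¹ =
      (c * g * c⁻¹) * (c * k * c⁻¹) * (c * g * c⁻¹)⁻¹ * (c * k * c⁻¹)⁻¹ := by group
    rw [e]
    obtain ⟨a, b, ha, hab⟩ := exists_tri _ hg
    obtain ⟨a', b', ha', hab'⟩ := exists_tri _ hk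
    rw [hab, hab', tri_inv, tri_inv, tri_mul, tri_mul, tri_mul, uni_inf h2]
    field_simp
  mul := by
    intro g k x hg hk
    obtain ⟨c, hc, h⟩ := to_inf' h2 x
    rw [(h g).2] at hg
    rw [(h k).2] at hk
    rw [(h _).2, ← cj]
    obtain ⟨b, hb⟩ := uni_inf' h2 hg
    obtain ⟨b', hb'⟩ := uni_inf' h2 hk
    rw [hb, hb', tri_mul, uni_inf h2]
    ring
  cent := by
    intro g u x hg hu hu1 hgu
    obtain ⟨c, hc, h⟩ := to_inf' h2 x
    rw [(h g).1] at hg
    rw [(h u).2] at hu
    rw [(h g).2]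
    obtain ⟨a, b, ha, hab⟩ := exists_tri _ hg
    obtain ⟨d, hd⟩ := uni_inf' h2 hu
    have hd0 : d ≠ 0 := by
      rintro rfl
      rw [tri_one, cj1] at hd
      exact hu1 hd
    have h3 : (c * g * c⁻¹) * (c * u * c⁻¹) = (c * u * c⁻¹) * (c * g * c⁻¹) := by
      rw [cj, cj, hgu]
    rw [hab, hd, tri_mul, tri_mul, tri_eq h2] at h3
    rw [hab, uni_inf h2]
    rcases h3 with ⟨h3, h4⟩ | ⟨h3, h4⟩
    · rw [inv_one] at h4
      have h5 : (a - a⁻¹) * d = 0 := by linear_combination -h4
      have h6 : a = a⁻¹ := sub_eq_zero.1 ((mul_eq_zero.1 h5).resolve_right hd0)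
      nth_rw 2 [h6]
      exact mul_inv_cancel₀ ha
    · exfalso
      rw [one_mul, mul_one] at h3
      exact two_mul_ne h2 ha h3.symm
  inv_mul := by
    intro g k x hg hk hgg hkk hg1 hk1
    obtain ⟨c, hc, h⟩ := to_inf' h2 x
    rw [(h g).1] at hg
    rw [(h k).1] at hk
    rw [(h _).2, ← cj]
    obtain ⟨a, b, ha, hab⟩ := exists_tri _ hg
    obtain ⟨a', b', ha', hab'⟩ := exists_tri _ hk
    have h3 : a * a = -1 := by
      rw [← tri_inv_iff h2 (ha := ha) (b := b), ← hab, cj, hgg]
      · group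
      · rw [← hab, Ne, cj1]
        exact hg1
    have h4 : a' * a' = -1 := by
      rw [← tri_inv_iff h2 (ha := ha') (b := b'), ← hab', cj, hkk]
      · group
      · rw [← hab', Ne, cj1]
        exact hk1
    rw [hab, hab', tri_mul, uni_inf h2]
    linear_combination a' * a' * h3 - h4
  inv_uni := by
    intro g u x hg hgg hg1 hu
    obtain ⟨c, hc, h⟩ := to_inf' h2 x
    rw [(h g).1] at hg
    rw [(h u).2] at hu
    obtain ⟨a, b, ha, hab⟩ := exists_tri _ hg
    obtain ⟨d, hd⟩ := uni_inf' h2 hu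
    have h3 : a * a = -1 := by
      rw [← tri_inv_iff h2 (ha := ha) (b := b), ← hab, cj, hgg]
      · group
      · rw [← hab, Ne, cj1]
        exact hg1
    rw [← cj1 c, ← cj, ← cj, hab, hd, tri_mul, tri_mul, tri_eq_one h2]
    have h4 : a⁻¹ = -a := inv_eq_of_mul_eq_one_right (by linear_combination -h3)
    refine ⟨?_, ?_⟩
    · linear_combination (a * a - 1) * h3
    · rw [mul_one, h4]
      ring
  cardU := by
    intro x
    obtain ⟨c, hc, h⟩ := to_inf' h2 x
    apply Nat.card_congr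
    symm
    refine Equiv.ofBijective (fun b : F => ⟨c⁻¹ * (tri 1 b one_ne_zero : PSL(2, F)) * c, ?_⟩)
      ⟨?_, ?_⟩
    · rw [(h _).2]
      have e : c * (c⁻¹ * (tri 1 b one_ne_zero : PSL(2, F)) * c) * c⁻¹ =
        (tri 1 b one_ne_zero : PSL(2, F)) := by group
      rw [e, uni_inf h2, mul_one]
    · intro a b hab
      have h1 := congrArg Subtype.val hab
      have h3 := mul_left_cancel (mul_right_cancel h1)
      rw [tri_eq h2] at h3
      rcases h3 with ⟨_, h4⟩ | ⟨h4, _⟩
      · exact h4.symm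
      · exact absurd h4.symm (two_mul_ne h2 one_ne_zero)
    · rintro ⟨g, hg⟩
      have hg3 := (h g).2.1 hg
      obtain ⟨b, hb⟩ := uni_inf' h2 hg3
      refine ⟨b, Subtype.ext ?_⟩
      change c⁻¹ * (tri 1 b one_ne_zero : PSL(2, F)) * c = g
      rw [← hb]
      group
  cardH := by
    classical
    intro x
    have hfin : Finite PSL(2, F) := by
      unfold Matrix.ProjectiveSpecialLinearGroup
      infer_instance
    have := Fintype.ofFinite F
    have := Fintype.ofFinite PSL(2, F)
    have := Fintype.ofFinite (stabilizer PSL(2, F) x)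
    obtain ⟨c, hc, h⟩ := to_inf' h2 x
    rw [mul_comm (Nat.card F), ← Nat.card_units, ← Nat.card_prod]
    let f : Fˣ × F → stabilizer PSL(2, F) x := fun p =>
      ⟨c⁻¹ * (tri (p.1 : F) p.2 p.1.ne_zero : PSL(2, F)) * c, by
        rw [mem_stabilizer_iff, mul_smul, mul_smul, hc, tri_fix, ← hc, inv_smul_smul]⟩
    have hf : Function.Surjective f := by
      rintro ⟨g, hg1⟩
      have hg3 := (h g).1.1 hg1
      obtain ⟨a, b, ha, h3⟩ := exists_tri _ hg3
      refine ⟨(Units.mk0 a ha, b), Subtype.ext ?_⟩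
      change c⁻¹ * (tri a b ha : PSL(2, F)) * c = g
      rw [← h3]
      group
    have hff : ∀ p p' : Fˣ × F, f p' = f p ↔ p' = p ∨ p' = (-p.1, -p.2) := by
      intro p p'
      have h4 : f p' = f p ↔
          (tri (p.1 : F) p.2 p.1.ne_zero : PSL(2, F)) = (tri (p'.1 : F) p'.2 p'.1.ne_zero :
            PSL(2, F)) := by
        constructor
        · intro h5
          exact (mul_left_cancel (mul_right_cancel (congrArg Subtype.val h5))).symm
        · intro h5
          apply Subtype.ext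
          change c⁻¹ * (tri (p'.1 : F) p'.2 p'.1.ne_zero : PSL(2, F)) * c =
            c⁻¹ * (tri (p.1 : F) p.2 p.1.ne_zero : PSL(2, F)) * c
          rw [h5]
      rw [h4, tri_eq h2, Prod.ext_iff, Prod.ext_iff, Units.ext_iff, Units.ext_iff]
      simp only [Units.val_neg]
    rw [Nat.card_eq_fintype_card, Nat.card_eq_fintype_card, ← Finset.card_univ (α := Fˣ × F),
      Finset.card_eq_sum_card_fiberwise (f := f) (t := Finset.univ) (fun _ _ => by simp),
      Finset.sum_const_nat (m := 2), Finset.card_univ, mul_comm]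
    intro s _
    obtain ⟨p, rfl⟩ := hf s
    have h5 : (Finset.univ.filter fun p' => f p' = f p) = {p, (-p.1, -p.2)} := by
      ext p'
      rw [Finset.mem_filter, hff]
      simp
    rw [h5, Finset.card_pair]
    intro h6
    have h7 := congrArg (fun q : Fˣ × F => (q.1 : F)) h6
    simp only [Units.val_neg] at h7
    exact two_mul_ne h2 p.1.ne_zero h7.symm
  cardX := Projectivization.card_of_finrank_two F (Fin 2 → F) (by simp)
  pre := fun x y => pre x y

/-- Any two unipotent elements `u, v` at `x`: `v` is conjugate to a power of `u` which generates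
the same subgroup as `u`. -/
theorem pow_conj (hn : ∃ n : ℕ, ¬ IsSquare (n : F)) (x : ℙ F (Fin 2 → F)) (u v : PSL(2, F))
    (hu : Uni x u) (hv : Uni x v) (hu1 : u ≠ 1) (hv1 : v ≠ 1) :
    ∃ (c : PSL(2, F)) (k l : ℕ), c * u ^ k * c⁻¹ = v ∧ (u ^ k) ^ l = u := by
  obtain ⟨d, hd, hh⟩ := to_inf x
  obtain ⟨c, k, l, h1, h2⟩ := pc_main hn (d * u * d⁻¹) (d * v * d⁻¹) (pc_uni_conj hd hh hu)
    (pc_uni_conj hd hh hv) (fun h => hu1 ((cj1 d u).1 h)) (fun h => hv1 ((cj1 d v).1 h))
  rw [conj_pow] at h1 h2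
  rw [conj_pow] at h2
  refine ⟨d⁻¹ * c * d, k, l, ?_, ?_⟩
  · have h3 : d⁻¹ * (c * (d * u ^ k * d⁻¹) * c⁻¹) * d = d⁻¹ * (d * v * d⁻¹) * d := by rw [h1]
    have h4 : d⁻¹ * (d * v * d⁻¹) * d = v := by group
    rw [h4] at h3
    rw [← h3]
    group
  · have h3 := mul_right_cancel h2
    exact mul_left_cancel h3

omit [Finite F] h2 in
lemma mul_ent (M N : SL(2, F)) (i j : Fin 2) :
    (M * N) i j = M i 0 * N 0 j + M i 1 * N 1 j := by
  change ((M : Matrix (Fin 2) (Fin 2) F) * (N : Matrix (Fin 2) (Fin 2) F)) i j = _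
  rw [Matrix.mul_apply, Fin.sum_univ_two]

omit [Finite F] h2 in
lemma det_ent (M : SL(2, F)) : M 0 0 * M 1 1 - M 0 1 * M 1 0 = 1 := by
  have := M.det_coe
  rwa [Matrix.det_fin_two] at this

omit [Finite F] h2 in
lemma eq_one_iff (M : SL(2, F)) : (M : PSL(2, F)) = 1 ↔
    M 0 1 = 0 ∧ M 1 0 = 0 ∧ M 0 0 = M 1 1 := by
  have h := coe_eq M (1 : SL(2, F))
  have h1 : ∀ i j, (1 : SL(2, F)) i j = (1 : Matrix (Fin 2) (Fin 2) F) i j := fun i j => rfl
  have h100 : (1 : SL(2, F)) 0 0 = 1 := by rw [h1]; rfl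
  have h110 : (1 : SL(2, F)) 1 0 = 0 := by rw [h1]; rfl
  have h101 : (1 : SL(2, F)) 0 1 = 0 := by rw [h1]; rfl
  have h111 : (1 : SL(2, F)) 1 1 = 1 := by rw [h1]; rfl
  have h' : (M : PSL(2, F)) = 1 ↔ ((∀ i j, (1 : SL(2, F)) i j = M i j) ∨
    (∀ i j, (1 : SL(2, F)) i j = -M i j)) := h
  rw [h']
  have hd := det_ent M
  constructor
  · rintro (h3 | h3)
    · exact ⟨by rw [← h3, h101], by rw [← h3, h110], by rw [← h3, ← h3, h100, h111]⟩
    · have e1 := h3 0 1
      have e2 := h3 1 0
      have e3 := h3 0 0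
      have e4 := h3 1 1
      rw [h101] at e1
      rw [h110] at e2
      rw [h100] at e3
      rw [h111] at e4
      exact ⟨by linear_combination e1, by linear_combination e2,
        by linear_combination e3 - e4⟩
  · rintro ⟨h3, h4, h5⟩
    have h6 : M 0 0 * M 0 0 = 1 := by
      rw [h3, ← h5] at hd
      linear_combination hd
    rcases mul_self_eq_one_iff.1 h6 with h7 | h7
    · left
      intro i j
      fin_cases i <;> fin_cases j
      · exact h100.trans h7.symm
      · exact h101.trans h3.symm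
      · exact h110.trans h4.symm
      · exact h111.trans (h5 ▸ h7.symm)
    · right
      intro i j
      fin_cases i <;> fin_cases j
      · change (1 : SL(2, F)) 0 0 = -M 0 0
        rw [h100, h7, neg_neg]
      · change (1 : SL(2, F)) 0 1 = -M 0 1
        rw [h101, h3, neg_zero]
      · change (1 : SL(2, F)) 1 0 = -M 1 0
        rw [h110, h4, neg_zero]
      · change (1 : SL(2, F)) 1 1 = -M 1 1
        rw [h111, ← h5, h7, neg_neg]

/-- Involutions have lifts of trace `0`. -/
lemma trace_of_inv (M : SL(2, F)) (hM : (M : PSL(2, F)) * (M : PSL(2, F)) = 1)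
    (hM1 : (M : PSL(2, F)) ≠ 1) : M 0 0 + M 1 1 = 0 := by
  have h1 : ((M * M : SL(2, F)) : PSL(2, F)) = 1 := hM
  rw [eq_one_iff, mul_ent, mul_ent, mul_ent, mul_ent] at h1
  obtain ⟨h3, h4, h5⟩ := h1
  by_contra ht
  apply hM1
  rw [eq_one_iff]
  refine ⟨?_, ?_, ?_⟩
  · have : M 0 1 * (M 0 0 + M 1 1) = 0 := by linear_combination h3
    exact (mul_eq_zero.1 this).resolve_right ht
  · have : M 1 0 * (M 0 0 + M 1 1) = 0 := by linear_combination h4
    exact (mul_eq_zero.1 this).resolve_right ht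
  · have : (M 0 0 - M 1 1) * (M 0 0 + M 1 1) = 0 := by linear_combination h5
    exact sub_eq_zero.1 ((mul_eq_zero.1 this).resolve_right ht)

omit [Finite F] h2 in
lemma comm_ent (M N : SL(2, F)) : (N : PSL(2, F)) * (M : PSL(2, F)) =
    (M : PSL(2, F)) * (N : PSL(2, F)) ↔
      (∀ i j, (M * N) i j = (N * M) i j) ∨ (∀ i j, (M * N) i j = -(N * M) i j) :=
  coe_eq (N * M) (M * N)

/-- The torus of `s` consists of the elements whose lifts commute with a lift of `s`. -/
lemma tor_iff (M N : SL(2, F)) (hM : M 0 0 + M 1 1 = 0) :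
    Tor (M : PSL(2, F)) (N : PSL(2, F)) ↔ ∀ i j, (M * N) i j = (N * M) i j := by
  have hd := det_ent M
  have hdN := det_ent N
  have hp : M 1 1 = -M 0 0 := by linear_combination hM
  constructor
  · rintro ⟨h, h'⟩
    rw [comm_ent] at h
    rcases h with h | h
    · exact h
    · have htN : N 0 0 + N 1 1 = 0 := by
        have e00 := h 0 0
        have e01 := h 0 1
        have e10 := h 1 0
        have e11 := h 1 1
        rw [mul_ent, mul_ent] at e00 e01 e10 e11
        rw [hp] at e01 e10 e11 hd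
        have k0 : (N 0 0 + N 1 1) * (2 * M 0 0) = 0 := by
          linear_combination e00 - e11
        have k1 : (N 0 0 + N 1 1) * M 0 1 = 0 := by
          linear_combination e01
        have k2 : (N 0 0 + N 1 1) * M 1 0 = 0 := by
          linear_combination e10
        by_contra hne
        have l0 : M 0 0 = 0 := by
          have := (mul_eq_zero.1 k0).resolve_left hne
          exact (mul_eq_zero.1 this).resolve_left h2
        have l1 : M 0 1 = 0 := (mul_eq_zero.1 k1).resolve_left hne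
        rw [l0, l1] at hd
        exact one_ne_zero (by linear_combination -hd)
      rcases h' (trace_zero h2 N htN) with h3 | h3
      · rw [eq_one_iff] at h3
        obtain ⟨h4, h5, h6⟩ := h3
        intro i j
        rw [mul_ent, mul_ent]
        fin_cases i <;> fin_cases j <;> simp [h4, h5, h6, mul_comm]
      · have h4 := (coe_eq N M).1 h3
        intro i j
        rcases h4 with h4 | h4
        · rw [mul_ent, mul_ent, h4, h4, h4, h4]
        · rw [mul_ent, mul_ent, h4, h4, h4, h4]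
          ring
  · intro h
    refine ⟨(comm_ent M N).2 (Or.inl h), fun hNN => ?_⟩
    by_contra hcon
    push Not at hcon
    obtain ⟨h3, h4⟩ := hcon
    apply h4
    have htN := trace_of_inv h2 N hNN h3
    have hpN : N 1 1 = -N 0 0 := by linear_combination htN
    have e00 := h 0 0
    have e01 := h 0 1
    have e10 := h 1 0
    rw [mul_ent, mul_ent] at e00 e01 e10
    rw [hp, hpN] at e01 e10
    rw [hp] at hd
    rw [hpN] at hdN
    have k0 : N 0 1 * M 1 0 = M 0 1 * N 1 0 := by linear_combination -e00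
    have k1 : N 0 0 * M 0 1 = M 0 0 * N 0 1 := by
      apply mul_left_cancel₀ h2
      linear_combination -e01
    have k2 : N 1 0 * M 0 0 = N 0 0 * M 1 0 := by
      apply mul_left_cancel₀ h2
      linear_combination -e10
    obtain ⟨b, hb⟩ : ∃ b, b = -(N 0 0 * M 0 0 + N 0 1 * M 1 0) := ⟨_, rfl⟩
    have l0 : N 0 0 = b * M 0 0 := by
      rw [hb]
      linear_combination (-N 0 0) * hd + M 0 0 * k0 + M 0 1 * k2
    have l1 : N 0 1 = b * M 0 1 := by
      rw [hb]
      linear_combination (-N 0 1) * hd + M 0 0 * k1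
    have l2 : N 1 0 = b * M 1 0 := by
      rw [hb]
      linear_combination (-N 1 0) * hd + M 1 0 * k0 - M 0 0 * k2
    have hbb : b * b = 1 := by
      rw [l0, l1, l2] at hdN
      linear_combination hdN - b * b * hd
    rw [coe_eq]
    rcases mul_self_eq_one_iff.1 hbb with h5 | h5
    · left
      rw [h5, one_mul] at l0 l1 l2
      intro i j
      fin_cases i <;> fin_cases j
      · exact l0.symm
      · exact l1.symm
      · exact l2.symm
      · change M 1 1 = N 1 1
        rw [hp, hpN, l0]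
    · right
      rw [h5] at l0 l1 l2
      intro i j
      fin_cases i <;> fin_cases j
      · change M 0 0 = -N 0 0
        rw [l0]; ring
      · change M 0 1 = -N 0 1
        rw [l1]; ring
      · change M 1 0 = -N 1 0
        rw [l2]; ring
      · change M 1 1 = -N 1 1
        rw [hp, hpN, l0]; ring

lemma tor_mul (g h s : PSL(2, F)) (hs : s * s = 1) (hs1 : s ≠ 1) (hg : Tor s g) (hh : Tor s h) :
    Tor s (g * h) := by
  obtain ⟨M, rfl⟩ := QuotientGroup.mk_surjective s
  obtain ⟨N, rfl⟩ := QuotientGroup.mk_surjective g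
  obtain ⟨K, rfl⟩ := QuotientGroup.mk_surjective h
  have ht := trace_of_inv h2 M hs hs1
  have e1 := (tor_iff h2 M N ht).1 hg
  have e2 := (tor_iff h2 M K ht).1 hh
  refine (tor_iff h2 M (N * K) ht).2 ?_
  have e1' : M * N = N * M := Subtype.ext (Matrix.ext e1)
  have e2' : M * K = K * M := Subtype.ext (Matrix.ext e2)
  have e3 : M * (N * K) = N * K * M := by
    rw [← mul_assoc, e1', mul_assoc, e2', mul_assoc]
  intro i j
  rw [e3]

lemma tor_mul' (g h s : PSL(2, F)) (hs : s * s = 1) (hs1 : s ≠ 1) (hgs : g * s = s * g)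
    (hhs : h * s = s * h) (hg : ¬ Tor s g) (hh : ¬ Tor s h) : Tor s (g * h) := by
  obtain ⟨M, rfl⟩ := QuotientGroup.mk_surjective s
  obtain ⟨N, rfl⟩ := QuotientGroup.mk_surjective g
  obtain ⟨K, rfl⟩ := QuotientGroup.mk_surjective h
  have ht := trace_of_inv h2 M hs hs1
  have e1 : ∀ i j, (M * N) i j = -(N * M) i j := by
    rcases (comm_ent M N).1 hgs with h3 | h3
    · exact absurd ((tor_iff h2 M N ht).2 h3) hg
    · exact h3
  have e2 : ∀ i j, (M * K) i j = -(K * M) i j := by
    rcases (comm_ent M K).1 hhs with h3 | h3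
    · exact absurd ((tor_iff h2 M K ht).2 h3) hh
    · exact h3
  refine (tor_iff h2 M (N * K) ht).2 ?_
  have e1' : M * N = -(N * M) := Subtype.ext (Matrix.ext e1)
  have e2' : M * K = -(K * M) := Subtype.ext (Matrix.ext e2)
  have e3 : M * (N * K) = N * K * M := by
    rw [← mul_assoc, e1', neg_mul, mul_assoc, e2', mul_neg, neg_neg, mul_assoc]
  intro i j
  rw [e3]

lemma tor_free (hi : ¬ IsSquare (-1 : F)) (g s : PSL(2, F)) (x : ℙ F (Fin 2 → F))
    (hs : s * s = 1) (hs1 : s ≠ 1) (hg : Tor s g) (hgx : g • x = x) : g = 1 := by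
  obtain ⟨M, rfl⟩ := QuotientGroup.mk_surjective s
  obtain ⟨N, rfl⟩ := QuotientGroup.mk_surjective g
  have ht := trace_of_inv h2 M hs hs1
  have e := (tor_iff h2 M N ht).1 hg
  induction x using Projectivization.ind with | h v hv =>
  obtain ⟨c, hc0, hc1⟩ := (fix_iff N v hv).1 hgx
  have hd := det_ent M
  have hp : M 1 1 = -M 0 0 := by linear_combination ht
  have e00 := e 0 0
  have e01 := e 0 1
  have e10 := e 1 0
  have e11 := e 1 1
  rw [mul_ent, mul_ent] at e00 e01 e10 e11
  obtain ⟨m0, hm0⟩ : ∃ m0, m0 = M 0 0 * v 0 + M 0 1 * v 1 := ⟨_, rfl⟩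
  obtain ⟨m1, hm1⟩ : ∃ m1, m1 = M 1 0 * v 0 + M 1 1 * v 1 := ⟨_, rfl⟩
  -- `M v` is an eigenvector of `N` as well
  have k0 : N 0 0 * m0 + N 0 1 * m1 = c * m0 := by
    rw [hm0, hm1]
    linear_combination (-v 0) * e00 - v 1 * e01 - M 0 0 * hc0 - M 0 1 * hc1
  have k1 : N 1 0 * m0 + N 1 1 * m1 = c * m1 := by
    rw [hm0, hm1]
    linear_combination (-v 0) * e10 - v 1 * e11 - M 1 0 * hc0 - M 1 1 * hc1
  have hdet : v 0 * m1 - v 1 * m0 ≠ 0 := by
    intro h3
    apply hi
    rw [hm0, hm1, hp] at h3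
    rw [hp] at hd
    by_cases hv1 : v 1 = 0
    · have hv0 : v 0 ≠ 0 := by
        intro hv0
        apply hv
        funext i
        fin_cases i
        · exact hv0
        · exact hv1
      rw [hv1] at h3
      have h4 : M 1 0 * (v 0 * v 0) = 0 := by linear_combination h3
      have h5 : M 1 0 = 0 := (mul_eq_zero.1 h4).resolve_right (mul_ne_zero hv0 hv0)
      rw [h5] at hd
      exact ⟨M 0 0, by linear_combination hd⟩
    · refine ⟨(M 1 0 * v 0 - M 0 0 * v 1) / v 1, ?_⟩
      field_simp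
      linear_combination (-M 1 0) * h3 + v 1 ^ 2 * hd
  rw [eq_one_iff]
  have l0 : (N 0 0 - c) * (v 0 * m1 - v 1 * m0) = 0 := by
    linear_combination (-m1) * hc0 - v 1 * k0
  have l1 : N 0 1 * (v 0 * m1 - v 1 * m0) = 0 := by
    linear_combination m0 * hc0 + v 0 * k0
  have l2 : N 1 0 * (v 0 * m1 - v 1 * m0) = 0 := by
    linear_combination (-m1) * hc1 - v 1 * k1
  have l3 : (N 1 1 - c) * (v 0 * m1 - v 1 * m0) = 0 := by
    linear_combination m0 * hc1 + v 0 * k1
  refine ⟨(mul_eq_zero.1 l1).resolve_right hdet, (mul_eq_zero.1 l2).resolve_right hdet, ?_⟩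
  have n0 := (mul_eq_zero.1 l0).resolve_right hdet
  have n3 := (mul_eq_zero.1 l3).resolve_right hdet
  linear_combination n0 - n3

lemma inv_free (hi : ¬ IsSquare (-1 : F)) (g : PSL(2, F)) (x : ℙ F (Fin 2 → F))
    (hg : g * g = 1) (hgx : g • x = x) : g = 1 := by
  by_contra hg1
  exact hg1 (tor_free h2 hi g g x hg hg1 ⟨rfl, fun _ => Or.inr rfl⟩ hgx)

omit [Finite F] h2 in
lemma tk_det (M : SL(2, F)) : M 0 0 * M 1 1 - M 0 1 * M 1 0 = 1 := by
  have := M.det_coe
  rwa [Matrix.det_fin_two] at this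

omit [Finite F] h2 in
lemma tk_mul (M N : SL(2, F)) (i j : Fin 2) : (M * N) i j = M i 0 * N 0 j + M i 1 * N 1 j := by
  change ((M : Matrix (Fin 2) (Fin 2) F) * (N : Matrix (Fin 2) (Fin 2) F)) i j = _
  rw [Matrix.mul_apply, Fin.sum_univ_two]

omit [Finite F] h2 in
lemma tk_one00 : (1 : SL(2, F)) 0 0 = 1 := rfl

omit [Finite F] h2 in
lemma tk_one01 : (1 : SL(2, F)) 0 1 = 0 := rfl

omit [Finite F] h2 in
lemma tk_one10 : (1 : SL(2, F)) 1 0 = 0 := rfl

omit [Finite F] h2 in
lemma tk_one11 : (1 : SL(2, F)) 1 1 = 1 := rfl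

omit [Finite F] h2 in
/-- Equality in `PSL_2(F)`, entry by entry. -/
lemma tk_eq (M N : SL(2, F)) : ((M : PSL(2, F)) = (N : PSL(2, F))) ↔
    ((N 0 0 = M 0 0 ∧ N 0 1 = M 0 1 ∧ N 1 0 = M 1 0 ∧ N 1 1 = M 1 1) ∨
      (N 0 0 = -M 0 0 ∧ N 0 1 = -M 0 1 ∧ N 1 0 = -M 1 0 ∧ N 1 1 = -M 1 1)) := by
  rw [coe_eq]
  constructor
  · rintro (h | h)
    · exact Or.inl ⟨h 0 0, h 0 1, h 1 0, h 1 1⟩
    · exact Or.inr ⟨h 0 0, h 0 1, h 1 0, h 1 1⟩
  · rintro (⟨h1, h2, h3, h4⟩ | ⟨h1, h2, h3, h4⟩)
    · left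
      intro i j
      fin_cases i <;> fin_cases j
      exacts [h1, h2, h3, h4]
    · right
      intro i j
      fin_cases i <;> fin_cases j
      exacts [h1, h2, h3, h4]

/-- An involution lifts to a matrix of trace zero. -/
lemma tk_trace {M : SL(2, F)} (h : (M : PSL(2, F)) * (M : PSL(2, F)) = 1)
    (h1 : (M : PSL(2, F)) ≠ 1) : M 0 0 + M 1 1 = 0 := by
  have h3 : ((M * M : SL(2, F)) : PSL(2, F)) = ((1 : SL(2, F)) : PSL(2, F)) := h
  rw [tk_eq, tk_mul, tk_mul, tk_mul, tk_mul, tk_one00, tk_one01, tk_one10, tk_one11] at h3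
  have hd := tk_det M
  by_contra ht
  have h01 : M 0 1 = 0 := by
    have : M 0 1 * (M 0 0 + M 1 1) = 0 := by
      rcases h3 with ⟨_, h4, _, _⟩ | ⟨_, h4, _, _⟩
      · linear_combination -h4
      · linear_combination h4
    exact (mul_eq_zero.1 this).resolve_right ht
  have h10 : M 1 0 = 0 := by
    have : M 1 0 * (M 0 0 + M 1 1) = 0 := by
      rcases h3 with ⟨_, _, h4, _⟩ | ⟨_, _, h4, _⟩
      · linear_combination -h4
      · linear_combination h4
    exact (mul_eq_zero.1 this).resolve_right ht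
  have h00 : M 0 0 = M 1 1 := by
    have : (M 0 0 - M 1 1) * (M 0 0 + M 1 1) = 0 := by
      rcases h3 with ⟨h4, _, _, h5⟩ | ⟨h4, _, _, h5⟩
      · linear_combination h5 - h4
      · linear_combination h4 - h5
    exact sub_eq_zero.1 ((mul_eq_zero.1 this).resolve_right ht)
  rw [h01, h10, ← h00] at hd
  have h6 : (M 0 0 - 1) * (M 0 0 + 1) = 0 := by linear_combination hd
  apply h1
  have h7 : ((M : SL(2, F)) : PSL(2, F)) = ((1 : SL(2, F)) : PSL(2, F)) := by
    rw [tk_eq, tk_one00, tk_one01, tk_one10, tk_one11, h01, h10, ← h00]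
    rcases mul_eq_zero.1 h6 with h8 | h8
    · left
      have : M 0 0 = 1 := sub_eq_zero.1 h8
      rw [this]; simp
    · right
      have : M 0 0 = -1 := eq_neg_of_add_eq_zero_left h8
      rw [this]; simp
  exact h7

/-- `g` in the torus of the involution `s`: the lifts commute. -/
lemma tk_comm {M N : SL(2, F)} (hM : M 0 0 + M 1 1 = 0) (hg1 : (N : PSL(2, F)) ≠ 1)
    (hT : Tor (M : PSL(2, F)) (N : PSL(2, F))) :
    N 0 1 * M 1 0 = M 0 1 * N 1 0 ∧ (N 0 0 - N 1 1) * M 0 1 = 2 * N 0 1 * M 0 0 ∧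
      (N 0 0 - N 1 1) * M 1 0 = 2 * N 1 0 * M 0 0 := by
  obtain ⟨hc, hq⟩ := hT
  have h3 : ((N * M : SL(2, F)) : PSL(2, F)) = ((M * N : SL(2, F)) : PSL(2, F)) := hc
  have hM' : M 1 1 = -M 0 0 := eq_neg_of_add_eq_zero_right hM
  have hdM := tk_det M
  have hdN := tk_det N
  rw [tk_eq] at h3
  simp only [tk_mul] at h3
  rw [hM'] at h3 hdM
  rcases h3 with ⟨e1, e2, e3, e4⟩ | ⟨e1, e2, e3, e4⟩
  · refine ⟨?_, ?_, ?_⟩
    · linear_combination -e1
    · linear_combination -e2
    · linear_combination e3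
  · exfalso
    -- the trace of `N` is zero
    have ht : N 0 0 + N 1 1 = 0 := by
      have f1 : 2 * M 0 0 * (N 0 0) + N 0 1 * M 1 0 + M 0 1 * N 1 0 = 0 := by
        linear_combination e1
      have f4 : -2 * M 0 0 * (N 1 1) + N 1 0 * M 0 1 + M 1 0 * N 0 1 = 0 := by
        linear_combination e4
      have f2 : M 0 1 * (N 0 0 + N 1 1) = 0 := by
        linear_combination e2
      have f3 : M 1 0 * (N 0 0 + N 1 1) = 0 := by
        linear_combination e3
      have f5 : 2 * M 0 0 * (N 0 0 + N 1 1) = 0 := by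
        linear_combination f1 - f4
      by_contra ht
      have g1 : M 0 1 = 0 := (mul_eq_zero.1 f2).resolve_right ht
      have g2 : M 1 0 = 0 := (mul_eq_zero.1 f3).resolve_right ht
      have g3 : 2 * M 0 0 = 0 := (mul_eq_zero.1 f5).resolve_right ht
      have g4 : M 0 0 = 0 := (mul_eq_zero.1 g3).resolve_left h2
      rw [g1, g2, g4] at hdM
      simp at hdM
    rcases hq (trace_zero h2 N ht) with h | h
    · exact hg1 h
    · rw [tk_eq] at h
      rcases h with ⟨k1, k2, k3, k4⟩ | ⟨k1, k2, k3, k4⟩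
      · rw [← k1, ← k2, ← k3] at e1
        have : (2 : F) * 1 = 0 := by
          rw [← hdM]
          linear_combination -e1
        exact h2 (by linear_combination this)
      · have : (2 : F) * 1 = 0 := by
          rw [← hdM]
          have m1 : N 0 0 = - M 0 0 := by linear_combination k1
          have m2 : N 0 1 = - M 0 1 := by linear_combination k2
          have m3 : N 1 0 = - M 1 0 := by linear_combination k3
          rw [m1, m2, m3] at e1
          linear_combination e1
        exact h2 (by linear_combination this)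

theorem tor_uniq (g s s' : PSL(2, F)) (hg : g ≠ 1) (hs : s * s = 1) (hs1 : s ≠ 1)
    (hs' : s' * s' = 1) (hs1' : s' ≠ 1) (h : Tor s g) (h' : Tor s' g) : s = s' := by
  obtain ⟨N, rfl⟩ := QuotientGroup.mk_surjective g
  obtain ⟨M, rfl⟩ := QuotientGroup.mk_surjective s
  obtain ⟨K, rfl⟩ := QuotientGroup.mk_surjective s'
  have hM := tk_trace h2 hs hs1
  have hK := tk_trace h2 hs' hs1'
  obtain ⟨a1, a2, a3⟩ := tk_comm h2 hM hg h
  obtain ⟨b1, b2, b3⟩ := tk_comm h2 hK hg h'
  have hM' : M 1 1 = -M 0 0 := eq_neg_of_add_eq_zero_right hM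
  have hK' : K 1 1 = -K 0 0 := eq_neg_of_add_eq_zero_right hK
  have dM := tk_det M
  have dK := tk_det K
  have dN := tk_det N
  rw [hM'] at dM
  rw [hK'] at dK
  -- `N` is not scalar
  have hns : ¬ (N 0 1 = 0 ∧ N 1 0 = 0 ∧ N 0 0 = N 1 1) := by
    rintro ⟨n1, n2, n3⟩
    apply hg
    have h7 : ((N : SL(2, F)) : PSL(2, F)) = ((1 : SL(2, F)) : PSL(2, F)) := by
      rw [tk_eq, tk_one00, tk_one01, tk_one10, tk_one11, n1, n2, ← n3]
      rw [n1, n2, ← n3] at dN
      have h6 : (N 0 0 - 1) * (N 0 0 + 1) = 0 := by linear_combination dN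
      rcases mul_eq_zero.1 h6 with h8 | h8
      · left
        have : N 0 0 = 1 := sub_eq_zero.1 h8
        rw [this]; simp
      · right
        have : N 0 0 = -1 := eq_neg_of_add_eq_zero_left h8
        rw [this]; simp
    exact h7
  -- the cross products vanish
  have c1 : M 0 1 * K 1 0 = K 0 1 * M 1 0 := by
    by_contra hne
    apply hns
    have hne' : M 0 1 * K 1 0 - K 0 1 * M 1 0 ≠ 0 := sub_ne_zero.2 hne
    refine ⟨?_, ?_, ?_⟩
    · have : N 0 1 * (M 0 1 * K 1 0 - K 0 1 * M 1 0) = 0 := by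
        linear_combination M 0 1 * b1 - K 0 1 * a1
      exact (mul_eq_zero.1 this).resolve_right hne'
    · have : N 1 0 * (M 0 1 * K 1 0 - K 0 1 * M 1 0) = 0 := by
        linear_combination M 1 0 * b1 - K 1 0 * a1
      exact (mul_eq_zero.1 this).resolve_right hne'
    · have n1 : N 0 1 * (M 0 1 * K 1 0 - K 0 1 * M 1 0) = 0 := by
        linear_combination M 0 1 * b1 - K 0 1 * a1
      have n1' := (mul_eq_zero.1 n1).resolve_right hne'
      rw [n1'] at a2 b2
      have m1 : M 0 1 ≠ 0 ∨ K 0 1 ≠ 0 := by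
        by_contra hh
        push Not at hh
        apply hne'
        rw [hh.1, hh.2]; ring
      rcases m1 with m1 | m1
      · have : (N 0 0 - N 1 1) * M 0 1 = 0 := by linear_combination a2
        exact sub_eq_zero.1 ((mul_eq_zero.1 this).resolve_right m1)
      · have : (N 0 0 - N 1 1) * K 0 1 = 0 := by linear_combination b2
        exact sub_eq_zero.1 ((mul_eq_zero.1 this).resolve_right m1)
  have c2 : M 0 0 * K 0 1 = K 0 0 * M 0 1 := by
    by_contra hne
    apply hns
    have hne' : M 0 0 * K 0 1 - K 0 0 * M 0 1 ≠ 0 := sub_ne_zero.2 hne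
    have u1 : (2 * N 0 1) * (M 0 0 * K 0 1 - K 0 0 * M 0 1) = 0 := by
      linear_combination M 0 1 * b2 - K 0 1 * a2
    have u2 : (2 * N 1 0) * (M 0 0 * K 0 1 - K 0 0 * M 0 1) = 0 := by
      linear_combination M 0 1 * b3 - K 0 1 * a3 - (N 0 0 - N 1 1) * c1
    have u3 : (N 0 0 - N 1 1) * (M 0 0 * K 0 1 - K 0 0 * M 0 1) = 0 := by
      linear_combination M 0 0 * b2 - K 0 0 * a2
    exact ⟨(mul_eq_zero.1 ((mul_eq_zero.1 u1).resolve_right hne')).resolve_left h2,
      (mul_eq_zero.1 ((mul_eq_zero.1 u2).resolve_right hne')).resolve_left h2,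
      sub_eq_zero.1 ((mul_eq_zero.1 u3).resolve_right hne')⟩
  have c3 : M 0 0 * K 1 0 = K 0 0 * M 1 0 := by
    by_contra hne
    apply hns
    have hne' : M 0 0 * K 1 0 - K 0 0 * M 1 0 ≠ 0 := sub_ne_zero.2 hne
    have u1 : (2 * N 0 1) * (M 0 0 * K 1 0 - K 0 0 * M 1 0) = 0 := by
      linear_combination M 1 0 * b2 - K 1 0 * a2 + (N 0 0 - N 1 1) * c1
    have u2 : (2 * N 1 0) * (M 0 0 * K 1 0 - K 0 0 * M 1 0) = 0 := by
      linear_combination M 1 0 * b3 - K 1 0 * a3
    have u3 : (N 0 0 - N 1 1) * (M 0 0 * K 1 0 - K 0 0 * M 1 0) = 0 := by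
      linear_combination M 0 0 * b3 - K 0 0 * a3
    exact ⟨(mul_eq_zero.1 ((mul_eq_zero.1 u1).resolve_right hne')).resolve_left h2,
      (mul_eq_zero.1 ((mul_eq_zero.1 u2).resolve_right hne')).resolve_left h2,
      sub_eq_zero.1 ((mul_eq_zero.1 u3).resolve_right hne')⟩
  obtain ⟨t, ht⟩ : ∃ t : F, t = -(M 0 0 * K 0 0 + M 0 1 * K 1 0) := ⟨_, rfl⟩
  have t1 : M 0 0 = t * K 0 0 := by
    rw [ht]
    linear_combination (-M 0 0) * dK - K 1 0 * c2
  have t2 : M 0 1 = t * K 0 1 := by
    rw [ht]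
    linear_combination (-M 0 1) * dK + K 0 0 * c2
  have t3 : M 1 0 = t * K 1 0 := by
    rw [ht]
    linear_combination (-M 1 0) * dK + K 0 0 * c3 + K 1 0 * c1
  have t4 : (t - 1) * (t + 1) = 0 := by
    rw [t1, t2, t3] at dM
    linear_combination dM - t ^ 2 * dK
  have hfin : ((M : SL(2, F)) : PSL(2, F)) = ((K : SL(2, F)) : PSL(2, F)) := by
    rw [tk_eq, hM', hK', t1, t2, t3]
    rcases mul_eq_zero.1 t4 with h8 | h8
    · left
      rw [sub_eq_zero.1 h8]; simp
    · right
      rw [eq_neg_of_add_eq_zero_left h8]; simp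
  exact hfin

theorem ex_tor (hi : ¬ IsSquare (-1 : F)) (g : PSL(2, F))
    (hg : ∀ x : ℙ F (Fin 2 → F), g • x ≠ x) : ∃ s : PSL(2, F), s * s = 1 ∧ s ≠ 1 ∧ Tor s g := by
  obtain ⟨N, rfl⟩ := QuotientGroup.mk_surjective g
  have dN := tk_det N
  have hc : N 1 0 ≠ 0 := fun h => hg (inf F) ((fix_inf N).2 h)
  have hns : ¬ IsSquare ((N 0 0 + N 1 1) * (N 0 0 + N 1 1) - 4) := by
    rintro ⟨e, he⟩
    have h22 : (2 : F)⁻¹ * 2 = 1 := inv_mul_cancel₀ h2
    obtain ⟨r, hr⟩ : ∃ r : F, r = (2 : F)⁻¹ * (N 0 0 + N 1 1 + e) := ⟨_, rfl⟩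
    have hr2 : 2 * r = N 0 0 + N 1 1 + e := by
      rw [hr]
      linear_combination (N 0 0 + N 1 1 + e) * h22
    have hr3 : r * r - (N 0 0 + N 1 1) * r + 1 = 0 := by
      have h4 : (2 * 2) * (r * r - (N 0 0 + N 1 1) * r + 1) = 0 := by
        have e1 : e = 2 * r - (N 0 0 + N 1 1) := by linear_combination -hr2
        rw [e1] at he
        linear_combination -he
      exact (mul_eq_zero.1 h4).resolve_left (mul_ne_zero h2 h2)
    obtain ⟨v, hv, hMv⟩ : ∃ v : Fin 2 → F, v ≠ 0 ∧
        (!![N 0 0 - r, N 0 1; N 1 0, N 1 1 - r] : Matrix (Fin 2) (Fin 2) F).mulVec v = 0 := by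
      rw [Matrix.exists_mulVec_eq_zero_iff, Matrix.det_fin_two_of]
      linear_combination dN + hr3
    refine hg (Projectivization.mk F v hv) ((fix_iff N v hv).2 ⟨r, ?_, ?_⟩)
    · have h6 := congrFun hMv 0
      simp [Matrix.mulVec, dotProduct, Fin.sum_univ_two] at h6
      linear_combination -h6
    · have h6 := congrFun hMv 1
      simp [Matrix.mulVec, dotProduct, Fin.sum_univ_two] at h6
      linear_combination -h6
  have hb : (N 0 0 + N 1 1) * (N 0 0 + N 1 1) - 4 ≠ 0 := by
    intro h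
    rw [h] at hns
    exact hns IsSquare.zero
  obtain ⟨d, hd⟩ := (pc_square hi hb).resolve_left hns
  have hd0 : d ≠ 0 := by
    rintro rfl
    apply hb
    linear_combination -hd
  have hdi : d⁻¹ * d = 1 := inv_mul_cancel₀ hd0
  obtain ⟨c, hcd⟩ : ∃ c : F, c = d⁻¹ := ⟨_, rfl⟩
  rw [← hcd] at hdi
  have hdet : (!![(N 0 0 - N 1 1) * c, 2 * N 0 1 * c; 2 * N 1 0 * c, (N 1 1 - N 0 0) * c] :
      Matrix (Fin 2) (Fin 2) F).det = 1 := by
    rw [Matrix.det_fin_two_of]
    have h5 : c * d * (c * d) = 1 := by rw [hdi]; ring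
    linear_combination (4 * c ^ 2) * dN + c ^ 2 * hd + h5
  obtain ⟨M, hM⟩ : ∃ M : SL(2, F), M = ⟨_, hdet⟩ := ⟨_, rfl⟩
  have m00 : M 0 0 = (N 0 0 - N 1 1) * c := by rw [hM]; rfl
  have m01 : M 0 1 = 2 * N 0 1 * c := by rw [hM]; rfl
  have m10 : M 1 0 = 2 * N 1 0 * c := by rw [hM]; rfl
  have m11 : M 1 1 = (N 1 1 - N 0 0) * c := by rw [hM]; rfl
  have hc0 : c ≠ 0 := by rw [hcd]; exact inv_ne_zero hd0
  refine ⟨(M : PSL(2, F)), trace_zero h2 M (by rw [m00, m11]; ring), ?_, ?_, ?_⟩
  · intro h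
    have h' : ((M : SL(2, F)) : PSL(2, F)) = ((1 : SL(2, F)) : PSL(2, F)) := h
    rw [tk_eq, tk_one10, m10] at h'
    have : 2 * N 1 0 * c = 0 := by
      rcases h' with ⟨_, _, h3, _⟩ | ⟨_, _, h3, _⟩
      · exact h3.symm
      · linear_combination h3
    exact mul_ne_zero (mul_ne_zero h2 hc) hc0 this
  · have h3 : ((N * M : SL(2, F)) : PSL(2, F)) = ((M * N : SL(2, F)) : PSL(2, F)) := by
      rw [tk_eq]
      simp only [tk_mul]
      left
      rw [m00, m01, m10, m11]
      refine ⟨?_, ?_, ?_, ?_⟩ <;> ring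
    exact h3
  · intro h
    right
    have h3 : ((N * N : SL(2, F)) : PSL(2, F)) = ((1 : SL(2, F)) : PSL(2, F)) := h
    rw [tk_eq, tk_mul, tk_mul, tk_mul, tk_mul, tk_one00, tk_one01, tk_one10, tk_one11] at h3
    have ht : N 0 0 + N 1 1 = 0 := by
      have : N 1 0 * (N 0 0 + N 1 1) = 0 := by
        rcases h3 with ⟨_, _, h4, _⟩ | ⟨_, _, h4, _⟩
        · linear_combination -h4
        · linear_combination h4
      exact (mul_eq_zero.1 this).resolve_left hc
    have ht' : N 1 1 = -N 0 0 := eq_neg_of_add_eq_zero_right ht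
    -- now `d = ± 2`
    have hd2 : (2 * c - 1) * (2 * c + 1) = 0 := by
      have h5 : c * d * (c * d) = 1 := by rw [hdi]; ring
      linear_combination h5 + c ^ 2 * hd + c ^ 2 * (N 0 0 + N 1 1) * ht
    have hfin : ((N : SL(2, F)) : PSL(2, F)) = ((M : SL(2, F)) : PSL(2, F)) := by
      rw [tk_eq, m00, m01, m10, m11, ht']
      rcases mul_eq_zero.1 hd2 with h8 | h8
      · left
        refine ⟨?_, ?_, ?_, ?_⟩
        · linear_combination N 0 0 * h8
        · linear_combination N 0 1 * h8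
        · linear_combination N 1 0 * h8
        · linear_combination -N 0 0 * h8
      · right
        refine ⟨?_, ?_, ?_, ?_⟩
        · linear_combination N 0 0 * h8
        · linear_combination N 0 1 * h8
        · linear_combination N 1 0 * h8
        · linear_combination -N 0 0 * h8
    exact hfin

/-- The fields of `TBend` which concern involutions (for `q = 3` modulo `4`, `-1` is not a
square). -/
theorem tfields (hi : ¬ IsSquare (-1 : F)) :
    (∀ (g : PSL(2, F)) (x : ℙ F (Fin 2 → F)), g * g = 1 → g • x = x → g = 1) ∧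
    (∀ g : PSL(2, F), (∀ x : ℙ F (Fin 2 → F), g • x ≠ x) → ∃ s : PSL(2, F),
      s * s = 1 ∧ s ≠ 1 ∧ Tor s g) ∧
    (∀ g s s' : PSL(2, F), g ≠ 1 → s * s = 1 → s ≠ 1 → s' * s' = 1 → s' ≠ 1 → Tor s g →
      Tor s' g → s = s') ∧
    (∀ (g s : PSL(2, F)) (x : ℙ F (Fin 2 → F)), s * s = 1 → s ≠ 1 → Tor s g → g • x = x →
      g = 1) ∧
    (∀ g h s : PSL(2, F), s * s = 1 → s ≠ 1 → Tor s g → Tor s h → Tor s (g * h)) ∧
    (∀ g h s : PSL(2, F), s * s = 1 → s ≠ 1 → g * s = s * g → h * s = s * h → ¬ Tor s g →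
      ¬ Tor s h → Tor s (g * h)) :=
  ⟨inv_free h2 hi, ex_tor h2 hi, tor_uniq h2, tor_free h2 hi, tor_mul h2, tor_mul' h2⟩

theorem tbend (hi : ¬ IsSquare (-1 : F)) :
    TBend PSL(2, F) (ℙ F (Fin 2 → F)) (Nat.card F) where
  three := by
    intro g x y z hx hy hz hxy hxz hyz
    obtain ⟨c, hc, h⟩ := to_inf x
    rw [h] at hx hy hz
    rw [← cj1 c]
    rw [hc] at hx
    refine three_inf h2 _ (c • y) (c • z) hx hy hz ?_ ?_ ?_
    · rw [← hc]
      exact fun h => hxy (smul_left_cancel c h).symm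
    · rw [← hc]
      exact fun h => hxz (smul_left_cancel c h).symm
    · exact fun h => hyz (smul_left_cancel c h)
  swap := by
    intro g x y hxy hyx hne
    obtain ⟨c, hc, h⟩ := to_inf x
    rw [← cj1 c, ← cj]
    apply swap' h2
    · rw [← hc, mul_smul, mul_smul, inv_smul_smul, hxy]
      exact fun h3 => hne (smul_left_cancel c h3).symm
    · rw [cj, ← hc, mul_smul, mul_smul, inv_smul_smul, mul_smul, hxy, hyx]
  comm := by
    intro g k x hg hk
    obtain ⟨c, hc, h⟩ := to_inf' h2 x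
    rw [(h g).1] at hg
    rw [(h k).1] at hk
    rw [(h _).2]
    have e : c * (g * k * g⁻¹ * k⁻¹) * c⁻¹ =
      (c * g * c⁻¹) * (c * k * c⁻¹) * (c * g * c⁻¹)⁻¹ * (c * k * c⁻¹)⁻¹ := by group
    rw [e]
    obtain ⟨a, b, ha, hab⟩ := exists_tri _ hg
    obtain ⟨a', b', ha', hab'⟩ := exists_tri _ hk
    rw [hab, hab', tri_inv, tri_inv, tri_mul, tri_mul, tri_mul, uni_inf h2]
    field_simp
  mul := by
    intro g k x hg hk
    obtain ⟨c, hc, h⟩ := to_inf' h2 x
    rw [(h g).2] at hg
    rw [(h k).2] at hk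
    rw [(h _).2, ← cj]
    obtain ⟨b, hb⟩ := uni_inf' h2 hg
    obtain ⟨b', hb'⟩ := uni_inf' h2 hk
    rw [hb, hb', tri_mul, uni_inf h2]
    ring
  cent := by
    intro g u x hg hu hu1 hgu
    obtain ⟨c, hc, h⟩ := to_inf' h2 x
    rw [(h g).1] at hg
    rw [(h u).2] at hu
    rw [(h g).2]
    obtain ⟨a, b, ha, hab⟩ := exists_tri _ hg
    obtain ⟨d, hd⟩ := uni_inf' h2 hu
    have hd0 : d ≠ 0 := by
      rintro rfl
      rw [tri_one, cj1] at hd
      exact hu1 hd
    have h3 : (c * g * c⁻¹) * (c * u * c⁻¹) = (c * u * c⁻¹) * (c * g * c⁻¹) := by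
      rw [cj, cj, hgu]
    rw [hab, hd, tri_mul, tri_mul, tri_eq h2] at h3
    rw [hab, uni_inf h2]
    rcases h3 with ⟨h3, h4⟩ | ⟨h3, h4⟩
    · rw [inv_one] at h4
      have h5 : (a - a⁻¹) * d = 0 := by linear_combination -h4
      have h6 : a = a⁻¹ := sub_eq_zero.1 ((mul_eq_zero.1 h5).resolve_right hd0)
      nth_rw 2 [h6]
      exact mul_inv_cancel₀ ha
    · exfalso
      rw [one_mul, mul_one] at h3
      exact two_mul_ne h2 ha h3.symm
  cardU := by
    intro x
    obtain ⟨c, hc, h⟩ := to_inf' h2 x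
    apply Nat.card_congr
    symm
    refine Equiv.ofBijective (fun b : F => ⟨c⁻¹ * (tri 1 b one_ne_zero : PSL(2, F)) * c, ?_⟩)
      ⟨?_, ?_⟩
    · rw [(h _).2]
      have e : c * (c⁻¹ * (tri 1 b one_ne_zero : PSL(2, F)) * c) * c⁻¹ =
        (tri 1 b one_ne_zero : PSL(2, F)) := by group
      rw [e, uni_inf h2, mul_one]
    · intro a b hab
      have h1 := congrArg Subtype.val hab
      have h3 := mul_left_cancel (mul_right_cancel h1)
      rw [tri_eq h2] at h3
      rcases h3 with ⟨_, h4⟩ | ⟨h4, _⟩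
      · exact h4.symm
      · exact absurd h4.symm (two_mul_ne h2 one_ne_zero)
    · rintro ⟨g, hg⟩
      have hg3 := (h g).2.1 hg
      obtain ⟨b, hb⟩ := uni_inf' h2 hg3
      refine ⟨b, Subtype.ext ?_⟩
      change c⁻¹ * (tri 1 b one_ne_zero : PSL(2, F)) * c = g
      rw [← hb]
      group
  cardH := by
    classical
    intro x
    have hfin : Finite PSL(2, F) := by
      unfold Matrix.ProjectiveSpecialLinearGroup
      infer_instance
    have := Fintype.ofFinite F
    have := Fintype.ofFinite PSL(2, F)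
    have := Fintype.ofFinite (stabilizer PSL(2, F) x)
    obtain ⟨c, hc, h⟩ := to_inf' h2 x
    rw [mul_comm (Nat.card F), ← Nat.card_units, ← Nat.card_prod]
    let f : Fˣ × F → stabilizer PSL(2, F) x := fun p =>
      ⟨c⁻¹ * (tri (p.1 : F) p.2 p.1.ne_zero : PSL(2, F)) * c, by
        rw [mem_stabilizer_iff, mul_smul, mul_smul, hc, tri_fix, ← hc, inv_smul_smul]⟩
    have hf : Function.Surjective f := by
      rintro ⟨g, hg1⟩
      have hg3 := (h g).1.1 hg1
      obtain ⟨a, b, ha, h3⟩ := exists_tri _ hg3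
      refine ⟨(Units.mk0 a ha, b), Subtype.ext ?_⟩
      change c⁻¹ * (tri a b ha : PSL(2, F)) * c = g
      rw [← h3]
      group
    have hff : ∀ p p' : Fˣ × F, f p' = f p ↔ p' = p ∨ p' = (-p.1, -p.2) := by
      intro p p'
      have h4 : f p' = f p ↔
          (tri (p.1 : F) p.2 p.1.ne_zero : PSL(2, F)) = (tri (p'.1 : F) p'.2 p'.1.ne_zero :
            PSL(2, F)) := by
        constructor
        · intro h5
          exact (mul_left_cancel (mul_right_cancel (congrArg Subtype.val h5))).symm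
        · intro h5
          apply Subtype.ext
          change c⁻¹ * (tri (p'.1 : F) p'.2 p'.1.ne_zero : PSL(2, F)) * c =
            c⁻¹ * (tri (p.1 : F) p.2 p.1.ne_zero : PSL(2, F)) * c
          rw [h5]
      rw [h4, tri_eq h2, Prod.ext_iff, Prod.ext_iff, Units.ext_iff, Units.ext_iff]
      simp only [Units.val_neg]
    rw [Nat.card_eq_fintype_card, Nat.card_eq_fintype_card, ← Finset.card_univ (α := Fˣ × F),
      Finset.card_eq_sum_card_fiberwise (f := f) (t := Finset.univ) (fun _ _ => by simp),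
      Finset.sum_const_nat (m := 2), Finset.card_univ, mul_comm]
    intro s _
    obtain ⟨p, rfl⟩ := hf s
    have h5 : (Finset.univ.filter fun p' => f p' = f p) = {p, (-p.1, -p.2)} := by
      ext p'
      rw [Finset.mem_filter, hff]
      simp
    rw [h5, Finset.card_pair]
    intro h6
    have h7 := congrArg (fun q : Fˣ × F => (q.1 : F)) h6
    simp only [Units.val_neg] at h7
    exact two_mul_ne h2 p.1.ne_zero h7.symm
  cardX := Projectivization.card_of_finrank_two F (Fin 2 → F) (by simp)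
  pre := fun x y => pre x y
  inv_free := (tfields h2 hi).1
  ex_tor := (tfields h2 hi).2.1
  tor_uniq := (tfields h2 hi).2.2.1
  tor_free := (tfields h2 hi).2.2.2.1
  tor_mul := (tfields h2 hi).2.2.2.2.1
  tor_mul' := (tfields h2 hi).2.2.2.2.2

omit h2 [Finite F] in
/-- The parameters of the unipotent elements of `Y`. -/
def rpT (Y : Subgroup PSL(2, F)) : AddSubgroup F where
  carrier := {b | (tri 1 b one_ne_zero : PSL(2, F)) ∈ Y}
  zero_mem' := by
    change (tri (1 : F) 0 one_ne_zero : PSL(2, F)) ∈ Y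
    rw [tri_one]
    exact Y.one_mem
  add_mem' := by
    intro a b ha hb
    have h := Y.mul_mem hb ha
    rw [tri_mul] at h
    have e1 : (1 : F) * 1 = 1 := one_mul 1
    have e2 : (1 : F) * a + b * 1⁻¹ = a + b := by rw [inv_one]; ring
    have e3 : (tri (1 * 1) (1 * a + b * 1⁻¹) (mul_ne_zero one_ne_zero one_ne_zero) : SL(2, F)) =
        tri 1 (a + b) one_ne_zero := by
      congr 1
    rw [e3] at h
    exact h
  neg_mem' := by
    intro b hb
    have h := Y.inv_mem hb
    rw [tri_inv] at h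
    have e3 : (tri (1 : F)⁻¹ (-b) (inv_ne_zero one_ne_zero) : SL(2, F)) =
        tri 1 (-b) one_ne_zero := by
      congr 1
      exact inv_one
    rw [e3] at h
    exact h

omit h2 [Finite F] in
/-- The ring of multipliers of `T`. -/
def rpR (T : AddSubgroup F) : Subring F where
  carrier := {r | ∀ b ∈ T, r * b ∈ T}
  zero_mem' := by
    intro b _
    rw [zero_mul]
    exact T.zero_mem
  one_mem' := by
    intro b hb
    rw [one_mul]
    exact hb
  add_mem' := by
    intro r s hr hs b hb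
    rw [add_mul]
    exact T.add_mem (hr b hb) (hs b hb)
  neg_mem' := by
    intro r hr b hb
    rw [neg_mul]
    exact T.neg_mem (hr b hb)
  mul_mem' := by
    intro r s hr hs b hb
    rw [mul_assoc]
    exact hr _ (hs b hb)

omit h2 in
lemma rpR_inv (R : Subring F) {r : F} (hr : r ∈ R) (hr0 : r ≠ 0) : r⁻¹ ∈ R := by
  have h1 : (Units.mk0 r hr0) ^ Nat.card Fˣ = 1 := pow_card_eq_one'
  have h3 : r ^ Nat.card Fˣ = 1 := by
    have := congrArg Units.val h1
    rwa [Units.val_pow_eq_pow_val, Units.val_one, Units.val_mk0] at this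
  have hpos : 0 < Nat.card Fˣ := Nat.card_pos
  obtain ⟨m, hm⟩ : ∃ m, Nat.card Fˣ = m + 1 := ⟨Nat.card Fˣ - 1, by omega⟩
  rw [hm, pow_succ] at h3
  rw [← eq_inv_of_mul_eq_one_left h3]
  exact R.pow_mem hr m

omit h2 in
/-- The nonzero elements of a subring of `F`. -/
def rpU (R : Subring F) : Subgroup Fˣ where
  carrier := {u | (u : F) ∈ R}
  one_mem' := R.one_mem
  mul_mem' := fun ha hb => R.mul_mem ha hb
  inv_mem' := by
    intro u hu
    change ((u⁻¹ : Fˣ) : F) ∈ R
    rw [Units.val_inv_eq_inv_val]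
    exact rpR_inv R hu u.ne_zero

omit h2 in
lemma card_rpU (R : Subring F) : Nat.card (rpU R) = Nat.card R - 1 := by
  have h : Nat.card (Option (rpU R)) = Nat.card R := by
    apply Nat.card_congr
    refine Equiv.ofBijective (fun p : Option (rpU R) => match p with
      | none => (0 : R)
      | some u => ⟨((u : Fˣ) : F), u.2⟩) ⟨?_, ?_⟩
    · rintro (_ | u) (_ | w) h
      · rfl
      · exfalso
        have h1 := congrArg Subtype.val h
        exact (w : Fˣ).ne_zero h1.symm
      · exfalso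
        have h1 := congrArg Subtype.val h
        exact (u : Fˣ).ne_zero h1
      · have h1 := congrArg Subtype.val h
        exact congrArg some (Subtype.ext (Units.ext h1))
    · intro r
      by_cases hr : (r : F) = 0
      · exact ⟨none, Subtype.ext hr.symm⟩
      · exact ⟨some ⟨Units.mk0 r hr, r.2⟩, rfl⟩
  rw [Finite.card_option] at h
  omega

lemma card_rpR_odd (R : Subring F) : Odd (Nat.card R) := by
  have h1 : Nat.card R ∣ Nat.card F := AddSubgroup.card_addSubgroup_dvd_card R.toAddSubgroup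
  have : Fintype F := Fintype.ofFinite F
  have hc : ringChar F ≠ 2 := by
    intro hc
    apply h2
    have := ringChar.Nat.cast_ringChar (R := F)
    rw [hc] at this
    exact_mod_cast this
  have h3 := FiniteField.odd_card_of_char_ne_two hc
  rw [← Nat.card_eq_fintype_card] at h3
  exact Odd.of_dvd_nat (Nat.odd_iff.2 h3) h1

omit h2 in
lemma rp_bound (T : AddSubgroup F) (w : F) (hw : w ∉ T) :
    Nat.card T * Nat.card (rpR T) ≤ Nat.card F := by
  rw [← Nat.card_prod]
  refine Nat.card_le_card_of_injective (fun p : T × rpR T => (p.2 : F) * w + p.1) ?_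
  rintro ⟨b, r⟩ ⟨b', r'⟩ h
  change (r : F) * w + b = (r' : F) * w + b' at h
  have hr : (r : F) = r' := by
    by_contra hne
    apply hw
    have h3 : (r : F) - r' ∈ rpR T := (rpR T).sub_mem r.2 r'.2
    have h4 : (r : F) - r' ≠ 0 := sub_ne_zero.2 hne
    have h5 := rpR_inv (rpR T) h3 h4
    have h6 : (b' : F) - b ∈ T := T.sub_mem b'.2 b.2
    have h7 : w = ((r : F) - r')⁻¹ * (b' - b) := by
      rw [eq_inv_mul_iff_mul_eq₀ h4]
      linear_combination h
    rw [h7]
    exact h5 _ h6
  have hb : (b : F) = b' := by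
    rw [hr] at h
    linear_combination h
  exact Prod.ext (Subtype.ext hb) (Subtype.ext hr)

/-- The multiplier of an element of the stabilizer of `inf`. -/
lemma rp_mult (g : PSL(2, F)) (hg : g • inf F = inf F) : ∃! m : F, ∃ (a b : F) (ha : a ≠ 0),
    g = (tri a b ha : PSL(2, F)) ∧ m = a * a := by
  obtain ⟨a, b, ha, h⟩ := exists_tri g hg
  refine ⟨a * a, ⟨a, b, ha, h, rfl⟩, ?_⟩
  rintro m ⟨a', b', ha', h', rfl⟩
  rw [h, tri_eq h2] at h'
  rcases h' with ⟨h3, _⟩ | ⟨h3, _⟩
  · rw [h3]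
  · rw [h3, neg_mul_neg]

theorem ring_part_inf (Y : Subgroup PSL(2, F)) (v : PSL(2, F)) (hv : Uni (inf F) v)
    (hvY : v ∉ Y) :
    ∃ e d : ℕ, 1 < e ∧ Odd e ∧ d ∣ e - 1 ∧
      Nat.card {g : PSL(2, F) // g ∈ Y ∧ g • inf F = inf F} =
        Nat.card {g : PSL(2, F) // g ∈ Y ∧ Uni (inf F) g} * d ∧
      Nat.card {g : PSL(2, F) // g ∈ Y ∧ Uni (inf F) g} * e ≤ Nat.card F := by
  classical
  obtain ⟨w, hw⟩ := uni_inf' h2 hv
  have hwT : w ∉ rpT Y := by
    intro h
    apply hvY
    rw [hw]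
    exact h
  have hT : Nat.card {g : PSL(2, F) // g ∈ Y ∧ Uni (inf F) g} = Nat.card (rpT Y) := by
    apply Nat.card_congr
    symm
    refine Equiv.ofBijective (fun b : rpT Y => ⟨(tri 1 (b : F) one_ne_zero : PSL(2, F)), b.2, ?_⟩)
      ⟨?_, ?_⟩
    · rw [uni_inf h2, mul_one]
    · intro a b hab
      have h1 := congrArg Subtype.val hab
      have h3 : (tri 1 (a : F) one_ne_zero : PSL(2, F)) = (tri 1 (b : F) one_ne_zero) := h1
      rw [tri_eq h2] at h3
      rcases h3 with ⟨_, h4⟩ | ⟨h4, _⟩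
      · exact Subtype.ext h4.symm
      · exact absurd h4.symm (two_mul_ne h2 one_ne_zero)
    · rintro ⟨g, hgY, hg⟩
      obtain ⟨b, hb⟩ := uni_inf' h2 hg
      have hbT : b ∈ rpT Y := by
        change (tri 1 b one_ne_zero : PSL(2, F)) ∈ Y
        rw [← hb]
        exact hgY
      exact ⟨⟨b, hbT⟩, Subtype.ext hb.symm⟩
  let H : Subgroup PSL(2, F) := Y ⊓ stabilizer PSL(2, F) (inf F)
  have hH : ∀ g : H, (g : PSL(2, F)) • inf F = inf F := fun g => g.2.2
  choose m hm hmu using fun g : H => rp_mult h2 (g : PSL(2, F)) (hH g)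
  have hm0 : ∀ g : H, m g ≠ 0 := by
    intro g
    obtain ⟨a, b, ha, _, h4⟩ := hm g
    rw [h4]
    exact mul_ne_zero ha ha
  have hmm : ∀ g k : H, m (g * k) = m g * m k := by
    intro g k
    obtain ⟨a, b, ha, h3, h4⟩ := hm g
    obtain ⟨a', b', ha', h3', h4'⟩ := hm k
    symm
    apply hmu (g * k)
    refine ⟨a * a', a * b' + b * a'⁻¹, mul_ne_zero ha ha', ?_, ?_⟩
    · change (g : PSL(2, F)) * (k : PSL(2, F)) = _
      rw [h3, h3', tri_mul]
    · rw [h4, h4']
      ring
  let χ : H →* Fˣ := MonoidHom.mk' (fun g => Units.mk0 (m g) (hm0 g))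
    (fun g k => Units.ext (hmm g k))
  have hχ : ∀ g, (χ g : F) = m g := fun g => rfl
  have hcardH : Nat.card {g : PSL(2, F) // g ∈ Y ∧ g • inf F = inf F} = Nat.card H := rfl
  have hker : Nat.card χ.ker = Nat.card {g : PSL(2, F) // g ∈ Y ∧ Uni (inf F) g} := by
    apply Nat.card_congr
    refine Equiv.ofBijective (fun g : χ.ker => ⟨((g : H) : PSL(2, F)), (g : H).2.1, ?_⟩) ⟨?_, ?_⟩
    · obtain ⟨a, b, ha, h3, h4⟩ := hm g
      have h5 : m g = 1 := by
        have := congrArg Units.val (MonoidHom.mem_ker.1 g.2)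
        rwa [hχ, Units.val_one] at this
      rw [h3, uni_inf h2, ← h4, h5]
    · intro g k hgk
      have h6 : ((g : H) : PSL(2, F)) = ((k : H) : PSL(2, F)) :=
        congrArg (fun z : {g : PSL(2, F) // g ∈ Y ∧ Uni (inf F) g} => (z : PSL(2, F))) hgk
      exact Subtype.ext (Subtype.ext h6)
    · rintro ⟨g, hgY, hg⟩
      refine ⟨⟨⟨g, hgY, hg.1⟩, ?_⟩, rfl⟩
      rw [MonoidHom.mem_ker]
      apply Units.ext
      rw [hχ, Units.val_one]
      obtain ⟨a, b, ha, h3, h4⟩ := hm ⟨g, hgY, hg.1⟩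
      rw [h4]
      have h3' : g = (tri a b ha : PSL(2, F)) := h3
      rw [h3', uni_inf h2] at hg
      exact hg
  have hrange : χ.range ≤ rpU (rpR (rpT Y)) := by
    rintro _ ⟨g, rfl⟩
    change (χ g : F) ∈ rpR (rpT Y)
    rw [hχ]
    intro b hb
    obtain ⟨a, b', ha, h3, h4⟩ := hm g
    change (tri 1 (m g * b) one_ne_zero : PSL(2, F)) ∈ Y
    have h5 := Y.mul_mem (Y.mul_mem g.2.1 hb) (Y.inv_mem g.2.1)
    rw [h3, tri_inv, tri_mul, tri_mul] at h5
    have e1 : a * 1 * a⁻¹ = 1 := by field_simp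
    have e2 : a * 1 * -b' + (a * b + b' * 1⁻¹) * a⁻¹⁻¹ = m g * b := by
      rw [inv_inv, inv_one, h4]
      ring
    have e3 : (tri (a * 1 * a⁻¹) (a * 1 * -b' + (a * b + b' * 1⁻¹) * a⁻¹⁻¹)
        (mul_ne_zero (mul_ne_zero ha one_ne_zero) (inv_ne_zero ha)) : SL(2, F)) =
        tri 1 (m g * b) one_ne_zero := by
      congr 1
    rw [e3] at h5
    exact h5
  refine ⟨Nat.card (rpR (rpT Y)), Nat.card χ.range, Finite.one_lt_card, card_rpR_odd h2 _, ?_, ?_,
    ?_⟩
  · rw [← card_rpU]
    exact Subgroup.card_dvd_of_le hrange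
  · rw [hcardH, ← hker, ← Subgroup.index_ker, Subgroup.card_mul_index]
  · rw [hT]
    exact rp_bound _ w hwT

/-- The torus part of `Y_x` lies in the multiplicative group of a subring of `F` which acts on
the unipotent part. -/
theorem ring_part (Y : Subgroup PSL(2, F)) (x : ℙ F (Fin 2 → F)) (v : PSL(2, F)) (hv : Uni x v)
    (hvY : v ∉ Y) :
    ∃ e d : ℕ, 1 < e ∧ Odd e ∧ d ∣ e - 1 ∧
      Nat.card {g : PSL(2, F) // g ∈ Y ∧ g • x = x} =
        Nat.card {g : PSL(2, F) // g ∈ Y ∧ Uni x g} * d ∧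
      Nat.card {g : PSL(2, F) // g ∈ Y ∧ Uni x g} * e ≤ Nat.card F := by
  obtain ⟨c, hc, h⟩ := to_inf' h2 x
  let Y' : Subgroup PSL(2, F) := Y.comap (MulAut.conj c⁻¹).toMonoidHom
  have hY' : ∀ g, g ∈ Y ↔ c * g * c⁻¹ ∈ Y' := by
    intro g
    change g ∈ Y ↔ c⁻¹ * (c * g * c⁻¹) * c⁻¹⁻¹ ∈ Y
    rw [show c⁻¹ * (c * g * c⁻¹) * c⁻¹⁻¹ = g by group]
  have h1 : Nat.card {g : PSL(2, F) // g ∈ Y ∧ g • x = x} =
      Nat.card {g : PSL(2, F) // g ∈ Y' ∧ g • inf F = inf F} :=
    Nat.card_congr ((MulAut.conj c).toEquiv.subtypeEquiv fun g => by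
      change (g ∈ Y ∧ g • x = x) ↔ (c * g * c⁻¹ ∈ Y' ∧ (c * g * c⁻¹) • inf F = inf F)
      rw [hY' g, (h g).1])
  have h3 : Nat.card {g : PSL(2, F) // g ∈ Y ∧ Uni x g} =
      Nat.card {g : PSL(2, F) // g ∈ Y' ∧ Uni (inf F) g} :=
    Nat.card_congr ((MulAut.conj c).toEquiv.subtypeEquiv fun g => by
      change (g ∈ Y ∧ Uni x g) ↔ (c * g * c⁻¹ ∈ Y' ∧ Uni (inf F) (c * g * c⁻¹))
      rw [hY' g, (h g).2])
  rw [h1, h3]
  exact ring_part_inf h2 Y' (c * v * c⁻¹) ((h v).2.1 hv) (fun h4 => hvY ((hY' v).2 h4))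

end mat

lemma exists_nonsq (F : Type*) [Field F] [Finite F] (h2 : (2 : F) ≠ 0)
    (hsq : ¬ IsSquare (Nat.card F)) : ∃ n : ℕ, ¬ IsSquare (n : F) := by
  by_contra hcon
  push Not at hcon
  have : Fintype F := Fintype.ofFinite F
  obtain ⟨p, hp⟩ := CharP.exists F
  have hpp : p.Prime := CharP.char_is_prime F p
  have hfp : Fact p.Prime := ⟨hpp⟩
  let _ : Algebra (ZMod p) F := ZMod.algebra F p
  have hp2 : p ≠ 2 := by
    rintro rfl
    exact h2 (CharTwo.two_eq_zero)
  obtain ⟨a, ha⟩ : ∃ a : ZMod p, ¬ IsSquare a := FiniteField.exists_nonsquare (by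
    rw [ZMod.ringChar_zmod_n]
    exact hp2)
  obtain ⟨y, hy⟩ := hcon a.val
  have hy' : algebraMap (ZMod p) F a = y * y := by
    rw [← hy, ← map_natCast (algebraMap (ZMod p) F), ZMod.natCast_zmod_val]
  have hint : IsIntegral (ZMod p) y := Algebra.IsIntegral.isIntegral y
  have hle : (minpoly (ZMod p) y).natDegree ≤ 2 := by
    have h := minpoly.min (ZMod p) y (p := Polynomial.X ^ 2 - Polynomial.C a)
      (Polynomial.monic_X_pow_sub_C a (by norm_num)) (by
        simp only [map_sub, map_pow, Polynomial.aeval_X, Polynomial.aeval_C]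
        rw [hy', pow_two, sub_self])
    have h1 := Polynomial.natDegree_le_natDegree h
    rwa [Polynomial.natDegree_X_pow_sub_C] at h1
  have hne : (minpoly (ZMod p) y).natDegree ≠ 1 := by
    intro h
    rw [minpoly.natDegree_eq_one_iff] at h
    obtain ⟨b, hb⟩ := h
    apply ha
    refine ⟨b, (algebraMap (ZMod p) F).injective ?_⟩
    rw [hy', map_mul, hb]
  have hpos := minpoly.natDegree_pos hint
  have hdeg : (minpoly (ZMod p) y).natDegree = 2 := by omega
  have hdvd := minpoly.degree_dvd hint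
  rw [hdeg] at hdvd
  obtain ⟨j, hj⟩ := hdvd
  apply hsq
  refine ⟨p ^ j, ?_⟩
  rw [Nat.card_eq_fintype_card, Module.card_eq_pow_finrank (K := ZMod p), hj, ZMod.card,
    ← pow_add, two_mul]

section abstr

variable {G X : Type*} [Group G] [Finite G] [MulAction G X] [Finite X] {q : ℕ}

lemma odd_order {A : Subgroup G} (hodd : ∀ a ∈ A, a * a = 1 → a = 1) {a : G} (ha : a ∈ A) :
    Odd (orderOf a) := by
  by_contra h
  obtain ⟨k, hk⟩ := Nat.not_odd_iff_even.1 h
  have h1 : a ^ k = 1 := by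
    apply hodd _ (A.pow_mem ha k)
    rw [← pow_add, ← hk, pow_orderOf_eq_one]
  have h2 := orderOf_dvd_of_pow_eq_one h1
  have h3 := orderOf_pos a
  have h4 := Nat.le_of_dvd (by omega) h2
  omega

omit [Finite G] [Finite X] in
lemma fix_of_sq {a : G} (ha : Odd (orderOf a)) {x : X} (h : (a * a) • x = x) : a • x = x := by
  obtain ⟨k, hk⟩ := ha
  have h1 : (a * a) ^ (k + 1) = a := by
    rw [← pow_two, ← pow_mul, show 2 * (k + 1) = (2 * k + 1) + 1 by ring, ← hk, pow_succ,
      pow_orderOf_eq_one, one_mul]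
  have h2 : (a * a) ^ (k + 1) ∈ stabilizer G x := pow_mem (mem_stabilizer_iff.2 h) _
  rw [h1] at h2
  exact h2

variable (B : OBend G X q)
include B

omit B in
/-- Conjugation carries `Uni x` to `Uni (c • x)`. -/
lemma uni_conj {x : X} {g : G} (h : Uni x g) (c : G) : Uni (c • x) (c * g * c⁻¹) := by
  refine ⟨by rw [mul_smul, mul_smul, inv_smul_smul, h.1], fun hne y hy => ?_⟩
  have h1 : g ≠ 1 := by
    rintro rfl
    exact hne (by group)
  have h2 : g • (c⁻¹ • y) = c⁻¹ • y := by
    rw [mul_smul, mul_smul] at hy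
    exact eq_inv_smul_iff.2 hy
  have h3 := h.2 h1 _ h2
  rw [← h3, smul_inv_smul]

/-- The elements which are `1` or fix only the point `x`. -/
def U (x : X) : Subgroup G where
  carrier := {g | Uni x g}
  mul_mem' := by
    intro g h h1 h2
    exact B.mul g h x h1 h2
  one_mem' := ⟨one_smul _ _, fun h => absurd rfl h⟩
  inv_mem' := by
    rintro g ⟨h1, h2⟩
    refine ⟨inv_smul_eq_iff.2 h1.symm, fun h y hy => h2 (fun h3 => h (by rw [h3, inv_one])) y ?_⟩
    exact (inv_smul_eq_iff.1 hy).symm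

omit [Finite G] [Finite X] in
lemma mem_U {x : X} {g : G} : g ∈ U B x ↔ Uni x g := Iff.rfl

omit [Finite G] [Finite X] in
lemma card_U (x : X) : Nat.card (U B x) = q := B.cardU x

/-- A subgroup `Y` of index at most `q` acts transitively on `X`, has index `q`, and contains no
element `g ≠ 1` with only one fixed point. -/
lemma index_small [IsSimpleGroup G] (hq : 2 ≤ q) (x : X)
    (hc : ∀ u v : G, Uni x u → Uni x v → u ≠ 1 → v ≠ 1 →
      ∃ (c : G) (k l : ℕ), c * u ^ k * c⁻¹ = v ∧ (u ^ k) ^ l = u)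
    (Y : Subgroup G) (hY : Y ≠ ⊤) (hcon : Y.index < q + 1) :
    Y.index = q ∧ (∀ z w : X, ∃ y ∈ Y, y • z = w) ∧ ∀ g ∈ Y, ∀ y : X, Uni y g → g = 1 := by
  classical
  have hfaith := faithful_of_ne_top Y hY
  have : Fintype G := Fintype.ofFinite G
  have : Fintype (G ⧸ Y) := Fintype.ofFinite _
  obtain ⟨u0, hu0, hu01⟩ : ∃ u ∈ U B x, u ≠ 1 := by
    by_contra h
    push Not at h
    have h1 : U B x = ⊥ := by
      rw [eq_bot_iff]
      intro u hu
      exact h u hu
    have h2 := card_U B x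
    rw [h1, Subgroup.card_bot] at h2
    omega
  have hconst : ∀ u : U B x, u ≠ 1 →
      Nat.card (fixedBy (G ⧸ Y) u) = Nat.card (fixedBy (G ⧸ Y) u0) := by
    intro u hu
    obtain ⟨g, k, l, hg, hl⟩ := hc u0 u hu0 u.2 hu01 (fun h => hu (Subtype.ext h))
    have e0 : ∀ w : G ⧸ Y, u0 • w = w ↔ (u0 ^ k) • w = w := by
      intro w
      constructor
      · intro h
        have h1 : u0 ∈ stabilizer G w := h
        exact (stabilizer G w).pow_mem h1 k
      · intro h
        have h1 : u0 ^ k ∈ stabilizer G w := h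
        have h2 := (stabilizer G w).pow_mem h1 l
        rw [hl] at h2
        exact h2
    have e : ∀ w : G ⧸ Y, (w ∈ fixedBy (G ⧸ Y) u0) ↔ (g • w ∈ fixedBy (G ⧸ Y) u) := by
      intro w
      rw [mem_fixedBy, mem_fixedBy]
      change u0 • w = w ↔ (u : G) • g • w = g • w
      rw [← hg, mul_smul, mul_smul, inv_smul_smul, e0]
      exact ⟨fun h => by rw [h], fun h => smul_left_cancel g h⟩
    exact (Nat.card_congr ((MulAction.toPerm g).subtypeEquiv e)).symm
  set m := Nat.card (G ⧸ Y) with hm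
  have hmY : Y.index = m := rfl
  set φ := Nat.card (fixedBy (G ⧸ Y) u0) with hφ
  have hφm : φ < m := by
    apply Nat.lt_of_le_of_ne (Nat.card_le_card_of_injective _ Subtype.val_injective)
    intro h
    apply hu01
    apply hfaith.eq_of_smul_eq_smul
    intro w
    have hb := (Subtype.val_injective
      (p := fun w => w ∈ fixedBy (G ⧸ Y) u0)).bijective_of_nat_card_le (le_of_eq h.symm)
    obtain ⟨w', rfl⟩ := hb.2 w
    rw [one_smul]
    exact w'.2
  have hB := MulAction.sum_card_fixedBy_eq_card_orbits_mul_card_group (U B x) (G ⧸ Y)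
  have hs : ∑ u : U B x, Fintype.card (fixedBy (G ⧸ Y) u) = m + (q - 1) * φ := by
    rw [← Finset.add_sum_erase _ _ (Finset.mem_univ (1 : U B x))]
    congr 1
    · rw [← Nat.card_eq_fintype_card, hm]
      have : fixedBy (G ⧸ Y) (1 : U B x) = Set.univ := by
        ext w
        simp
      rw [this]
      exact Nat.card_congr (Equiv.Set.univ _)
    · rw [Finset.sum_congr rfl (fun u hu => by
        rw [← Nat.card_eq_fintype_card, hconst u (Finset.ne_of_mem_erase hu)])]
      rw [Finset.sum_const, Finset.card_erase_of_mem (Finset.mem_univ _), Finset.card_univ,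
        ← Nat.card_eq_fintype_card, card_U, smul_eq_mul]
  rw [hs, ← Nat.card_eq_fintype_card (α := U B x), card_U] at hB
  set k := Fintype.card (Quotient (orbitRel (U B x) (G ⧸ Y))) with hk
  have hmφ : m = q ∧ φ = 0 := by
    obtain ⟨q', rfl⟩ : ∃ q', q = q' + 1 := ⟨q - 1, by omega⟩
    simp only [Nat.add_sub_cancel] at hB
    have h1 : (q' + 1) ∣ m - φ := by
      have h2 : m - φ + (q' + 1) * φ = k * (q' + 1) := by
        rw [← hB]
        have : (q' + 1) * φ = q' * φ + φ := by ring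
        omega
      rw [← Nat.dvd_add_left (Dvd.intro _ rfl : (q' + 1) ∣ (q' + 1) * φ), h2]
      exact Dvd.intro_left _ rfl
    have h2 := Nat.le_of_dvd (by omega) h1
    omega
  obtain ⟨hmq, hφ0⟩ := hmφ
  have hfree0 : ∀ g : G, Uni x g → g ≠ 1 → ∀ w : G ⧸ Y, g • w ≠ w := by
    intro g hg hg1 w hw
    have h0 := hconst ⟨g, hg⟩ (fun h => hg1 (congrArg Subtype.val h))
    have h1 : Nonempty (fixedBy (G ⧸ Y) (⟨g, hg⟩ : U B x)) := ⟨⟨w, hw⟩⟩
    have h2 : 0 < Nat.card (fixedBy (G ⧸ Y) (⟨g, hg⟩ : U B x)) := Nat.card_pos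
    omega
  have hfree : ∀ (g : G) (y : X), Uni y g → g ≠ 1 → ∀ w : G ⧸ Y, g • w ≠ w := by
    intro g y hg hg1 w hw
    obtain ⟨c, hc'⟩ := B.pre y x
    have h1 := uni_conj hg c
    rw [hc'] at h1
    refine hfree0 _ h1 ?_ (c • w) ?_
    · intro h
      rw [mul_inv_eq_one] at h
      exact hg1 (mul_left_cancel (h.trans (mul_one c).symm))
    · rw [mul_smul, mul_smul, inv_smul_smul, hw]
  let w0 : G ⧸ Y := ((1 : G) : G ⧸ Y)
  have hinj : Function.Injective (fun u : U B x => (u : G) • w0) := by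
    intro u v huv
    by_contra hne
    have h1 : ((u : G)⁻¹ * v) ∈ U B x := (U B x).mul_mem ((U B x).inv_mem u.2) v.2
    refine hfree0 _ h1 ?_ w0 ?_
    · intro h
      rw [inv_mul_eq_one] at h
      exact hne (Subtype.ext h)
    · rw [mul_smul, inv_smul_eq_iff]
      exact huv.symm
  have hbij := hinj.bijective_of_nat_card_le (by rw [card_U]; exact le_of_eq hmq)
  have htr : ∀ z : X, ∃ y ∈ Y, y • x = z := by
    intro z
    obtain ⟨c, hc⟩ := B.pre x z
    obtain ⟨u, hu⟩ := hbij.2 (c⁻¹ • w0)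
    have h1 : (u : G)⁻¹ * c⁻¹ ∈ Y := by
      rw [← QuotientGroup.eq]
      simpa [w0] using hu
    refine ⟨((u : G)⁻¹ * c⁻¹)⁻¹, Y.inv_mem h1, ?_⟩
    rw [mul_inv_rev, inv_inv, inv_inv, mul_smul, u.2.1, hc]
  refine ⟨hmq, ?_, ?_⟩
  · intro z w
    obtain ⟨y1, h1, e1⟩ := htr z
    obtain ⟨y2, h2, e2⟩ := htr w
    exact ⟨y2 * y1⁻¹, Y.mul_mem h2 (Y.inv_mem h1), by rw [mul_smul, ← e1, inv_smul_smul, e2]⟩
  · intro g hg y hgy
    by_contra h1
    refine hfree g y hgy h1 w0 ?_
    change ((g * 1 : G) : G ⧸ Y) = ((1 : G) : G ⧸ Y)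
    rw [mul_one, QuotientGroup.eq, mul_one]
    exact Y.inv_mem hg

/-- A transitive subgroup `Y` without elements `g ≠ 1` with only one fixed point has a point
stabilizer of order different from `(q - 1) / 2`. -/
lemma no_reg (hq : 13 ≤ q) (x : X) (Y : Subgroup G)
    (htr : ∀ z w : X, ∃ y ∈ Y, y • z = w) (huni : ∀ g ∈ Y, ∀ y : X, Uni y g → g = 1)
    (K : Finset G) (hK : ∀ g, g ∈ K ↔ g ∈ Y ∧ g • x = x) (hd : 2 * K.card + 1 = q) : False := by
  classical
  have : Fintype G := Fintype.ofFinite G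
  have : Fintype X := Fintype.ofFinite X
  have hX : Fintype.card X = q + 1 := by rw [← Nat.card_eq_fintype_card, B.cardX]
  obtain ⟨g, hgK, hg1⟩ := Finset.exists_mem_ne (s := K) (by omega) 1
  obtain ⟨hg, hgx⟩ := (hK g).1 hgK
  obtain ⟨y, hgy, hyx⟩ : ∃ y : X, g • y = y ∧ y ≠ x := by
    by_contra hcon
    push Not at hcon
    exact hg1 (huni g hg x ⟨hgx, fun _ => hcon⟩)
  have key : ∀ h ∈ Y, h • x = x → h • y = y := by
    intro h hh hhx
    have h1 : g * h * g⁻¹ * h⁻¹ = 1 := by
      apply huni _ _ x (B.comm g h x hgx hhx)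
      exact Y.mul_mem (Y.mul_mem (Y.mul_mem hg hh) (Y.inv_mem hg)) (Y.inv_mem hh)
    rw [mul_inv_eq_one, mul_inv_eq_iff_eq_mul] at h1
    have h2 : g • (h • y) = h • y := by rw [← mul_smul, h1, mul_smul, hgy]
    by_contra hne
    refine hg1 (B.three g x y (h • y) hgx hgy h2 (Ne.symm hyx) ?_ (Ne.symm hne))
    intro h3
    rw [← hhx] at h3
    have h4 := smul_left_cancel h h3
    exact hyx (by rw [← h4])
  obtain ⟨a, ha, hax⟩ := htr x y
  have h1 : (a⁻¹ * g * a) • y = y := by
    apply key _ (Y.mul_mem (Y.mul_mem (Y.inv_mem ha) hg) ha)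
    rw [mul_smul, mul_smul, hax, hgy, ← hax, inv_smul_smul]
  have h2 : g • (a • y) = a • y := by
    have := congrArg (fun z => a • z) h1
    simp only [mul_smul, smul_inv_smul] at this
    exact this
  have h3 : a • y ≠ y := by
    intro h
    rw [← hax] at h
    have h4 := smul_left_cancel a h
    exact hyx (by rw [← hax]; exact h4)
  have hay : a • y = x := by
    by_contra hne
    exact hg1 (B.three g x y (a • y) hgx hgy h2 (Ne.symm hyx) (Ne.symm hne) (Ne.symm h3))
  -- the elements of `a Y_x` interchange `x` and `y`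
  have hswx : ∀ h ∈ Y, h • x = x → (a * h) • x = y := by
    intro h hh hhx
    rw [mul_smul, hhx, hax]
  have hswy : ∀ h ∈ Y, h • x = x → (a * h) • y = x := by
    intro h hh hhx
    rw [mul_smul, key h hh hhx, hay]
  have hsq : ∀ h ∈ Y, h • x = x → (a * h) * (a * h) = 1 := by
    intro h hh hhx
    exact B.swap _ x y (hswx h hh hhx) (hswy h hh hhx) (Ne.symm hyx)
  have hne1 : ∀ h ∈ Y, h • x = x → a * h ≠ 1 := by
    intro h hh hhx h0
    have h4 := hswx h hh hhx
    rw [h0, one_smul] at h4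
    exact hyx h4.symm
  -- at most one involution fixes a point
  have huq : ∀ (w : X) (s t : G), s ∈ Y → t ∈ Y → s * s = 1 → t * t = 1 → s ≠ 1 → t ≠ 1 →
      s • w = w → t • w = w → s = t := by
    intro w s t hs ht hss htt hs1 ht1 hsw htw
    have h4 := huni _ (Y.mul_mem hs ht) w (B.inv_mul s t w hsw htw hss htt hs1 ht1)
    have h5 : t = s⁻¹ := eq_inv_of_mul_eq_one_right h4
    have h6 : s⁻¹ = s := inv_eq_of_mul_eq_one_left hss
    rw [h5, h6]
  have hcj : ∀ c s : G, c ∈ Y → s ∈ Y → s * s = 1 → s ≠ 1 →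
      (c * s * c⁻¹ ∈ Y ∧ (c * s * c⁻¹) * (c * s * c⁻¹) = 1 ∧ c * s * c⁻¹ ≠ 1) := by
    intro c s hc hs hss hs1
    refine ⟨Y.mul_mem (Y.mul_mem hc hs) (Y.inv_mem hc), ?_, ?_⟩
    · rw [show c * s * c⁻¹ * (c * s * c⁻¹) = c * (s * s) * c⁻¹ by group, hss]
      group
    · intro h
      rw [mul_inv_eq_one] at h
      exact hs1 (mul_left_cancel (h.trans (mul_one c).symm))
  -- the involution `z` fixing `x`
  have haa : a * a = 1 := by
    have h4 := hsq 1 Y.one_mem (one_smul _ _)
    rwa [mul_one] at h4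
  have ha1 : a ≠ 1 := by
    have h4 := hne1 1 Y.one_mem (one_smul _ _)
    rwa [mul_one] at h4
  obtain ⟨z0, hz0⟩ := B.inv_fix a haa
  obtain ⟨c0, hc0, hcz0⟩ := htr z0 x
  obtain ⟨hzY, hzz, hz1⟩ := hcj c0 a hc0 ha haa ha1
  have hzx : (c0 * a * c0⁻¹) • x = x := by
    rw [← hcz0, mul_smul, mul_smul, inv_smul_smul, hz0]
  generalize c0 * a * c0⁻¹ = z at hzY hzz hz1 hzx
  have hzy : z • y = y := key z hzY hzx
  -- every point other than `x` and `y` is fixed by an element of `a Y_x`
  let F : G → Finset X := fun h => Finset.univ.filter fun w : X => (a * h) • w = w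
  have hF2 : ∀ h ∈ K, 2 ≤ (F h).card := by
    intro h hh
    obtain ⟨hh1, hh2⟩ := (hK h).1 hh
    obtain ⟨w, hw⟩ := B.inv_fix _ (hsq h hh1 hh2)
    obtain ⟨w', hw', hne⟩ := B.inv_two _ w (hsq h hh1 hh2) (hne1 h hh1 hh2) hw
    have h4 : ({w, w'} : Finset X) ⊆ F h := by
      intro v hv
      simp only [Finset.mem_insert, Finset.mem_singleton] at hv
      simp only [F, Finset.mem_filter, Finset.mem_univ, true_and]
      rcases hv with rfl | rfl
      · exact hw
      · exact hw'
    have h5 := Finset.card_le_card h4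
    rwa [Finset.card_pair (Ne.symm hne)] at h5
  have hdisj : (K : Set G).PairwiseDisjoint F := by
    intro h hh h' hh' hne
    rw [Finset.mem_coe, hK] at hh hh'
    change Disjoint (F h) (F h')
    rw [Finset.disjoint_left]
    intro w hw hw'
    simp only [F, Finset.mem_filter, Finset.mem_univ, true_and] at hw hw'
    apply hne
    exact mul_left_cancel (huq w _ _ (Y.mul_mem ha hh.1) (Y.mul_mem ha hh'.1)
      (hsq h hh.1 hh.2) (hsq h' hh'.1 hh'.2) (hne1 h hh.1 hh.2) (hne1 h' hh'.1 hh'.2) hw hw')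
  have hsub : K.biUnion F ⊆ (Finset.univ.erase x).erase y := by
    intro w hw
    rw [Finset.mem_biUnion] at hw
    obtain ⟨h, hh, hw⟩ := hw
    obtain ⟨hh1, hh2⟩ := (hK h).1 hh
    simp only [F, Finset.mem_filter, Finset.mem_univ, true_and] at hw
    simp only [Finset.mem_erase, Finset.mem_univ, and_true]
    constructor
    · rintro rfl
      rw [hswy h hh1 hh2] at hw
      exact hyx hw.symm
    · rintro rfl
      rw [hswx h hh1 hh2] at hw
      exact hyx hw
  have hcard : ((Finset.univ.erase x).erase y).card ≤ (K.biUnion F).card := by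
    rw [Finset.card_biUnion hdisj]
    have h4 : 2 * K.card ≤ ∑ h ∈ K, (F h).card := by
      calc 2 * K.card = ∑ _h ∈ K, 2 := by rw [Finset.sum_const, smul_eq_mul, mul_comm]
        _ ≤ ∑ h ∈ K, (F h).card := Finset.sum_le_sum hF2
    have h5 : ((Finset.univ.erase x).erase y).card = q + 1 - 1 - 1 := by
      rw [Finset.card_erase_of_mem, Finset.card_erase_of_mem (Finset.mem_univ _),
        Finset.card_univ, hX]
      simp only [Finset.mem_erase, Finset.mem_univ, and_true]
      exact hyx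
    omega
  have heq := Finset.eq_of_subset_of_card_le hsub hcard
  -- the involutions other than `z` interchange `x` and `y`
  have hint : ∀ t ∈ Y, t * t = 1 → t ≠ 1 → t ≠ z → t • x = y ∧ t • y = x := by
    intro t ht htt ht1 htz
    obtain ⟨w, hw⟩ := B.inv_fix t htt
    have hwx : w ≠ x := by
      rintro rfl
      exact htz (huq w t z ht hzY htt hzz ht1 hz1 hw hzx)
    have hwy : w ≠ y := by
      rintro rfl
      exact htz (huq w t z ht hzY htt hzz ht1 hz1 hw hzy)
    have h4 : w ∈ K.biUnion F := by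
      rw [heq]
      simp only [Finset.mem_erase, Finset.mem_univ, and_true]
      exact ⟨hwy, hwx⟩
    rw [Finset.mem_biUnion] at h4
    obtain ⟨h, hh, hw'⟩ := h4
    obtain ⟨hh1, hh2⟩ := (hK h).1 hh
    simp only [F, Finset.mem_filter, Finset.mem_univ, true_and] at hw'
    have h5 := huq w t (a * h) ht (Y.mul_mem ha hh1) htt (hsq h hh1 hh2) ht1 (hne1 h hh1 hh2)
      hw hw'
    rw [h5]
    exact ⟨hswx h hh1 hh2, hswy h hh1 hh2⟩
  -- they commute with `z`
  have hcz : ∀ t ∈ Y, t * t = 1 → t ≠ 1 → t * z = z * t := by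
    intro t ht htt ht1
    by_cases htz : t = z
    · rw [htz]
    · obtain ⟨h4, h5⟩ := hint t ht htt ht1 htz
      obtain ⟨k1, k2, k3⟩ := hcj t z ht hzY hzz hz1
      have h6 : t⁻¹ = t := inv_eq_of_mul_eq_one_left htt
      have h7 : (t * z * t⁻¹) • x = x := by
        rw [h6, mul_smul, mul_smul, h4, hzy, h5]
      have h8 := huq x _ z k1 hzY k2 hzz k3 hz1 h7 hzx
      exact mul_inv_eq_iff_eq_mul.1 h8
  -- hence all involutions of `Y` commute
  have hcomm : ∀ s ∈ Y, ∀ t ∈ Y, s * s = 1 → t * t = 1 → s ≠ 1 → t ≠ 1 → s * t = t * s := by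
    intro s hs t ht hss htt hs1 ht1
    obtain ⟨w, hw⟩ := B.inv_fix t htt
    obtain ⟨c, hc, hcw⟩ := htr w x
    obtain ⟨k1, k2, k3⟩ := hcj c t hc ht htt ht1
    obtain ⟨l1, l2, l3⟩ := hcj c s hc hs hss hs1
    have h4 : (c * t * c⁻¹) • x = x := by
      rw [← hcw, mul_smul, mul_smul, inv_smul_smul, hw]
    have h5 := huq x _ z k1 hzY k2 hzz k3 hz1 h4 hzx
    have h6 := hcz _ l1 l2 l3
    rw [← h5] at h6
    have h7 : c * (s * t) * c⁻¹ = c * (t * s) * c⁻¹ := by
      calc c * (s * t) * c⁻¹ = c * s * c⁻¹ * (c * t * c⁻¹) := by group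
        _ = c * t * c⁻¹ * (c * s * c⁻¹) := h6
        _ = c * (t * s) * c⁻¹ := by group
    exact mul_left_cancel (mul_right_cancel h7)
  -- so `Y_x` has at most two elements
  have hKsub : K ⊆ {1, z} := by
    intro h hh
    obtain ⟨hh1, hh2⟩ := (hK h).1 hh
    have h4 := hcomm a ha (a * h) (Y.mul_mem ha hh1) haa (hsq h hh1 hh2) ha1 (hne1 h hh1 hh2)
    have h5 : h = a * (a * h) := by rw [← mul_assoc, haa, one_mul]
    have h6 : h * h = 1 := by
      calc h * h = a * (a * h) * (a * (a * h)) := by rw [← h5]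
        _ = a * ((a * h) * a) * (a * h) := by group
        _ = a * (a * (a * h)) * (a * h) := by rw [← h4]
        _ = (a * a) * ((a * h) * (a * h)) := by group
        _ = 1 := by rw [haa, hsq h hh1 hh2, one_mul]
    rw [Finset.mem_insert, Finset.mem_singleton]
    by_cases h7 : h = 1
    · exact Or.inl h7
    · exact Or.inr (huq x h z hh1 hzY h6 hzz h7 hz1 hh2 hzx)
  have h4 := Finset.card_le_card hKsub
  have h5 := Finset.card_le_two (a := (1 : G)) (b := z)
  omega

/-- Every proper subgroup has index at least `q + 1`. -/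
lemma index_ge [IsSimpleGroup G] (hq : 13 ≤ q) (_hodd : Odd q) (x : X)
    (hc : ∀ u v : G, Uni x u → Uni x v → u ≠ 1 → v ≠ 1 →
      ∃ (c : G) (k l : ℕ), c * u ^ k * c⁻¹ = v ∧ (u ^ k) ^ l = u)
    (Y : Subgroup G) (hY : Y ≠ ⊤) : q + 1 ≤ Y.index := by
  classical
  by_contra hcon
  push Not at hcon
  obtain ⟨hm, htr, huni⟩ := index_small B (by omega) x hc Y hY hcon
  have : Fintype G := Fintype.ofFinite G
  have : Fintype X := Fintype.ofFinite X
  have hYt : IsPretransitive Y X := ⟨fun y z => by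
    obtain ⟨a, ha, h⟩ := htr y z
    exact ⟨⟨a, ha⟩, h⟩⟩
  have hGt : IsPretransitive G X := ⟨B.pre⟩
  let K : Finset G := Finset.univ.filter fun g => g ∈ Y ∧ g • x = x
  have hK : ∀ g, g ∈ K ↔ g ∈ Y ∧ g • x = x := by
    intro g
    simp only [K, Finset.mem_filter, Finset.mem_univ, true_and]
  have hcY : Nat.card Y = K.card * (q + 1) := by
    have h1 : Nat.card (stabilizer Y x) * (stabilizer Y x).index = Nat.card Y :=
      Subgroup.card_mul_index _
    rw [MulAction.index_stabilizer_of_transitive Y x, B.cardX] at h1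
    rw [← h1]
    congr 1
    rw [← Fintype.card_coe K, ← Nat.card_eq_fintype_card]
    apply Nat.card_congr
    exact ⟨fun a => ⟨(a : Y), (hK _).2 ⟨a.1.2, a.2⟩⟩,
      fun g => ⟨⟨g, ((hK _).1 g.2).1⟩, ((hK _).1 g.2).2⟩, fun a => rfl, fun g => rfl⟩
  have hcG : Nat.card (stabilizer G x) * (q + 1) = Nat.card G := by
    rw [← B.cardX, ← MulAction.index_stabilizer_of_transitive G x]
    exact Subgroup.card_mul_index _
  have h1 : Nat.card Y * Y.index = Nat.card G := Y.card_mul_index
  rw [hm, hcY, ← hcG] at h1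
  have h2 := B.cardH x
  have h3 : K.card * q = Nat.card (stabilizer G x) := by
    have h4 : K.card * q * (q + 1) = Nat.card (stabilizer G x) * (q + 1) := by
      rw [← h1]
      ring
    exact Nat.eq_of_mul_eq_mul_right (by omega) h4
  rw [← h3] at h2
  have h5 : 2 * K.card = q - 1 := by
    have h6 : q * (2 * K.card) = q * (q - 1) := by
      rw [← h2]
      ring
    exact Nat.eq_of_mul_eq_mul_left (by omega) h6
  exact no_reg B hq x Y htr huni K hK (by omega)

omit [Finite G] [Finite X] B in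
lemma uni_one (x : X) : Uni x (1 : G) := ⟨one_smul _ _, fun h => absurd rfl h⟩

omit [Finite G] [Finite X] B in
lemma uni_inv {x : X} {g : G} (h : Uni x g) : Uni x g⁻¹ := by
  refine ⟨inv_smul_eq_iff.2 h.1.symm, fun h1 y hy => h.2 (fun h2 => h1 (by rw [h2, inv_one])) y ?_⟩
  rw [inv_smul_eq_iff] at hy
  exact hy.symm

omit [Finite G] [Finite X] B in
lemma uni_conj2 {x : X} {g u : G} (hg : g • x = x) (h : Uni x u) : Uni x (g * u * g⁻¹) := by
  have hg' : g⁻¹ • x = x := inv_smul_eq_iff.2 hg.symm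
  refine ⟨by rw [mul_smul, mul_smul, hg', h.1, hg], fun h1 y hy => ?_⟩
  have hu1 : u ≠ 1 := by
    rintro rfl
    exact h1 (by group)
  have h2 : u • (g⁻¹ • y) = g⁻¹ • y := by
    rw [mul_smul, mul_smul] at hy
    rw [eq_inv_smul_iff]
    exact hy
  have h3 := h.2 hu1 _ h2
  rw [inv_smul_eq_iff] at h3
  rw [h3, hg]

omit [Finite G] [Finite X] in
lemma inv_not_uni {x : X} {s : G} (hs : s * s = 1) (hs1 : s ≠ 1) (hu : Uni x s) : False := by
  obtain ⟨y, hy, hyx⟩ := B.inv_two s x hs hs1 hu.1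
  exact hyx (hu.2 hs1 y hy)

/-- The case with unipotent elements. -/
lemma count {A : Subgroup G} (hA : ∀ x y : X, ∃ a ∈ A, a • x = y) (x : X) (hq : 5 ≤ q)
    (hodd : Odd q) (hq9 : q ≠ 9) (u0 : G) (hu0A : u0 ∈ A) (hu0 : Uni x u0) (hu01 : u0 ≠ 1) :
    A = ⊤ := by
  classical
  have : Fintype G := Fintype.ofFinite G
  have : Fintype X := Fintype.ofFinite X
  let I : Finset G := Finset.univ.filter fun g => g ∈ A ∧ g * g = 1 ∧ g ≠ 1
  let M : Finset G := Finset.univ.filter fun g => g ∈ A ∧ g • x = x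
  let S : Finset G := Finset.univ.filter fun g => g ∈ A ∧ g • x = x ∧ g * g = 1 ∧ g ≠ 1
  let T : Finset G := Finset.univ.filter fun g => g ∈ A ∧ Uni x g
  let D : X → Finset G := fun y => Finset.univ.filter fun g => g ∈ A ∧ g • x = x ∧ g • y = y
  let i := S.card
  let t := T.card
  have hX : Fintype.card X = q + 1 := by rw [← Nat.card_eq_fintype_card, B.cardX]
  have hI1 : ∀ y : X, (I.filter fun g => g • y = y).card = i := by
    intro y
    obtain ⟨a, ha, hay⟩ := hA x y
    symm
    apply Finset.card_bij (fun g _ => a * g * a⁻¹)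
    · intro g hg
      simp only [S, I, Finset.mem_filter, Finset.mem_univ, true_and] at hg ⊢
      obtain ⟨h1, h2, h3, h4⟩ := hg
      refine ⟨⟨A.mul_mem (A.mul_mem ha h1) (A.inv_mem ha), ?_, ?_⟩, ?_⟩
      · rw [show a * g * a⁻¹ * (a * g * a⁻¹) = a * (g * g) * a⁻¹ by group, h3]
        group
      · intro h
        rw [mul_inv_eq_one] at h
        exact h4 (mul_left_cancel (h.trans (mul_one a).symm))
      · rw [← hay, mul_smul, mul_smul, inv_smul_smul, h2]
    · intro g _ h _ hgh
      exact mul_left_cancel (mul_right_cancel hgh)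
    · intro g hg
      simp only [I, Finset.mem_filter, Finset.mem_univ, true_and] at hg
      obtain ⟨⟨h1, h2, h3⟩, h4⟩ := hg
      refine ⟨a⁻¹ * g * a, ?_, by group⟩
      simp only [S, Finset.mem_filter, Finset.mem_univ, true_and]
      refine ⟨A.mul_mem (A.mul_mem (A.inv_mem ha) h1) ha, ?_, ?_, ?_⟩
      · rw [mul_smul, mul_smul, hay, h4, ← hay, inv_smul_smul]
      · rw [show a⁻¹ * g * a * (a⁻¹ * g * a) = a⁻¹ * (g * g) * a by group, h2]
        group
      · intro h
        apply h3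
        have : g = a * (a⁻¹ * g * a) * a⁻¹ := by group
        rw [this, h]
        group
  have hI2 : ∀ g ∈ I, (Finset.univ.filter fun y : X => g • y = y).card = 2 := by
    intro g hg
    simp only [I, Finset.mem_filter, Finset.mem_univ, true_and] at hg
    obtain ⟨h1, h2, h3⟩ := hg
    obtain ⟨z, hz⟩ := B.inv_fix g h2
    obtain ⟨w, hw, hwz⟩ := B.inv_two g z h2 h3 hz
    rw [Finset.card_eq_two]
    refine ⟨z, w, Ne.symm hwz, ?_⟩
    ext y
    simp only [Finset.mem_filter, Finset.mem_univ, true_and, Finset.mem_insert,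
      Finset.mem_singleton]
    constructor
    · intro h
      by_contra hcon
      push Not at hcon
      exact h3 (B.three g z w y hz hw h (Ne.symm hwz) (Ne.symm hcon.1) (Ne.symm hcon.2))
    · rintro (rfl | rfl)
      · exact hz
      · exact hw
  have hI : 2 * I.card = (q + 1) * i := by
    have h := Finset.sum_card_bipartiteAbove_eq_sum_card_bipartiteBelow
      (s := I) (t := (Finset.univ : Finset X)) (fun (g : G) (y : X) => g • y = y)
    simp only [Finset.bipartiteAbove, Finset.bipartiteBelow] at h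
    rw [Finset.sum_congr rfl hI2, Finset.sum_congr rfl (fun y _ => hI1 y)] at h
    simp only [Finset.sum_const, Finset.card_univ, hX, smul_eq_mul] at h
    rw [mul_comm, h]
  let J : Finset G := I.filter fun g => g • x ≠ x
  have hJ : J.card + i = I.card := by
    rw [← hI1 x, add_comm]
    exact Finset.card_filter_add_card_filter_not _
  have hJD : ∀ y : X, (J.filter fun g => g • x = y).card ≤ (D y).card := by
    intro y
    rcases (J.filter fun g => g • x = y).eq_empty_or_nonempty with h | ⟨s0, hs0⟩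
    · rw [h, Finset.card_empty]
      exact Nat.zero_le _
    · simp only [J, I, Finset.mem_filter, Finset.mem_univ, true_and] at hs0
      obtain ⟨⟨⟨h1, h2, h3⟩, h4⟩, h5⟩ := hs0
      apply Finset.card_le_card_of_injOn (fun g => s0 * g)
      · intro g hg
        simp only [J, I, Finset.coe_filter, Finset.mem_filter, Finset.mem_univ, true_and,
          Set.mem_ofPred_eq] at hg
        obtain ⟨⟨⟨g1, g2, g3⟩, g4⟩, g5⟩ := hg
        simp only [D, Finset.coe_filter, Finset.mem_univ, true_and, Set.mem_ofPred_eq]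
        have e1 : s0 • y = x := by rw [← h5, ← mul_smul, h2, one_smul]
        have e2 : g • y = x := by rw [← g5, ← mul_smul, g2, one_smul]
        exact ⟨A.mul_mem h1 g1, by rw [mul_smul, g5, e1], by rw [mul_smul, e2, h5]⟩
      · intro g _ h _ hgh
        exact mul_left_cancel hgh
  have hJ2 : J.card ≤ ∑ y ∈ (Finset.univ : Finset X).erase x, (D y).card := by
    rw [Finset.card_eq_sum_card_fiberwise (f := fun g : G => g • x)
      (t := (Finset.univ : Finset X).erase x)]
    · exact Finset.sum_le_sum fun y _ => hJD y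
    · intro g hg
      simp only [J, Finset.coe_filter, Set.mem_ofPred_eq] at hg
      simpa using hg.2
  have h1T : (1 : G) ∈ T := by
    simp only [T, Finset.mem_filter, Finset.mem_univ, true_and]
    exact ⟨A.one_mem, uni_one x⟩
  have hTM : T ⊆ M := by
    intro g hg
    simp only [T, M, Finset.mem_filter, Finset.mem_univ, true_and] at hg ⊢
    exact ⟨hg.1, hg.2.1⟩
  have hD : ∑ y ∈ (Finset.univ : Finset X).erase x, (D y).card + t ≤ q + M.card := by
    have h := Finset.sum_card_bipartiteAbove_eq_sum_card_bipartiteBelow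
      (s := M) (t := (Finset.univ : Finset X).erase x) (fun (g : G) (y : X) => g • y = y)
    simp only [Finset.bipartiteAbove, Finset.bipartiteBelow] at h
    have h1 : ∀ y : X, M.filter (fun g => g • y = y) = D y := by
      intro y
      ext g
      simp only [M, D, Finset.mem_filter, Finset.mem_univ, true_and, and_assoc]
    simp only [h1] at h
    rw [← h, ← Finset.sum_sdiff hTM, ← Finset.add_sum_erase T _ h1T]
    have h2 : (((Finset.univ : Finset X).erase x).filter fun y => (1 : G) • y = y).card = q := by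
      simp [hX]
    have h3 : ∑ g ∈ T.erase 1,
        (((Finset.univ : Finset X).erase x).filter fun y => g • y = y).card = 0 := by
      apply Finset.sum_eq_zero
      intro g hg
      rw [Finset.mem_erase] at hg
      simp only [T, Finset.mem_filter, Finset.mem_univ, true_and] at hg
      rw [Finset.card_eq_zero, Finset.filter_eq_empty_iff]
      intro y hy hgy
      exact Finset.ne_of_mem_erase hy (hg.2.2.2 hg.1 y hgy)
    have h4 : ∑ g ∈ M \ T, (((Finset.univ : Finset X).erase x).filter fun y => g • y = y).card ≤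
        (M \ T).card := by
      rw [Finset.card_eq_sum_ones]
      apply Finset.sum_le_sum
      intro g hg
      rw [Finset.mem_sdiff] at hg
      have hg1 : g ≠ 1 := fun h => hg.2 (h ▸ h1T)
      have hgx : g • x = x := (Finset.mem_filter.1 hg.1).2.2
      rw [Finset.card_le_one]
      intro y hy z hz
      simp only [Finset.mem_filter, Finset.mem_erase, Finset.mem_univ, and_true] at hy hz
      by_contra hyz
      exact hg1 (B.three g x y z hgx hy.2 hz.2 (Ne.symm hy.1) (Ne.symm hz.1) hyz)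
    have h5 : (M \ T).card + t = M.card := by
      rw [Finset.card_sdiff_of_subset hTM]
      exact Nat.sub_add_cancel (Finset.card_le_card hTM)
    rw [h2, h3]
    omega
  -- transitivity
  have hAt : IsPretransitive A X := ⟨fun y z => by
    obtain ⟨a, ha, h⟩ := hA y z
    exact ⟨⟨a, ha⟩, h⟩⟩
  have hcA : Nat.card A = M.card * (q + 1) := by
    have h1 : Nat.card (stabilizer A x) * (stabilizer A x).index = Nat.card A :=
      Subgroup.card_mul_index _
    rw [MulAction.index_stabilizer_of_transitive A x, B.cardX] at h1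
    rw [← h1]
    congr 1
    rw [← Fintype.card_coe M, ← Nat.card_eq_fintype_card]
    apply Nat.card_congr
    refine ⟨fun a => ⟨(a : A), ?_⟩, fun g => ⟨⟨g, ?_⟩, ?_⟩, fun a => rfl, fun g => rfl⟩
    · simp only [M, Finset.mem_filter, Finset.mem_univ, true_and]
      exact ⟨a.1.2, a.2⟩
    · have := g.2
      simp only [M, Finset.mem_filter, Finset.mem_univ, true_and] at this
      exact this.1
    · have := g.2
      simp only [M, Finset.mem_filter, Finset.mem_univ, true_and] at this
      exact this.2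
  have hcG : 2 * Nat.card G = (q * (q - 1)) * (q + 1) := by
    have : IsPretransitive G X := ⟨B.pre⟩
    have h2 : Nat.card (stabilizer G x) * (q + 1) = Nat.card G := by
      rw [← B.cardX, ← MulAction.index_stabilizer_of_transitive G x]
      exact Subgroup.card_mul_index _
    rw [← h2, ← mul_assoc, B.cardH x]
  -- an involution of `A` fixing `x`
  obtain ⟨s, hsS⟩ : ∃ s, s ∈ S := by
    have h2A : 2 ∣ Nat.card A := by
      rw [hcA]
      exact Dvd.dvd.mul_left (even_iff_two_dvd.1 hodd.add_one) _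
    have hf2 : Fact (Nat.Prime 2) := ⟨Nat.prime_two⟩
    obtain ⟨b, hb⟩ := exists_prime_orderOf_dvd_card' (G := A) 2 h2A
    have hb2 : (b : G) * b = 1 := by
      have := pow_orderOf_eq_one b
      rw [hb, pow_two] at this
      exact congrArg Subtype.val this
    have hb1 : (b : G) ≠ 1 := by
      intro h
      have h3 : b = 1 := Subtype.ext h
      rw [h3, orderOf_one] at hb
      omega
    obtain ⟨z, hz⟩ := B.inv_fix b hb2
    have h3 : (b : G) ∈ I.filter fun g => g • z = z := by
      simp only [I, Finset.mem_filter, Finset.mem_univ, true_and]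
      exact ⟨⟨b.2, hb2, hb1⟩, hz⟩
    have h4 : 0 < i := by
      rw [← hI1 z]
      exact Finset.card_pos.2 ⟨_, h3⟩
    exact Finset.card_pos.1 h4
  have hs := hsS
  simp only [S, Finset.mem_filter, Finset.mem_univ, true_and] at hs
  obtain ⟨hs1, hs2, hs3, hs4⟩ := hs
  have hit : i = t := by
    apply le_antisymm
    · apply Finset.card_le_card_of_injOn (fun g => s * g)
      · intro g hg
        simp only [S, Finset.coe_filter, Finset.mem_univ, true_and, Set.mem_ofPred_eq] at hg
        simp only [T, Finset.coe_filter, Finset.mem_univ, true_and, Set.mem_ofPred_eq]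
        exact ⟨A.mul_mem hs1 hg.1, B.inv_mul s g x hs2 hg.2.1 hs3 hg.2.2.1 hs4 hg.2.2.2⟩
      · intro g _ h _ hgh
        exact mul_left_cancel hgh
    · apply Finset.card_le_card_of_injOn (fun g => s * g)
      · intro g hg
        simp only [T, Finset.coe_filter, Finset.mem_univ, true_and, Set.mem_ofPred_eq] at hg
        simp only [S, Finset.coe_filter, Finset.mem_univ, true_and, Set.mem_ofPred_eq]
        refine ⟨A.mul_mem hs1 hg.1, by rw [mul_smul, hg.2.1, hs2],
          B.inv_uni s g x hs2 hs3 hs4 hg.2, fun h => ?_⟩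
        have h3 : s = g⁻¹ := eq_inv_of_mul_eq_one_left h
        exact inv_not_uni B hs3 hs4 (h3 ▸ uni_inv hg.2)
      · intro g _ h _ hgh
        exact mul_left_cancel hgh
  have hu0T : u0 ∈ T := by
    simp only [T, Finset.mem_filter, Finset.mem_univ, true_and]
    exact ⟨hu0A, hu0⟩
  have hM : M.card ≤ t * (T.erase 1).card := by
    apply Finset.card_le_mul_card_image_of_maps_to (f := fun g : G => g * u0 * g⁻¹)
      (t := T.erase 1)
    · intro g hg
      simp only [M, Finset.mem_filter, Finset.mem_univ, true_and] at hg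
      rw [Finset.mem_erase]
      simp only [T, Finset.mem_filter, Finset.mem_univ, true_and]
      refine ⟨?_, A.mul_mem (A.mul_mem hg.1 hu0A) (A.inv_mem hg.1), uni_conj2 hg.2 hu0⟩
      intro h
      rw [mul_inv_eq_one] at h
      exact hu01 (mul_left_cancel (h.trans (mul_one g).symm))
    · intro b _
      rcases (M.filter fun g => g * u0 * g⁻¹ = b).eq_empty_or_nonempty with h | ⟨g0, hg0⟩
      · rw [h, Finset.card_empty]
        exact Nat.zero_le _
      · simp only [M, Finset.mem_filter, Finset.mem_univ, true_and] at hg0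
        obtain ⟨⟨k1, k2⟩, k3⟩ := hg0
        apply Finset.card_le_card_of_injOn (fun g => g0⁻¹ * g)
        · intro g hg
          simp only [M, Finset.coe_filter, Finset.mem_filter, Finset.mem_univ, true_and,
            Set.mem_ofPred_eq] at hg
          obtain ⟨⟨g1, g2⟩, g3⟩ := hg
          have e1 : (g0⁻¹ * g) • x = x := by
            rw [mul_smul, g2, inv_smul_eq_iff]
            exact k2.symm
          have e2 : (g0⁻¹ * g) * u0 = u0 * (g0⁻¹ * g) := by
            have : g * u0 = g0 * u0 * g0⁻¹ * g := by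
              rw [k3, ← g3]
              group
            rw [mul_assoc, this]
            group
          have e3 := B.cent (g0⁻¹ * g) u0 x e1 hu0 hu01 e2
          simp only [T, Finset.coe_filter, Finset.mem_univ, true_and, Set.mem_ofPred_eq]
          exact ⟨A.mul_mem (A.inv_mem k1) g1, e3⟩
        · intro g _ h _ hgh
          exact mul_left_cancel hgh
  have hT1 : (T.erase 1).card + 1 = t := Finset.card_erase_add_one h1T
  have hT2 : 1 ≤ (T.erase 1).card :=
    Finset.card_pos.2 ⟨u0, Finset.mem_erase.2 ⟨hu01, hu0T⟩⟩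
  have htq : t ∣ q := by
    have h1 : Nat.card (A ⊓ U B x : Subgroup G) = t := by
      change Nat.card (A ⊓ U B x : Subgroup G) = T.card
      rw [← Fintype.card_coe T, ← Nat.card_eq_fintype_card]
      apply Nat.card_congr
      apply Equiv.subtypeEquivRight
      intro g
      simp only [T, Finset.mem_filter, Finset.mem_univ, true_and]
      exact Iff.rfl
    have h2 := Subgroup.card_dvd_of_le (inf_le_right : A ⊓ U B x ≤ U B x)
    rwa [h1, card_U] at h2
  obtain ⟨r, hr⟩ := htq
  have hodd' : Odd t ∧ Odd r := by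
    rw [hr] at hodd
    exact Nat.odd_mul.1 hodd
  obtain ⟨⟨t', ht'⟩, ⟨r', hr'⟩⟩ := hodd'
  have hMle : 2 * M.card ≤ q * (q - 1) := by
    rw [← B.cardH x]
    apply Nat.mul_le_mul_left
    rw [Nat.card_eq_fintype_card, Fintype.card_subtype]
    apply Finset.card_le_card
    intro g hg
    simp only [M, Finset.mem_filter, Finset.mem_univ, true_and] at hg ⊢
    exact hg.2
  have hE : (q + 1) * t ≤ 2 * (q + M.card) := by
    rw [← hit, ← hI]
    omega
  have hM' : M.card ≤ t * (t - 1) := by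
    have : (T.erase 1).card = t - 1 := by omega
    rwa [this] at hM
  have ht3 : 1 ≤ t' := by omega
  -- arithmetic
  have hr0 : r' = 0 := by
    by_contra hr0
    have h1 : (q + 1) * t ≤ 2 * q + 2 * (t * (t - 1)) := by omega
    have e1 : t - 1 = 2 * t' := by omega
    rw [e1, hr, ht', hr'] at h1
    have h2 : ((2 * t' + 1) * (2 * r' + 1) + 1) * (2 * t' + 1) ≤
      (2 * (2 * r' + 1) + 2 * (2 * t')) * (2 * t' + 1) := by
      refine le_trans h1 (le_of_eq (by ring))
    have h3 := Nat.le_of_mul_le_mul_right h2 (by omega)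
    have h4 : t' = 1 ∧ r' = 1 := by
      obtain ⟨a, ha⟩ : ∃ a, t' = a + 1 := ⟨t' - 1, by omega⟩
      obtain ⟨b, hb⟩ : ∃ b, r' = b + 1 := ⟨r' - 1, by omega⟩
      rw [ha, hb] at h3
      have h5 : 4 * (a * b) + 2 * a + 2 * b ≤ 0 := by nlinarith
      omega
    apply hq9
    rw [hr, ht', hr', h4.1, h4.2]
    norm_num
  have htq' : t = q := by rw [hr, hr', hr0]; ring
  have h3 : 2 * M.card = q * (q - 1) := by
    apply le_antisymm hMle
    rw [htq'] at hE
    obtain ⟨q', hq'⟩ : ∃ q', q = q' + 1 := ⟨q - 1, by omega⟩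
    rw [hq'] at hE ⊢
    simp only [Nat.add_sub_cancel]
    nlinarith
  apply Subgroup.eq_top_of_card_eq
  have h5 : 2 * Nat.card A = 2 * Nat.card G := by
    rw [hcA, hcG, ← h3]
    ring
  omega

theorem member [IsSimpleGroup G] (hq : 5 ≤ q) (hodd : Odd q) (hq9 : q ≠ 9) (x : X)
    (hmin : minIndex G = q + 1) (A : Subgroup G) : ¬ InS A := by
  intro hA
  have : IsPretransitive G X := ⟨B.pre⟩
  have hH : (stabilizer G x).index = minIndex G := by
    rw [MulAction.index_stabilizer_of_transitive G x, B.cardX, hmin]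
  have htr : ∀ z : X, ∃ a ∈ A, a • x = z := by
    intro z
    obtain ⟨g, hg⟩ := B.pre x z
    obtain ⟨a, ha, h, hh, e⟩ := exists_mul hA _ hH g
    refine ⟨a, ha, ?_⟩
    rw [← hg, ← e, mul_smul, mem_stabilizer_iff.1 hh]
  have htr2 : ∀ z w : X, ∃ y ∈ A, y • z = w := by
    intro z w
    obtain ⟨y1, h1, e1⟩ := htr z
    obtain ⟨y2, h2, e2⟩ := htr w
    exact ⟨y2 * y1⁻¹, A.mul_mem h2 (A.inv_mem h1), by rw [mul_smul, ← e1, inv_smul_smul, e2]⟩
  by_cases huni : ∀ u ∈ A, Uni x u → u = 1
  · have h3 : ∃ z w : X, z ≠ x ∧ w ≠ x ∧ z ≠ w := by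
      have : Fintype X := Fintype.ofFinite X
      classical
      have h1 : 1 < ((Finset.univ : Finset X).erase x).card := by
        rw [Finset.card_erase_of_mem (Finset.mem_univ _), Finset.card_univ,
          ← Nat.card_eq_fintype_card, B.cardX]
        omega
      obtain ⟨z, hz, w, hw, hzw⟩ := Finset.one_lt_card.1 h1
      exact ⟨z, w, Finset.ne_of_mem_erase hz, Finset.ne_of_mem_erase hw, hzw⟩
    by_cases hM : ∀ g ∈ A, g • x = x → g = 1
    · have hbot : A ⊓ stabilizer G x = ⊥ := by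
        rw [eq_bot_iff]
        rintro g ⟨h1, h2⟩
        exact hM g h1 h2
      have hcard : Nat.card A = q + 1 := by
        rw [← B.cardX]
        apply Nat.card_congr
        refine Equiv.ofBijective (fun y : A => (y : G) • x) ⟨?_, fun z => ?_⟩
        · intro y z hyz
          have h1 := hM ((y : G)⁻¹ * z) (A.mul_mem (A.inv_mem y.2) z.2) (by
            rw [mul_smul, inv_smul_eq_iff]
            exact hyz.symm)
          rw [inv_mul_eq_one] at h1
          exact Subtype.ext h1
        · obtain ⟨a, ha, h⟩ := htr z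
          exact ⟨⟨a, ha⟩, h⟩
      have h2A : 2 ∣ Nat.card A := by
        rw [hcard]
        exact even_iff_two_dvd.1 hodd.add_one
      have hf2 : Fact (Nat.Prime 2) := ⟨Nat.prime_two⟩
      obtain ⟨a, ha⟩ := exists_prime_orderOf_dvd_card' (G := A) 2 h2A
      have h1 : Nat.card (Subgroup.zpowers (a : G)) = 2 := by
        rw [Nat.card_zpowers, Subgroup.orderOf_coe, ha]
      rcases primitive hA _ hH (Subgroup.zpowers (a : G)) (hbot ▸ bot_le)
        ((Subgroup.zpowers_le).2 a.2) with h | h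
      · rw [h, hbot, Subgroup.card_bot] at h1
        omega
      · rw [h, hcard] at h1
        omega
    · push Not at hM
      obtain ⟨g, hg, hgx, hg1⟩ := hM
      obtain ⟨y, hgy, hyx⟩ : ∃ y : X, g • y = y ∧ y ≠ x := by
        by_contra hcon
        push Not at hcon
        exact hg1 (huni g hg ⟨hgx, fun _ => hcon⟩)
      have key : ∀ h ∈ A, h • x = x → h • y = y := by
        intro h hh hhx
        have h1 : g * h * g⁻¹ * h⁻¹ = 1 := by
          apply huni _ _ (B.comm g h x hgx hhx)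
          exact A.mul_mem (A.mul_mem (A.mul_mem hg hh) (A.inv_mem hg)) (A.inv_mem hh)
        rw [mul_inv_eq_one, mul_inv_eq_iff_eq_mul] at h1
        have h2 : g • (h • y) = h • y := by rw [← mul_smul, h1, mul_smul, hgy]
        by_contra hne
        refine hg1 (B.three g x y (h • y) hgx hgy h2 (Ne.symm hyx) ?_ (Ne.symm hne))
        intro h3
        rw [← hhx] at h3
        have h4 := smul_left_cancel h h3
        exact hyx (by rw [← h4])
      obtain ⟨a, ha, hax⟩ := htr2 x y
      have h1 : (a⁻¹ * g * a) • y = y := by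
        apply key _ (A.mul_mem (A.mul_mem (A.inv_mem ha) hg) ha)
        rw [mul_smul, mul_smul, hax, hgy, ← hax, inv_smul_smul]
      have h2 : g • (a • y) = a • y := by
        have := congrArg (fun z => a • z) h1
        simp only [mul_smul, smul_inv_smul] at this
        exact this
      have h3' : a • y ≠ y := by
        intro h
        rw [← hax] at h
        have h4 := smul_left_cancel a h
        exact hyx (by rw [← hax]; exact h4)
      have h4 : a • y = x := by
        by_contra hne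
        exact hg1 (B.three g x y (a • y) hgx hgy h2 (Ne.symm hyx) (Ne.symm hne) (Ne.symm h3'))
      have hK : ∀ b : G, b ∈ stabilizer G ({x, y} : Set X) ↔ (b • x = x ∧ b • y = y) ∨
          (b • x = y ∧ b • y = x) := by
        intro b
        rw [mem_stabilizer_iff]
        have e : b • ({x, y} : Set X) = {b • x, b • y} := by
          rw [← Set.image_smul, Set.image_pair]
        rw [e, Set.pair_eq_pair_iff]
      rcases primitive hA _ hH (A ⊓ stabilizer G ({x, y} : Set X)) (by
        rintro h ⟨hh, hhx⟩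
        exact ⟨hh, (hK h).2 (Or.inl ⟨hhx, key h hh hhx⟩)⟩) inf_le_left with h | h
      · have h5 : a ∈ A ⊓ stabilizer G ({x, y} : Set X) := ⟨ha, (hK a).2 (Or.inr ⟨hax, h4⟩)⟩
        rw [h] at h5
        have h6 : a • x = x := h5.2
        rw [hax] at h6
        exact hyx h6
      · obtain ⟨z, w, hz, hw, hzw⟩ := h3
        have h5 : ∀ z : X, z = x ∨ z = y := by
          intro z
          obtain ⟨b, hb, hbz⟩ := htr z
          have h6 : b ∈ A ⊓ stabilizer G ({x, y} : Set X) := by rw [h]; exact hb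
          rcases (hK b).1 h6.2 with h7 | h7
          · left
            rw [← hbz, h7.1]
          · right
            rw [← hbz, h7.1]
        have e1 := (h5 z).resolve_left hz
        have e2 := (h5 w).resolve_left hw
        exact hzw (e1.trans e2.symm)
  · push Not at huni
    obtain ⟨u, hu, hux, hu1⟩ := huni
    exact hA.2.1 (count B htr2 x hq hodd hq9 u hu hux hu1)

lemma card_G (x : X) : 2 * Nat.card G = (q * (q - 1)) * (q + 1) := by
  have : IsPretransitive G X := ⟨B.pre⟩
  have h2 : Nat.card (stabilizer G x) * (q + 1) = Nat.card G := by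
    rw [← B.cardX, ← MulAction.index_stabilizer_of_transitive G x]
    exact Subgroup.card_mul_index _
  rw [← h2, ← mul_assoc, B.cardH x]

/-- The count of involutions for a subgroup which need not be transitive. -/
lemma bender (Y : Subgroup G) (x : X) :
    ∃ n : ℕ, Nat.card Y = n * Nat.card {g : G // g ∈ Y ∧ g • x = x} ∧ n ≤ q + 1 ∧
      (Even (Nat.card {g : G // g ∈ Y ∧ g • x = x}) →
        n * Nat.card {g : G // g ∈ Y ∧ Uni x g} ≤
          2 * (q + Nat.card {g : G // g ∈ Y ∧ g • x = x})) := by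
  classical
  have : Fintype G := Fintype.ofFinite G
  have : Fintype X := Fintype.ofFinite X
  let I : Finset G := Finset.univ.filter fun g => g ∈ Y ∧ g * g = 1 ∧ g ≠ 1
  let M : Finset G := Finset.univ.filter fun g => g ∈ Y ∧ g • x = x
  let S : Finset G := Finset.univ.filter fun g => g ∈ Y ∧ g • x = x ∧ g * g = 1 ∧ g ≠ 1
  let T : Finset G := Finset.univ.filter fun g => g ∈ Y ∧ Uni x g
  let D : X → Finset G := fun y => Finset.univ.filter fun g => g ∈ Y ∧ g • x = x ∧ g • y = y
  let Δ : Finset X := Finset.univ.filter fun z => ∃ y ∈ Y, y • x = z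
  let i := S.card
  let t := T.card
  have hX : Fintype.card X = q + 1 := by rw [← Nat.card_eq_fintype_card, B.cardX]
  have hMc : Nat.card {g : G // g ∈ Y ∧ g • x = x} = M.card := by
    rw [Nat.card_eq_fintype_card, Fintype.card_subtype]
  have hTc : Nat.card {g : G // g ∈ Y ∧ Uni x g} = T.card := by
    rw [Nat.card_eq_fintype_card, Fintype.card_subtype]
  rw [hMc, hTc]
  have hΔ : Δ.card ≤ q + 1 := by
    rw [← hX]
    exact Finset.card_le_univ _
  have hY : Nat.card Y = Δ.card * M.card := by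
    have h1 : Nat.card (stabilizer Y x) * (stabilizer Y x).index = Nat.card Y :=
      Subgroup.card_mul_index _
    have h2 : (stabilizer Y x).index = Δ.card := by
      rw [MulAction.index_stabilizer, Set.ncard_eq_toFinset_card']
      congr 1
      ext z
      simp only [Set.mem_toFinset, Δ, Finset.mem_filter, Finset.mem_univ, true_and]
      constructor
      · rintro ⟨y, rfl⟩
        exact ⟨y, y.2, rfl⟩
      · rintro ⟨y, hy, rfl⟩
        exact ⟨⟨y, hy⟩, rfl⟩
    rw [← h1, h2, mul_comm]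
    congr 1
    rw [← hMc]
    exact Nat.card_congr ⟨fun a => ⟨a.1.1, a.1.2, a.2⟩, fun g => ⟨⟨g.1, g.2.1⟩, g.2.2⟩,
      fun a => rfl, fun g => rfl⟩
  refine ⟨Δ.card, hY, hΔ, fun hev => ?_⟩
  have hI1 : ∀ y ∈ Δ, (I.filter fun g => g • y = y).card = i := by
    intro y hy
    simp only [Δ, Finset.mem_filter, Finset.mem_univ, true_and] at hy
    obtain ⟨a, ha, hay⟩ := hy
    symm
    apply Finset.card_bij (fun g _ => a * g * a⁻¹)
    · intro g hg
      simp only [S, I, Finset.mem_filter, Finset.mem_univ, true_and] at hg ⊢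
      obtain ⟨h1, h2, h3, h4⟩ := hg
      refine ⟨⟨Y.mul_mem (Y.mul_mem ha h1) (Y.inv_mem ha), ?_, ?_⟩, ?_⟩
      · rw [show a * g * a⁻¹ * (a * g * a⁻¹) = a * (g * g) * a⁻¹ by group, h3]
        group
      · intro h
        rw [mul_inv_eq_one] at h
        exact h4 (mul_left_cancel (h.trans (mul_one a).symm))
      · rw [← hay, mul_smul, mul_smul, inv_smul_smul, h2]
    · intro g _ h _ hgh
      exact mul_left_cancel (mul_right_cancel hgh)
    · intro g hg
      simp only [I, Finset.mem_filter, Finset.mem_univ, true_and] at hg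
      obtain ⟨⟨h1, h2, h3⟩, h4⟩ := hg
      refine ⟨a⁻¹ * g * a, ?_, by group⟩
      simp only [S, Finset.mem_filter, Finset.mem_univ, true_and]
      refine ⟨Y.mul_mem (Y.mul_mem (Y.inv_mem ha) h1) ha, ?_, ?_, ?_⟩
      · rw [mul_smul, mul_smul, hay, h4, ← hay, inv_smul_smul]
      · rw [show a⁻¹ * g * a * (a⁻¹ * g * a) = a⁻¹ * (g * g) * a by group, h2]
        group
      · intro h
        apply h3
        have : g = a * (a⁻¹ * g * a) * a⁻¹ := by group
        rw [this, h]
        group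
  have hI2 : ∀ g ∈ I, (Finset.univ.filter fun y : X => g • y = y).card = 2 := by
    intro g hg
    simp only [I, Finset.mem_filter, Finset.mem_univ, true_and] at hg
    obtain ⟨h1, h2, h3⟩ := hg
    obtain ⟨z, hz⟩ := B.inv_fix g h2
    obtain ⟨w, hw, hwz⟩ := B.inv_two g z h2 h3 hz
    rw [Finset.card_eq_two]
    refine ⟨z, w, Ne.symm hwz, ?_⟩
    ext y
    simp only [Finset.mem_filter, Finset.mem_univ, true_and, Finset.mem_insert,
      Finset.mem_singleton]
    constructor
    · intro h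
      by_contra hcon
      push Not at hcon
      exact h3 (B.three g z w y hz hw h (Ne.symm hwz) (Ne.symm hcon.1) (Ne.symm hcon.2))
    · rintro (rfl | rfl)
      · exact hz
      · exact hw
  have hI : Δ.card * i ≤ 2 * I.card := by
    have h := Finset.sum_card_bipartiteAbove_eq_sum_card_bipartiteBelow
      (s := I) (t := (Finset.univ : Finset X)) (fun (g : G) (y : X) => g • y = y)
    simp only [Finset.bipartiteAbove, Finset.bipartiteBelow] at h
    rw [Finset.sum_congr rfl hI2, Finset.sum_const, smul_eq_mul] at h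
    rw [mul_comm 2, h]
    calc Δ.card * i = ∑ y ∈ Δ, (I.filter fun g => g • y = y).card := by
          rw [Finset.sum_congr rfl hI1, Finset.sum_const, smul_eq_mul]
      _ ≤ _ := Finset.sum_le_sum_of_subset (Finset.subset_univ _)
  have hxΔ : x ∈ Δ := by
    simp only [Δ, Finset.mem_filter, Finset.mem_univ, true_and]
    exact ⟨1, Y.one_mem, one_smul _ _⟩
  let J : Finset G := I.filter fun g => g • x ≠ x
  have hJ : J.card + i = I.card := by
    rw [← hI1 x hxΔ, add_comm]
    exact Finset.card_filter_add_card_filter_not _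
  have hJD : ∀ y : X, (J.filter fun g => g • x = y).card ≤ (D y).card := by
    intro y
    rcases (J.filter fun g => g • x = y).eq_empty_or_nonempty with h | ⟨s0, hs0⟩
    · rw [h, Finset.card_empty]
      exact Nat.zero_le _
    · simp only [J, I, Finset.mem_filter, Finset.mem_univ, true_and] at hs0
      obtain ⟨⟨⟨h1, h2, h3⟩, h4⟩, h5⟩ := hs0
      apply Finset.card_le_card_of_injOn (fun g => s0 * g)
      · intro g hg
        simp only [J, I, Finset.coe_filter, Finset.mem_filter, Finset.mem_univ, true_and,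
          Set.mem_ofPred_eq] at hg
        obtain ⟨⟨⟨g1, g2, g3⟩, g4⟩, g5⟩ := hg
        simp only [D, Finset.coe_filter, Finset.mem_univ, true_and, Set.mem_ofPred_eq]
        have e1 : s0 • y = x := by rw [← h5, ← mul_smul, h2, one_smul]
        have e2 : g • y = x := by rw [← g5, ← mul_smul, g2, one_smul]
        exact ⟨Y.mul_mem h1 g1, by rw [mul_smul, g5, e1], by rw [mul_smul, e2, h5]⟩
      · intro g _ h _ hgh
        exact mul_left_cancel hgh
  have hJ2 : J.card ≤ ∑ y ∈ (Finset.univ : Finset X).erase x, (D y).card := by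
    rw [Finset.card_eq_sum_card_fiberwise (f := fun g : G => g • x)
      (t := (Finset.univ : Finset X).erase x)]
    · exact Finset.sum_le_sum fun y _ => hJD y
    · intro g hg
      simp only [J, Finset.coe_filter, Set.mem_ofPred_eq] at hg
      simpa using hg.2
  have h1T : (1 : G) ∈ T := by
    simp only [T, Finset.mem_filter, Finset.mem_univ, true_and]
    exact ⟨Y.one_mem, uni_one x⟩
  have hTM : T ⊆ M := by
    intro g hg
    simp only [T, M, Finset.mem_filter, Finset.mem_univ, true_and] at hg ⊢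
    exact ⟨hg.1, hg.2.1⟩
  have hD : ∑ y ∈ (Finset.univ : Finset X).erase x, (D y).card + t ≤ q + M.card := by
    have h := Finset.sum_card_bipartiteAbove_eq_sum_card_bipartiteBelow
      (s := M) (t := (Finset.univ : Finset X).erase x) (fun (g : G) (y : X) => g • y = y)
    simp only [Finset.bipartiteAbove, Finset.bipartiteBelow] at h
    have h1 : ∀ y : X, M.filter (fun g => g • y = y) = D y := by
      intro y
      ext g
      simp only [M, D, Finset.mem_filter, Finset.mem_univ, true_and, and_assoc]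
    simp only [h1] at h
    rw [← h, ← Finset.sum_sdiff hTM, ← Finset.add_sum_erase T _ h1T]
    have h2 : (((Finset.univ : Finset X).erase x).filter fun y => (1 : G) • y = y).card = q := by
      simp [hX]
    have h3 : ∑ g ∈ T.erase 1,
        (((Finset.univ : Finset X).erase x).filter fun y => g • y = y).card = 0 := by
      apply Finset.sum_eq_zero
      intro g hg
      rw [Finset.mem_erase] at hg
      simp only [T, Finset.mem_filter, Finset.mem_univ, true_and] at hg
      rw [Finset.card_eq_zero, Finset.filter_eq_empty_iff]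
      intro y hy hgy
      exact Finset.ne_of_mem_erase hy (hg.2.2.2 hg.1 y hgy)
    have h4 : ∑ g ∈ M \ T, (((Finset.univ : Finset X).erase x).filter fun y => g • y = y).card ≤
        (M \ T).card := by
      rw [Finset.card_eq_sum_ones]
      apply Finset.sum_le_sum
      intro g hg
      rw [Finset.mem_sdiff] at hg
      have hg1 : g ≠ 1 := fun h => hg.2 (h ▸ h1T)
      have hgx : g • x = x := (Finset.mem_filter.1 hg.1).2.2
      rw [Finset.card_le_one]
      intro y hy z hz
      simp only [Finset.mem_filter, Finset.mem_erase, Finset.mem_univ, and_true] at hy hz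
      by_contra hyz
      exact hg1 (B.three g x y z hgx hy.2 hz.2 (Ne.symm hy.1) (Ne.symm hz.1) hyz)
    have h5 : (M \ T).card + t = M.card := by
      rw [Finset.card_sdiff_of_subset hTM]
      exact Nat.sub_add_cancel (Finset.card_le_card hTM)
    rw [h2, h3]
    omega
  obtain ⟨s, hsS⟩ : ∃ s, s ∈ S := by
    have h2A : 2 ∣ Nat.card (Y ⊓ stabilizer G x : Subgroup G) := by
      have : Nat.card (Y ⊓ stabilizer G x : Subgroup G) = M.card := by
        rw [← hMc]
        rfl
      rw [this]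
      exact even_iff_two_dvd.1 hev
    have hf2 : Fact (Nat.Prime 2) := ⟨Nat.prime_two⟩
    obtain ⟨b, hb⟩ := exists_prime_orderOf_dvd_card' (G := (Y ⊓ stabilizer G x : Subgroup G)) 2 h2A
    have hb2 : (b : G) * b = 1 := by
      have := pow_orderOf_eq_one b
      rw [hb, pow_two] at this
      exact congrArg Subtype.val this
    have hb1 : (b : G) ≠ 1 := by
      intro h
      have h3 : b = 1 := Subtype.ext h
      rw [h3, orderOf_one] at hb
      omega
    refine ⟨b, ?_⟩
    simp only [S, Finset.mem_filter, Finset.mem_univ, true_and]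
    exact ⟨b.2.1, b.2.2, hb2, hb1⟩
  have hs := hsS
  simp only [S, Finset.mem_filter, Finset.mem_univ, true_and] at hs
  obtain ⟨hs1, hs2, hs3, hs4⟩ := hs
  have hit : i = t := by
    apply le_antisymm
    · apply Finset.card_le_card_of_injOn (fun g => s * g)
      · intro g hg
        simp only [S, Finset.coe_filter, Finset.mem_univ, true_and, Set.mem_ofPred_eq] at hg
        simp only [T, Finset.coe_filter, Finset.mem_univ, true_and, Set.mem_ofPred_eq]
        exact ⟨Y.mul_mem hs1 hg.1, B.inv_mul s g x hs2 hg.2.1 hs3 hg.2.2.1 hs4 hg.2.2.2⟩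
      · intro g _ h _ hgh
        exact mul_left_cancel hgh
    · apply Finset.card_le_card_of_injOn (fun g => s * g)
      · intro g hg
        simp only [T, Finset.coe_filter, Finset.mem_univ, true_and, Set.mem_ofPred_eq] at hg
        simp only [S, Finset.coe_filter, Finset.mem_univ, true_and, Set.mem_ofPred_eq]
        refine ⟨Y.mul_mem hs1 hg.1, by rw [mul_smul, hg.2.1, hs2],
          B.inv_uni s g x hs2 hs3 hs4 hg.2, fun h => ?_⟩
        have h3 : s = g⁻¹ := eq_inv_of_mul_eq_one_left h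
        exact inv_not_uni B hs3 hs4 (h3 ▸ uni_inv hg.2)
      · intro g _ h _ hgh
        exact mul_left_cancel hgh
  change Δ.card * t ≤ 2 * (q + M.card)
  rw [← hit]
  omega

omit B [Finite G] [Finite X] [MulAction G X] in
lemma arith3 {q t d e n : ℕ} (hq : 13 ≤ q) (h4 : q % 4 = 1) (he1 : 1 < e) (he : Odd e)
    (hde : d ∣ e - 1) (hd0 : 1 ≤ d) (hte : t * e ≤ q) (htq : t ∣ q) (ht3 : 3 ≤ t)
    (hdt : d + 1 ≤ t) (hn : n ≤ q + 1) (hY : (q - 1) * (q + 1) ≤ 2 * (n * (t * d)))
    (hB : Even (t * d) → n * t ≤ 2 * (q + t * d)) : q = 25 ∧ t = 5 ∧ d = 4 ∧ n ≤ 18 := by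
  obtain ⟨e', he'⟩ := he
  have he2 : e - 1 = 2 * e' := by omega
  rw [he2] at hde
  -- `q - 1 ≤ 2 t d`
  have h1 : q - 1 ≤ 2 * (t * d) := by
    have h2 : (q - 1) * (q + 1) ≤ (2 * (t * d)) * (q + 1) := by
      refine hY.trans ?_
      calc 2 * (n * (t * d)) ≤ 2 * ((q + 1) * (t * d)) :=
            Nat.mul_le_mul_left 2 (Nat.mul_le_mul_right _ hn)
        _ = (2 * (t * d)) * (q + 1) := by ring
    exact Nat.le_of_mul_le_mul_right h2 (by omega)
  have h5 : t * e = t * (2 * e') + t := by rw [he']; ring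
  -- `d = e - 1`
  have hd : d = 2 * e' := by
    obtain ⟨k, hk⟩ := hde
    rcases Nat.lt_or_ge k 2 with h2 | h2
    · interval_cases k
      · omega
      · omega
    · exfalso
      have h3 : 2 * d ≤ 2 * e' := by
        rw [hk, mul_comm 2 d]
        exact Nat.mul_le_mul_left d h2
      have h4' : t * (2 * d) ≤ t * (2 * e') := Nat.mul_le_mul_left t h3
      have h6 : t * (2 * d) = 2 * (t * d) := by ring
      omega
  have hB' := hB ⟨t * e', by rw [hd]; ring⟩
  -- `q² - 1 ≤ 4 d (q + t d)`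
  have h7 : (q - 1) * (q + 1) ≤ 4 * (d * (q + t * d)) := by
    refine hY.trans ?_
    calc 2 * (n * (t * d)) = 2 * d * (n * t) := by ring
      _ ≤ 2 * d * (2 * (q + t * d)) := Nat.mul_le_mul_left _ hB'
      _ = 4 * (d * (q + t * d)) := by ring
  have h8 : t * d + t ≤ q := by
    rw [hd, ← h5]
    exact hte
  have h9 : (q - 1) * (q + 1) + 4 * (d * t) ≤ 8 * (d * q) := by
    have : d * (q + t * d) + d * t ≤ 2 * (d * q) := by
      calc d * (q + t * d) + d * t = d * (q + (t * d + t)) := by ring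
        _ ≤ d * (q + q) := Nat.mul_le_mul_left d (by omega)
        _ = 2 * (d * q) := by ring
    omega
  obtain ⟨p, hp⟩ : ∃ p, q = p + 13 := ⟨q - 13, by omega⟩
  have hq1 : q - 1 = p + 12 := by omega
  have hqd : q ≤ 8 * d := by
    by_contra hcon
    push Not at hcon
    have e1 : (8 * d + 1) * q ≤ q * q := Nat.mul_le_mul_right q hcon
    have e2 : (q - 1) * (q + 1) + 1 = q * q := by
      rw [hq1, hp]
      ring
    have e3 : (8 * d + 1) * q = 8 * (d * q) + q := by ring
    omega
  rw [hq1, hp] at h9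
  -- `e ≤ t`, so `(d + 1)² ≤ q`
  have h10 : (d + 1) * (d + 1) ≤ q := by
    calc (d + 1) * (d + 1) ≤ t * (d + 1) := Nat.mul_le_mul_right _ hdt
      _ = t * d + t := by ring
      _ ≤ q := h8
  have hd6 : d < 6 := by
    by_contra hcon
    push Not at hcon
    obtain ⟨b, hb⟩ : ∃ b, d = b + 6 := ⟨d - 6, by omega⟩
    have e1 : (d + 1) * (d + 1) = b * b + 14 * b + 49 := by
      rw [hb]
      ring
    rw [e1] at h10
    have e2 : 0 ≤ b * b := Nat.zero_le _
    omega
  have hd24 : d = 2 ∨ d = 4 := by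
    have : 1 ≤ e' := by omega
    omega
  rcases hd24 with h11 | h11
  · exfalso
    have : q = 13 := by omega
    rw [this] at htq
    have ht : t ∣ 13 := htq
    rcases (Nat.dvd_prime (by norm_num)).1 ht with h12 | h12
    · omega
    · rw [h12, h11] at h8
      omega
  · have ht5 : 5 ≤ t := by omega
    have hq25 : 25 ≤ q := by
      rw [h11] at h8
      omega
    have hq' : q = 25 ∨ q = 29 := by omega
    rcases hq' with h12 | h12
    · have ht : t = 5 := by
        rw [h11, h12] at h8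
        omega
      refine ⟨h12, ht, h11, ?_⟩
      rw [ht, h11, h12] at hB'
      omega
    · exfalso
      rw [h12] at htq
      rcases (Nat.dvd_prime (by norm_num)).1 htq with h13 | h13
      · omega
      · rw [h13, h11, h12] at h8
        omega

lemma no_uni_case [IsSimpleGroup G] (hq : 13 ≤ q) (x : X) (Y : Subgroup G)
    (hcon : Y.index < q + 1) (huni : ∀ g ∈ Y, ∀ y : X, Uni y g → g = 1) : False := by
  classical
  have : Fintype G := Fintype.ofFinite G
  have h1 : Nat.card Y * Y.index = Nat.card G := Y.card_mul_index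
  let f : U B x × Y → G := fun p => p.1 * p.2
  have hf : Function.Injective f := by
    rintro ⟨u, y⟩ ⟨u', y'⟩ h
    have h2 : (u : G) * y = u' * y' := h
    have h3 : (u' : G)⁻¹ * u = y' * (y : G)⁻¹ := by
      rw [inv_mul_eq_iff_eq_mul, ← mul_assoc, ← h2]
      group
    have h4 : (u' : G)⁻¹ * u = 1 := by
      apply huni _ _ x
      · exact (U B x).mul_mem ((U B x).inv_mem u'.2) u.2
      · rw [h3]
        exact Y.mul_mem y'.2 (Y.inv_mem y.2)
    have h5 : (u : G) = u' := (inv_mul_eq_one.1 h4).symm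
    have h6 : (y : G) = y' := by
      rw [h5] at h2
      exact mul_left_cancel h2
    exact Prod.ext (Subtype.ext h5) (Subtype.ext h6)
  have hcU := card_U B x
  have h2 : q * Nat.card Y ≤ Nat.card G := by
    rw [← hcU, ← Nat.card_prod]
    exact Nat.card_le_card_of_injective f hf
  have hYpos : 0 < Nat.card Y := Nat.card_pos
  have hidx : Y.index = q := by
    rw [← h1, mul_comm] at h2
    have := Nat.le_of_mul_le_mul_left h2 hYpos
    omega
  have hbij : Function.Bijective f := hf.bijective_of_nat_card_le (by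
    rw [Nat.card_prod, hcU, ← h1, hidx, mul_comm])
  have htr : ∀ z : X, ∃ y ∈ Y, y • x = z := by
    intro z
    obtain ⟨c, hc⟩ := B.pre x z
    obtain ⟨⟨u, y⟩, hu⟩ := hbij.2 c⁻¹
    have hu' : (u : G) * y = c⁻¹ := hu
    have hux : (u : G) • x = x := u.2.1
    refine ⟨(y : G)⁻¹, Y.inv_mem y.2, ?_⟩
    rw [← hc, ← inv_inv c, ← hu', mul_inv_rev, mul_smul, inv_smul_eq_iff.2 hux.symm]
  have htr2 : ∀ z w : X, ∃ y ∈ Y, y • z = w := by
    intro z w
    obtain ⟨y1, h1, e1⟩ := htr z
    obtain ⟨y2, h2, e2⟩ := htr w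
    exact ⟨y2 * y1⁻¹, Y.mul_mem h2 (Y.inv_mem h1), by rw [mul_smul, ← e1, inv_smul_smul, e2]⟩
  have h3 := card_G B x
  let K : Finset G := Finset.univ.filter fun g => g ∈ Y ∧ g • x = x
  have hKc : Nat.card {g : G // g ∈ Y ∧ g • x = x} = K.card := by
    rw [Nat.card_eq_fintype_card, Fintype.card_subtype]
  have h4 : Nat.card Y = K.card * (q + 1) := by
    have hAt : IsPretransitive Y X := ⟨fun y z => by
      obtain ⟨a, ha, h⟩ := htr2 y z
      exact ⟨⟨a, ha⟩, h⟩⟩
    have h1 : Nat.card (stabilizer Y x) * (stabilizer Y x).index = Nat.card Y :=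
      Subgroup.card_mul_index _
    rw [MulAction.index_stabilizer_of_transitive Y x, B.cardX] at h1
    rw [← h1, ← hKc]
    congr 1
    exact Nat.card_congr ⟨fun a => ⟨a.1.1, a.1.2, a.2⟩, fun g => ⟨⟨g.1, g.2.1⟩, g.2.2⟩,
      fun a => rfl, fun g => rfl⟩
  have h5 : 2 * K.card = q - 1 := by
    rw [← h1, hidx, h4] at h3
    have h6 : (q * (q + 1)) * (2 * K.card) = (q * (q + 1)) * (q - 1) := by
      calc (q * (q + 1)) * (2 * K.card) = 2 * (K.card * (q + 1) * q) := by ring
        _ = q * (q - 1) * (q + 1) := h3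
        _ = (q * (q + 1)) * (q - 1) := by ring
    exact Nat.eq_of_mul_eq_mul_left (by positivity) h6
  exact no_reg B hq x Y htr2 huni K (by
    intro g
    simp only [K, Finset.mem_filter, Finset.mem_univ, true_and]) (by omega)

lemma m_le (A : Subgroup G) (x : X) (u0 : G) (hu0A : u0 ∈ A) (hu0 : Uni x u0) (hu01 : u0 ≠ 1) :
    Nat.card {g : G // g ∈ A ∧ g • x = x} ≤
      Nat.card {g : G // g ∈ A ∧ Uni x g} * (Nat.card {g : G // g ∈ A ∧ Uni x g} - 1) := by
  classical
  have : Fintype G := Fintype.ofFinite G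
  let M : Finset G := Finset.univ.filter fun g => g ∈ A ∧ g • x = x
  let T : Finset G := Finset.univ.filter fun g => g ∈ A ∧ Uni x g
  have hMc : Nat.card {g : G // g ∈ A ∧ g • x = x} = M.card := by
    rw [Nat.card_eq_fintype_card, Fintype.card_subtype]
  have hTc : Nat.card {g : G // g ∈ A ∧ Uni x g} = T.card := by
    rw [Nat.card_eq_fintype_card, Fintype.card_subtype]
  have h1T : (1 : G) ∈ T := by
    simp only [T, Finset.mem_filter, Finset.mem_univ, true_and]
    exact ⟨A.one_mem, uni_one x⟩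
  have hT1 : (T.erase 1).card = T.card - 1 := Finset.card_erase_of_mem h1T
  rw [hMc, hTc, ← hT1]
  apply Finset.card_le_mul_card_image_of_maps_to (f := fun g : G => g * u0 * g⁻¹)
    (t := T.erase 1)
  · intro g hg
    simp only [M, Finset.mem_filter, Finset.mem_univ, true_and] at hg
    rw [Finset.mem_erase]
    simp only [T, Finset.mem_filter, Finset.mem_univ, true_and]
    refine ⟨?_, A.mul_mem (A.mul_mem hg.1 hu0A) (A.inv_mem hg.1), uni_conj2 hg.2 hu0⟩
    intro h
    rw [mul_inv_eq_one] at h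
    exact hu01 (mul_left_cancel (h.trans (mul_one g).symm))
  · intro b _
    rcases (M.filter fun g => g * u0 * g⁻¹ = b).eq_empty_or_nonempty with h | ⟨g0, hg0⟩
    · rw [h, Finset.card_empty]
      exact Nat.zero_le _
    · simp only [M, Finset.mem_filter, Finset.mem_univ, true_and] at hg0
      obtain ⟨⟨k1, k2⟩, k3⟩ := hg0
      apply Finset.card_le_card_of_injOn (fun g => g0⁻¹ * g)
      · intro g hg
        simp only [M, Finset.coe_filter, Finset.mem_filter, Finset.mem_univ, true_and,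
          Set.mem_ofPred_eq] at hg
        obtain ⟨⟨g1, g2⟩, g3⟩ := hg
        have e1 : (g0⁻¹ * g) • x = x := by
          rw [mul_smul, g2, inv_smul_eq_iff]
          exact k2.symm
        have e2 : (g0⁻¹ * g) * u0 = u0 * (g0⁻¹ * g) := by
          have : g * u0 = g0 * u0 * g0⁻¹ * g := by
            rw [k3, ← g3]
            group
          rw [mul_assoc, this]
          group
        have e3 := B.cent (g0⁻¹ * g) u0 x e1 hu0 hu01 e2
        simp only [T, Finset.coe_filter, Finset.mem_univ, true_and, Set.mem_ofPred_eq]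
        exact ⟨A.mul_mem (A.inv_mem k1) g1, e3⟩
      · intro g _ h _ hgh
        exact mul_left_cancel hgh

lemma index_ge' [IsSimpleGroup G] (hq : 13 ≤ q) (h4 : q % 4 = 1)
    (hring : ∀ (Y : Subgroup G) (x : X) (v : G), Uni x v → v ∉ Y →
      ∃ e d : ℕ, 1 < e ∧ Odd e ∧ d ∣ e - 1 ∧
        Nat.card {g : G // g ∈ Y ∧ g • x = x} = Nat.card {g : G // g ∈ Y ∧ Uni x g} * d ∧
        Nat.card {g : G // g ∈ Y ∧ Uni x g} * e ≤ q)
    (x0 : X) (Y : Subgroup G) (hY : Y ≠ ⊤) : q + 1 ≤ Y.index := by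
  classical
  by_contra hcon
  push Not at hcon
  by_cases huni : ∀ g ∈ Y, ∀ y : X, Uni y g → g = 1
  · exact no_uni_case B hq x0 Y hcon huni
  push Not at huni
  obtain ⟨u0, hu0Y, x, hu0, hu01⟩ := huni
  have hodd : Odd q := Nat.odd_iff.2 (by omega)
  have hG := card_G B x
  have hYi : Nat.card Y * Y.index = Nat.card G := Y.card_mul_index
  have hqpos : 0 < q := by omega
  have hYc : (q - 1) * (q + 1) ≤ 2 * Nat.card Y := by
    have h1 : q * ((q - 1) * (q + 1)) ≤ q * (2 * Nat.card Y) := by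
      calc q * ((q - 1) * (q + 1)) = 2 * Nat.card G := by rw [hG]; ring
        _ = 2 * (Nat.card Y * Y.index) := by rw [hYi]
        _ ≤ 2 * (Nat.card Y * q) :=
            Nat.mul_le_mul_left 2 (Nat.mul_le_mul_left _ (by omega))
        _ = q * (2 * Nat.card Y) := by ring
    exact Nat.le_of_mul_le_mul_left h1 hqpos
  by_cases hv : ∀ v : G, Uni x v → v ∈ Y
  · -- all unipotents at `x` are in `Y`
    have hmove : ∃ y ∈ Y, y • x ≠ x := by
      by_contra h
      push Not at h
      have h1 : Nat.card Y ≤ Nat.card (stabilizer G x) :=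
        Nat.card_le_card_of_injective (fun y : Y => (⟨y, h y y.2⟩ : stabilizer G x))
          (fun a b hab => Subtype.ext (congrArg (fun z : stabilizer G x => (z : G)) hab))
      have h2 := B.cardH x
      have h3 : (q - 1) * (q + 1) ≤ q * (q - 1) := by omega
      obtain ⟨p, hp⟩ : ∃ p, q = p + 13 := ⟨q - 13, by omega⟩
      rw [hp] at h3
      have e1 : p + 13 - 1 = p + 12 := by omega
      rw [e1] at h3
      nlinarith
    obtain ⟨y, hy, hyx⟩ := hmove
    have hreg : ∀ w : X, w ≠ x → ∃ u : G, Uni x u ∧ u • (y • x) = w := by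
      have : Fintype X := Fintype.ofFinite X
      let f : U B x → {w : X // w ≠ x} := fun u => ⟨(u : G) • (y • x), fun h => hyx (by
        have h1 : (u : G) • x = x := u.2.1
        exact smul_left_cancel (u : G) (h.trans h1.symm))⟩
      have hf : Function.Injective f := by
        intro u v huv
        have h1 : (u : G) • (y • x) = (v : G) • (y • x) := congrArg Subtype.val huv
        have h2 : Uni x ((v : G)⁻¹ * u) := (U B x).mul_mem ((U B x).inv_mem v.2) u.2
        have h3 : ((v : G)⁻¹ * u) • (y • x) = y • x := by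
          rw [mul_smul, h1, inv_smul_smul]
        by_contra hne
        have h4 : (v : G)⁻¹ * u ≠ 1 := fun h => hne (Subtype.ext (inv_mul_eq_one.1 h).symm)
        exact hyx (h2.2 h4 _ h3)
      have hb := hf.bijective_of_nat_card_le (by
        rw [card_U B x, Nat.card_eq_fintype_card, Fintype.card_subtype_compl,
          Fintype.card_subtype_eq, ← Nat.card_eq_fintype_card, B.cardX]
        omega)
      intro w hw
      obtain ⟨u, hu⟩ := hb.2 ⟨w, hw⟩
      exact ⟨u, u.2, congrArg Subtype.val hu⟩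
    have htr : ∀ z : X, ∃ y ∈ Y, y • x = z := by
      intro z
      by_cases hz : z = x
      · exact ⟨1, Y.one_mem, by rw [one_smul, hz]⟩
      · obtain ⟨u, hu, huz⟩ := hreg z hz
        exact ⟨u * y, Y.mul_mem (hv u hu) hy, by rw [mul_smul, huz]⟩
    have htr2 : ∀ z w : X, ∃ y ∈ Y, y • z = w := by
      intro z w
      obtain ⟨y1, h1, e1⟩ := htr z
      obtain ⟨y2, h2, e2⟩ := htr w
      exact ⟨y2 * y1⁻¹, Y.mul_mem h2 (Y.inv_mem h1), by rw [mul_smul, ← e1, inv_smul_smul, e2]⟩
    exact hY (count B htr2 x (by omega) hodd (by omega) u0 hu0Y hu0 hu01)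
  · push Not at hv
    obtain ⟨v, hvu, hvY⟩ := hv
    obtain ⟨e, d, he1, he, hde, hmd, hte⟩ := hring Y x v hvu hvY
    obtain ⟨n, hn1, hn2, hn3⟩ := bender B Y x
    have hTU : Nat.card (Y ⊓ U B x : Subgroup G) = Nat.card {g : G // g ∈ Y ∧ Uni x g} := rfl
    have htq : Nat.card {g : G // g ∈ Y ∧ Uni x g} ∣ q := by
      have h2 := Subgroup.card_dvd_of_le (inf_le_right : Y ⊓ U B x ≤ U B x)
      rwa [hTU, card_U] at h2
    have ht2 : 1 < Nat.card {g : G // g ∈ Y ∧ Uni x g} := by
      rw [← hTU]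
      rw [Subgroup.one_lt_card_iff_ne_bot]
      intro h
      have h1 : u0 ∈ (Y ⊓ U B x : Subgroup G) := ⟨hu0Y, hu0⟩
      rw [h, Subgroup.mem_bot] at h1
      exact hu01 h1
    have hmt : Nat.card {g : G // g ∈ Y ∧ g • x = x} ≤
        Nat.card {g : G // g ∈ Y ∧ Uni x g} * (Nat.card {g : G // g ∈ Y ∧ Uni x g} - 1) :=
      m_le B Y x u0 hu0Y hu0 hu01
    set t := Nat.card {g : G // g ∈ Y ∧ Uni x g} with ht
    set m := Nat.card {g : G // g ∈ Y ∧ g • x = x} with hm
    have htodd : Odd t := by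
      obtain ⟨r, hr⟩ := htq
      rw [hr] at hodd
      exact (Nat.odd_mul.1 hodd).1
    obtain ⟨t', ht'⟩ := htodd
    have hm0 : 0 < m := by
      have : Nonempty {g : G // g ∈ Y ∧ g • x = x} := ⟨⟨1, Y.one_mem, one_smul _ _⟩⟩
      exact Nat.card_pos
    have hd0 : 1 ≤ d := by
      rcases Nat.eq_zero_or_pos d with h | h
      · rw [h, mul_zero] at hmd
        omega
      · exact h
    have hdt : d + 1 ≤ t := by
      rw [hmd] at hmt
      have h5 := Nat.le_of_mul_le_mul_left hmt (by omega)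
      omega
    rw [hmd] at hn1 hn3
    obtain ⟨h25, ht5, hd4, hn18⟩ := arith3 hq h4 he1 he hde hd0 hte htq (by omega) hdt hn2
      (by rw [← hn1]; exact hYc) hn3
    -- the last case: `|Y| = 20 n` divides `7800`, `16 ≤ n ≤ 18`
    rw [ht5, hd4] at hn1
    rw [h25] at hG hYc
    rw [hn1] at hYi hYc
    have h6 : n = 16 ∨ n = 17 ∨ n = 18 := by omega
    rcases h6 with h6 | h6 | h6 <;> rw [h6] at hYi <;> omega

end abstr

section tabs

variable {G X : Type*} [Group G] [Finite G] [MulAction G X] [Finite X] {q : ℕ}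

omit [Finite G] [Finite X] in
lemma uni_conj_iff (a g : G) (x : X) : Uni (a • x) (a * g * a⁻¹) ↔ Uni x g := by
  unfold Uni
  constructor
  · rintro ⟨h1, h2⟩
    have h3 : g • x = x := by
      have := congrArg (fun z => a⁻¹ • z) h1
      simpa [mul_smul] using this
    refine ⟨h3, fun hg y hy => ?_⟩
    have h4 : a * g * a⁻¹ ≠ 1 := by
      intro h
      apply hg
      have : a⁻¹ * (a * g * a⁻¹) * a = a⁻¹ * 1 * a := by rw [h]
      simpa [mul_assoc] using this
    have h5 := h2 h4 (a • y) (by simp [mul_smul, hy])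
    exact MulAction.injective a h5
  · rintro ⟨h1, h2⟩
    refine ⟨by simp [mul_smul, h1], fun hg y hy => ?_⟩
    have h4 : g ≠ 1 := by
      rintro rfl
      apply hg
      simp
    have h5 : g • (a⁻¹ • y) = a⁻¹ • y := by
      have := congrArg (fun z => a⁻¹ • z) hy
      simpa [mul_smul] using this
    have h6 := h2 h4 _ h5
    rw [← h6]; simp

variable (B : TBend G X q)
include B

open Classical in
/-- Fixed points of one element. -/
lemma fix_count [Fintype X] (g : G) (hg : g ≠ 1) :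
    2 * (if ∀ y : X, g • y ≠ y then 1 else 0) + (Finset.univ.filter (fun y : X => g • y = y)).card +
      (Finset.univ.filter (fun y : X => Uni y g)).card = 2 := by
  split_ifs with h
  · have h1 : (Finset.univ.filter (fun y : X => g • y = y)) = ∅ := by
      ext y; simp [h y]
    have h2 : (Finset.univ.filter (fun y : X => Uni y g)) = ∅ := by
      ext y
      simp only [Finset.mem_filter, Finset.mem_univ, true_and, Finset.notMem_empty, iff_false]
      exact fun hu => h y hu.1
    rw [h1, h2]; simp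
  · push Not at h
    obtain ⟨y0, hy0⟩ := h
    by_cases h1 : ∀ z : X, g • z = z → z = y0
    · have h2 : (Finset.univ.filter (fun y : X => g • y = y)) = {y0} := by
        ext y
        simp only [Finset.mem_filter, Finset.mem_univ, true_and, Finset.mem_singleton]
        exact ⟨h1 y, fun e => e ▸ hy0⟩
      have h3 : (Finset.univ.filter (fun y : X => Uni y g)) = {y0} := by
        ext y
        simp only [Finset.mem_filter, Finset.mem_univ, true_and, Finset.mem_singleton]
        exact ⟨fun hu => h1 y hu.1, fun e => e ▸ ⟨hy0, fun _ => h1⟩⟩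
      rw [h2, h3]; simp
    · push Not at h1
      obtain ⟨z, hz, hzy⟩ := h1
      have h2 : (Finset.univ.filter (fun y : X => g • y = y)) = {y0, z} := by
        ext y
        simp only [Finset.mem_filter, Finset.mem_univ, true_and, Finset.mem_insert,
          Finset.mem_singleton]
        constructor
        · intro hy
          by_contra hne
          push Not at hne
          exact hg (B.three g y0 z y hy0 hz hy hzy.symm hne.1.symm hne.2.symm)
        · rintro (rfl | rfl)
          · exact hy0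
          · exact hz
      have h3 : (Finset.univ.filter (fun y : X => Uni y g)) = ∅ := by
        ext y
        simp only [Finset.mem_filter, Finset.mem_univ, true_and, Finset.notMem_empty, iff_false]
        intro hu
        exact hzy ((hu.2 hg z hz).trans (hu.2 hg y0 hy0).symm)
      rw [h2, h3, Finset.card_pair hzy.symm]; simp

/-- The number of fixed-point-free elements of a transitive subgroup. -/
lemma free_count (A : Subgroup G) (hA : ∀ x y : X, ∃ a ∈ A, a • x = y) (x : X) :
    2 * Nat.card {g : G // g ∈ A ∧ ∀ y : X, g • y ≠ y} +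
      (q + 1) * Nat.card {g : G // g ∈ A ∧ Uni x g} =
      (q + 1) * Nat.card {g : G // g ∈ A ∧ g • x = x} + 2 * q := by
  classical
  have := Fintype.ofFinite G
  have := Fintype.ofFinite X
  have hN : ∀ P : G → Prop, Nat.card {g : G // g ∈ A ∧ P g} =
      ((Finset.univ.filter (fun g : G => g ∈ A)).filter P).card := by
    intro P
    rw [Nat.card_eq_fintype_card, Fintype.card_subtype, Finset.filter_filter]
  rw [hN, hN, hN]
  set S : Finset G := Finset.univ.filter (fun g : G => g ∈ A) with hS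
  have hSm : ∀ g, g ∈ S ↔ g ∈ A := by intro g; simp [hS]
  have hX : Fintype.card X = q + 1 := by rw [← Nat.card_eq_fintype_card, B.cardX]
  -- double counting
  have swap : ∀ R : G → X → Prop, ∑ g ∈ S, (Finset.univ.filter (fun y : X => R g y)).card =
      ∑ y : X, (S.filter (fun g => R g y)).card := by
    intro R
    simp_rw [Finset.card_filter]
    exact Finset.sum_comm
  have e1 : ∑ g ∈ S, (Finset.univ.filter (fun y : X => g • y = y)).card =
      (q + 1) * (S.filter (fun g => g • x = x)).card := by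
    rw [swap (fun g y => g • y = y), ← hX, ← Finset.card_univ, ← smul_eq_mul, ← Finset.sum_const]
    refine Finset.sum_congr rfl (fun y _ => ?_)
    obtain ⟨a, ha, hay⟩ := hA x y
    refine Finset.card_nbij' (fun g => a⁻¹ * g * a) (fun g => a * g * a⁻¹) ?_ ?_ ?_ ?_
    · intro g hg
      simp only [Finset.coe_filter, Set.mem_ofPred_eq, hSm] at hg ⊢
      refine ⟨A.mul_mem (A.mul_mem (A.inv_mem ha) hg.1) ha, ?_⟩
      rw [mul_smul, mul_smul, hay, hg.2, ← hay]; simp
    · intro g hg
      simp only [Finset.coe_filter, Set.mem_ofPred_eq, hSm] at hg ⊢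
      refine ⟨A.mul_mem (A.mul_mem ha hg.1) (A.inv_mem ha), ?_⟩
      rw [← hay]; simp [mul_smul, hg.2]
    · intro g _; simp [mul_assoc]
    · intro g _; simp [mul_assoc]
  have e2 : ∑ g ∈ S, (Finset.univ.filter (fun y : X => Uni y g)).card =
      (q + 1) * (S.filter (fun g => Uni x g)).card := by
    rw [swap (fun g y => Uni y g), ← hX, ← Finset.card_univ, ← smul_eq_mul, ← Finset.sum_const]
    refine Finset.sum_congr rfl (fun y _ => ?_)
    obtain ⟨a, ha, hay⟩ := hA x y
    refine Finset.card_nbij' (fun g => a⁻¹ * g * a) (fun g => a * g * a⁻¹) ?_ ?_ ?_ ?_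
    · intro g hg
      simp only [Finset.coe_filter, Set.mem_ofPred_eq, hSm] at hg ⊢
      refine ⟨A.mul_mem (A.mul_mem (A.inv_mem ha) hg.1) ha, ?_⟩
      have h1 := (uni_conj_iff a⁻¹ g y).2 hg.2
      rw [← hay] at h1
      simpa using h1
    · intro g hg
      simp only [Finset.coe_filter, Set.mem_ofPred_eq, hSm] at hg ⊢
      refine ⟨A.mul_mem (A.mul_mem ha hg.1) (A.inv_mem ha), ?_⟩
      rw [← hay]
      exact (uni_conj_iff a g x).2 hg.2
    · intro g _; simp [mul_assoc]
    · intro g _; simp [mul_assoc]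
  have e3 : S.card = (q + 1) * (S.filter (fun g => g • x = x)).card := by
    have h0 : S.card = ∑ g ∈ S, (Finset.univ.filter (fun y : X => g • x = y)).card := by
      rw [Finset.card_eq_sum_ones]
      refine Finset.sum_congr rfl (fun g _ => ?_)
      rw [Finset.filter_eq]; simp
    rw [h0, swap (fun g y => g • x = y), ← hX, ← Finset.card_univ, ← smul_eq_mul,
      ← Finset.sum_const]
    refine Finset.sum_congr rfl (fun y _ => ?_)
    obtain ⟨a, ha, hay⟩ := hA x y
    refine Finset.card_nbij' (fun g => a⁻¹ * g) (fun g => a * g) ?_ ?_ ?_ ?_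
    · intro g hg
      simp only [Finset.coe_filter, Set.mem_ofPred_eq, hSm] at hg ⊢
      refine ⟨A.mul_mem (A.inv_mem ha) hg.1, ?_⟩
      rw [mul_smul, hg.2, ← hay]; simp
    · intro g hg
      simp only [Finset.coe_filter, Set.mem_ofPred_eq, hSm] at hg ⊢
      refine ⟨A.mul_mem ha hg.1, ?_⟩
      rw [mul_smul, hg.2, hay]
    · intro g _; simp
    · intro g _; simp
  have e4 : ∑ g ∈ S, (2 * (if ∀ y : X, g • y ≠ y then 1 else 0) +
      (Finset.univ.filter (fun y : X => g • y = y)).card +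
      (Finset.univ.filter (fun y : X => Uni y g)).card) =
      ∑ g ∈ S, (2 + if g = 1 then 2 * q else 0) := by
    refine Finset.sum_congr rfl (fun g _ => ?_)
    by_cases hg : g = 1
    · subst hg
      have h1 : (Finset.univ.filter (fun y : X => (1 : G) • y = y)) = Finset.univ := by
        ext y; simp
      have h2 : (Finset.univ.filter (fun y : X => Uni y (1 : G))) = Finset.univ := by
        ext y; simp [Uni]
      have h3 : ¬ ∀ y : X, (1 : G) • y ≠ y := fun h => h x (one_smul _ _)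
      rw [h1, h2, if_neg h3, Finset.card_univ, hX]
      simp; ring
    · rw [fix_count B g hg, if_neg hg]
  rw [Finset.sum_add_distrib, Finset.sum_add_distrib, Finset.sum_add_distrib, e1, e2,
    ← Finset.mul_sum, Finset.sum_const, Finset.sum_ite_eq' S (1 : G) (fun _ => 2 * q),
    if_pos ((hSm 1).2 A.one_mem), ← Finset.card_filter, smul_eq_mul] at e4
  rw [e3] at e4
  have key : ∀ a b c : ℕ, 2 * a + (q + 1) * c + (q + 1) * b = (q + 1) * c * 2 + 2 * q →
      2 * a + (q + 1) * b = (q + 1) * c + 2 * q := by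
    intro a b c h
    linarith
  have h5 := key _ _ _ e4
  convert h5

omit B [Finite G] [MulAction G X] [Finite X] in
lemma tor_one (s : G) : Tor s 1 := ⟨by rw [one_mul, mul_one], fun _ => Or.inl rfl⟩

omit B [Finite G] [MulAction G X] [Finite X] in
lemma tor_inv {s g : G} (hs : s * s = 1) (h : Tor s g) : Tor s g⁻¹ := by
  refine ⟨?_, fun h1 => ?_⟩
  · have h2 := h.1
    calc g⁻¹ * s = g⁻¹ * (s * g) * g⁻¹ := by group
      _ = g⁻¹ * (g * s) * g⁻¹ := by rw [h2]
      _ = s * g⁻¹ := by group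
  · have h2 : g * g = 1 := by
      have h3 : (g * g)⁻¹ = 1 := by rw [mul_inv_rev, h1]
      exact inv_eq_one.1 h3
    rcases h.2 h2 with h3 | h3
    · exact Or.inl (by rw [h3, inv_one])
    · exact Or.inr (by rw [h3]; exact inv_eq_of_mul_eq_one_left hs)

omit B [Finite G] [MulAction G X] [Finite X] in
lemma tor_conj {s g : G} (h : Tor s g) (a : G) : Tor (a * s * a⁻¹) (a * g * a⁻¹) := by
  refine ⟨?_, fun h1 => ?_⟩
  · calc a * g * a⁻¹ * (a * s * a⁻¹) = a * (g * s) * a⁻¹ := by group
      _ = a * (s * g) * a⁻¹ := by rw [h.1]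
      _ = a * s * a⁻¹ * (a * g * a⁻¹) := by group
  · have h2 : g * g = 1 := by
      have h3 : a * (g * g) * a⁻¹ = 1 := by
        rw [← h1]
        group
      rw [mul_inv_eq_one] at h3
      exact mul_left_cancel (h3.trans (mul_one a).symm)
    rcases h.2 h2 with h3 | h3
    · exact Or.inl (by rw [h3]; group)
    · exact Or.inr (by rw [h3])

open scoped Classical in
/-- The number of elements of `A` in the torus of `s`. -/
noncomputable def tc [Fintype G] (A : Subgroup G) (s : G) : ℕ :=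
  (Finset.univ.filter fun g => g ∈ A ∧ Tor s g).card

omit B [Finite G] [MulAction G X] [Finite X] in
lemma tc_conj [Fintype G] (A : Subgroup G) (s : G) {a : G} (ha : a ∈ A) :
    tc A (a * s * a⁻¹) = tc A s := by
  classical
  unfold tc
  symm
  apply Finset.card_bij (fun g _ => a * g * a⁻¹)
  · intro g hg
    simp only [Finset.mem_filter, Finset.mem_univ, true_and] at hg ⊢
    exact ⟨A.mul_mem (A.mul_mem ha hg.1) (A.inv_mem ha), tor_conj hg.2 a⟩
  · intro g _ h _ hgh
    exact mul_left_cancel (mul_right_cancel hgh)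
  · intro g hg
    simp only [Finset.mem_filter, Finset.mem_univ, true_and] at hg
    refine ⟨a⁻¹ * g * a, ?_, by group⟩
    simp only [Finset.mem_filter, Finset.mem_univ, true_and]
    refine ⟨A.mul_mem (A.mul_mem (A.inv_mem ha) hg.1) ha, ?_⟩
    have h := tor_conj hg.2 a⁻¹
    have e1 : a⁻¹ * (a * s * a⁻¹) * a⁻¹⁻¹ = s := by group
    rw [e1, inv_inv] at h
    exact h

omit B [Finite G] [MulAction G X] [Finite X] in
open scoped Classical in
/-- Orbit and stabilizer for the conjugation action of `A`. -/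
lemma orb_card [Fintype G] (A : Subgroup G) (s : G) :
    (Finset.univ.filter fun g => g ∈ A ∧ g * s = s * g).card *
      (Finset.univ.filter fun t => ∃ a ∈ A, a * s * a⁻¹ = t).card = Nat.card A := by
  have h0 : Nat.card A = (Finset.univ.filter fun g => g ∈ A).card := by
    rw [Nat.card_eq_fintype_card, Fintype.card_subtype]
  have hm : ∀ g ∈ Finset.univ.filter (fun g => g ∈ A),
      g * s * g⁻¹ ∈ Finset.univ.filter fun t => ∃ a ∈ A, a * s * a⁻¹ = t := by
    intro g hg
    simp only [Finset.mem_filter, Finset.mem_univ, true_and] at hg ⊢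
    exact ⟨g, hg, rfl⟩
  have h1 := Finset.card_eq_sum_card_fiberwise (s := Finset.univ.filter fun g => g ∈ A)
    (f := fun a : G => a * s * a⁻¹)
    (t := Finset.univ.filter fun t => ∃ a ∈ A, a * s * a⁻¹ = t) hm
  have h2 : ∀ t ∈ Finset.univ.filter (fun t => ∃ a ∈ A, a * s * a⁻¹ = t),
      ((Finset.univ.filter fun g => g ∈ A).filter fun a : G => a * s * a⁻¹ = t).card =
        (Finset.univ.filter fun g => g ∈ A ∧ g * s = s * g).card := by
    intro t ht
    simp only [Finset.mem_filter, Finset.mem_univ, true_and] at ht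
    obtain ⟨a, ha, hat⟩ := ht
    symm
    apply Finset.card_bij (fun g _ => a * g)
    · intro g hg
      simp only [Finset.mem_filter, Finset.mem_univ, true_and] at hg ⊢
      refine ⟨A.mul_mem ha hg.1, ?_⟩
      rw [← hat]
      calc a * g * s * (a * g)⁻¹ = a * (g * s) * g⁻¹ * a⁻¹ := by group
        _ = a * (s * g) * g⁻¹ * a⁻¹ := by rw [hg.2]
        _ = a * s * a⁻¹ := by group
    · intro g _ h _ hgh
      exact mul_left_cancel hgh
    · intro g hg
      simp only [Finset.mem_filter, Finset.mem_univ, true_and] at hg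
      refine ⟨a⁻¹ * g, ?_, by group⟩
      simp only [Finset.mem_filter, Finset.mem_univ, true_and]
      refine ⟨A.mul_mem (A.inv_mem ha) hg.1, ?_⟩
      have h1 : g * s * g⁻¹ = a * s * a⁻¹ := by rw [hg.2, hat]
      calc a⁻¹ * g * s = a⁻¹ * (g * s * g⁻¹) * g := by group
        _ = a⁻¹ * (a * s * a⁻¹) * g := by rw [h1]
        _ = s * (a⁻¹ * g) := by group
  rw [h0, h1, Finset.sum_congr rfl h2, Finset.sum_const, smul_eq_mul, mul_comm]

open scoped Classical in
/-- The centralizer of `s` in `A` is the torus or twice as large. -/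
lemma cent_card [Fintype G] (A : Subgroup G) (s : G) (hs : s * s = 1) (hs1 : s ≠ 1) :
    (Finset.univ.filter fun g => g ∈ A ∧ g * s = s * g).card = tc A s ∨
      (Finset.univ.filter fun g => g ∈ A ∧ g * s = s * g).card = 2 * tc A s := by
  have hsplit : (Finset.univ.filter fun g => g ∈ A ∧ g * s = s * g).card = tc A s +
      (Finset.univ.filter fun g => g ∈ A ∧ g * s = s * g ∧ ¬ Tor s g).card := by
    unfold tc
    rw [← Finset.card_union_of_disjoint]
    · congr 1
      ext g
      simp only [Finset.mem_filter, Finset.mem_univ, true_and, Finset.mem_union]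
      constructor
      · rintro ⟨h1, h2⟩
        by_cases h3 : Tor s g
        · exact Or.inl ⟨h1, h3⟩
        · exact Or.inr ⟨h1, h2, h3⟩
      · rintro (⟨h1, h2⟩ | ⟨h1, h2, -⟩)
        · exact ⟨h1, h2.1⟩
        · exact ⟨h1, h2⟩
    · rw [Finset.disjoint_left]
      intro g hg hg'
      simp only [Finset.mem_filter, Finset.mem_univ, true_and] at hg hg'
      exact hg'.2.2 hg.2
  rcases (Finset.univ.filter fun g => g ∈ A ∧ g * s = s * g ∧
    ¬ Tor s g).eq_empty_or_nonempty with h | ⟨g0, hg0⟩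
  · left
    rw [hsplit, h, Finset.card_empty, add_zero]
  · right
    rw [hsplit, two_mul]
    congr 1
    simp only [Finset.mem_filter, Finset.mem_univ, true_and] at hg0
    obtain ⟨k1, k2, k3⟩ := hg0
    apply le_antisymm
    · unfold tc
      apply Finset.card_le_card_of_injOn (fun g => g0 * g)
      · intro g hg
        simp only [Finset.coe_filter, Finset.mem_univ, true_and, Set.mem_ofPred_eq] at hg ⊢
        exact ⟨A.mul_mem k1 hg.1, B.tor_mul' g0 g s hs hs1 k2 hg.2.1 k3 hg.2.2⟩
      · intro g _ h _ hgh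
        exact mul_left_cancel hgh
    · unfold tc
      apply Finset.card_le_card_of_injOn (fun g => g0 * g)
      · intro g hg
        simp only [Finset.coe_filter, Finset.mem_univ, true_and, Set.mem_ofPred_eq] at hg ⊢
        refine ⟨A.mul_mem k1 hg.1, ?_, ?_⟩
        · rw [mul_assoc, hg.2.1, ← mul_assoc, k2, mul_assoc]
        · intro h1
          apply k3
          have h2 := B.tor_mul (g0 * g) g⁻¹ s hs hs1 h1 (tor_inv hs hg.2)
          rw [mul_assoc, mul_inv_cancel, mul_one] at h2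
          exact h2
      · intro g _ h _ hgh
        exact mul_left_cancel hgh

/-- Removing one class of tori from an invariant set. -/
lemma peel [Fintype G] (A : Subgroup G) (S : Finset G)
    (hS : ∀ s ∈ S, s * s = 1 ∧ s ≠ 1 ∧ 2 ≤ tc A s)
    (hinv : ∀ s ∈ S, ∀ a ∈ A, a * s * a⁻¹ ∈ S) (hne : S.Nonempty) :
    ∃ (c e : ℕ) (S' : Finset G), 2 ≤ c ∧ (∀ s ∈ S', s * s = 1 ∧ s ≠ 1 ∧ 2 ≤ tc A s) ∧
      (∀ s ∈ S', ∀ a ∈ A, a * s * a⁻¹ ∈ S') ∧
      e * ∑ s ∈ S, (tc A s - 1) = Nat.card A * (c - 1) + e * ∑ s ∈ S', (tc A s - 1) ∧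
      ((e = 2 * c ∧ Nat.card A + 4 * ∑ s ∈ S', (tc A s - 1) ≤ 4 * ∑ s ∈ S, (tc A s - 1)) ∨
        (e = c ∧ 2 * Nat.card A + 4 * ∑ s ∈ S', (tc A s - 1) ≤
          4 * ∑ s ∈ S, (tc A s - 1))) := by
  classical
  obtain ⟨s, hs⟩ := hne
  obtain ⟨hs2, hs1, hc⟩ := hS s hs
  set O : Finset G := Finset.univ.filter fun t => ∃ a ∈ A, a * s * a⁻¹ = t with hO
  set e := (Finset.univ.filter fun g => g ∈ A ∧ g * s = s * g).card with he
  have horb : e * O.card = Nat.card A := orb_card A s
  have hOS : O ⊆ S := by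
    intro t ht
    simp only [O, Finset.mem_filter, Finset.mem_univ, true_and] at ht
    obtain ⟨a, ha, rfl⟩ := ht
    exact hinv s hs a ha
  have hsumO : ∑ t ∈ O, (tc A t - 1) = O.card * (tc A s - 1) := by
    rw [Finset.sum_congr rfl (g := fun _ => tc A s - 1), Finset.sum_const, smul_eq_mul]
    intro t ht
    simp only [O, Finset.mem_filter, Finset.mem_univ, true_and] at ht
    obtain ⟨a, ha, rfl⟩ := ht
    rw [tc_conj A s ha]
  have hsum := Finset.sum_sdiff (f := fun t => tc A t - 1) hOS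
  have hmain : e * ∑ t ∈ S, (tc A t - 1) =
      Nat.card A * (tc A s - 1) + e * ∑ t ∈ S \ O, (tc A t - 1) := by
    rw [← hsum, hsumO, ← horb]
    ring
  have hepos : 0 < e := by
    apply Finset.card_pos.2
    refine ⟨1, ?_⟩
    simp only [Finset.mem_filter, Finset.mem_univ, true_and]
    exact ⟨A.one_mem, by rw [one_mul, mul_one]⟩
  refine ⟨tc A s, e, S \ O, hc, ?_, ?_, hmain, ?_⟩
  · intro t ht
    exact hS t (Finset.mem_sdiff.1 ht).1
  · intro t ht a ha
    rw [Finset.mem_sdiff] at ht ⊢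
    refine ⟨hinv t ht.1 a ha, fun h => ht.2 ?_⟩
    simp only [O, Finset.mem_filter, Finset.mem_univ, true_and] at h ⊢
    obtain ⟨b, hb, h⟩ := h
    refine ⟨a⁻¹ * b, A.mul_mem (A.inv_mem ha) hb, ?_⟩
    calc a⁻¹ * b * s * (a⁻¹ * b)⁻¹ = a⁻¹ * (b * s * b⁻¹) * a := by group
      _ = a⁻¹ * (a * t * a⁻¹) * a := by rw [h]
      _ = t := by group
  · obtain ⟨c', hc'⟩ : ∃ c', tc A s = c' + 2 := ⟨tc A s - 2, by omega⟩
    generalize ∑ t ∈ S, (tc A t - 1) = x at hmain ⊢
    generalize ∑ t ∈ S \ O, (tc A t - 1) = y at hmain ⊢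
    generalize Nat.card A = n at hmain ⊢
    rcases cent_card B A s hs2 hs1 with h | h
    · right
      refine ⟨h, ?_⟩
      rw [← he, hc'] at h
      rw [h, hc', show c' + 2 - 1 = c' + 1 by omega] at hmain
      have key : (c' + 2) * (2 * n + 4 * y) ≤ (c' + 2) * (4 * x) := by
        rw [show (c' + 2) * (4 * x) = 4 * ((c' + 2) * x) by ring, hmain]
        nlinarith [Nat.zero_le (n * c')]
      exact Nat.le_of_mul_le_mul_left key (by omega)
    · left
      refine ⟨h, ?_⟩
      rw [← he, hc'] at h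
      rw [h, hc', show c' + 2 - 1 = c' + 1 by omega] at hmain
      have key : (2 * (c' + 2)) * (n + 4 * y) ≤ (2 * (c' + 2)) * (4 * x) := by
        rw [show (2 * (c' + 2)) * (4 * x) = 4 * (2 * (c' + 2) * x) by ring, hmain]
        nlinarith [Nat.zero_le (n * c')]
      exact Nat.le_of_mul_le_mul_left key (by omega)

open scoped Classical in
/-- The fixed-point-free elements are the nontrivial elements of the tori. -/
lemma free_sum [Fintype G] (A : Subgroup G) :
    Nat.card {g : G // g ∈ A ∧ ∀ y : X, g • y ≠ y} =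
      ∑ s ∈ Finset.univ.filter (fun s => s * s = 1 ∧ s ≠ 1 ∧ 2 ≤ tc A s), (tc A s - 1) := by
  have : Nonempty X := by
    have h := B.cardX
    have h1 : 0 < Nat.card X := by omega
    exact (Nat.card_pos_iff.1 h1).1
  have h1 : Nat.card {g : G // g ∈ A ∧ ∀ y : X, g • y ≠ y} =
      (Finset.univ.filter fun g : G => g ∈ A ∧ ∀ y : X, g • y ≠ y).card := by
    rw [Nat.card_eq_fintype_card, Fintype.card_subtype]
  have h2 : (Finset.univ.filter fun g : G => g ∈ A ∧ ∀ y : X, g • y ≠ y) =
      (Finset.univ.filter (fun s => s * s = 1 ∧ s ≠ 1 ∧ 2 ≤ tc A s)).biUnion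
        (fun s => (Finset.univ.filter fun g => g ∈ A ∧ Tor s g).erase 1) := by
    ext g
    simp only [Finset.mem_filter, Finset.mem_univ, true_and, Finset.mem_biUnion,
      Finset.mem_erase]
    constructor
    · rintro ⟨hg, hfree⟩
      obtain ⟨s, hs, hs1, ht⟩ := B.ex_tor g hfree
      have hg1 : g ≠ 1 := by
        rintro rfl
        obtain ⟨y⟩ := this
        exact hfree y (one_smul _ _)
      refine ⟨s, ⟨hs, hs1, ?_⟩, hg1, hg, ht⟩
      have h3 : ({1, g} : Finset G) ⊆ Finset.univ.filter fun g => g ∈ A ∧ Tor s g := by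
        intro h hh
        simp only [Finset.mem_insert, Finset.mem_singleton] at hh
        simp only [Finset.mem_filter, Finset.mem_univ, true_and]
        rcases hh with rfl | rfl
        · exact ⟨A.one_mem, tor_one s⟩
        · exact ⟨hg, ht⟩
      have h4 := Finset.card_le_card h3
      rw [Finset.card_pair (Ne.symm hg1)] at h4
      exact h4
    · rintro ⟨s, ⟨hs, hs1, _⟩, hg1, hg, ht⟩
      exact ⟨hg, fun y hy => hg1 (B.tor_free g s y hs hs1 ht hy)⟩
  rw [h1, h2, Finset.card_biUnion]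
  · apply Finset.sum_congr rfl
    intro s _
    unfold tc
    rw [Finset.card_erase_of_mem]
    simp only [Finset.mem_filter, Finset.mem_univ, true_and]
    exact ⟨A.one_mem, tor_one s⟩
  · intro s hs t ht hst
    change Disjoint _ _
    rw [Finset.disjoint_left]
    intro g hg hg'
    simp only [Finset.coe_filter, Finset.mem_univ, true_and, Set.mem_ofPred_eq] at hs ht
    simp only [Finset.mem_filter, Finset.mem_univ, true_and, Finset.mem_erase] at hg hg'
    exact hst (B.tor_uniq g s t hg.1 hs.1 hs.2.1 ht.1 ht.2.1 hg.2.2 hg'.2.2)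

omit B [Finite G] [MulAction G X] [Finite X] in
open scoped Classical in
lemma inv_all [Fintype G] (A : Subgroup G) :
    ∀ s ∈ Finset.univ.filter (fun s => s * s = 1 ∧ s ≠ 1 ∧ 2 ≤ tc A s), ∀ a ∈ A,
      a * s * a⁻¹ ∈ Finset.univ.filter (fun s => s * s = 1 ∧ s ≠ 1 ∧ 2 ≤ tc A s) := by
  intro s hs a ha
  simp only [Finset.mem_filter, Finset.mem_univ, true_and] at hs ⊢
  obtain ⟨h1, h2, h3⟩ := hs
  refine ⟨?_, ?_, ?_⟩
  · rw [show a * s * a⁻¹ * (a * s * a⁻¹) = a * (s * s) * a⁻¹ by group, h1]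
    group
  · intro h
    rw [mul_inv_eq_one] at h
    exact h2 (mul_left_cancel (h.trans (mul_one a).symm))
  · rw [tc_conj A s ha]
    exact h3

/-- If fewer than half of the elements of `A` are fixed-point-free, and there are some. -/
lemma one_orbit (A : Subgroup G)
    (h : 2 * Nat.card {g : G // g ∈ A ∧ ∀ y : X, g • y ≠ y} < Nat.card A)
    (h0 : 0 < Nat.card {g : G // g ∈ A ∧ ∀ y : X, g • y ≠ y}) :
    ∃ c : ℕ, 2 ≤ c ∧ 2 * c * Nat.card {g : G // g ∈ A ∧ ∀ y : X, g • y ≠ y} =
      Nat.card A * (c - 1) := by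
  classical
  have : Fintype G := Fintype.ofFinite G
  rw [free_sum B A] at h h0 ⊢
  have hne : (Finset.univ.filter
      (fun s : G => s * s = 1 ∧ s ≠ 1 ∧ 2 ≤ tc A s)).Nonempty := by
    rw [Finset.nonempty_iff_ne_empty]
    intro h1
    rw [h1, Finset.sum_empty] at h0
    omega
  obtain ⟨c, e, S', hc, h1, h2, h3, h4⟩ := peel B A _
    (fun s hs => (Finset.mem_filter.1 hs).2) (inv_all A) hne
  rcases h4 with ⟨he, h4⟩ | ⟨he, h4⟩
  · rcases S'.eq_empty_or_nonempty with h5 | h5
    · rw [h5, Finset.sum_empty, mul_zero, add_zero, he] at h3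
      exact ⟨c, hc, h3⟩
    · obtain ⟨c', e', S'', -, -, -, -, h6⟩ := peel B A S' h1 h2 h5
      rcases h6 with ⟨-, h6⟩ | ⟨-, h6⟩ <;> omega
  · omega

/-- The fixed-point-free elements come from at most two classes of tori if they are fewer than
three quarters of `A`; in lowest terms the contribution of a class is `(c - 1) / c` or
`(c - 1) / (2 c)` times `|A|`. -/
lemma two_orbits (A : Subgroup G)
    (h : 4 * Nat.card {g : G // g ∈ A ∧ ∀ y : X, g • y ≠ y} < 3 * Nat.card A) :
    ∃ c d : ℕ, 1 ≤ c ∧ 1 ≤ d ∧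
      (c * Nat.card {g : G // g ∈ A ∧ ∀ y : X, g • y ≠ y} = Nat.card A * (c - 1) ∨
      2 * c * d * Nat.card {g : G // g ∈ A ∧ ∀ y : X, g • y ≠ y} =
        Nat.card A * ((c - 1) * d + (d - 1) * c)) := by
  classical
  have : Fintype G := Fintype.ofFinite G
  rw [free_sum B A] at h ⊢
  rcases (Finset.univ.filter
      (fun s : G => s * s = 1 ∧ s ≠ 1 ∧ 2 ≤ tc A s)).eq_empty_or_nonempty with hne | hne
  · refine ⟨1, 1, le_refl _, le_refl _, Or.inl ?_⟩
    rw [hne, Finset.sum_empty]
    simp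
  · obtain ⟨c, e, S', hc, h1, h2, h3, h4⟩ := peel B A _
      (fun s hs => (Finset.mem_filter.1 hs).2) (inv_all A) hne
    rcases h4 with ⟨he, h4⟩ | ⟨he, h4⟩
    · rcases S'.eq_empty_or_nonempty with h5 | h5
      · rw [h5, Finset.sum_empty, mul_zero, add_zero, he] at h3
        refine ⟨c, 1, by omega, le_refl _, Or.inr ?_⟩
        rw [mul_one, mul_one, h3]
        simp
      · obtain ⟨d, e', S'', hd, k1, k2, k3, k4⟩ := peel B A S' h1 h2 h5
        rcases k4 with ⟨he', k4⟩ | ⟨he', k4⟩
        · rcases S''.eq_empty_or_nonempty with h6 | h6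
          · rw [h6, Finset.sum_empty, mul_zero, add_zero, he'] at k3
            rw [he] at h3
            refine ⟨c, d, by omega, by omega, Or.inr ?_⟩
            generalize (∑ s ∈ Finset.univ.filter
              (fun s : G => s * s = 1 ∧ s ≠ 1 ∧ 2 ≤ tc A s), (tc A s - 1)) = x at h3 ⊢
            generalize (∑ s ∈ S', (tc A s - 1)) = y at h3 k3
            calc 2 * c * d * x = d * (2 * c * x) := by ring
              _ = d * (Nat.card A * (c - 1)) + c * (2 * d * y) := by rw [h3]; ring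
              _ = Nat.card A * ((c - 1) * d + (d - 1) * c) := by rw [k3]; ring
          · obtain ⟨c', e', S3, -, -, -, -, h7⟩ := peel B A S'' k1 k2 h6
            rcases h7 with ⟨-, h7⟩ | ⟨-, h7⟩ <;> omega
        · omega
    · rcases S'.eq_empty_or_nonempty with h5 | h5
      · rw [h5, Finset.sum_empty, mul_zero, add_zero, he] at h3
        exact ⟨c, 1, by omega, le_refl _, Or.inl h3⟩
      · obtain ⟨c', e', S'', -, -, -, -, h6⟩ := peel B A S' h1 h2 h5
        rcases h6 with ⟨-, h6⟩ | ⟨-, h6⟩ <;> omega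

end tabs

namespace T3

section t3

variable {G X : Type*} [Group G] [Finite G] [MulAction G X] [Finite X] {q : ℕ}

omit [Finite G] [Finite X] in
lemma uni_one (x : X) : Uni x (1 : G) := ⟨one_smul _ _, fun h => absurd rfl h⟩

omit [Finite G] [Finite X] in
lemma uni_inv {x : X} {g : G} (h : Uni x g) : Uni x g⁻¹ := by
  refine ⟨inv_smul_eq_iff.2 h.1.symm, fun h1 y hy => h.2 (fun h2 => h1 (by rw [h2, inv_one])) y ?_⟩
  rw [inv_smul_eq_iff] at hy
  exact hy.symm

omit [Finite G] [Finite X] in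
lemma uni_conj2 {x : X} {g u : G} (hg : g • x = x) (h : Uni x u) : Uni x (g * u * g⁻¹) := by
  have hg' : g⁻¹ • x = x := inv_smul_eq_iff.2 hg.symm
  refine ⟨by rw [mul_smul, mul_smul, hg', h.1, hg], fun h1 y hy => ?_⟩
  have hu1 : u ≠ 1 := by
    rintro rfl
    exact h1 (by group)
  have h2 : u • (g⁻¹ • y) = g⁻¹ • y := by
    rw [mul_smul, mul_smul] at hy
    rw [eq_inv_smul_iff]
    exact hy
  have h3 := h.2 hu1 _ h2
  rw [inv_smul_eq_iff] at h3
  rw [h3, hg]

variable (B : TBend G X q)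
include B

omit B in
/-- Conjugation carries `Uni x` to `Uni (c • x)`. -/
lemma uni_conj {x : X} {g : G} (h : Uni x g) (c : G) : Uni (c • x) (c * g * c⁻¹) := by
  refine ⟨by rw [mul_smul, mul_smul, inv_smul_smul, h.1], fun hne y hy => ?_⟩
  have h1 : g ≠ 1 := by
    rintro rfl
    exact hne (by group)
  have h2 : g • (c⁻¹ • y) = c⁻¹ • y := by
    rw [mul_smul, mul_smul] at hy
    exact eq_inv_smul_iff.2 hy
  have h3 := h.2 h1 _ h2
  rw [← h3, smul_inv_smul]

/-- The elements which are `1` or fix only the point `x`. -/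
def U (x : X) : Subgroup G where
  carrier := {g | Uni x g}
  mul_mem' := by
    intro g h h1 h2
    exact B.mul g h x h1 h2
  one_mem' := ⟨one_smul _ _, fun h => absurd rfl h⟩
  inv_mem' := by
    rintro g ⟨h1, h2⟩
    refine ⟨inv_smul_eq_iff.2 h1.symm, fun h y hy => h2 (fun h3 => h (by rw [h3, inv_one])) y ?_⟩
    exact (inv_smul_eq_iff.1 hy).symm

omit [Finite G] [Finite X] in
lemma mem_U {x : X} {g : G} : g ∈ U B x ↔ Uni x g := Iff.rfl

omit [Finite G] [Finite X] in
lemma card_U (x : X) : Nat.card (U B x) = q := B.cardU x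

/-- A subgroup `Y` of index at most `q` acts transitively on `X`, has index `q`, and contains no
element `g ≠ 1` with only one fixed point. -/
lemma index_small [IsSimpleGroup G] (hq : 2 ≤ q) (x : X)
    (hc : ∀ u v : G, Uni x u → Uni x v → u ≠ 1 → v ≠ 1 →
      ∃ (c : G) (k l : ℕ), c * u ^ k * c⁻¹ = v ∧ (u ^ k) ^ l = u)
    (Y : Subgroup G) (hY : Y ≠ ⊤) (hcon : Y.index < q + 1) :
    Y.index = q ∧ (∀ z w : X, ∃ y ∈ Y, y • z = w) ∧ ∀ g ∈ Y, ∀ y : X, Uni y g → g = 1 := by
  classical
  have hfaith := faithful_of_ne_top Y hY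
  have : Fintype G := Fintype.ofFinite G
  have : Fintype (G ⧸ Y) := Fintype.ofFinite _
  obtain ⟨u0, hu0, hu01⟩ : ∃ u ∈ U B x, u ≠ 1 := by
    by_contra h
    push Not at h
    have h1 : U B x = ⊥ := by
      rw [eq_bot_iff]
      intro u hu
      exact h u hu
    have h2 := card_U B x
    rw [h1, Subgroup.card_bot] at h2
    omega
  have hconst : ∀ u : U B x, u ≠ 1 →
      Nat.card (fixedBy (G ⧸ Y) u) = Nat.card (fixedBy (G ⧸ Y) u0) := by
    intro u hu
    obtain ⟨g, k, l, hg, hl⟩ := hc u0 u hu0 u.2 hu01 (fun h => hu (Subtype.ext h))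
    have e0 : ∀ w : G ⧸ Y, u0 • w = w ↔ (u0 ^ k) • w = w := by
      intro w
      constructor
      · intro h
        have h1 : u0 ∈ stabilizer G w := h
        exact (stabilizer G w).pow_mem h1 k
      · intro h
        have h1 : u0 ^ k ∈ stabilizer G w := h
        have h2 := (stabilizer G w).pow_mem h1 l
        rw [hl] at h2
        exact h2
    have e : ∀ w : G ⧸ Y, (w ∈ fixedBy (G ⧸ Y) u0) ↔ (g • w ∈ fixedBy (G ⧸ Y) u) := by
      intro w
      rw [mem_fixedBy, mem_fixedBy]
      change u0 • w = w ↔ (u : G) • g • w = g • w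
      rw [← hg, mul_smul, mul_smul, inv_smul_smul, e0]
      exact ⟨fun h => by rw [h], fun h => smul_left_cancel g h⟩
    exact (Nat.card_congr ((MulAction.toPerm g).subtypeEquiv e)).symm
  set m := Nat.card (G ⧸ Y) with hm
  have hmY : Y.index = m := rfl
  set φ := Nat.card (fixedBy (G ⧸ Y) u0) with hφ
  have hφm : φ < m := by
    apply Nat.lt_of_le_of_ne (Nat.card_le_card_of_injective _ Subtype.val_injective)
    intro h
    apply hu01
    apply hfaith.eq_of_smul_eq_smul
    intro w
    have hb := (Subtype.val_injective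
      (p := fun w => w ∈ fixedBy (G ⧸ Y) u0)).bijective_of_nat_card_le (le_of_eq h.symm)
    obtain ⟨w', rfl⟩ := hb.2 w
    rw [one_smul]
    exact w'.2
  have hB := MulAction.sum_card_fixedBy_eq_card_orbits_mul_card_group (U B x) (G ⧸ Y)
  have hs : ∑ u : U B x, Fintype.card (fixedBy (G ⧸ Y) u) = m + (q - 1) * φ := by
    rw [← Finset.add_sum_erase _ _ (Finset.mem_univ (1 : U B x))]
    congr 1
    · rw [← Nat.card_eq_fintype_card, hm]
      have : fixedBy (G ⧸ Y) (1 : U B x) = Set.univ := by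
        ext w
        simp
      rw [this]
      exact Nat.card_congr (Equiv.Set.univ _)
    · rw [Finset.sum_congr rfl (fun u hu => by
        rw [← Nat.card_eq_fintype_card, hconst u (Finset.ne_of_mem_erase hu)])]
      rw [Finset.sum_const, Finset.card_erase_of_mem (Finset.mem_univ _), Finset.card_univ,
        ← Nat.card_eq_fintype_card, card_U, smul_eq_mul]
  rw [hs, ← Nat.card_eq_fintype_card (α := U B x), card_U] at hB
  set k := Fintype.card (Quotient (orbitRel (U B x) (G ⧸ Y))) with hk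
  have hmφ : m = q ∧ φ = 0 := by
    obtain ⟨q', rfl⟩ : ∃ q', q = q' + 1 := ⟨q - 1, by omega⟩
    simp only [Nat.add_sub_cancel] at hB
    have h1 : (q' + 1) ∣ m - φ := by
      have h2 : m - φ + (q' + 1) * φ = k * (q' + 1) := by
        rw [← hB]
        have : (q' + 1) * φ = q' * φ + φ := by ring
        omega
      rw [← Nat.dvd_add_left (Dvd.intro _ rfl : (q' + 1) ∣ (q' + 1) * φ), h2]
      exact Dvd.intro_left _ rfl
    have h2 := Nat.le_of_dvd (by omega) h1
    omega
  obtain ⟨hmq, hφ0⟩ := hmφ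
  have hfree0 : ∀ g : G, Uni x g → g ≠ 1 → ∀ w : G ⧸ Y, g • w ≠ w := by
    intro g hg hg1 w hw
    have h0 := hconst ⟨g, hg⟩ (fun h => hg1 (congrArg Subtype.val h))
    have h1 : Nonempty (fixedBy (G ⧸ Y) (⟨g, hg⟩ : U B x)) := ⟨⟨w, hw⟩⟩
    have h2 : 0 < Nat.card (fixedBy (G ⧸ Y) (⟨g, hg⟩ : U B x)) := Nat.card_pos
    omega
  have hfree : ∀ (g : G) (y : X), Uni y g → g ≠ 1 → ∀ w : G ⧸ Y, g • w ≠ w := by
    intro g y hg hg1 w hw
    obtain ⟨c, hc'⟩ := B.pre y x
    have h1 := uni_conj hg c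
    rw [hc'] at h1
    refine hfree0 _ h1 ?_ (c • w) ?_
    · intro h
      rw [mul_inv_eq_one] at h
      exact hg1 (mul_left_cancel (h.trans (mul_one c).symm))
    · rw [mul_smul, mul_smul, inv_smul_smul, hw]
  let w0 : G ⧸ Y := ((1 : G) : G ⧸ Y)
  have hinj : Function.Injective (fun u : U B x => (u : G) • w0) := by
    intro u v huv
    by_contra hne
    have h1 : ((u : G)⁻¹ * v) ∈ U B x := (U B x).mul_mem ((U B x).inv_mem u.2) v.2
    refine hfree0 _ h1 ?_ w0 ?_
    · intro h
      rw [inv_mul_eq_one] at h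
      exact hne (Subtype.ext h)
    · rw [mul_smul, inv_smul_eq_iff]
      exact huv.symm
  have hbij := hinj.bijective_of_nat_card_le (by rw [card_U]; exact le_of_eq hmq)
  have htr : ∀ z : X, ∃ y ∈ Y, y • x = z := by
    intro z
    obtain ⟨c, hc⟩ := B.pre x z
    obtain ⟨u, hu⟩ := hbij.2 (c⁻¹ • w0)
    have h1 : (u : G)⁻¹ * c⁻¹ ∈ Y := by
      rw [← QuotientGroup.eq]
      simpa [w0] using hu
    refine ⟨((u : G)⁻¹ * c⁻¹)⁻¹, Y.inv_mem h1, ?_⟩
    rw [mul_inv_rev, inv_inv, inv_inv, mul_smul, u.2.1, hc]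
  refine ⟨hmq, ?_, ?_⟩
  · intro z w
    obtain ⟨y1, h1, e1⟩ := htr z
    obtain ⟨y2, h2, e2⟩ := htr w
    exact ⟨y2 * y1⁻¹, Y.mul_mem h2 (Y.inv_mem h1), by rw [mul_smul, ← e1, inv_smul_smul, e2]⟩
  · intro g hg y hgy
    by_contra h1
    refine hfree g y hgy h1 w0 ?_
    change ((g * 1 : G) : G ⧸ Y) = ((1 : G) : G ⧸ Y)
    rw [mul_one, QuotientGroup.eq, mul_one]
    exact Y.inv_mem hg

omit B [Finite X] in
lemma arith1 {q t d r c : ℕ} (hq : 13 ≤ q) (hqt : q = t * r) (ht3 : 3 ≤ t) (hodd : Odd q)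
    (hd : d + 1 ≤ t) (hc : 2 ≤ c)
    (h : (q + 1) * (t * d) + 2 * q * c = (q + 1) * t * c) : t = q ∧ (q - 1) ≤ 2 * d := by
  obtain ⟨e', he'⟩ := hodd
  have he : q + 1 = 2 * (e' + 1) := by omega
  set e := e' + 1 with hee
  have ht0 : 0 < t := by omega
  have h1 : e * d + r * c = e * c := by
    have h2 : (2 * t) * (e * d + r * c) = (2 * t) * (e * c) := by
      have h3 : (q + 1) * (t * d) + 2 * (t * r) * c = (q + 1) * t * c := by rw [← hqt]; exact h
      rw [he] at h3
      calc (2 * t) * (e * d + r * c) = 2 * e * (t * d) + 2 * (t * r) * c := by ring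
        _ = 2 * e * t * c := h3
        _ = (2 * t) * (e * c) := by ring
    exact Nat.eq_of_mul_eq_mul_left (by omega) h2
  have hcop : Nat.Coprime e r := by
    have h2 : Nat.Coprime (q + 1) q := by simp
    have h3 : Nat.Coprime (q + 1) r := h2.coprime_dvd_right (hqt ▸ Dvd.intro_left _ rfl)
    exact h3.coprime_dvd_left (he ▸ Dvd.intro_left _ rfl)
  have h2 : e ∣ c := by
    have h3 : e ∣ r * c := by
      have h4 : e ∣ e * d + r * c := h1 ▸ Dvd.intro _ rfl
      exact (Nat.dvd_add_right (Dvd.intro _ rfl)).1 h4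
    exact hcop.dvd_of_dvd_mul_left h3
  obtain ⟨c', hc'⟩ := h2
  have hc1 : 1 ≤ c' := by
    rcases Nat.eq_zero_or_pos c' with h3 | h3
    · rw [h3, mul_zero] at hc'
      omega
    · exact h3
  have h3 : d + r * c' = e * c' := by
    have h4 : e * (d + r * c') = e * (e * c') := by
      rw [hc'] at h1
      calc e * (d + r * c') = e * d + r * (e * c') := by ring
        _ = e * (e * c') := h1
    exact Nat.eq_of_mul_eq_mul_left (by omega) h4
  have h4 : e ≤ d + r := by
    obtain ⟨a, ha⟩ : ∃ a, c' = a + 1 := ⟨c' - 1, by omega⟩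
    rw [ha] at h3
    by_contra hcon
    push Not at hcon
    have h5 : r ≤ e := by omega
    have h6 : r * a ≤ e * a := Nat.mul_le_mul_right a h5
    nlinarith
  -- now `r = 1`
  have hr : r = 1 := by
    have hro : Odd r ∧ Odd t := by
      have : Odd (t * r) := by
        rw [← hqt]
        exact ⟨e', he'⟩
      exact ⟨(Nat.odd_mul.1 this).2, (Nat.odd_mul.1 this).1⟩
    obtain ⟨⟨r', hr'⟩, ⟨t', ht'⟩⟩ := hro
    by_contra hr1
    have h5 : t * r + 3 ≤ 2 * r + 2 * t := by
      rw [← hqt]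
      omega
    obtain ⟨a, ha⟩ : ∃ a, r' = a + 1 := ⟨r' - 1, by omega⟩
    obtain ⟨b, hb⟩ : ∃ b, t' = b + 1 := ⟨t' - 1, by omega⟩
    rw [hr', ht', ha, hb] at h5
    have h6 : 4 * (a * b) + 2 * a + 2 * b ≤ 0 := by nlinarith
    have h7 : a = 0 ∧ b = 0 := by omega
    rw [hqt, hr', ht', ha, hb, h7.1, h7.2] at hq
    omega
  subst hr
  constructor
  · omega
  · omega

omit B [Finite X] in
lemma arith2 {q c d F m : ℕ} (hq : 13 ≤ q) (hm : 1 ≤ m) (hF : 2 * F = (q + 3) * m)
    (hc : 1 ≤ c) (hd : 1 ≤ d)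
    (h : c * F = ((q + 1) * m) * (c - 1) ∨
      2 * c * d * F = ((q + 1) * m) * ((c - 1) * d + (d - 1) * c)) : False := by
  obtain ⟨a, ha⟩ : ∃ a, c = a + 1 := ⟨c - 1, by omega⟩
  obtain ⟨b, hb⟩ : ∃ b, d = b + 1 := ⟨d - 1, by omega⟩
  have ea : c - 1 = a := by omega
  have eb : d - 1 = b := by omega
  rw [ea, eb] at h
  rcases h with h | h
  · have h1 : m * (c * (q + 3)) = m * (2 * (q + 1) * a) := by
      calc m * (c * (q + 3)) = c * ((q + 3) * m) := by ring
        _ = 2 * (c * F) := by rw [← hF]; ring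
        _ = m * (2 * (q + 1) * a) := by rw [h]; ring
    have h2 := Nat.eq_of_mul_eq_mul_left (by omega) h1
    rw [ha] at h2
    obtain ⟨p, hp⟩ : ∃ p, q = p + 13 := ⟨q - 13, by omega⟩
    rw [hp] at h2
    rcases Nat.lt_or_ge a 2 with h3 | h3
    · interval_cases a <;> omega
    · obtain ⟨a', ha'⟩ : ∃ a', a = a' + 2 := ⟨a - 2, by omega⟩
      rw [ha'] at h2
      nlinarith
  · have h1 : m * (c * d * (q + 3)) = m * ((q + 1) * (a * d + b * c)) := by
      calc m * (c * d * (q + 3)) = c * d * ((q + 3) * m) := by ring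
        _ = 2 * c * d * F := by rw [← hF]; ring
        _ = m * ((q + 1) * (a * d + b * c)) := by rw [h]; ring
    have h2 := Nat.eq_of_mul_eq_mul_left (by omega) h1
    rw [ha, hb] at h2
    obtain ⟨p, hp⟩ : ∃ p, q = p + 13 := ⟨q - 13, by omega⟩
    rw [hp] at h2
    rcases a with _ | _ | a
    · nlinarith [Nat.zero_le (p * b)]
    · rcases b with _ | _ | b
      · nlinarith
      · nlinarith
      · nlinarith [Nat.zero_le (p * b)]
    · rcases b with _ | _ | b
      · nlinarith [Nat.zero_le (p * a)]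
      · nlinarith [Nat.zero_le (p * a)]
      · nlinarith [Nat.zero_le (p * a), Nat.zero_le (p * b), Nat.zero_le (p * (a * b)),
          Nat.zero_le (a * b)]

lemma card_trans (A : Subgroup G) (hA : ∀ x y : X, ∃ a ∈ A, a • x = y) (x : X) :
    Nat.card A = (q + 1) * Nat.card {g : G // g ∈ A ∧ g • x = x} := by
  have hAt : IsPretransitive A X := ⟨fun y z => by
    obtain ⟨a, ha, h⟩ := hA y z
    exact ⟨⟨a, ha⟩, h⟩⟩
  have h1 : Nat.card (stabilizer A x) * (stabilizer A x).index = Nat.card A :=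
    Subgroup.card_mul_index _
  rw [MulAction.index_stabilizer_of_transitive A x, B.cardX, mul_comm] at h1
  rw [← h1]
  congr 1
  exact Nat.card_congr ⟨fun a => ⟨a.1.1, a.1.2, a.2⟩, fun g => ⟨⟨g.1, g.2.1⟩, g.2.2⟩,
    fun a => rfl, fun g => rfl⟩

lemma card_G (x : X) : 2 * Nat.card G = (q * (q - 1)) * (q + 1) := by
  have : IsPretransitive G X := ⟨B.pre⟩
  have h2 : Nat.card (stabilizer G x) * (q + 1) = Nat.card G := by
    rw [← B.cardX, ← MulAction.index_stabilizer_of_transitive G x]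
    exact Subgroup.card_mul_index _
  rw [← h2, ← mul_assoc, B.cardH x]

lemma index_ge [IsSimpleGroup G] (hq : 13 ≤ q) (x : X)
    (hc : ∀ u v : G, Uni x u → Uni x v → u ≠ 1 → v ≠ 1 →
      ∃ (c : G) (k l : ℕ), c * u ^ k * c⁻¹ = v ∧ (u ^ k) ^ l = u)
    (Y : Subgroup G) (hY : Y ≠ ⊤) : q + 1 ≤ Y.index := by
  by_contra hcon
  push Not at hcon
  obtain ⟨hidx, htr, huni⟩ := index_small B (by omega) x hc Y hY hcon
  have ht : Nat.card {g : G // g ∈ Y ∧ Uni x g} = 1 := by
    rw [Nat.card_eq_one_iff_unique]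
    refine ⟨⟨fun a b => Subtype.ext ?_⟩, ⟨⟨1, Y.one_mem, uni_one x⟩⟩⟩
    rw [huni a a.2.1 x a.2.2, huni b b.2.1 x b.2.2]
  have h1 := free_count B Y htr x
  have h2 := card_trans B Y htr x
  have h3 := card_G B x
  have h4 : Nat.card Y * Y.index = Nat.card G := Y.card_mul_index
  set m := Nat.card {g : G // g ∈ Y ∧ g • x = x} with hm
  set F := Nat.card {g : G // g ∈ Y ∧ ∀ y : X, g • y ≠ y} with hF
  rw [ht] at h1
  have h5 : 2 * m = q - 1 := by
    rw [← h4, hidx, h2] at h3
    have h6 : (q * (q + 1)) * (2 * m) = (q * (q + 1)) * (q - 1) := by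
      calc (q * (q + 1)) * (2 * m) = 2 * ((q + 1) * m * q) := by ring
        _ = q * (q - 1) * (q + 1) := h3
        _ = (q * (q + 1)) * (q - 1) := by ring
    exact Nat.eq_of_mul_eq_mul_left (by positivity) h6
  have hm1 : 1 ≤ m := by omega
  have h6 : 2 * F = (q + 3) * m := by
    have : (q + 3) * m = (q + 1) * m + 2 * m := by ring
    omega
  obtain ⟨c, d, hc1, hd1, h7⟩ := two_orbits B Y (by
    rw [h2]
    have e1 : 4 * F = 2 * ((q + 3) * m) := by omega
    rw [← hF, e1]
    nlinarith)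
  rw [h2, ← hF] at h7
  exact arith2 hq hm1 h6 hc1 hd1 h7

/-- The case with unipotent elements. -/
lemma count {A : Subgroup G} (hA : ∀ x y : X, ∃ a ∈ A, a • x = y) (x : X) (hq : 13 ≤ q)
    (hodd : Odd q) (u0 : G) (hu0A : u0 ∈ A) (hu0 : Uni x u0) (hu01 : u0 ≠ 1) : A = ⊤ := by
  classical
  have : Fintype G := Fintype.ofFinite G
  let M : Finset G := Finset.univ.filter fun g => g ∈ A ∧ g • x = x
  let T : Finset G := Finset.univ.filter fun g => g ∈ A ∧ Uni x g
  have hMc : Nat.card {g : G // g ∈ A ∧ g • x = x} = M.card := by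
    rw [Nat.card_eq_fintype_card, Fintype.card_subtype]
  have hTc : Nat.card {g : G // g ∈ A ∧ Uni x g} = T.card := by
    rw [Nat.card_eq_fintype_card, Fintype.card_subtype]
  have h1T : (1 : G) ∈ T := by
    simp only [T, Finset.mem_filter, Finset.mem_univ, true_and]
    exact ⟨A.one_mem, uni_one x⟩
  have hu0T : u0 ∈ T := by
    simp only [T, Finset.mem_filter, Finset.mem_univ, true_and]
    exact ⟨hu0A, hu0⟩
  have hM : M.card ≤ T.card * (T.erase 1).card := by
    apply Finset.card_le_mul_card_image_of_maps_to (f := fun g : G => g * u0 * g⁻¹)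
      (t := T.erase 1)
    · intro g hg
      simp only [M, Finset.mem_filter, Finset.mem_univ, true_and] at hg
      rw [Finset.mem_erase]
      simp only [T, Finset.mem_filter, Finset.mem_univ, true_and]
      refine ⟨?_, A.mul_mem (A.mul_mem hg.1 hu0A) (A.inv_mem hg.1), uni_conj2 hg.2 hu0⟩
      intro h
      rw [mul_inv_eq_one] at h
      exact hu01 (mul_left_cancel (h.trans (mul_one g).symm))
    · intro b _
      rcases (M.filter fun g => g * u0 * g⁻¹ = b).eq_empty_or_nonempty with h | ⟨g0, hg0⟩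
      · rw [h, Finset.card_empty]
        exact Nat.zero_le _
      · simp only [M, Finset.mem_filter, Finset.mem_univ, true_and] at hg0
        obtain ⟨⟨k1, k2⟩, k3⟩ := hg0
        apply Finset.card_le_card_of_injOn (fun g => g0⁻¹ * g)
        · intro g hg
          simp only [M, Finset.coe_filter, Finset.mem_filter, Finset.mem_univ, true_and,
            Set.mem_ofPred_eq] at hg
          obtain ⟨⟨g1, g2⟩, g3⟩ := hg
          have e1 : (g0⁻¹ * g) • x = x := by
            rw [mul_smul, g2, inv_smul_eq_iff]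
            exact k2.symm
          have e2 : (g0⁻¹ * g) * u0 = u0 * (g0⁻¹ * g) := by
            have : g * u0 = g0 * u0 * g0⁻¹ * g := by
              rw [k3, ← g3]
              group
            rw [mul_assoc, this]
            group
          have e3 := B.cent (g0⁻¹ * g) u0 x e1 hu0 hu01 e2
          simp only [T, Finset.coe_filter, Finset.mem_univ, true_and, Set.mem_ofPred_eq]
          exact ⟨A.mul_mem (A.inv_mem k1) g1, e3⟩
        · intro g _ h _ hgh
          exact mul_left_cancel hgh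
  have hT1 : (T.erase 1).card + 1 = T.card := Finset.card_erase_add_one h1T
  have hT2 : 1 ≤ (T.erase 1).card :=
    Finset.card_pos.2 ⟨u0, Finset.mem_erase.2 ⟨hu01, hu0T⟩⟩
  have hTU : Nat.card (A ⊓ U B x : Subgroup G) = T.card := by
    rw [← hTc]
    rfl
  have hTM : Nat.card (A ⊓ stabilizer G x : Subgroup G) = M.card := by
    rw [← hMc]
    rfl
  have htq : T.card ∣ q := by
    have h2 := Subgroup.card_dvd_of_le (inf_le_right : A ⊓ U B x ≤ U B x)
    rwa [hTU, card_U] at h2
  have htm : T.card ∣ M.card := by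
    rw [← hTU, ← hTM]
    exact Subgroup.card_dvd_of_le (inf_le_inf_left A fun g hg => hg.1)
  obtain ⟨r, hr⟩ := htq
  obtain ⟨d, hd⟩ := htm
  have hto : Odd T.card := by
    rw [hr] at hodd
    exact (Nat.odd_mul.1 hodd).1
  obtain ⟨t', ht'⟩ := hto
  have ht3 : 3 ≤ T.card := by omega
  have hdt : d + 1 ≤ T.card := by
    rw [hd] at hM
    have h5 := Nat.le_of_mul_le_mul_left hM (by omega)
    omega
  have h1 := free_count B A hA x
  have h2 := card_trans B A hA x
  have h3 := card_G B x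
  rw [hMc] at h1 h2
  rw [hTc] at h1
  set F := Nat.card {g : G // g ∈ A ∧ ∀ y : X, g • y ≠ y} with hF
  have hTM' : T.card ≤ M.card := by
    apply Finset.card_le_card
    intro g hg
    simp only [T, M, Finset.mem_filter, Finset.mem_univ, true_and] at hg ⊢
    exact ⟨hg.1, hg.2.1⟩
  obtain ⟨c, hc2, h7⟩ := one_orbit B A (by
    rw [h2, ← hF]
    nlinarith) (by
    rw [← hF]
    nlinarith)
  rw [h2, ← hF] at h7
  obtain ⟨c', hc'⟩ : ∃ c', c = c' + 1 := ⟨c - 1, by omega⟩
  have e1 : c - 1 = c' := by omega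
  rw [e1] at h7
  have h8 : (q + 1) * (T.card * d) + 2 * q * c = (q + 1) * T.card * c := by
    rw [← hd]
    have h9 : c * (2 * F + (q + 1) * T.card) = c * ((q + 1) * M.card + 2 * q) := by rw [h1]
    have h10 : c * (2 * F) = (q + 1) * M.card * c' := by rw [← h7]; ring
    rw [mul_add, h10] at h9
    have h12 : c * ((q + 1) * M.card + 2 * q) =
        (q + 1) * M.card * c' + ((q + 1) * M.card + 2 * q * c) := by
      rw [hc']
      ring
    have h13 := Nat.add_left_cancel (h9.trans h12)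
    rw [← h13]
    ring
  obtain ⟨h9, h10⟩ := arith1 hq hr ht3 hodd hdt hc2 h8
  apply Subgroup.eq_top_of_card_eq
  apply le_antisymm (Subgroup.card_le_card_group A)
  have h11 : q * (q - 1) ≤ 2 * M.card := by
    rw [hd, h9]
    calc q * (q - 1) ≤ q * (2 * d) := Nat.mul_le_mul_left q h10
      _ = 2 * (q * d) := by ring
  have h12 : 2 * Nat.card G ≤ 2 * Nat.card A := by
    rw [h3, h2]
    exact (Nat.mul_le_mul_right (q + 1) h11).trans (le_of_eq (by ring))
  omega

theorem member [IsSimpleGroup G] (hq : 13 ≤ q) (hodd : Odd q) (x : X)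
    (hmin : minIndex G = q + 1) (A : Subgroup G) : ¬ InS A := by
  intro hA
  have : IsPretransitive G X := ⟨B.pre⟩
  have hH : (stabilizer G x).index = minIndex G := by
    rw [MulAction.index_stabilizer_of_transitive G x, B.cardX, hmin]
  have htr : ∀ z : X, ∃ a ∈ A, a • x = z := by
    intro z
    obtain ⟨g, hg⟩ := B.pre x z
    obtain ⟨a, ha, h, hh, e⟩ := exists_mul hA _ hH g
    refine ⟨a, ha, ?_⟩
    rw [← hg, ← e, mul_smul, mem_stabilizer_iff.1 hh]
  have htr2 : ∀ z w : X, ∃ y ∈ A, y • z = w := by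
    intro z w
    obtain ⟨y1, h1, e1⟩ := htr z
    obtain ⟨y2, h2, e2⟩ := htr w
    exact ⟨y2 * y1⁻¹, A.mul_mem h2 (A.inv_mem h1), by rw [mul_smul, ← e1, inv_smul_smul, e2]⟩
  by_cases huni : ∀ u ∈ A, Uni x u → u = 1
  · have h3 : ∃ z w : X, z ≠ x ∧ w ≠ x ∧ z ≠ w := by
      have : Fintype X := Fintype.ofFinite X
      classical
      have h1 : 1 < ((Finset.univ : Finset X).erase x).card := by
        rw [Finset.card_erase_of_mem (Finset.mem_univ _), Finset.card_univ,
          ← Nat.card_eq_fintype_card, B.cardX]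
        omega
      obtain ⟨z, hz, w, hw, hzw⟩ := Finset.one_lt_card.1 h1
      exact ⟨z, w, Finset.ne_of_mem_erase hz, Finset.ne_of_mem_erase hw, hzw⟩
    by_cases hM : ∀ g ∈ A, g • x = x → g = 1
    · have hbot : A ⊓ stabilizer G x = ⊥ := by
        rw [eq_bot_iff]
        rintro g ⟨h1, h2⟩
        exact hM g h1 h2
      have hcard : Nat.card A = q + 1 := by
        rw [← B.cardX]
        apply Nat.card_congr
        refine Equiv.ofBijective (fun y : A => (y : G) • x) ⟨?_, fun z => ?_⟩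
        · intro y z hyz
          have h1 := hM ((y : G)⁻¹ * z) (A.mul_mem (A.inv_mem y.2) z.2) (by
            rw [mul_smul, inv_smul_eq_iff]
            exact hyz.symm)
          rw [inv_mul_eq_one] at h1
          exact Subtype.ext h1
        · obtain ⟨a, ha, h⟩ := htr z
          exact ⟨⟨a, ha⟩, h⟩
      have h2A : 2 ∣ Nat.card A := by
        rw [hcard]
        exact even_iff_two_dvd.1 hodd.add_one
      have hf2 : Fact (Nat.Prime 2) := ⟨Nat.prime_two⟩
      obtain ⟨a, ha⟩ := exists_prime_orderOf_dvd_card' (G := A) 2 h2A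
      have h1 : Nat.card (Subgroup.zpowers (a : G)) = 2 := by
        rw [Nat.card_zpowers, Subgroup.orderOf_coe, ha]
      rcases primitive hA _ hH (Subgroup.zpowers (a : G)) (hbot ▸ bot_le)
        ((Subgroup.zpowers_le).2 a.2) with h | h
      · rw [h, hbot, Subgroup.card_bot] at h1
        omega
      · rw [h, hcard] at h1
        omega
    · push Not at hM
      obtain ⟨g, hg, hgx, hg1⟩ := hM
      obtain ⟨y, hgy, hyx⟩ : ∃ y : X, g • y = y ∧ y ≠ x := by
        by_contra hcon
        push Not at hcon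
        exact hg1 (huni g hg ⟨hgx, fun _ => hcon⟩)
      have key : ∀ h ∈ A, h • x = x → h • y = y := by
        intro h hh hhx
        have h1 : g * h * g⁻¹ * h⁻¹ = 1 := by
          apply huni _ _ (B.comm g h x hgx hhx)
          exact A.mul_mem (A.mul_mem (A.mul_mem hg hh) (A.inv_mem hg)) (A.inv_mem hh)
        rw [mul_inv_eq_one, mul_inv_eq_iff_eq_mul] at h1
        have h2 : g • (h • y) = h • y := by rw [← mul_smul, h1, mul_smul, hgy]
        by_contra hne
        refine hg1 (B.three g x y (h • y) hgx hgy h2 (Ne.symm hyx) ?_ (Ne.symm hne))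
        intro h3
        rw [← hhx] at h3
        have h4 := smul_left_cancel h h3
        exact hyx (by rw [← h4])
      obtain ⟨a, ha, hax⟩ := htr2 x y
      have h1 : (a⁻¹ * g * a) • y = y := by
        apply key _ (A.mul_mem (A.mul_mem (A.inv_mem ha) hg) ha)
        rw [mul_smul, mul_smul, hax, hgy, ← hax, inv_smul_smul]
      have h2 : g • (a • y) = a • y := by
        have := congrArg (fun z => a • z) h1
        simp only [mul_smul, smul_inv_smul] at this
        exact this
      have h3' : a • y ≠ y := by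
        intro h
        rw [← hax] at h
        have h4 := smul_left_cancel a h
        exact hyx (by rw [← hax]; exact h4)
      have h4 : a • y = x := by
        by_contra hne
        exact hg1 (B.three g x y (a • y) hgx hgy h2 (Ne.symm hyx) (Ne.symm hne) (Ne.symm h3'))
      have hK : ∀ b : G, b ∈ stabilizer G ({x, y} : Set X) ↔ (b • x = x ∧ b • y = y) ∨
          (b • x = y ∧ b • y = x) := by
        intro b
        rw [mem_stabilizer_iff]
        have e : b • ({x, y} : Set X) = {b • x, b • y} := by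
          rw [← Set.image_smul, Set.image_pair]
        rw [e, Set.pair_eq_pair_iff]
      rcases primitive hA _ hH (A ⊓ stabilizer G ({x, y} : Set X)) (by
        rintro h ⟨hh, hhx⟩
        exact ⟨hh, (hK h).2 (Or.inl ⟨hhx, key h hh hhx⟩)⟩) inf_le_left with h | h
      · have h5 : a ∈ A ⊓ stabilizer G ({x, y} : Set X) := ⟨ha, (hK a).2 (Or.inr ⟨hax, h4⟩)⟩
        rw [h] at h5
        have h6 : a • x = x := h5.2
        rw [hax] at h6
        exact hyx h6
      · obtain ⟨z, w, hz, hw, hzw⟩ := h3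
        have h5 : ∀ z : X, z = x ∨ z = y := by
          intro z
          obtain ⟨b, hb, hbz⟩ := htr z
          have h6 : b ∈ A ⊓ stabilizer G ({x, y} : Set X) := by rw [h]; exact hb
          rcases (hK b).1 h6.2 with h7 | h7
          · left
            rw [← hbz, h7.1]
          · right
            rw [← hbz, h7.1]
        have e1 := (h5 z).resolve_left hz
        have e2 := (h5 w).resolve_left hw
        exact hzw (e1.trans e2.symm)
  · push Not at huni
    obtain ⟨u, hu, hux, hu1⟩ := huni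
    exact hA.2.1 (count B htr2 x hq hodd u hu hux hu1)

end t3

end T3

section fin

variable {F : Type*} [Field F] [Finite F]

lemma finite_psl : Finite PSL(2, F) := by
  unfold Matrix.ProjectiveSpecialLinearGroup
  infer_instance

/-- `PSL_2(q)` has a subgroup of index `q + 1`. -/
lemma exists_index : ∃ H : Subgroup PSL(2, F), H.index = Nat.card F + 1 := by
  obtain ⟨x⟩ : Nonempty (ℙ F (Fin 2 → F)) := inferInstance
  refine ⟨stabilizer PSL(2, F) x, ?_⟩
  rw [MulAction.index_stabilizer_of_transitive,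
    Projectivization.card_of_finrank_two F (Fin 2 → F) (by simp)]

lemma two_ne (hF : Nat.card F % 2 = 1) : (2 : F) ≠ 0 := by
  intro h
  have h1 : ringChar F = 2 := by
    have h2 : ringChar F ∣ 2 := (ringChar.spec F 2).1 (by exact_mod_cast h)
    rcases (Nat.dvd_prime Nat.prime_two).1 h2 with h3 | h3
    · exact absurd h3 (CharP.ringChar_ne_one)
    · exact h3
  have : Fintype F := Fintype.ofFinite F
  have h3 := FiniteField.even_card_of_char_two h1
  rw [← Nat.card_eq_fintype_card] at h3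
  omega

lemma min_of (hF : 13 ≤ Nat.card F)
    (h : ∀ Y : Subgroup PSL(2, F), Y ≠ ⊤ → Nat.card F + 1 ≤ Y.index) :
    minIndex PSL(2, F) = Nat.card F + 1 := by
  have hfin : Finite PSL(2, F) := finite_psl
  have hs : IsSimpleGroup PSL(2, F) :=
    Matrix.ProjectiveSpecialLinearGroup.rank_two_simple (by omega)
  obtain ⟨H, hH⟩ := exists_index (F := F)
  apply le_antisymm
  · refine Nat.sInf_le ⟨H, ?_, hH⟩
    rintro rfl
    rw [Subgroup.index_top] at hH
    omega
  · obtain ⟨Y, hY, hYi⟩ := exists_minIndex (X := PSL(2, F))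
    rw [← hYi]
    exact h Y hY

/-- The case `q = 1` modulo `4`. -/
theorem case1 (hF : 13 ≤ Nat.card F) (h4 : Nat.card F % 4 = 1) :
    minIndex PSL(2, F) = Nat.card F + 1 ∧ ∀ A : Subgroup PSL(2, F), ¬ InS A := by
  have hfin : Finite PSL(2, F) := finite_psl
  have hs : IsSimpleGroup PSL(2, F) :=
    Matrix.ProjectiveSpecialLinearGroup.rank_two_simple (by omega)
  have h2 : (2 : F) ≠ 0 := two_ne (by omega)
  have hi : IsSquare (-1 : F) := by
    have : Fintype F := Fintype.ofFinite F
    rw [FiniteField.isSquare_neg_one_iff, ← Nat.card_eq_fintype_card]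
    omega
  have hb := obend h2 hi (by omega)
  have hmin : minIndex PSL(2, F) = Nat.card F + 1 := by
    apply min_of hF
    intro Y hY
    exact index_ge' hb hF h4 (fun Y x v hv hvY => ring_part h2 Y x v hv hvY) (inf F) Y hY
  exact ⟨hmin, member hb (by omega) (Nat.odd_iff.2 (by omega)) (by omega) (inf F) hmin⟩

/-- The case `q = 3` modulo `4`. -/
theorem case3 (hF : 13 ≤ Nat.card F) (h4 : Nat.card F % 4 = 3) :
    minIndex PSL(2, F) = Nat.card F + 1 ∧ ∀ A : Subgroup PSL(2, F), ¬ InS A := by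
  have hfin : Finite PSL(2, F) := finite_psl
  have hs : IsSimpleGroup PSL(2, F) :=
    Matrix.ProjectiveSpecialLinearGroup.rank_two_simple (by omega)
  have h2 : (2 : F) ≠ 0 := two_ne (by omega)
  have hi : ¬ IsSquare (-1 : F) := by
    have : Fintype F := Fintype.ofFinite F
    rw [FiniteField.isSquare_neg_one_iff, ← Nat.card_eq_fintype_card]
    omega
  have hsq : ¬ IsSquare (Nat.card F) := by
    rintro ⟨r, hr⟩
    rw [hr, Nat.mul_mod] at h4
    have : r % 4 < 4 := Nat.mod_lt _ (by norm_num)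
    interval_cases (r % 4) <;> omega
  have hb := tbend h2 hi
  have hmin : minIndex PSL(2, F) = Nat.card F + 1 := by
    apply min_of hF
    intro Y hY
    exact T3.index_ge hb hF (inf F)
      (fun u v => pow_conj h2 (exists_nonsq F h2 hsq) (inf F) u v) Y hY
  exact ⟨hmin, T3.member hb hF (Nat.odd_iff.2 (by omega)) (inf F) hmin⟩

end fin

end Pool.Agent.MP_4ddb19_al.Odd
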